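import Pool.Agent.MP_c1dca2_ag.SUP.Base

/-!
# [SUP] definitions: the filtration by the order of the pole at infinity, class groups, reduction
-/

set_option autoImplicit false
set_option linter.unusedSectionVars false

open Polynomial IsLocalRing

namespace SUP

/-- The hypotheses on the exponents and the branch points. -/
structure Good {κ : Type} [Field κ] {ι : Type} [Fintype ι] {ℓ : ℕ} (e : ι → ZMod ℓ)
    (α : ι → κ) : Prop where
  ne : ∀ a, e a ≠ 0
  sum : ∑ a, e a ≠ 0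
  inj : Function.Injective α
  ch : (ℓ : κ) ≠ 0

section filtration

variable {ι : Type} [Fintype ι] {ℓ : ℕ} [hℓ : Fact ℓ.Prime] {R : Type} [CommRing R]

/-- The elements with a pole of order at most `m` at infinity: only monomials `X^i v_j` with
`ℓ i + wt j ≤ m`. -/
def Ble (e : ι → ZMod ℓ) (α : ι → R) (m : ℕ) : Submodule R (BB e α) where
  carrier := {b | ∀ (j : ZMod ℓ) (i : ℕ), m < ℓ * i + wt e j → (b.co j).coeff i = 0}
  zero_mem' := fun j i _ => by simp
  add_mem' := fun {b c} hb hc j i h => by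
    rw [BB.co_add, Pi.add_apply, coeff_add, hb j i h, hc j i h, add_zero]
  smul_mem' := fun r b hb j i h => by
    rw [BB.co_smul', coeff_smul, hb j i h, smul_zero]

theorem mem_Ble {e : ι → ZMod ℓ} {α : ι → R} {m : ℕ} {b : BB e α} :
    b ∈ Ble e α m ↔ ∀ (j : ZMod ℓ) (i : ℕ), m < ℓ * i + wt e j → (b.co j).coeff i = 0 := Iff.rfl

/-- The coefficient of the monomial `X^i v_j` with `ℓ i + wt j = m`. -/
noncomputable def lcf (e : ι → ZMod ℓ) (α : ι → R) (m : ℕ) : BB e α →ₗ[R] R where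
  toFun b := ∑ j, if wt e j ≤ m ∧ (m - wt e j) % ℓ = 0 then
    (b.co j).coeff ((m - wt e j) / ℓ) else 0
  map_add' b c := by
    rw [← Finset.sum_add_distrib]
    refine Finset.sum_congr rfl fun j _ => ?_
    split_ifs
    · rw [BB.co_add, Pi.add_apply, coeff_add]
    · rw [add_zero]
  map_smul' r b := by
    rw [RingHom.id_apply, Finset.smul_sum]
    refine Finset.sum_congr rfl fun j _ => ?_
    split_ifs
    · rw [BB.co_smul', coeff_smul]
    · rw [smul_zero]

theorem lcf_apply (e : ι → ZMod ℓ) (α : ι → R) (m : ℕ) (b : BB e α) :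
    lcf e α m b = ∑ j, if wt e j ≤ m ∧ (m - wt e j) % ℓ = 0 then
      (b.co j).coeff ((m - wt e j) / ℓ) else 0 := rfl

/-- The order of the pole at infinity. -/
noncomputable def pord {e : ι → ZMod ℓ} {α : ι → R} (b : BB e α) : ℕ := sInf {m | b ∈ Ble e α m}

/-- The leading coefficient. -/
noncomputable def lc {e : ι → ZMod ℓ} {α : ι → R} (b : BB e α) : R := lcf e α (pord b) b

/-- The number of gaps (the genus). -/
def gp (e : ι → ZMod ℓ) : ℕ := ∑ j, wt e j / ℓ

/-- The prime above `X - α a`. -/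
noncomputable def PI (e : ι → ZMod ℓ) (α : ι → R) (a : ι) : Ideal (BB e α) :=
  Ideal.span (insert (algebraMap R[X] (BB e α) (X - C (α a))) (BB.v e α '' {j | j ≠ 0}))

/-- The automorphism `v_j ↦ ζ^(i j) v_j`. -/
noncomputable def sgp {e : ι → ZMod ℓ} {α : ι → R} (ζ : R) (hζ : ζ ^ ℓ = 1) (i : ℕ) :
    BB e α ≃+* BB e α :=
  sg (ζ ^ i) (by rw [← pow_mul, mul_comm, pow_mul, hζ, one_pow])

/-- The norm of an element. -/
noncomputable def Nm {e : ι → ZMod ℓ} {α : ι → R} (ζ : R) (hζ : ζ ^ ℓ = 1) (b : BB e α) :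
    BB e α := ∏ i ∈ Finset.range ℓ, sgp ζ hζ i b

/-- The norm of an ideal, as an ideal of `B`. -/
noncomputable def NI {e : ι → ZMod ℓ} {α : ι → R} (ζ : R) (hζ : ζ ^ ℓ = 1) (I : Ideal (BB e α)) :
    Ideal (BB e α) := ∏ i ∈ Finset.range ℓ, I.map (sgp (e := e) (α := α) ζ hζ i)

end filtration

section dedekind

variable {B : Type} [CommRing B] [IsDedekindDomain B]

open scoped nonZeroDivisors

open scoped Classical in
/-- The class of a nonzero ideal. -/
noncomputable def cls (I : Ideal B) : ClassGroup B :=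
  if h : I = ⊥ then 1 else ClassGroup.mk0 ⟨I, mem_nonZeroDivisors_iff_ne_zero.2 h⟩

theorem cls_of_ne {I : Ideal B} (h : I ≠ ⊥) :
    cls I = ClassGroup.mk0 ⟨I, mem_nonZeroDivisors_iff_ne_zero.2 h⟩ := dif_neg h

/-- The number of prime factors (with multiplicity). -/
noncomputable def len (I : Ideal B) : ℕ :=
  open Classical in Multiset.card (UniqueFactorizationMonoid.normalizedFactors I)

variable {B' : Type} [CommRing B'] [IsDedekindDomain B']

theorem cls_mul {I J : Ideal B} (hI : I ≠ ⊥) (hJ : J ≠ ⊥) : cls (I * J) = cls I * cls J := by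
  have hIJ : I * J ≠ ⊥ := mul_ne_zero hI hJ
  rw [cls_of_ne hI, cls_of_ne hJ, cls_of_ne hIJ, ← map_mul]
  rfl

theorem cls_eq_iff {I J : Ideal B} (hI : I ≠ ⊥) (hJ : J ≠ ⊥) : cls I = cls J ↔
    ∃ x y : B, x ≠ 0 ∧ y ≠ 0 ∧ Ideal.span {x} * I = Ideal.span {y} * J := by
  rw [cls_of_ne hI, cls_of_ne hJ, ClassGroup.mk0_eq_mk0_iff]
  constructor
  · rintro ⟨x, y, hx, hy, h⟩
    exact ⟨x, y, hx, hy, h⟩
  · rintro ⟨x, y, hx, hy, h⟩
    exact ⟨x, y, hx, hy, h⟩

theorem cls_span {x : B} (hx : x ≠ 0) : cls (Ideal.span {x}) = 1 := by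
  have h : (Ideal.span {x} : Ideal B) ≠ ⊥ := by
    rwa [Ne, Ideal.span_singleton_eq_bot]
  rw [cls_of_ne h, ClassGroup.mk0_eq_one_iff]
  exact ⟨⟨x, rfl⟩⟩

theorem cls_eq_one_iff {I : Ideal B} (hI : I ≠ ⊥) : cls I = 1 ↔ ∃ x, I = Ideal.span {x} := by
  rw [cls_of_ne hI, ClassGroup.mk0_eq_one_iff]
  constructor
  · rintro ⟨⟨x, hx⟩⟩
    exact ⟨x, hx⟩
  · rintro ⟨x, hx⟩
    exact ⟨⟨x, hx⟩⟩

theorem exists_cls (D : ClassGroup B) : ∃ I : Ideal B, I ≠ ⊥ ∧ cls I = D := by
  obtain ⟨⟨I, hI⟩, h⟩ := ClassGroup.mk0_surjective D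
  have h0 : I ≠ ⊥ := mem_nonZeroDivisors_iff_ne_zero.1 hI
  exact ⟨I, h0, by rw [cls_of_ne h0, ← h]⟩

theorem map_ne_bot (ψ : B ≃+* B') {I : Ideal B} (hI : I ≠ ⊥) : I.map ψ ≠ ⊥ := by
  intro h
  apply hI
  rw [Ideal.map_eq_bot_iff_of_injective ψ.injective] at h
  exact h

theorem map_span_singleton (ψ : B ≃+* B') (x : B) :
    (Ideal.span {x}).map ψ = Ideal.span {ψ x} := by
  rw [Ideal.map_span, Set.image_singleton]

/-- The map of class groups induced by an isomorphism. -/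
noncomputable def clm (ψ : B ≃+* B') : ClassGroup B →* ClassGroup B' where
  toFun D := cls ((exists_cls D).choose.map ψ)
  map_one' := by
    have h := (exists_cls (1 : ClassGroup B)).choose_spec
    obtain ⟨x, hx⟩ := (cls_eq_one_iff h.1).1 h.2
    rw [cls_eq_one_iff (map_ne_bot ψ h.1)]
    exact ⟨ψ x, by rw [hx, map_span_singleton]⟩
  map_mul' D D' := by
    have h := (exists_cls D).choose_spec
    have h' := (exists_cls D').choose_spec
    have h'' := (exists_cls (D * D')).choose_spec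
    rw [← cls_mul (map_ne_bot ψ h.1) (map_ne_bot ψ h'.1), ← Ideal.map_mul,
      cls_eq_iff (map_ne_bot ψ h''.1) (map_ne_bot ψ (mul_ne_zero h.1 h'.1))]
    have h2 : cls (exists_cls (D * D')).choose =
        cls ((exists_cls D).choose * (exists_cls D').choose) := by
      rw [h''.2, cls_mul h.1 h'.1, h.2, h'.2]
    obtain ⟨x, y, hx, hy, hxy⟩ := (cls_eq_iff h''.1 (mul_ne_zero h.1 h'.1)).1 h2
    refine ⟨ψ x, ψ y, (map_ne_zero_iff ψ ψ.injective).2 hx, (map_ne_zero_iff ψ ψ.injective).2 hy,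
      ?_⟩
    rw [← map_span_singleton, ← map_span_singleton, ← Ideal.map_mul, ← Ideal.map_mul, hxy]

theorem clm_cls (ψ : B ≃+* B') {I : Ideal B} (hI : I ≠ ⊥) : clm ψ (cls I) = cls (I.map ψ) := by
  have h := (exists_cls (cls I)).choose_spec
  change cls ((exists_cls (cls I)).choose.map ψ) = _
  obtain ⟨x, y, hx, hy, hxy⟩ := (cls_eq_iff h.1 hI).1 h.2
  rw [cls_eq_iff (map_ne_bot ψ h.1) (map_ne_bot ψ hI)]
  refine ⟨ψ x, ψ y, (map_ne_zero_iff ψ ψ.injective).2 hx, (map_ne_zero_iff ψ ψ.injective).2 hy, ?_⟩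
  rw [← map_span_singleton, ← map_span_singleton, ← Ideal.map_mul, ← Ideal.map_mul, hxy]

theorem map_map_equiv {B'' : Type} [CommRing B''] (ψ : B ≃+* B')
    (ψ' : B' ≃+* B'') (ψ'' : B ≃+* B'') (h : ∀ b, ψ'' b = ψ' (ψ b)) (I : Ideal B) :
    (I.map ψ).map ψ' = I.map ψ'' := by
  have h2 : (ψ'' : B →+* B'') = (ψ' : B' →+* B'').comp (ψ : B →+* B') := by
    ext b
    exact h b
  change (I.map (ψ : B →+* B')).map (ψ' : B' →+* B'') = I.map (ψ'' : B →+* B'')
  rw [Ideal.map_map, h2]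

theorem clm_clm {B'' : Type} [CommRing B''] [IsDedekindDomain B''] (ψ : B ≃+* B')
    (ψ' : B' ≃+* B'') (ψ'' : B ≃+* B'') (h : ∀ b, ψ'' b = ψ' (ψ b)) (D : ClassGroup B) :
    clm ψ' (clm ψ D) = clm ψ'' D := by
  obtain ⟨I, hI, rfl⟩ := exists_cls D
  rw [clm_cls ψ hI, clm_cls ψ' (map_ne_bot ψ hI), clm_cls ψ'' hI]
  congr 1
  exact map_map_equiv ψ ψ' ψ'' h I

theorem clm_id (ψ : B ≃+* B) (h : ∀ b, ψ b = b) (D : ClassGroup B) : clm ψ D = D := by
  obtain ⟨I, hI, rfl⟩ := exists_cls D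
  rw [clm_cls ψ hI]
  congr 1
  have : (ψ : B →+* B) = RingHom.id B := by
    ext b; exact h b
  change I.map (ψ : B →+* B) = I
  rw [this, Ideal.map_id]

/-- The map `D ↦ D / σ D`. -/
noncomputable def piH (σ : B ≃+* B) : ClassGroup B →* ClassGroup B where
  toFun D := D / clm σ D
  map_one' := by rw [map_one, div_one]
  map_mul' D D' := by rw [map_mul, mul_div_mul_comm]

theorem piH_apply (σ : B ≃+* B) (D : ClassGroup B) : piH σ D = D / clm σ D := rfl

/-- The classes killed by a power of `1 - σ`. -/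
noncomputable def AA (σ : B ≃+* B) : Subgroup (ClassGroup B) where
  carrier := {D | ∃ n : ℕ, (piH σ)^[n] D = 1}
  one_mem' := ⟨0, rfl⟩
  mul_mem' := by
    rintro a b ⟨m, hm⟩ ⟨n, hn⟩
    refine ⟨m + n, ?_⟩
    rw [iterate_map_mul, Function.iterate_add_apply, Function.iterate_add_apply _ m n b, hn,
      iterate_map_one, mul_one, ← Function.iterate_add_apply, add_comm, Function.iterate_add_apply,
      hm, iterate_map_one]
  inv_mem' := by
    rintro a ⟨m, hm⟩
    exact ⟨m, by rw [iterate_map_inv, hm, inv_one]⟩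

theorem mem_AA {σ : B ≃+* B} {D : ClassGroup B} :
    D ∈ AA σ ↔ ∃ n : ℕ, (piH σ)^[n] D = 1 := Iff.rfl

end dedekind

section valuation

/-- `Ψ` stabilises the valuation ring `V`. -/
def Stab {F : Type} [Field F] (V : ValuationSubring F) (Ψ : F ≃+* F) : Prop :=
  ∀ z, Ψ z ∈ V ↔ z ∈ V

variable {F : Type} [Field F] {V : ValuationSubring F}

/-- The automorphism of `V`. -/
def stV {Ψ : F ≃+* F} (h : Stab V Ψ) : V ≃+* V where
  toFun z := ⟨Ψ z, (h z).2 z.2⟩
  invFun z := ⟨Ψ.symm z, (h _).1 (by rw [RingEquiv.apply_symm_apply]; exact z.2)⟩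
  left_inv z := Subtype.ext (by simp)
  right_inv z := Subtype.ext (by simp)
  map_mul' x y := Subtype.ext (by simp)
  map_add' x y := Subtype.ext (by simp)

theorem stV_coe {Ψ : F ≃+* F} (h : Stab V Ψ) (z : V) : (stV h z : F) = Ψ z := rfl

/-- The automorphism of the residue field. -/
noncomputable def stR {Ψ : F ≃+* F} (h : Stab V Ψ) : ResidueField V ≃+* ResidueField V :=
  ResidueField.mapEquiv (stV h)

theorem stR_residue {Ψ : F ≃+* F} (h : Stab V Ψ) (z : V) :
    stR h (residue V z) = residue V (stV h z) := rfl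

variable {ι : Type} [Fintype ι] {ℓ : ℕ} [hℓ : Fact ℓ.Prime] (e : ι → ZMod ℓ) (α : ι → V)

/-- The inclusion `B_V → B_F`. -/
noncomputable def inc : BB e α →+* BB e (fun a => (α a : F)) := bmap V.subtype (fun _ => rfl)

/-- The reduction. -/
noncomputable def rd : BB e α →+* BB e (fun a => residue V (α a)) :=
  bmap (residue V) (fun _ => rfl)

variable {e α}

/-- The reduction of an ideal. -/
noncomputable def rI (J : Ideal (BB e (fun a => (α a : F)))) :
    Ideal (BB e (fun a => residue V (α a))) := (J.comap (inc e α)).map (rd e α)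

theorem inc_co (b : BB e α) (j : ZMod ℓ) : (inc e α b).co j = (b.co j).map V.subtype := rfl

theorem rd_co (b : BB e α) (j : ZMod ℓ) : (rd e α b).co j = (b.co j).map (residue V) := rfl

theorem inc_inj : Function.Injective (inc e α) := bmap_inj _ _ V.subtype_injective

theorem rd_surj : Function.Surjective (rd e α) := bmap_surj _ _ residue_surjective

theorem mem_rI {J : Ideal (BB e (fun a => (α a : F)))} {z : BB e (fun a => residue V (α a))} :
    z ∈ rI J ↔ ∃ b, inc e α b ∈ J ∧ rd e α b = z := by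
  rw [rI, Ideal.mem_map_iff_of_surjective _ rd_surj]
  rfl

end valuation

end SUP
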