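import Pool.Agent.MP_c1dca2_ag.SUP.Defs

set_option autoImplicit false
set_option linter.unusedSectionVars false

namespace SUP

/-! ## [SUP-L1] the number of prime factors of an ideal (file L1.lean)

`B` is any Dedekind domain; `len I` is the number of prime factors of `I` with multiplicity
(`UniqueFactorizationMonoid.normalizedFactors`). Note `(1 : Ideal B) = ⊤` (`Ideal.one_eq_top`),
`Ideal.dvd_iff_le`, `Ideal.isPrime_of_prime`, `Ideal.prime_of_isPrime`, and a nonzero prime ideal is
maximal (`Ideal.IsPrime.isMaximal`). -/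

variable {B : Type} [CommRing B] [IsDedekindDomain B]

theorem len_mul {I J : Ideal B} (hI : I ≠ ⊥) (hJ : J ≠ ⊥) : len (I * J) = len I + len J := by
  classical
  unfold len
  rw [UniqueFactorizationMonoid.normalizedFactors_mul hI hJ, Multiset.card_add]

theorem len_top : len (⊤ : Ideal B) = 0 := by
  classical
  unfold len
  rw [← Ideal.one_eq_top, UniqueFactorizationMonoid.normalizedFactors_one, Multiset.card_zero]

theorem len_pow {I : Ideal B} (hI : I ≠ ⊥) (n : ℕ) : len (I ^ n) = n * len I := by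
  classical
  unfold len
  rw [UniqueFactorizationMonoid.normalizedFactors_pow, Multiset.card_nsmul]

theorem eq_top_of_len {I : Ideal B} (hI : I ≠ ⊥) (h : len I = 0) : I = ⊤ := by
  classical
  unfold len at h
  rw [Multiset.card_eq_zero] at h
  have h1 := UniqueFactorizationMonoid.prod_normalizedFactors_eq (a := I) hI
  rw [h, Multiset.prod_zero] at h1
  rw [← Ideal.one_eq_top, h1]
  simp

theorem len_maximal {Q : Ideal B} (hQ : Q.IsMaximal) (h0 : Q ≠ ⊥) : len Q = 1 := by
  classical
  unfold len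
  have h1 : Prime Q := Ideal.prime_of_isPrime h0 hQ.isPrime
  rw [UniqueFactorizationMonoid.normalizedFactors_irreducible h1.irreducible,
    Multiset.card_singleton]

theorem len_mono {I J : Ideal B} (hI : I ≠ ⊥) (h : I ≤ J) : len J ≤ len I := by
  obtain ⟨K, hK⟩ := Ideal.dvd_iff_le.2 h
  have hJ : J ≠ ⊥ := by
    rintro rfl
    apply hI
    exact le_bot_iff.1 h
  have hK0 : K ≠ ⊥ := by
    rintro rfl
    apply hI
    rw [hK]
    exact mul_zero J
  rw [hK, len_mul hJ hK0]
  exact Nat.le_add_right _ _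

theorem eq_of_len_eq {I J : Ideal B} (hI : I ≠ ⊥) (h : I ≤ J) (hlen : len I = len J) :
    I = J := by
  obtain ⟨K, hK⟩ := Ideal.dvd_iff_le.2 h
  have hJ : J ≠ ⊥ := by
    rintro rfl
    apply hI
    exact le_bot_iff.1 h
  have hK0 : K ≠ ⊥ := by
    rintro rfl
    apply hI
    rw [hK]
    exact mul_zero J
  rw [hK, len_mul hJ hK0] at hlen
  have h1 : K = ⊤ := eq_top_of_len hK0 (by omega)
  rw [hK, h1, ← Ideal.one_eq_top, mul_one]

/-- Induction over the prime factorisation (`UniqueFactorizationMonoid.induction_on_prime`). -/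
theorem ideal_ind {P : Ideal B → Prop} (h1 : P ⊤)
    (h2 : ∀ Q J : Ideal B, Q.IsMaximal → Q ≠ ⊥ → J ≠ ⊥ → P J → P (Q * J)) (I : Ideal B)
    (hI : I ≠ ⊥) : P I := by
  have key : I ≠ ⊥ → P I := by
    refine UniqueFactorizationMonoid.induction_on_prime (P := fun I => I ≠ ⊥ → P I) I ?_ ?_ ?_
    · intro h
      exact absurd rfl h
    · intro x hx _
      rw [Ideal.isUnit_iff] at hx
      rw [hx]
      exact h1
    · intro a p ha hp ih _
      have hpp : p.IsPrime := Ideal.isPrime_of_prime hp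
      have hp0 : p ≠ ⊥ := hp.ne_zero
      exact h2 p a (hpp.isMaximal hp0) hp0 ha (ih ha)
  exact key hI

/-- An isomorphism maps primes to primes: by `ideal_ind`. -/
theorem len_map {B' : Type} [CommRing B'] [IsDedekindDomain B'] (ψ : B ≃+* B') (I : Ideal B) :
    len (I.map ψ) = len I := by
  classical
  by_cases hI : I = ⊥
  · subst hI
    rw [Ideal.map_bot]
    unfold len
    change Multiset.card (UniqueFactorizationMonoid.normalizedFactors (0 : Ideal B')) =
      Multiset.card (UniqueFactorizationMonoid.normalizedFactors (0 : Ideal B))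
    rw [UniqueFactorizationMonoid.normalizedFactors_zero,
      UniqueFactorizationMonoid.normalizedFactors_zero]
    rfl
  · refine ideal_ind (P := fun I => len (I.map ψ) = len I) ?_ ?_ I hI
    · rw [Ideal.map_top, len_top, len_top]
    · intro Q J hQ hQ0 hJ0 ih
      have hm : (Q.map ψ).IsMaximal := by
        have := hQ
        exact Ideal.map_isMaximal_of_equiv ψ
      rw [Ideal.map_mul, len_mul (map_ne_bot ψ hQ0) (map_ne_bot ψ hJ0), len_mul hQ0 hJ0, ih,
        len_maximal hQ hQ0, len_maximal hm (map_ne_bot ψ hQ0)]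

/-- `normalizedFactors (I ^ n) = n • normalizedFactors I`. -/
theorem eq_of_pow_eq {I J : Ideal B} (hI : I ≠ ⊥) (hJ : J ≠ ⊥) {n : ℕ} (hn : 0 < n)
    (h : I ^ n = J ^ n) : I = J := by
  classical
  have h1 : UniqueFactorizationMonoid.normalizedFactors I =
      UniqueFactorizationMonoid.normalizedFactors J := by
    have h2 := congrArg UniqueFactorizationMonoid.normalizedFactors h
    rw [UniqueFactorizationMonoid.normalizedFactors_pow,
      UniqueFactorizationMonoid.normalizedFactors_pow] at h2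
    exact (nsmul_right_injective hn.ne') h2
  have h3 := UniqueFactorizationMonoid.prod_normalizedFactors_eq (a := I) hI
  have h4 := UniqueFactorizationMonoid.prod_normalizedFactors_eq (a := J) hJ
  rw [h1, h4] at h3
  simpa using h3.symm

/-- Different maximal ideals dividing `J`: their product divides `J`. -/
theorem prod_le {T : Type} (s : Finset T) (Q : T → Ideal B) (hQ : ∀ t ∈ s, (Q t).IsMaximal)
    (h0 : ∀ t ∈ s, Q t ≠ ⊥) (hne : ∀ t ∈ s, ∀ t' ∈ s, t ≠ t' → Q t ≠ Q t') (J : Ideal B)
    (hJ : ∀ t ∈ s, J ≤ Q t) : J ≤ ∏ t ∈ s, Q t := by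
  rw [← Ideal.dvd_iff_le]
  refine Finset.prod_dvd_of_coprime ?_ (fun t ht => Ideal.dvd_iff_le.2 (hJ t ht))
  intro t ht t' ht' htt
  rw [Function.onFun]
  exact Ideal.isCoprime_iff_sup_eq.2 ((hQ t ht).coprime_of_ne (hQ t' ht') (hne t ht t' ht' htt))

/-- A maximal ideal which contains a product contains a factor. -/
theorem exists_le_of_prod_le {T : Type} (s : Finset T) (I : T → Ideal B) (Q : Ideal B)
    (hQ : Q.IsPrime) (h : ∏ t ∈ s, I t ≤ Q) : ∃ t ∈ s, I t ≤ Q :=
  (Ideal.IsPrime.prod_le hQ).1 h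

/-- A nonzero ideal has only finitely many divisors. -/
theorem finite_ge {J : Ideal B} (hJ : J ≠ ⊥) : {I : Ideal B | J ≤ I}.Finite := by
  have h1 : {I : Ideal B | J ≤ I} = {I : Ideal B | I ∣ J} := by
    ext I
    exact Ideal.dvd_iff_le.symm
  rw [h1]
  have h2 : Fintype {x : Ideal B // x ∣ J} :=
    UniqueFactorizationMonoid.fintypeSubtypeDvd J hJ
  have h3 : Finite {x : Ideal B // x ∣ J} := Finite.of_fintype _
  exact Set.finite_coe_iff.1 h3

/-- `Q J ≤ I ≤ J` implies `I = Q J` or `I = J` for a maximal ideal `Q`. -/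
theorem between {Q I J : Ideal B} (hQ : Q.IsMaximal) (h0 : Q ≠ ⊥) (hJ : J ≠ ⊥) (h1 : Q * J ≤ I)
    (h2 : I ≤ J) : I = Q * J ∨ I = J := by
  have hQJ : Q * J ≠ ⊥ := mul_ne_zero h0 hJ
  have hI : I ≠ ⊥ := by
    rintro rfl
    exact hQJ (le_bot_iff.1 h1)
  have h3 := len_mono hQJ h1
  have h4 := len_mono hI h2
  rw [len_mul h0 hJ, len_maximal hQ h0] at h3
  by_cases h5 : len I = len J
  · exact Or.inr (eq_of_len_eq hI h2 h5)
  · left
    refine (eq_of_len_eq hQJ h1 ?_).symm
    rw [len_mul h0 hJ, len_maximal hQ h0]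
    omega

theorem mul_lt {Q J : Ideal B} (hQ : Q.IsMaximal) (h0 : Q ≠ ⊥) (hJ : J ≠ ⊥) : Q * J < J := by
  refine lt_of_le_of_ne Ideal.mul_le_right ?_
  intro h
  have h1 := congrArg len h
  rw [len_mul h0 hJ, len_maximal hQ h0] at h1
  omega

end SUP
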