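import Pool.Agent.MP_c1dca2_ag.SC2.A7

set_option autoImplicit false
set_option linter.unusedSectionVars false

open IsLocalRing SC2

namespace SUP

/-! ## [SUP-R0] roots of unity of order a power of `ℓ` (file R0.lean; compare SC2/A9.lean) -/

variable {k C : Type} [Field k] [Field C] [Algebra k C] {ℓ : ℕ} [hℓ : Fact ℓ.Prime]

theorem ell_ne {V : ValuationSubring C} (hV : V.valuation (ℓ : C) = 1) : (ℓ : C) ≠ 0 := by
  intro h
  rw [h, map_zero] at hV
  exact zero_ne_one hV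

theorem r0_val_one {V : ValuationSubring C} (n : ℕ) (hn : n ≠ 0) (ζ : C) (hζ : ζ ^ n = 1) :
    V.valuation ζ = 1 := by
  have h1 : V.valuation ζ ^ n = 1 := by rw [← map_pow, hζ, map_one]
  exact (pow_eq_one_iff_of_nonneg zero_le hn).1 h1

theorem r0_pow_sub {V : ValuationSubring C} (ζ : C) (h0 : V.valuation ζ ≤ 1)
    (h1 : V.valuation (ζ - 1) < 1) (i : ℕ) : V.valuation (ζ ^ i - 1) < 1 := by
  have h2 : ζ ^ i - 1 = (∑ j ∈ Finset.range i, ζ ^ j) * (ζ - 1) := (geom_sum_mul ζ i).symm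
  rw [h2, map_mul]
  have h3 : V.valuation (∑ j ∈ Finset.range i, ζ ^ j) ≤ 1 := by
    refine Valuation.map_sum_le _ fun j _ => ?_
    rw [map_pow]
    exact pow_le_one₀ zero_le h0
  calc V.valuation (∑ j ∈ Finset.range i, ζ ^ j) * V.valuation (ζ - 1)
      ≤ 1 * V.valuation (ζ - 1) := by gcongr
    _ = V.valuation (ζ - 1) := one_mul _
    _ < 1 := h1

/-- Induction on `m`. If `ζ^ℓ = 1`, `ζ ≠ 1`, `|ζ - 1| < 1` then `0 = 1 + ζ + ... + ζ^(ℓ-1)` is
congruent to `ℓ`, a unit: contradiction. In the induction step apply the case `m` to `ζ^ℓ`. -/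
theorem root_of_unity {V : ValuationSubring C} (hV : V.valuation (ℓ : C) = 1) (m : ℕ) (ζ : C)
    (hζ : ζ ^ (ℓ ^ m) = 1) (h1 : V.valuation (ζ - 1) < 1) : ζ = 1 := by
  have hℓ0 : ℓ ≠ 0 := hℓ.out.ne_zero
  induction m generalizing ζ with
  | zero => simpa using hζ
  | succ m ih =>
    have hle : V.valuation ζ ≤ 1 := (r0_val_one _ (pow_ne_zero _ hℓ0) ζ hζ).le
    have h4 : V.valuation (ζ ^ ℓ - 1) < 1 := r0_pow_sub ζ hle h1 ℓ
    have h6 : ζ ^ ℓ = 1 := ih (ζ ^ ℓ) (by rw [← pow_mul, ← pow_succ', hζ]) h4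
    by_contra hne
    have h7 : ∑ j ∈ Finset.range ℓ, ζ ^ j = 0 := by
      have h8 := geom_sum_mul ζ ℓ
      rw [h6, sub_self] at h8
      rcases mul_eq_zero.1 h8 with h9 | h9
      · exact h9
      · exact absurd (sub_eq_zero.1 h9) hne
    have h9 : ∑ j ∈ Finset.range ℓ, (ζ ^ j - 1) = -(ℓ : C) := by
      rw [Finset.sum_sub_distrib, h7]
      simp
    have h10 : V.valuation (∑ j ∈ Finset.range ℓ, (ζ ^ j - 1)) < 1 := by
      refine Valuation.map_sum_lt _ one_ne_zero fun j _ => r0_pow_sub ζ hle h1 j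
    rw [h9, Valuation.map_neg, hV] at h10
    exact lt_irrefl _ h10

theorem val_root {V : ValuationSubring C} (m : ℕ) (ζ : C) (hζ : ζ ^ (ℓ ^ m) = 1) :
    V.valuation ζ = 1 :=
  r0_val_one _ (pow_ne_zero _ hℓ.out.ne_zero) ζ hζ

theorem mem_root {V : ValuationSubring C} (m : ℕ) (ζ : C) (hζ : ζ ^ (ℓ ^ m) = 1) : ζ ∈ V := by
  rw [← V.valuation_le_one_iff, val_root m ζ hζ]

theorem eq_of_cong {V : ValuationSubring C} (hV : V.valuation (ℓ : C) = 1) (m : ℕ) (ζ ξ : C)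
    (hζ : ζ ^ (ℓ ^ m) = 1) (hξ : ξ ^ (ℓ ^ m) = 1) (h : V.valuation (ξ - ζ) < 1) : ξ = ζ := by
  have hz : ζ ≠ 0 := by
    rintro rfl
    rw [zero_pow (pow_ne_zero _ hℓ.out.ne_zero)] at hζ
    exact zero_ne_one hζ
  have h1 : ξ / ζ = 1 := by
    refine root_of_unity hV m (ξ / ζ) (by rw [div_pow, hζ, hξ, div_one]) ?_
    have h3 : ξ / ζ - 1 = (ξ - ζ) / ζ := by field_simp
    rw [h3, map_div₀, val_root m ζ hζ, div_one]
    exact h
  rwa [div_eq_one_iff_eq hz] at h1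

theorem iner_root {V : ValuationSubring C} (hV : V.valuation (ℓ : C) = 1) (m : ℕ)
    (ζ : C) (hζ : ζ ^ (ℓ ^ m) = 1) (τ : C ≃ₐ[k] C) (hτ : Iner V τ) : τ ζ = ζ := by
  refine eq_of_cong hV m ζ (τ ζ) hζ (by rw [← map_pow, hζ, map_one]) ?_
  have h1 := hτ.triv ζ (mem_root m ζ hζ)
  rwa [V.mem_nonunits_iff] at h1

theorem frob_root {V : ValuationSubring C} (hV : V.valuation (ℓ : C) = 1) (m : ℕ)
    (ζ : C) (hζ : ζ ^ (ℓ ^ m) = 1) (q : ℕ) (φ : C ≃ₐ[k] C) (hφ : Frob q V φ) :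
    φ ζ = ζ ^ q := by
  refine eq_of_cong hV m (ζ ^ q) (φ ζ) (by rw [← pow_mul, mul_comm, pow_mul, hζ, one_pow])
    (by rw [← map_pow, hζ, map_one]) ?_
  have h1 := hφ.frob ζ (mem_root m ζ hζ)
  rwa [V.mem_nonunits_iff] at h1

/-- An `ℓ`-th root of a unit fixed by an inertia element is fixed. -/
theorem iner_unit_root {V : ValuationSubring C} (hV : V.valuation (ℓ : C) = 1) (u w : C)
    (hu : V.valuation u = 1) (hw : w ^ ℓ = u) (τ : C ≃ₐ[k] C) (hτ : Iner V τ) (hτu : τ u = u) :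
    τ w = w := by
  have hℓ0 : ℓ ≠ 0 := hℓ.out.ne_zero
  have hw1 : V.valuation w = 1 := by
    have h3 : V.valuation w ^ ℓ = 1 ^ ℓ := by rw [← map_pow, hw, hu, one_pow]
    exact (pow_left_inj₀ zero_le zero_le hℓ0).1 h3
  have hw0 : w ≠ 0 := by
    rintro rfl
    rw [map_zero] at hw1
    exact zero_ne_one hw1
  have h1 := hτ.triv w ((V.valuation_le_one_iff w).1 hw1.le)
  rw [V.mem_nonunits_iff] at h1
  have h2 : τ w / w = 1 := by
    refine root_of_unity hV 1 (τ w / w) ?_ ?_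
    · rw [pow_one, div_pow, ← map_pow, hw, hτu, div_self]
      rw [← hw]
      exact pow_ne_zero _ hw0
    · have h3 : τ w / w - 1 = (τ w - w) / w := by field_simp
      rw [h3, map_div₀, hw1, div_one]
      exact h1
  rwa [div_eq_one_iff_eq hw0] at h2

end SUP
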