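import Pool.Agent.MP_c1dca2_ag.SUP.R3
import Pool.Agent.MP_c1dca2_ag.SC2.A8

set_option autoImplicit false
set_option linter.unusedSectionVars false

open IsLocalRing SC2

namespace SUP

/-! ## [SUP-R4] the wild group has no `ℓ`-quotients (file R4.lean; uses R0, R3; adapt SC2/A8.lean,
whose lemmas `a8W`, `a8_closed`, ... can be cited) -/

variable {k C : Type} [Field k] [Field C] [Algebra k C] {ℓ : ℕ} [hℓ : Fact ℓ.Prime]

theorem r4_dual (F : Type) [Field F] (A : Type) [AddCommGroup A] [Module F A] (a1 : A)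
    (h3 : a1 ≠ 0) : ∃ (ψ : A →+ F), ψ a1 ≠ 0 := by
  obtain ⟨f, hf⟩ := Module.Projective.exists_dual_ne_zero F h3
  exact ⟨f.toAddMonoidHom, hf⟩

/-- Adapt `SC2.a8_func`. -/
theorem exists_func (A : Type) [AddCommGroup A] (n : ℕ) (h : ∀ a : A, (ℓ ^ n) • a = 0) (a0 : A)
    (ha0 : a0 ≠ 0) : ∃ (ψ : A →+ ZMod ℓ) (a : A), ψ a ≠ 0 := by
  let N : AddSubgroup A := (nsmulAddMonoidHom (α := A) ℓ).range
  have hmem : ∀ a, a ∈ N ↔ ∃ b : A, ℓ • b = a := fun a => Iff.rfl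
  obtain ⟨a1, ha1⟩ : ∃ a1, a1 ∉ N := by
    by_contra hcon
    push Not at hcon
    have h1 : ∀ m : ℕ, ∀ a : A, ∃ b : A, (ℓ ^ m) • b = a := by
      intro m
      induction m with
      | zero => intro a; exact ⟨a, by simp⟩
      | succ m ih =>
        intro a
        obtain ⟨b, hb⟩ := ih a
        obtain ⟨c, hc⟩ := (hmem b).1 (hcon b)
        exact ⟨c, by rw [pow_succ, mul_smul, hc, hb]⟩
    obtain ⟨b, hb⟩ := h1 n a0
    exact ha0 (by rw [← hb, h b])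
  have h2 : ∀ x : A ⧸ N, ℓ • x = 0 := by
    intro x
    obtain ⟨a, rfl⟩ := QuotientAddGroup.mk_surjective x
    rw [← QuotientAddGroup.mk_nsmul, QuotientAddGroup.eq_zero_iff]
    exact ⟨a, rfl⟩
  have h3 : (QuotientAddGroup.mk a1 : A ⧸ N) ≠ 0 := by
    intro h0
    exact ha1 ((QuotientAddGroup.eq_zero_iff a1).1 h0)
  obtain ⟨φ, hφ⟩ := @r4_dual (ZMod ℓ) _ (A ⧸ N) _ (AddCommGroup.zmodModule h2)
    (QuotientAddGroup.mk a1) h3
  exact ⟨φ.comp (QuotientAddGroup.mk' N), a1, hφ⟩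

/-- the linear algebra of the argument: the resolvents `z_j = ∑_i ζ^(i j) σ^i t` -/
theorem r4_resolvent [IsAlgClosed C] {V : ValuationSubring C} (hV : V.valuation (ℓ : C) = 1)
    (σ : C ≃ₐ[k] C) (hσ : Iner V σ) (t : C) (ht : (σ ^ ℓ) t = t) (hσt : σ t ≠ t) :
    ∃ (z : C) (ζ : C) (a : ℕ → C), z ≠ 0 ∧ ζ ^ ℓ = 1 ∧ ζ ≠ 1 ∧ ζ * σ z = z ∧
      (∀ i, (a i) ^ ℓ = 1) ∧ z = ∑ i ∈ Finset.range ℓ, a i * (σ ^ i) t := by
  have hne : NeZero (ℓ : C) := ⟨ell_ne hV⟩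
  obtain ⟨ζ, hζ⟩ := HasEnoughRootsOfUnity.exists_primitiveRoot C ℓ
  have hζ1 : ζ ^ ℓ = 1 := hζ.pow_eq_one
  let z : ℕ → C := fun j => ∑ i ∈ Finset.range ℓ, (ζ ^ j) ^ i * (σ ^ i) t
  have hfix : ∀ ξ : C, ξ ^ ℓ = 1 → σ ξ = ξ := fun ξ hξ =>
    iner_root hV 1 ξ (by rw [pow_one]; exact hξ) σ hσ
  have hσz : ∀ j, ζ ^ j * σ (z j) = z j := by
    intro j
    have hj : (ζ ^ j) ^ ℓ = 1 := by rw [← pow_mul, mul_comm, pow_mul, hζ1, one_pow]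
    have e1 : ζ ^ j * σ (z j) = ∑ i ∈ Finset.range ℓ, (ζ ^ j) ^ (i + 1) * (σ ^ (i + 1)) t := by
      simp only [z]
      rw [map_sum, Finset.mul_sum]
      refine Finset.sum_congr rfl fun i _ => ?_
      rw [map_mul, map_pow, hfix _ hj, pow_succ' σ, AlgEquiv.mul_apply, pow_succ' (ζ ^ j)]
      ring
    rw [e1]
    have e2 := Finset.sum_range_succ' (fun i => (ζ ^ j) ^ i * (σ ^ i) t) ℓ
    have e3 := Finset.sum_range_succ (fun i => (ζ ^ j) ^ i * (σ ^ i) t) ℓ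
    rw [e3] at e2
    simp only [hj, ht, pow_zero, AlgEquiv.one_apply] at e2
    exact (add_right_cancel e2).symm
  have hsum : ∑ j ∈ Finset.range ℓ, z j = ℓ * t := by
    simp only [z]
    rw [Finset.sum_comm]
    have e1 : ∀ i ∈ Finset.range ℓ, i ≠ 0 →
        ∑ j ∈ Finset.range ℓ, (ζ ^ j) ^ i * (σ ^ i) t = 0 := by
      intro i hi hi0
      rw [← Finset.sum_mul]
      have e2 : ∑ j ∈ Finset.range ℓ, (ζ ^ j) ^ i = 0 := by
        have e3 : ∑ j ∈ Finset.range ℓ, (ζ ^ j) ^ i = ∑ j ∈ Finset.range ℓ, (ζ ^ i) ^ j :=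
          Finset.sum_congr rfl fun j _ => by rw [← pow_mul, ← pow_mul, mul_comm]
        rw [e3]
        have e4 : IsPrimitiveRoot (ζ ^ i) ℓ := by
          refine hζ.pow_of_coprime i ?_
          rw [Nat.coprime_comm, Nat.Prime.coprime_iff_not_dvd hℓ.out]
          intro hd
          exact absurd (Nat.le_of_dvd (Nat.pos_of_ne_zero hi0) hd)
            (not_le.2 (Finset.mem_range.1 hi))
        exact e4.geom_sum_eq_zero hℓ.out.one_lt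
      rw [e2, zero_mul]
    rw [Finset.sum_eq_single 0 e1 (fun h => absurd (Finset.mem_range.2 hℓ.out.pos) h)]
    simp
  obtain ⟨j, hj, hj0, hzj⟩ : ∃ j ∈ Finset.range ℓ, j ≠ 0 ∧ z j ≠ 0 := by
    by_contra hcon
    push Not at hcon
    rw [Finset.sum_eq_single 0 (fun j hj hj0 => hcon j hj hj0)
      (fun h => absurd (Finset.mem_range.2 hℓ.out.pos) h)] at hsum
    have e1 := hσz 0
    rw [pow_zero, one_mul, hsum, map_mul, map_natCast] at e1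
    exact hσt (mul_left_cancel₀ (ell_ne hV) e1)
  have hj1 : (ζ ^ j) ^ ℓ = 1 := by rw [← pow_mul, mul_comm, pow_mul, hζ1, one_pow]
  refine ⟨z j, ζ ^ j, fun i => (ζ ^ j) ^ i, hzj, hj1, ?_, hσz j, fun i => ?_, rfl⟩
  · intro h
    exact absurd (Nat.le_of_dvd (Nat.pos_of_ne_zero hj0) (hζ.dvd_of_pow_eq_one j h))
      (not_le.2 (Finset.mem_range.1 hj))
  · rw [← pow_mul, mul_comm, pow_mul, hj1, one_pow]

/-- Adapt `SC2.two_group`. Let `ψ : J → Z/ℓ` be a nonzero continuous homomorphism, `J'` its kernel, a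
closed subgroup, `t` fixed by `J'` and not by `J`; `σ₁ ∈ J` with `ψ σ₁ = 1` (replace `σ₁` by a power;
`J = ⋃ σ₁^i J'`, `J'` is normal in `J`, so `σ₁^i t` is fixed by `J'`). `ζ` a primitive `ℓ`-th root of
unity is fixed by `J` (`iner_root`). `z_k = ∑_(i < ℓ) ζ^(i k) σ₁^i t` is fixed by `J'` and
`σ₁ z_k = ζ^(-k) z_k` (`σ₁^ℓ t = t` as `σ₁^ℓ ∈ J'`). `∑_k z_k = ℓ t` and `z_0` is fixed by `J`, so not
all `z_k`, `0 < k < ℓ`, vanish (otherwise `t` would be fixed). For `z = z_k ≠ 0`, `z^ℓ` is fixed by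
`J`, `z^ℓ = w^ℓ` with `w` fixed by `J` (`exists_root`), `z = ξ w` with `ξ^ℓ = 1`, fixed by `J`:
`σ₁ z = z = ζ^(-k) z`, a contradiction. -/
theorem wild_trivial [IsAlgClosed C] [IsGalois k C] {V : ValuationSubring C}
    (hV : V.valuation (ℓ : C) = 1) (π : ℕ → C) (hπ : ∀ m, π (m + 1) ^ ℓ = π m) (hπ0 : π 0 ≠ 0)
    (hT : ∀ u : C, u ≠ 0 → ∃ (m : ℕ) (n : ℤ), 0 < m ∧
      V.valuation u ^ m = V.valuation (π 0) ^ n)
    (H : Type) [AddCommGroup H] (χ : (C ≃ₐ[k] C) → H)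
    (hadd : ∀ σ τ, Wild V π σ → Wild V π τ → χ (σ * τ) = χ σ + χ τ) (n : ℕ)
    (htor : ∀ σ, Wild V π σ → (ℓ ^ n) • χ σ = 0) (E : IntermediateField k C)
    [FiniteDimensional k E] (hE : ∀ σ, Wild V π σ → σ ∈ E.fixingSubgroup → χ σ = 0)
    (σ : C ≃ₐ[k] C) (hσ : Wild V π σ) : χ σ = 0 := by
  by_contra hne
  -- the homomorphism
  let f : Additive (a8W (k := k) V π) →+ H :=
    AddMonoidHom.mk' (fun τ => χ (τ.toMul : C ≃ₐ[k] C)) (fun a b => hadd _ _ a.toMul.2 b.toMul.2)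
  have hf : ∀ τ : a8W (k := k) V π, f (Additive.ofMul τ) = χ (τ : C ≃ₐ[k] C) := fun _ => rfl
  obtain ⟨ψ, ⟨_, ⟨a1, rfl⟩⟩, ha1⟩ := exists_func (ℓ := ℓ) f.range n (by
    rintro ⟨_, ⟨a, rfl⟩⟩
    apply Subtype.ext
    exact htor _ a.toMul.2) ⟨f (Additive.ofMul ⟨σ, hσ⟩), ⟨_, rfl⟩⟩ (by
      intro h0
      exact hne (congrArg Subtype.val h0))
  let Ψ : Additive (a8W (k := k) V π) →+ ZMod ℓ := ψ.comp f.rangeRestrict
  have hΨE : ∀ τ : a8W (k := k) V π, (τ : C ≃ₐ[k] C) ∈ E.fixingSubgroup →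
      Ψ (Additive.ofMul τ) = 0 := by
    intro τ hτ
    have h1 : f.rangeRestrict (Additive.ofMul τ) = 0 := by
      apply Subtype.ext
      exact hE _ τ.2 hτ
    change ψ (f.rangeRestrict (Additive.ofMul τ)) = 0
    rw [h1, map_zero]
  let σ₁ : a8W (k := k) V π := a1.toMul
  have hσ₁ : Ψ (Additive.ofMul σ₁) ≠ 0 := ha1
  -- the kernel
  let J : Subgroup (C ≃ₐ[k] C) := (AddMonoidHom.toMultiplicativeRight Ψ).ker.map
    (a8W (k := k) V π).subtype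
  have hJ : ∀ τ : a8W (k := k) V π, (τ : C ≃ₐ[k] C) ∈ J ↔ Ψ (Additive.ofMul τ) = 0 := by
    intro τ
    constructor
    · rintro ⟨τ', h1, h2⟩
      have h3 : τ' = τ := Subtype.ext h2
      rw [← h3]
      exact h1
    · intro h
      exact ⟨τ, h, rfl⟩
  have hJW : ∀ τ ∈ J, τ ∈ a8W (k := k) V π := by
    rintro τ ⟨τ', -, rfl⟩
    exact τ'.2
  have hJc : IsClosed (J : Set (C ≃ₐ[k] C)) := by
    have h1 : (J : Set (C ≃ₐ[k] C)) = (a8W (k := k) V π : Set (C ≃ₐ[k] C)) ∩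
        {τ | ∃ ρ ∈ J, ρ⁻¹ * τ ∈ E.fixingSubgroup} := by
      ext τ
      constructor
      · intro h
        exact ⟨hJW τ h, τ, h, by rw [inv_mul_cancel]; exact one_mem _⟩
      · rintro ⟨hτ, ρ, hρ, hρτ⟩
        have hρW := hJW ρ hρ
        have h2 := (hJ ⟨ρ, hρW⟩).1 hρ
        have h3 : Ψ (Additive.ofMul (⟨ρ, hρW⟩⁻¹ * ⟨τ, hτ⟩ : a8W (k := k) V π)) = 0 :=
          hΨE _ hρτ
        have h4 : (⟨τ, hτ⟩ : a8W (k := k) V π) = ⟨ρ, hρW⟩ * (⟨ρ, hρW⟩⁻¹ * ⟨τ, hτ⟩) := by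
          rw [mul_inv_cancel_left]
        refine (hJ ⟨τ, hτ⟩).2 ?_
        rw [h4, ofMul_mul, map_add, h2, h3, add_zero]
    rw [h1]
    refine (a8_closed V π).inter ?_
    rw [← isOpen_compl_iff]
    refine a8_open_of_stable E _ ?_
    intro τ hτ τ' hττ'
    rintro ⟨ρ, hρ, hρτ⟩
    apply hτ
    refine ⟨ρ, hρ, ?_⟩
    have h2 : ρ⁻¹ * τ = (ρ⁻¹ * τ') * (τ⁻¹ * τ')⁻¹ := by group
    rw [h2]
    exact mul_mem hρτ (inv_mem hττ')
  have hfix : (IntermediateField.fixedField J).fixingSubgroup = J :=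
    InfiniteGalois.fixingSubgroup_fixedField (⟨J, hJc⟩ : ClosedSubgroup (C ≃ₐ[k] C))
  have hσ₁J : (σ₁ : C ≃ₐ[k] C) ∉ J := fun h => hσ₁ ((hJ σ₁).1 h)
  obtain ⟨t, ht, htσ⟩ : ∃ t : C, (∀ τ ∈ J, τ t = t) ∧ (σ₁ : C ≃ₐ[k] C) t ≠ t := by
    by_contra hcon
    push Not at hcon
    apply hσ₁J
    have h1 : (σ₁ : C ≃ₐ[k] C) ∈ (IntermediateField.fixedField J).fixingSubgroup := by
      rw [IntermediateField.mem_fixingSubgroup_iff]
      intro x hx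
      exact hcon x (fun τ hτ => (IntermediateField.mem_fixedField_iff _ _).1 hx τ hτ)
    rw [hfix] at h1
    exact h1
  have hpowΨ : ∀ (i : ℕ) (ρ : a8W (k := k) V π),
      Ψ (Additive.ofMul (ρ ^ i)) = i • Ψ (Additive.ofMul ρ) := by
    intro i ρ
    rw [ofMul_pow, map_nsmul]
  -- conjugation
  have hconj : ∀ (i : ℕ) (ρ : a8W (k := k) V π), Ψ (Additive.ofMul ρ) = 0 →
      (ρ : C ≃ₐ[k] C) (((σ₁ : C ≃ₐ[k] C) ^ i) t) = ((σ₁ : C ≃ₐ[k] C) ^ i) t := by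
    intro i ρ hρ
    have h1 : Ψ (Additive.ofMul ((σ₁ ^ i)⁻¹ * ρ * σ₁ ^ i)) = 0 := by
      rw [ofMul_mul, ofMul_mul, ofMul_inv, map_add, map_add, map_neg, hρ]
      abel
    have h2 := ht _ ((hJ _).2 h1)
    have h3 : (ρ : C ≃ₐ[k] C) (((σ₁ : C ≃ₐ[k] C) ^ i) t) =
        ((σ₁ : C ≃ₐ[k] C) ^ i) ((((σ₁ ^ i)⁻¹ * ρ * σ₁ ^ i : a8W (k := k) V π) :
          C ≃ₐ[k] C) t) := by
      rw [← AlgEquiv.mul_apply, ← AlgEquiv.mul_apply]
      congr 1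
      push_cast
      group
    rw [h3, h2]
  have hℓt : ((σ₁ : C ≃ₐ[k] C) ^ ℓ) t = t := by
    have h1 : Ψ (Additive.ofMul (σ₁ ^ ℓ)) = 0 := by
      rw [hpowΨ, nsmul_eq_mul, ZMod.natCast_self, zero_mul]
    have h2 := ht _ ((hJ _).2 h1)
    simpa using h2
  obtain ⟨z, ζ, a, hz0, hζ1, hζne, hσz, ha, hza⟩ :=
    r4_resolvent hV (σ₁ : C ≃ₐ[k] C) σ₁.2.iner t hℓt htσ
  -- `z` is fixed by the kernel
  have hkz : ∀ ρ : a8W (k := k) V π, Ψ (Additive.ofMul ρ) = 0 → (ρ : C ≃ₐ[k] C) z = z := by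
    intro ρ hρ
    rw [hza, map_sum]
    refine Finset.sum_congr rfl fun i _ => ?_
    rw [map_mul, hconj i ρ hρ, iner_root hV 1 (a i) (by rw [pow_one]; exact ha i) _ ρ.2.iner]
  have hσzl : (σ₁ : C ≃ₐ[k] C) (z ^ ℓ) = z ^ ℓ := by
    have h1 : (ζ * (σ₁ : C ≃ₐ[k] C) z) ^ ℓ = z ^ ℓ := by rw [hσz]
    rw [mul_pow, hζ1, one_mul, ← map_pow] at h1
    exact h1
  have hσzi : ∀ i : ℕ, ((σ₁ : C ≃ₐ[k] C) ^ i) (z ^ ℓ) = z ^ ℓ := by
    intro i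
    induction i with
    | zero => simp
    | succ i ih => rw [pow_succ, AlgEquiv.mul_apply, hσzl, ih]
  have hzl : ∀ τ : C ≃ₐ[k] C, Wild V π τ → τ (z ^ ℓ) = z ^ ℓ := by
    intro τ hτ
    have : NeZero ℓ := ⟨hℓ.out.ne_zero⟩
    set c : ZMod ℓ := Ψ (Additive.ofMul (⟨τ, hτ⟩ : a8W (k := k) V π)) *
      (Ψ (Additive.ofMul σ₁))⁻¹ with hc
    set i : ℕ := c.val with hi
    have h1 : Ψ (Additive.ofMul ((σ₁ ^ i)⁻¹ * ⟨τ, hτ⟩ : a8W (k := k) V π)) = 0 := by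
      rw [ofMul_mul, ofMul_inv, map_add, map_neg, hpowΨ, nsmul_eq_mul, hi, ZMod.natCast_val,
        ZMod.cast_id, hc, mul_assoc, inv_mul_cancel₀ hσ₁, mul_one]
      abel
    have h2 := hkz _ h1
    have h3 : τ = ((σ₁ : C ≃ₐ[k] C) ^ i) *
        (((σ₁ ^ i)⁻¹ * ⟨τ, hτ⟩ : a8W (k := k) V π) : C ≃ₐ[k] C) := by
      push_cast
      group
    rw [h3, AlgEquiv.mul_apply, map_pow, h2, hσzi]
  obtain ⟨w, hw, hwfix⟩ := exists_root (k := k) hV π hπ hπ0 hT (z ^ ℓ) hzl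
  have hw0 : w ≠ 0 := by
    rintro rfl
    rw [zero_pow hℓ.out.ne_zero] at hw
    exact hz0 (pow_eq_zero_iff hℓ.out.ne_zero |>.1 hw.symm)
  have h1 : (z / w) ^ ℓ = 1 := by
    rw [div_pow, hw, div_self (pow_ne_zero _ hz0)]
  have h2 := iner_root hV 1 (z / w) (by rw [pow_one]; exact h1) _ σ₁.2.iner
  have h3 : (σ₁ : C ≃ₐ[k] C) z = z := by
    have h4 : z = z / w * w := (div_mul_cancel₀ z hw0).symm
    conv_lhs => rw [h4]
    rw [map_mul, h2, hwfix _ σ₁.2, ← h4]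
  rw [h3] at hσz
  exact hζne (mul_right_cancel₀ hz0 (by rw [hσz, one_mul]))

end SUP
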