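import Pool.Agent.MP_c1dca2_ag.SUP.R4

set_option autoImplicit false
set_option linter.unusedSectionVars false

open IsLocalRing SC2

namespace SUP

/-! ## [SUP-R5] the weight of tame inertia (file R5.lean; uses R0, R4; adapt SC2/A9.lean) -/

variable {k C : Type} [Field k] [Field C] [Algebra k C] {ℓ : ℕ} [hℓ : Fact ℓ.Prime]

/-- Adapt `SC2.tame_relation`. -/
theorem tame_relation {V : ValuationSubring C} (hV : V.valuation (ℓ : C) = 1)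
    (π : ℕ → C) (hπ : ∀ m, π (m + 1) ^ ℓ = π m) (hπ0 : π 0 ≠ 0)
    (hπk : ∃ a : k, π 0 = algebraMap k C a) (q : ℕ) (φ : C ≃ₐ[k] C) (hφ : Frob q V φ)
    (τ : C ≃ₐ[k] C) (hτ : Iner V τ) : Wild V π (φ * τ * φ⁻¹ * (τ ^ q)⁻¹) := by
  have hℓ0 : ℓ ≠ 0 := hℓ.out.ne_zero
  have hρ : Iner V (φ * τ * φ⁻¹ * (τ ^ q)⁻¹) := by
    have h1 : τ ^ q ∈ inertia (k := k) V := (inertia V).pow_mem hτ q
    exact Iner.mul (Iner.conj hτ hφ.stab) (Iner.inv h1)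
  refine ⟨hρ, fun m => ?_⟩
  have hpow : ∀ m, π m ^ (ℓ ^ m) = π 0 := by
    intro m
    induction m with
    | zero => simp
    | succ m ih => rw [pow_succ', pow_mul, hπ, ih]
  have hne : π m ≠ 0 := by
    intro h0
    have h1 := hpow m
    rw [h0, zero_pow (pow_ne_zero _ hℓ0)] at h1
    exact hπ0 h1.symm
  obtain ⟨a, ha⟩ := hπk
  have hroot : ∀ σ : C ≃ₐ[k] C, (σ (π m) / π m) ^ (ℓ ^ m) = 1 := by
    intro σ
    rw [div_pow, ← map_pow, hpow m, ha, σ.commutes]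
    exact div_self (by rw [← ha]; exact hπ0)
  have hz : ∀ σ : C ≃ₐ[k] C, σ (π m) = (σ (π m) / π m) * π m := fun σ => by
    field_simp
  set ζ := τ (π m) / π m with hζdef
  have hζ : ζ ^ (ℓ ^ m) = 1 := hroot τ
  have hη := hroot φ⁻¹
  set η := φ⁻¹ (π m) / π m with hηdef
  have e1 : τ (π m) = ζ * π m := hz τ
  have e2 : φ⁻¹ (π m) = η * π m := hz φ⁻¹
  have e3 : (φ * τ * φ⁻¹) (π m) = ζ ^ q * π m := by
    have h3 : φ (η * π m) = π m := by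
      rw [← e2, ← AlgEquiv.mul_apply]
      simp
    rw [AlgEquiv.mul_apply, AlgEquiv.mul_apply, e2, map_mul τ, iner_root hV m η hη τ hτ, e1]
    have h4 : η * (ζ * π m) = ζ * (η * π m) := by ring
    rw [h4, map_mul φ, h3, frob_root hV m ζ hζ q φ hφ]
  have e4 : ∀ n : ℕ, (τ ^ n) (π m) = ζ ^ n * π m := by
    intro n
    induction n with
    | zero => simp
    | succ n ih =>
      rw [pow_succ', AlgEquiv.mul_apply, ih, map_mul, map_pow, iner_root hV m ζ hζ τ hτ, e1]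
      ring
  have e5 : (φ * τ * φ⁻¹ * (τ ^ q)⁻¹) ((τ ^ q) (π m)) = (φ * τ * φ⁻¹) (π m) := by
    rw [← AlgEquiv.mul_apply]
    congr 1
    group
  rw [e4 q, e3, map_mul, map_pow, iner_root hV m ζ hζ _ hρ] at e5
  have hζ0 : ζ ≠ 0 := by
    intro h0
    rw [h0, zero_pow (pow_ne_zero _ hℓ0)] at hζ
    exact zero_ne_one hζ
  exact mul_left_cancel₀ (pow_ne_zero q hζ0) e5

/-- Adapt `SC2.weight`. -/
theorem weight [IsAlgClosed C] [IsGalois k C] {V : ValuationSubring C}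
    (hV : V.valuation (ℓ : C) = 1) (π : ℕ → C) (hπ : ∀ m, π (m + 1) ^ ℓ = π m) (hπ0 : π 0 ≠ 0)
    (hπk : ∃ a : k, π 0 = algebraMap k C a)
    (hT : ∀ u : C, u ≠ 0 → ∃ (m : ℕ) (n : ℤ), 0 < m ∧
      V.valuation u ^ m = V.valuation (π 0) ^ n)
    (J : Subgroup (C ≃ₐ[k] C)) (hJ : ∀ σ ∈ J, Iner V σ)
    (hJ' : ∀ σ : C ≃ₐ[k] C, Wild V π σ → σ ∈ J)
    (H : Type) [AddCommGroup H] (χ : (C ≃ₐ[k] C) → H)
    (hadd : ∀ σ ∈ J, ∀ τ ∈ J, χ (σ * τ) = χ σ + χ τ) (n : ℕ)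
    (htor : ∀ σ ∈ J, (ℓ ^ n) • χ σ = 0) (E : IntermediateField k C)
    [FiniteDimensional k E] (hE : ∀ σ ∈ J, σ ∈ E.fixingSubgroup → χ σ = 0) (q : ℕ)
    (φ : C ≃ₐ[k] C) (hφ : Frob q V φ) (τ : C ≃ₐ[k] C) (hτ : τ ∈ J) :
    χ (φ * τ * φ⁻¹) = q • χ τ := by
  have hw := tame_relation hV π hπ hπ0 hπk q φ hφ τ (hJ τ hτ)
  have h1 : χ (φ * τ * φ⁻¹ * (τ ^ q)⁻¹) = 0 :=
    wild_trivial hV π hπ hπ0 hT H χ (fun σ σ' h h' => hadd σ (hJ' σ h) σ' (hJ' σ' h')) n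
      (fun σ h => htor σ (hJ' σ h)) E (fun σ h hf => hE σ (hJ' σ h) hf) _ hw
  have h3 : χ 1 = 0 := by
    have h4 := hadd 1 J.one_mem 1 J.one_mem
    rw [mul_one] at h4
    exact left_eq_add.1 h4
  have h5 : ∀ n : ℕ, χ (τ ^ n) = n • χ τ := by
    intro n
    induction n with
    | zero => simpa using h3
    | succ n ih =>
      rw [pow_succ, hadd _ (J.pow_mem hτ n) _ hτ, ih, succ_nsmul]
  have h6 : φ * τ * φ⁻¹ = (φ * τ * φ⁻¹ * (τ ^ q)⁻¹) * τ ^ q := by group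
  rw [h6, hadd _ (hJ' _ hw) _ (J.pow_mem hτ q), h1, zero_add, h5]

end SUP
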