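import Pool.Agent.MP_c1dca2_ag.SUP.R1
import Pool.Agent.MP_c1dca2_ag.SC2.A6

set_option autoImplicit false
set_option linter.unusedSectionVars false

open IsLocalRing SC2

namespace SUP

/-! ## [SUP-R2] inertia moves the roots of an element of value prime to `ℓ` (file R2.lean; uses R1) -/

variable {k C : Type} [Field k] [Field C] [Algebra k C] {ℓ : ℕ} [hℓ : Fact ℓ.Prime]

/-- If `x` is a root of a nonzero polynomial over `k` of degree `≤ d` then two terms have the same
value (`a6_two` in SC2/A6.lean or directly), so `|x|^e = |b|` for some `b ∈ k`, `0 < e ≤ d`. -/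
theorem val_pow_mem {A : ValuationSubring k} {V : ValuationSubring C} (h : Above A V) (x : C)
    (hx : x ≠ 0) (p : Polynomial k) (hp : p ≠ 0) (hpx : Polynomial.aeval x p = 0) :
    ∃ (e : ℕ) (b : k), 0 < e ∧ e ≤ p.natDegree ∧ V.valuation x ^ e =
      V.valuation (algebraMap k C b) := by
  have hne : p.support.Nonempty := Polynomial.support_nonempty.2 hp
  have hterm : ∀ i ∈ p.support, algebraMap k C (p.coeff i) ≠ 0 := by
    intro i hi
    rw [Ne, map_eq_zero_iff _ (algebraMap k C).injective]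
    exact Polynomial.mem_support_iff.1 hi
  obtain ⟨i, hi, j, hj, hij, heq⟩ := a6_two (V := V) p.support
    (fun i => algebraMap k C (p.coeff i) * x ^ i)
    (fun i hi => mul_ne_zero (hterm i hi) (pow_ne_zero i hx)) hne (by
      rw [Polynomial.aeval_def, Polynomial.eval₂_eq_sum, Polynomial.sum] at hpx
      exact hpx)
  simp only [map_mul, map_pow] at heq
  have hvx : V.valuation x ≠ 0 := (Valuation.ne_zero_iff _).2 hx
  have hvj := (Valuation.ne_zero_iff V.valuation).2 (hterm j hj)
  have hjd : j ≤ p.natDegree := Polynomial.le_natDegree_of_mem_supp j hj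
  refine ⟨j - i, p.coeff i / p.coeff j, by omega, by omega, ?_⟩
  rw [map_div₀, map_div₀, eq_div_iff hvj]
  have e1 : V.valuation x ^ j = V.valuation x ^ (j - i) * V.valuation x ^ i := by
    rw [← pow_add]
    congr 1
    omega
  rw [e1] at heq
  apply mul_right_cancel₀ (pow_ne_zero i hvx)
  rw [heq, ← mul_assoc, mul_comm (V.valuation x ^ (j - i))]

/-- Let `ζ` be a primitive `ℓ`-th root of unity in `C`, `k' = k(ζ)`, `A' = V ∩ k'`. All elements of
`k'` have degree `< ℓ` over `k` (`[k' : k] ≤ ℓ - 1`). If `|c| = |b'|^ℓ` with `b' ∈ k'` then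
`|b'|^e = |b|`, `0 < e < ℓ` (`val_pow_mem`), so `|c|^e = |b|^ℓ`, and as `gcd(e, ℓ) = 1`,
`|c|` is an `ℓ`-th power of an element of `|k|` (`u e = 1 + v ℓ`: `|c| = |c|^(u e) / |c|^(v ℓ)`),
a contradiction. So `exists_tau_aux` applies to `k'`, `A'`, `V`, `C` (Galois over `k'`), and
`ζ z ≠ z` (`z ≠ 0` since `c ≠ 0`). -/
theorem exists_tau [IsAlgClosed C] [IsGalois k C] {A : ValuationSubring k}
    {V : ValuationSubring C} (h : Above A V) (hV : V.valuation (ℓ : C) = 1) (c : k)
    (hc : ∀ b : k, A.valuation c ≠ A.valuation b ^ ℓ) (z : C) (hz : z ^ ℓ = algebraMap k C c) :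
    ∃ τ : C ≃ₐ[k] C, Iner V τ ∧ τ z ≠ z := by
  have hz0 : z ≠ 0 := r1_z c hc z hz
  have hnz : NeZero (ℓ : C) := ⟨by
    intro h0
    rw [h0, map_zero] at hV
    exact zero_ne_one hV⟩
  obtain ⟨ζ, hζ⟩ := HasEnoughRootsOfUnity.exists_primitiveRoot C ℓ
  have hζint : IsIntegral k ζ := Algebra.IsIntegral.isIntegral ζ
  let k' : IntermediateField k C := IntermediateField.adjoin k {ζ}
  have hζk : ζ ∈ k' := IntermediateField.mem_adjoin_simple_self k ζ
  have hfd : FiniteDimensional k k' := IntermediateField.adjoin.finiteDimensional hζint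
  have hfr : Module.finrank k k' < ℓ := by
    have h1 : Module.finrank k k' = (minpoly k ζ).natDegree :=
      IntermediateField.adjoin.finrank hζint
    have h2 : minpoly k ζ ∣ Polynomial.cyclotomic ℓ k := by
      apply minpoly.dvd
      rw [Polynomial.aeval_def, ← Polynomial.eval_map, Polynomial.map_cyclotomic]
      exact (Polynomial.isRoot_cyclotomic_iff.2 hζ)
    have h3 := Polynomial.natDegree_le_of_dvd h2 (Polynomial.cyclotomic_ne_zero ℓ k)
    rw [Polynomial.natDegree_cyclotomic, Nat.totient_prime hℓ.out] at h3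
    have h4 := hℓ.out.pos
    omega
  let A' : ValuationSubring k' := V.comap (algebraMap k' C)
  have hA' : Above A' V := fun a => Iff.rfl
  have hc' : ∀ b : k', A'.valuation (algebraMap k k' c) ≠ A'.valuation b ^ ℓ := by
    intro b hb
    have h1 : V.valuation (algebraMap k C c) = V.valuation (b : C) ^ ℓ := by
      have h2 : A'.valuation (algebraMap k k' c) = A'.valuation (b ^ ℓ) := by
        rw [hb, map_pow]
      rw [← a5_val_eq hA', map_pow, map_pow] at h2
      exact h2
    have hb0 : (b : C) ≠ 0 := by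
      intro h2
      rw [h2, map_zero, zero_pow hℓ.out.ne_zero, map_eq_zero, map_eq_zero] at h1
      exact r1_c c hc h1
    have hpb : Polynomial.aeval (b : C) (minpoly k b) = 0 := by
      have h2 := minpoly.aeval k b
      have h3 := congrArg (algebraMap k' C) h2
      rw [map_zero, ← Polynomial.aeval_algebraMap_apply] at h3
      exact h3
    obtain ⟨e, a, he0, hed, hea⟩ := val_pow_mem h (b : C) hb0 (minpoly k b)
      (minpoly.ne_zero (Algebra.IsIntegral.isIntegral b)) hpb
    have hel : e < ℓ := lt_of_le_of_lt (le_trans hed (minpoly.natDegree_le b)) hfr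
    have h4 : V.valuation (algebraMap k C (c ^ e)) = V.valuation (algebraMap k C (a ^ ℓ)) := by
      rw [map_pow, map_pow, map_pow, map_pow, h1, ← hea, ← pow_mul, ← pow_mul, mul_comm]
    rw [a5_val_eq h, map_pow, map_pow] at h4
    obtain ⟨b', hb'⟩ := r1_root c (r1_c c hc) e he0 hel a h4
    exact hc b' hb'
  have := IsGalois.tower_top_intermediateField k'
  have hζ' : IsPrimitiveRoot (⟨ζ, hζk⟩ : k') ℓ :=
    IsPrimitiveRoot.of_map_of_injective (f := algebraMap k' C) hζ (algebraMap k' C).injective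
  obtain ⟨τ, hτ, hτz⟩ := exists_tau_aux (ℓ := ℓ) hA' (⟨ζ, hζk⟩ : k') hζ' (algebraMap k k' c) hc' z hz
  refine ⟨τ.restrictScalars k, ⟨hτ.stab, hτ.triv⟩, ?_⟩
  intro h1
  have h2 : τ z = z := h1
  rw [hτz] at h2
  have h3 : ζ * z = 1 * z := by
    rw [one_mul]
    exact h2
  exact hζ.ne_one hℓ.out.one_lt (mul_right_cancel₀ hz0 h3)

end SUP
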