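import Mathlib

set_option autoImplicit false
set_option linter.unusedSectionVars false

namespace SUP

/-! ## [SUP-K3] combinatorics (file K3.lean) -/

variable {ℓ : ℕ} [hℓ : Fact ℓ.Prime]

theorem k3_A {ν : Type} [Fintype ν] (w : ν → ZMod ℓ)
    (hkey : ∀ ε : ν → ZMod ℓ, ∑ i, ε i = 0 → ∑ i, ε i * w i = 0 →
      ∀ a b, ε a ≠ 0 → ε b ≠ 0 → w a = w b) (a b c : ν) (hab : w a ≠ w b) (hbc : w b ≠ w c)
    (hac : w a ≠ w c) : False := by
  classical
  have h1 : a ≠ b := fun h => hab (by rw [h])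
  have h2 : b ≠ c := fun h => hbc (by rw [h])
  have h3 : a ≠ c := fun h => hac (by rw [h])
  have key := hkey (fun x => (if x = a then (w b - w c) else 0) + (if x = b then (w c - w a) else 0)
    + (if x = c then (w a - w b) else 0)) (by
      rw [Finset.sum_add_distrib, Finset.sum_add_distrib, Finset.sum_ite_eq', Finset.sum_ite_eq',
        Finset.sum_ite_eq']
      simp) (by
      simp only [add_mul, ite_mul, zero_mul]
      rw [Finset.sum_add_distrib, Finset.sum_add_distrib, Finset.sum_ite_eq', Finset.sum_ite_eq',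
        Finset.sum_ite_eq']
      simp only [Finset.mem_univ, if_true]
      ring) a b (by
      simp only [if_true, if_neg h1, if_neg h3, add_zero]
      exact sub_ne_zero.2 hbc) (by
      simp only [if_true, if_neg h1.symm, if_neg h2, add_zero, zero_add]
      exact sub_ne_zero.2 hac.symm)
  exact hab key

theorem k3_B {ν : Type} [Fintype ν] (w : ν → ZMod ℓ)
    (hkey : ∀ ε : ν → ZMod ℓ, ∑ i, ε i = 0 → ∑ i, ε i * w i = 0 →
      ∀ a b, ε a ≠ 0 → ε b ≠ 0 → w a = w b) (a b c d : ν) (hab : a ≠ b) (hcd : c ≠ d)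
    (wab : w a = w b) (wcd : w c = w d) : w a = w c := by
  classical
  by_contra hac
  have h1 : a ≠ c := fun h => hac (by rw [h])
  have h2 : a ≠ d := fun h => hac (by rw [wcd, h])
  have h3 : b ≠ c := fun h => hac (by rw [wab, h])
  have key := hkey (fun x => (if x = a then 1 else 0) + (if x = b then -1 else 0)
    + (if x = c then 1 else 0) + (if x = d then -1 else 0)) (by
      rw [Finset.sum_add_distrib, Finset.sum_add_distrib, Finset.sum_add_distrib,
        Finset.sum_ite_eq', Finset.sum_ite_eq', Finset.sum_ite_eq', Finset.sum_ite_eq']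
      simp) (by
      simp only [add_mul, ite_mul, zero_mul]
      rw [Finset.sum_add_distrib, Finset.sum_add_distrib, Finset.sum_add_distrib,
        Finset.sum_ite_eq', Finset.sum_ite_eq', Finset.sum_ite_eq', Finset.sum_ite_eq']
      simp only [Finset.mem_univ, if_true]
      rw [wab, wcd]
      ring) a c (by
      simp only [if_true, if_neg hab, if_neg h1, if_neg h2, add_zero]
      exact one_ne_zero) (by
      simp only [if_true, if_neg h1.symm, if_neg h3.symm, if_neg hcd, add_zero, zero_add]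
      exact one_ne_zero)
  exact hac key

theorem k3_third {ν : Type} [Fintype ν] (h3 : 3 ≤ Fintype.card ν) (i j : ν) :
    ∃ k, k ≠ i ∧ k ≠ j := by
  classical
  by_contra hcon
  push Not at hcon
  have hsub : (Finset.univ : Finset ν) ⊆ {i, j} := by
    intro k _
    rw [Finset.mem_insert, Finset.mem_singleton]
    by_cases hk : k = i
    · exact Or.inl hk
    · exact Or.inr (hcon k hk)
  have h1 := Finset.card_le_card hsub
  rw [Finset.card_univ] at h1
  have h2 := Finset.card_le_two (a := i) (b := j)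
  omega

theorem k3_half {ν : Type} [Fintype ν] (w : ν → ZMod ℓ)
    (hkey : ∀ ε : ν → ZMod ℓ, ∑ i, ε i = 0 → ∑ i, ε i * w i = 0 →
      ∀ a b, ε a ≠ 0 → ε b ≠ 0 → w a = w b) (i j k : ν) (hij : w i ≠ w j) (hki : k ≠ i)
    (hw : w k = w i) :
    ∃ i₀, ∀ j, j ≠ i₀ → w j ≠ w i₀ ∧ ∀ j', j' ≠ i₀ → w j = w j' := by
  have hne : ∀ j', j' ≠ j → w j' ≠ w j := by
    intro j' hj' he
    exact hij (k3_B w hkey i k j j' hki.symm hj'.symm hw.symm he.symm)
  have hi : ∀ j', j' ≠ j → w j' = w i := by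
    intro j' hj'
    by_contra hcon
    exact k3_A w hkey i j j' hij (fun h => hne j' hj' h.symm) (fun h => hcon h.symm)
  refine ⟨j, fun j' hj' => ⟨hne j' hj', fun j'' hj'' => ?_⟩⟩
  rw [hi j' hj', hi j'' hj'']

/-- `w` takes at most two values: if `w a`, `w b`, `w c` are different use
`ε = (w b - w c) at a, (w c - w a) at b, (w a - w b) at c`, `0` elsewhere. Two values are not both
taken twice: if `w a = w b ≠ w c = w d` with `a ≠ b`, `c ≠ d`, use `ε = 1, -1` at `a`, `b` and
`1, -1` at `c`, `d` (`∑ ε w = 0`); all four are nonzero, so `w a = w c`. As there are at least three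
indices, and two different values, exactly one index `i₀` has its value alone. -/
theorem comb {ν : Type} [Fintype ν] (h3 : 3 ≤ Fintype.card ν) (w : ν → ZMod ℓ)
    (hne : ∃ i j, w i ≠ w j)
    (hkey : ∀ ε : ν → ZMod ℓ, ∑ i, ε i = 0 → ∑ i, ε i * w i = 0 →
      ∀ a b, ε a ≠ 0 → ε b ≠ 0 → w a = w b) :
    ∃ i₀, ∀ j, j ≠ i₀ → w j ≠ w i₀ ∧ ∀ j', j' ≠ i₀ → w j = w j' := by
  obtain ⟨i, j, hij⟩ := hne
  obtain ⟨k, hki, hkj⟩ := k3_third h3 i j
  by_cases h1 : w k = w i
  · exact k3_half w hkey i j k hij hki h1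
  · by_cases h2 : w k = w j
    · exact k3_half w hkey j i k hij.symm hkj h2
    · exact (k3_A w hkey i j k hij (fun h => h2 h.symm) (fun h => h1 h.symm)).elim

/-- If `π i₀ ≠ i₀` then for `j ≠ i₀`: `w (π i₀) - w (π j) = w i₀ - w j ≠ 0`; `w (π i₀)` is the common
value of all indices different from `i₀`, so `π j = i₀`; this holds for at least two `j`,
a contradiction. -/
theorem comb_fix {ν : Type} [Fintype ν] (h3 : 3 ≤ Fintype.card ν) (w : ν → ZMod ℓ)
    (hne : ∃ i j, w i ≠ w j)
    (hkey : ∀ ε : ν → ZMod ℓ, ∑ i, ε i = 0 → ∑ i, ε i * w i = 0 →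
      ∀ a b, ε a ≠ 0 → ε b ≠ 0 → w a = w b) (π : ν → ν) (hπ : Function.Injective π)
    (hw : ∀ i j, w (π i) - w (π j) = w i - w j) : ∃ i₀, π i₀ = i₀ := by
  obtain ⟨i₀, hi₀⟩ := comb h3 w hne hkey
  refine ⟨i₀, ?_⟩
  by_contra hcon
  have h1 : ∀ j, j ≠ i₀ → π j = i₀ := by
    intro j hj
    by_contra hj'
    have h2 := (hi₀ (π i₀) hcon).2 (π j) hj'
    have h4 := hw i₀ j
    rw [h2, sub_self] at h4
    exact (hi₀ j hj).1 (sub_eq_zero.1 h4.symm).symm
  obtain ⟨j, hj, -⟩ := k3_third h3 i₀ i₀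
  obtain ⟨j', hj', hjj'⟩ := k3_third h3 i₀ j
  exact hjj' (hπ ((h1 j' hj').trans (h1 j hj).symm))

end SUP
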