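import Pool.Agent.MP_c1dca2_ag.SUP.K2
import Pool.Agent.MP_c1dca2_ag.SC2.A6

set_option autoImplicit false
set_option linter.unusedSectionVars false

open Polynomial SEC SC2

namespace SUP

/-! ## [SUP-K4] Frobenius and the exponents (file K4.lean; uses K2, M6, M6b, R0; compare
`SC2.perm_sign` in SC2/B8.lean) -/

variable {k K : Type} [Field k] [Field K] [Algebra k K] {ℓ : ℕ} [hℓ : Fact ℓ.Prime]

theorem k4_iota (s : Sect k K) (σ : kb k K ≃ₐ[k] kb k K) (a : kb k K) :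
    s.toHom σ (iotaM a) = iotaM (σ a) :=
  Subtype.ext (s.split σ a (kb_le _ a.2))

/-- `w_i = w_(π i) - w_(π o)`. -/
theorem k4_key [CharZero k] {A : ValuationSubring k} [IsDiscreteValuationRing A]
    {V : ValuationSubring (kb k K)} (h : Above A V) (hV : V.valuation ((ℓ : ℕ) : kb k K) = 1)
    (s : Sect k K) (x : K) (hx : Transcendental k x) {ν : Type} (r : ν → kb k K) (o : ν)
    (hI : ∀ σ : kb k K ≃ₐ[k] kb k K, Iner V σ → ∀ i, σ (r i) = r i) (T : ν → Mnr k K)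
    (hT0 : ∀ i, T i ≠ 0)
    (hT : ∀ i, T i ^ ℓ * (algebraMap K (Mnr k K) x - iotaM (r o)) =
      algebraMap K (Mnr k K) x - iotaM (r i))
    (q : ℕ) (hq : q.Coprime ℓ) (φ : kb k K ≃ₐ[k] kb k K) (hφ : Frob q V φ) (π : ν → ν)
    (hπ : ∀ i, φ (r i) = r (π i)) (τ : kb k K ≃ₐ[k] kb k K) (hτ : Iner V τ)
    (ζ : kb k K) (hζ : IsPrimitiveRoot ζ ℓ) (w : ν → ZMod ℓ)
    (hw : ∀ i, s.toHom τ (T i) = iotaM (ζ ^ (w i).val) * T i) (i : ν) :
    w i + w (π o) = w (π i) := by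
  have hXo := x_sub_ne x hx (r o)
  -- inertia acts by roots of unity
  have hpow : ∀ j, ∀ σ, Iner V σ → (s.toHom σ (T j)) ^ (ℓ ^ 1) = T j ^ (ℓ ^ 1) := by
    intro j σ hσ
    rw [pow_one]
    have h1 := congrArg (s.toHom σ) (hT j)
    rw [map_mul, map_pow, sect_x_sub s σ x (r o) (r o) (hI σ hσ o),
      sect_x_sub s σ x (r j) (r j) (hI σ hσ j), ← hT j] at h1
    exact mul_right_cancel₀ hXo h1
  obtain ⟨a, ha0, ha1⟩ := exists_pi A
  obtain ⟨t, ht0, ht⟩ := exists_tower' (ℓ := ℓ) (K := K) a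
  have hdiv : ∀ j, s.toHom τ (T j) / T j = iotaM (ζ ^ (w j).val) := by
    intro j
    rw [hw j, mul_div_assoc, div_self (hT0 j), mul_one]
  have hΨ : ∀ j, s.toHom (φ * τ * φ⁻¹) (T j) = iotaM ((ζ ^ (w j).val) ^ q) * T j := by
    intro j
    have h1 := root_weight h hV s (T j) (hT0 j) 1 t a ha0 ha1 ht0 ht (inertia V)
      (fun σ hσ => hσ) (fun σ hσ => hσ.iner) (fun σ hσ => hpow j σ hσ) q φ hφ τ hτ
    rw [hdiv j, ← map_pow] at h1
    rw [← h1, div_mul_cancel₀ _ (hT0 j)]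
  have hφT0 : s.toHom φ (T i) ≠ 0 := fun h0 => hT0 i ((map_eq_zero (s.toHom φ)).1 h0)
  have hW : s.toHom (φ * τ * φ⁻¹) (s.toHom φ (T i)) =
      iotaM ((ζ ^ (w i).val) ^ q) * s.toHom φ (T i) := by
    have h1 := conj_root hV s (T i) (hT0 i) 1 q φ hφ τ (hpow i τ hτ)
    rw [hdiv i, ← map_pow] at h1
    rw [← h1, div_mul_cancel₀ _ hφT0]
  have hconj : Iner V (φ * τ * φ⁻¹) := hτ.conj hφ.stab
  have hsq : (s.toHom φ (T i) * T (π o)) ^ ℓ = T (π i) ^ ℓ := by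
    have h1 := congrArg (s.toHom φ) (hT i)
    rw [map_mul, map_pow, sect_x_sub s φ x (r o) (r (π o)) (hπ o),
      sect_x_sub s φ x (r i) (r (π i)) (hπ i), ← hT (π i), ← hT (π o)] at h1
    apply mul_right_cancel₀ hXo
    rw [← h1, mul_pow, mul_assoc]
  obtain ⟨ξ, hξ, hξ2⟩ := exists_xi ℓ hℓ.out.pos _ _ (hT0 (π i)) hsq
  have hξ3 : s.toHom (φ * τ * φ⁻¹) (iotaM ξ) = iotaM ξ := by
    rw [k4_iota, iner_root hV 1 ξ (by rw [pow_one]; exact hξ) _ hconj]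
  generalize s.toHom (φ * τ * φ⁻¹) = Ψ at hΨ hW hξ3
  have h1 := congrArg Ψ hξ2
  rw [map_mul, map_mul, hW, hΨ, hΨ, hξ3] at h1
  have h2 : iotaM ((ζ ^ (w i).val) ^ q * (ζ ^ (w (π o)).val) ^ q) * (iotaM ξ * T (π i)) =
      iotaM ((ζ ^ (w (π i)).val) ^ q) * (iotaM ξ * T (π i)) := by
    rw [← hξ2, map_mul]
    rw [mul_mul_mul_comm, h1, hξ2]
    ring
  have hne : iotaM ξ * T (π i) ≠ 0 := by
    rw [← hξ2]
    exact mul_ne_zero hφT0 (hT0 _)
  have h3 := b2_iota_inj (mul_right_cancel₀ hne h2)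
  have hζ0 : ζ ≠ 0 := hζ.ne_zero hℓ.out.ne_zero
  have h4 : (ζ ^ (w i).val * ζ ^ (w (π o)).val / ζ ^ (w (π i)).val) = 1 := by
    refine root_pow_inj (ℓ := ℓ) 1 q hq _ ?_ ?_
    · rw [pow_one, div_pow, mul_pow, ← pow_mul, ← pow_mul, ← pow_mul, mul_comm _ ℓ,
        mul_comm _ ℓ, mul_comm _ ℓ, pow_mul, pow_mul, pow_mul, hζ.pow_eq_one, one_pow, one_pow,
        one_pow, one_mul, div_one]
    · rw [div_pow, mul_pow, h3, div_self (pow_ne_zero _ (pow_ne_zero _ hζ0))]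
  rw [div_eq_one_iff_eq (pow_ne_zero _ hζ0), ← pow_add] at h4
  have hinj : ∀ m n : ℕ, m ≤ n → ζ ^ m = ζ ^ n → (m : ZMod ℓ) = n := by
    intro m n hmn hmn2
    have h7 : ζ ^ (n - m) = 1 := by
      have h8 : ζ ^ m * ζ ^ (n - m) = ζ ^ m * 1 := by
        rw [← pow_add, Nat.add_sub_cancel' hmn, mul_one, hmn2]
      exact mul_left_cancel₀ (pow_ne_zero _ hζ0) h8
    have h9 := (ZMod.natCast_eq_zero_iff (n - m) ℓ).2 (hζ.dvd_of_pow_eq_one _ h7)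
    rw [Nat.cast_sub hmn, sub_eq_zero] at h9
    exact h9.symm
  have h6 : (((w i).val + (w (π o)).val : ℕ) : ZMod ℓ) = ((w (π i)).val : ℕ) := by
    rcases le_total ((w i).val + (w (π o)).val) (w (π i)).val with h7 | h7
    · exact hinj _ _ h7 h4
    · exact (hinj _ _ h7 h4.symm).symm
  rw [Nat.cast_add, ZMod.natCast_zmod_val, ZMod.natCast_zmod_val, ZMod.natCast_zmod_val] at h6
  exact h6

/-- For every index `j`, `s (φ τ φ⁻¹) (T j) = ζ^(q w_j) T j` (`root_weight` with `n = 1`,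
`G = inertia V`, `π` from `exists_pi`, `exists_tower'`; `s σ` for `σ` inert multiplies `T j` by an
`ℓ`-th root of unity). `(s φ (T i))^ℓ = (x - r (π i)) / (x - r (π o)) = (T (π i) / T (π o))^ℓ`, so
`s φ (T i) = ξ T (π i) / T (π o)` with a constant `ξ` fixed by inertia. By `conj_root`
`s (φ τ φ⁻¹) (s φ (T i)) = ζ^(q w_i) s φ (T i)`. Comparing, `q w_i = q (w_(π i) - w_(π o))`, so
`w_i = w_(π i) - w_(π o)` for all `i` (`q` is prime to `ℓ`); subtract. -/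
theorem perm_w [CharZero k] {A : ValuationSubring k} [IsDiscreteValuationRing A]
    {V : ValuationSubring (kb k K)} (h : Above A V) (hV : V.valuation ((ℓ : ℕ) : kb k K) = 1)
    (s : Sect k K) (x : K) (hx : Transcendental k x) {ν : Type} (r : ν → kb k K) (o : ν)
    (hI : ∀ σ : kb k K ≃ₐ[k] kb k K, Iner V σ → ∀ i, σ (r i) = r i) (T : ν → Mnr k K)
    (hT0 : ∀ i, T i ≠ 0)
    (hT : ∀ i, T i ^ ℓ * (algebraMap K (Mnr k K) x - iotaM (r o)) =
      algebraMap K (Mnr k K) x - iotaM (r i))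
    (q : ℕ) (hq : q.Coprime ℓ) (φ : kb k K ≃ₐ[k] kb k K) (hφ : Frob q V φ) (π : ν → ν)
    (hπ : ∀ i, φ (r i) = r (π i)) (τ : kb k K ≃ₐ[k] kb k K) (hτ : Iner V τ)
    (ζ : kb k K) (hζ : IsPrimitiveRoot ζ ℓ) (w : ν → ZMod ℓ)
    (hw : ∀ i, s.toHom τ (T i) = iotaM (ζ ^ (w i).val) * T i) (i j : ν) :
    w (π i) - w (π j) = w i - w j := by
  have h1 := k4_key h hV s x hx r o hI T hT0 hT q hq φ hφ π hπ τ hτ ζ hζ w hw i
  have h2 := k4_key h hV s x hx r o hI T hT0 hT q hq φ hφ π hπ τ hτ ζ hζ w hw j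
  linear_combination h2 - h1

end SUP
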