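import Mathlib

set_option autoImplicit false
set_option linter.unusedSectionVars false

namespace SUP

/-! ## [SUP-G1] a lemma on abelian groups (file G1.lean) -/

/-- the elements killed by the iterate `p^N` -/
def g1_A {G : Type} [CommGroup G] (p : G →* G) (N : ℕ) : Subgroup G where
  carrier := {x | p^[N] x = 1}
  mul_mem' := by
    intro x y hx hy
    show p^[N] (x * y) = 1
    rw [iterate_map_mul, hx, hy, mul_one]
  one_mem' := iterate_map_one p N
  inv_mem' := by
    intro x hx
    show p^[N] x⁻¹ = 1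
    rw [iterate_map_inv, hx, inv_one]

theorem g1_mem {G : Type} [CommGroup G] (p : G →* G) (N : ℕ) (x : G) : x ∈ g1_A p N ↔ p^[N] x = 1 := Iff.rfl

theorem g1_finite {G : Type} [CommGroup G] (p : G →* G) (hk : {x | p x = 1}.Finite) (N : ℕ) :
    {x : G | p^[N] x = 1}.Finite := by
  induction N with
  | zero =>
    refine (Set.finite_singleton (1 : G)).subset ?_
    intro x hx
    exact hx
  | succ N ih =>
    have h1 : {x : G | p^[N + 1] x = 1} = p ⁻¹' {x : G | p^[N] x = 1} := by
      ext x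
      show p^[N + 1] x = 1 ↔ p^[N] (p x) = 1
      rw [Function.iterate_succ_apply]
    rw [h1]
    refine ih.preimage' fun b _ => ?_
    rcases Set.eq_empty_or_nonempty (p ⁻¹' {b}) with h2 | ⟨x0, hx0⟩
    · rw [h2]
      exact Set.finite_empty
    · refine (hk.image (fun y => x0 * y)).subset ?_
      intro y hy
      refine ⟨x0⁻¹ * y, ?_, mul_inv_cancel_left x0 y⟩
      have h3 : p x0 = b := hx0
      have h4 : p y = b := hy
      show p (x0⁻¹ * y) = 1
      rw [map_mul, map_inv, h3, h4, inv_mul_cancel]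

/-- restriction of `f` -/
def g1_f {G : Type} [CommGroup G] (p f : G →* G) (hc : ∀ x, p (f x) = f (p x)) (N : ℕ) : g1_A p N →* g1_A p N :=
  (f.comp (g1_A p N).subtype).codRestrict (g1_A p N) (by
    intro x
    show p^[N] (f x) = 1
    have h1 : p^[N] (f (x : G)) = f (p^[N] (x : G)) := Function.Commute.iterate_left (f := p) (g := f) hc N (x : G)
    rw [h1, (x.2 : p^[N] (x : G) = 1), map_one])

theorem g1_index {G : Type} [CommGroup G] (p f : G →* G) (hc : ∀ x, p (f x) = f (p x))
    (hk : {x | p x = 1}.Finite) (hf : {x | (∃ n : ℕ, p^[n] x = 1) ∧ f x = 1}.Finite) (N : ℕ) :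
    Nat.card (g1_A p N ⧸ (g1_f p f hc N).range) ≤ Nat.card {x | (∃ n : ℕ, p^[n] x = 1) ∧ f x = 1} := by
  have hfin : Finite (g1_A p N) := (g1_finite p hk N).to_subtype
  have h1 := Subgroup.card_mul_index (g1_f p f hc N).range
  have h2 := Subgroup.card_mul_index (g1_f p f hc N).ker
  rw [Subgroup.index_ker] at h2
  have h3 : 0 < Nat.card (g1_f p f hc N).range := Nat.card_pos
  have h4 : (g1_f p f hc N).range.index = Nat.card (g1_f p f hc N).ker := by
    apply Nat.eq_of_mul_eq_mul_left h3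
    rw [h1, ← h2, mul_comm]
  have h5 : Nat.card (g1_A p N ⧸ (g1_f p f hc N).range) = (g1_f p f hc N).range.index := rfl
  rw [h5, h4]
  have hfin2 : Finite {x | (∃ n : ℕ, p^[n] x = 1) ∧ f x = 1} := hf.to_subtype
  refine Nat.card_le_card_of_injective (fun x => ⟨((x : g1_A p N) : G), ⟨N, (x : g1_A p N).2⟩, ?_⟩) ?_
  · have h6 : g1_f p f hc N (x : g1_A p N) = 1 := x.2
    exact congrArg Subtype.val h6
  · intro x y hxy
    have h7 : ((x : g1_A p N) : G) = ((y : g1_A p N) : G) := by
      have h8 := congrArg (fun z : {x | (∃ n : ℕ, p^[n] x = 1) ∧ f x = 1} => (z : G)) hxy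
      exact h8
    exact Subtype.ext (Subtype.ext h7)

/-- `A = {x | ∃ n, p^n x = 1}`, `A_n = {x | p^n x = 1}` (finite: by induction, `p` is surjective with
finite kernel). Let `K` be the number of elements of `A` killed by `f`. `f` maps `A_n` to `A_n`
(it commutes with `p`) with fibres of at most `K` elements, so `K |f(A_n)| ≥ |A_n|` and `A_n` is not
the union of more than `K` (pairwise disjoint) cosets of `f(A_n)`: among `K + 1` elements of `A_n`
there are two whose quotient is in `f(A_n)`. Let `x ∈ A`, `x_0 = x`, `p x_(i+1) = x_i` (`p` is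
surjective; all `x_i` are in `A`). So there are `i < j` with `x_i / x_j ∈ f(A)`; apply `p^i`:
`x / x_m ∈ f(A)` with `m = j - i > 0`; apply `p^m`: `p^m x / x ∈ f(A)`; so
`p^(m k) x / x ∈ f(A)` for all `k`, and `p^(m k) x = 1` for large `k`. -/
theorem surj_of_finite {G : Type} [CommGroup G] (p f : G →* G) (hc : ∀ x, p (f x) = f (p x))
    (hp : Function.Surjective p) (hk : {x | p x = 1}.Finite)
    (hf : {x | (∃ n : ℕ, p^[n] x = 1) ∧ f x = 1}.Finite) (x : G) (hx : ∃ n : ℕ, p^[n] x = 1) :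
    ∃ y, (∃ n : ℕ, p^[n] y = 1) ∧ f y = x := by
  obtain ⟨n, hn⟩ := hx
  obtain ⟨K, hK⟩ : ∃ K, K = Nat.card {x | (∃ n : ℕ, p^[n] x = 1) ∧ f x = 1} := ⟨_, rfl⟩
  choose g hg using hp
  have hX : ∀ i : ℕ, p^[i] (g^[i] x) = x := by
    intro i
    induction i with
    | zero => rfl
    | succ i ih => rw [Function.iterate_succ_apply, Function.iterate_succ_apply', hg, ih]
  have hX2 : ∀ i j : ℕ, p^[i] (g^[i + j] x) = g^[j] x := by
    intro i
    induction i with
    | zero => intro j; rw [zero_add]; rfl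
    | succ i ih =>
      intro j
      rw [Function.iterate_succ_apply, show i + 1 + j = (i + j) + 1 by ring, Function.iterate_succ_apply', hg, ih]
  have hcomm : ∀ (i : ℕ) (y : G), p^[i] (f y) = f (p^[i] y) := fun i y =>
    Function.Commute.iterate_left (f := p) (g := f) hc i y
  -- the elements are killed by `p^(n + K)`
  have hkill : ∀ i : ℕ, i ≤ K → p^[n + K] (g^[i] x) = 1 := by
    intro i hi
    have h1 : n + K = (K - i) + (n + i) := by omega
    rw [h1, Function.iterate_add_apply, Function.iterate_add_apply p n i, hX, hn, iterate_map_one]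
  have hex : ∃ i j : ℕ, i < j ∧ ∃ y, (∃ n : ℕ, p^[n] y = 1) ∧ f y = (g^[i] x)⁻¹ * g^[j] x := by
    have h1 : ¬ Function.Injective (fun i : Fin (K + 1) =>
        ((⟨g^[i] x, hkill i (Nat.lt_succ_iff.1 i.2)⟩ : g1_A p (n + K)) : g1_A p (n + K) ⧸ (g1_f p f hc (n + K)).range)) := by
      intro hinj
      have hfin : Finite (g1_A p (n + K)) := (g1_finite p hk (n + K)).to_subtype
      have h2 := Nat.card_le_card_of_injective _ hinj
      rw [Nat.card_fin] at h2
      have h3 := g1_index p f hc hk hf (n + K)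
      rw [← hK] at h3
      omega
    rw [Function.Injective] at h1
    push Not at h1
    obtain ⟨i, j, hij, hne⟩ := h1
    have h2 := (QuotientGroup.eq).1 hij
    obtain ⟨y, hy⟩ := h2
    have h3 : f (y : G) = (g^[(i : ℕ)] x)⁻¹ * g^[(j : ℕ)] x := congrArg Subtype.val hy
    have hne' : (i : ℕ) ≠ j := fun h => hne (Fin.ext h)
    rcases lt_or_gt_of_ne hne' with h4 | h4
    · exact ⟨i, j, h4, y, ⟨n + K, y.2⟩, h3⟩
    · refine ⟨j, i, h4, (y : G)⁻¹, ⟨n + K, ?_⟩, ?_⟩
      · rw [iterate_map_inv, (y.2 : p^[n + K] (y : G) = 1), inv_one]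
      · rw [map_inv, h3]
        group
  obtain ⟨i, j, hij, y, ⟨a, ha⟩, hy⟩ := hex
  obtain ⟨m, rfl⟩ : ∃ m, j = i + m := ⟨j - i, by omega⟩
  have hm : 0 < m := by omega
  -- apply `p^i` and `p^m`
  have h1 : f (p^[i] y) = x⁻¹ * g^[m] x := by
    rw [← hcomm, hy, iterate_map_mul, iterate_map_inv, hX, hX2]
  have h2 : f (p^[m] (p^[i] y)) = (p^[m] x)⁻¹ * x := by
    rw [← hcomm, h1, iterate_map_mul, iterate_map_inv, hX]
  have hkz : ∀ (b : ℕ) (z : G), (∃ n : ℕ, p^[n] z = 1) → ∃ n : ℕ, p^[n] (p^[b] z) = 1 := by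
    rintro b z ⟨c, hc'⟩
    refine ⟨c, ?_⟩
    rw [← Function.iterate_add_apply, add_comm, Function.iterate_add_apply, hc', iterate_map_one]
  obtain ⟨y', hy'⟩ : ∃ y', y' = p^[m] (p^[i] y) := ⟨_, rfl⟩
  have hy'1 : ∃ n : ℕ, p^[n] y' = 1 := by
    rw [hy']
    exact hkz m _ (hkz i _ ⟨a, ha⟩)
  rw [← hy'] at h2
  have hstep : ∀ k : ℕ, ∃ z, (∃ n : ℕ, p^[n] z = 1) ∧ x = p^[m * k] x * f z := by
    intro k
    induction k with
    | zero =>
      refine ⟨1, ⟨0, rfl⟩, ?_⟩
      rw [mul_zero, map_one, mul_one]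
      rfl
    | succ k ih =>
      obtain ⟨z, hz, hxz⟩ := ih
      obtain ⟨c, hc1⟩ := hkz m z hz
      obtain ⟨d, hd⟩ := hy'1
      refine ⟨p^[m] z * y', ⟨c + d, ?_⟩, ?_⟩
      · rw [iterate_map_mul, add_comm, Function.iterate_add_apply, hc1, iterate_map_one, one_mul, add_comm,
          Function.iterate_add_apply, hd, iterate_map_one]
      · have h3 : p^[m] x = p^[m * (k + 1)] x * f (p^[m] z) := by
          conv_lhs => rw [hxz]
          rw [iterate_map_mul, hcomm, ← Function.iterate_add_apply, show m + m * k = m * (k + 1) by ring]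
        rw [map_mul, h2, ← mul_assoc, ← h3, mul_inv_cancel_left]
  obtain ⟨z, hz, hxz⟩ := hstep n
  refine ⟨z, hz, ?_⟩
  have h3 : p^[m * n] x = 1 := by
    have h4 : m * n = (m * n - n) + n := by
      have : n ≤ m * n := Nat.le_mul_of_pos_left n hm
      omega
    rw [h4, Function.iterate_add_apply, hn, iterate_map_one]
  rw [h3, one_mul] at hxz
  exact hxz.symm

end SUP
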