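import Pool.Agent.MP_c1dca2_ag.SUP.C5c
import Pool.Agent.MP_c1dca2_ag.SUP.G1

set_option autoImplicit false
set_option linter.unusedSectionVars false

open Polynomial IsLocalRing

namespace SUP

/-! ## [SUP-C6] the algebraic main theorem (file C6.lean) -/

variable {F : Type} [Field F] [IsAlgClosed F] {V : ValuationSubring F} {ι : Type} [Fintype ι]
  {ℓ : ℕ} [hℓ : Fact ℓ.Prime] {e : ι → ZMod ℓ} {α : ι → V}
  [hG : Fact (Good e (fun a => (α a : F)))] [hG' : Fact (Good e (fun a => residue V (α a)))]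

/-- The class of `PI a` is of the form `Ψ D / D` with `D` in `AA`. -/
theorem exists_D {ζ : V} (hζ : IsPrimitiveRoot (ζ : F) ℓ)
    (hζ' : IsPrimitiveRoot (residue V ζ) ℓ) {Ψ : F ≃+* F} (hS : Stab V Ψ) (Q : ℕ) (hQ : 2 ≤ Q)
    (hF : ∀ z ∈ V, Ψ z - z ^ Q ∈ V.nonunits) (hα : ∀ a, Ψ (α a : F) = (α a : F))
    (hΨζ : Ψ (ζ : F) = (ζ : F)) (a : ι) :
    ∃ D : ClassGroup (BB e (fun a => (α a : F))),
      D ∈ AA (sg (e := e) (α := fun a => (α a : F)) (ζ : F) hζ.pow_eq_one) ∧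
      clm (bE (e := e) (α := fun a => (α a : F)) Ψ hα) D / D = cls (PI e (fun a => (α a : F)) a) := by
  classical
  set p := piH (sg (e := e) (α := fun a => (α a : F)) (ζ : F) hζ.pow_eq_one) with hp
  set c := clm (bE (e := e) (α := fun a => (α a : F)) Ψ hα) with hc
  let f : ClassGroup (BB e (fun a => (α a : F))) →* ClassGroup (BB e (fun a => (α a : F))) :=
    { toFun := fun D => c D / D
      map_one' := by rw [map_one, div_one]
      map_mul' := fun D D' => by rw [map_mul, mul_div_mul_comm] }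
  have hf : ∀ D, f D = c D / D := fun _ => rfl
  have hcomm : ∀ D, p (c D) = c (p D) := fun D => piH_clm hζ.pow_eq_one hΨζ hα D
  have h1 := surj_of_finite p f (fun D => by rw [hf, hf, _root_.map_div, hcomm])
    (piH_surj (ζ : F) hζ)
    ((finite_fixed (e := e) (α := fun a => (α a : F)) (ζ : F) hζ).subset (by
      intro D hD
      change p D = 1 at hD
      rw [hp, piH_apply, div_eq_one] at hD
      exact hD.symm))
    ((finite_fixed_classes hζ hζ' hS Q hQ hF hα).subset (by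
      rintro D ⟨hD, hD'⟩
      change c D / D = 1 at hD'
      exact ⟨hD, div_eq_one.1 hD'⟩))
    (cls (PI e (fun a => (α a : F)) a)) ⟨1, by
      change p _ = 1
      rw [hp, piH_apply, clm_cls _ (PI_ne_bot a), PI_sg, div_self']⟩
  obtain ⟨D, hD, hD'⟩ := h1
  exact ⟨D, hD, hD'⟩

/-- The algebraic main theorem. -/
theorem alg_main {ζ : V} (hζ : IsPrimitiveRoot (ζ : F) ℓ)
    (hζ' : IsPrimitiveRoot (residue V ζ) ℓ) {Ψ : F ≃+* F} (hS : Stab V Ψ) (Q : ℕ) (hQ : 2 ≤ Q)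
    (hF : ∀ z ∈ V, Ψ z - z ^ Q ∈ V.nonunits) (hα : ∀ a, Ψ (α a : F) = (α a : F))
    (hΨζ : Ψ (ζ : F) = (ζ : F)) (a : ι) :
    ∃ (J : Ideal (BB e (fun a => (α a : F)))) (n : ℕ), J ≠ ⊥ ∧
      (∃ g, J ^ (ℓ ^ n) = Ideal.span {g}) ∧
      (∀ (τ : F ≃+* F) (hτ : ∀ a, τ (α a : F) = (α a : F)), Stab V τ →
        (∀ z ∈ V, τ z - z ∈ V.nonunits) →
        J.map (bE (e := e) (α := fun a => (α a : F)) τ hτ) = J ∧
        (J.map (bE (e := e) (α := fun a => (α a : F)) Ψ hα)).map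
          (bE (e := e) (α := fun a => (α a : F)) τ hτ) =
            J.map (bE (e := e) (α := fun a => (α a : F)) Ψ hα)) ∧
      ∃ b b' : BB e (fun a => (α a : F)), b ≠ 0 ∧ b' ≠ 0 ∧
        Ideal.span {b} * J.map (bE (e := e) (α := fun a => (α a : F)) Ψ hα) =
          Ideal.span {b'} * (J * PI e (fun a => (α a : F)) a) := by
  obtain ⟨D, hD, hD'⟩ := exists_D (e := e) (α := α) hζ hζ' hS Q hQ hF hα hΨζ a
  obtain ⟨n, hn⟩ := torsion_of_mem (ζ : F) hζ D hD
  have hJ : rdc D ≠ ⊥ := rdc_ne D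
  refine ⟨rdc D, n, hJ, ?_, ?_, ?_⟩
  · rw [← cls_eq_one_iff (pow_ne_zero _ hJ)]
    have : ∀ m : ℕ, cls (rdc D ^ m) = D ^ m := by
      intro m
      induction m with
      | zero =>
        rw [pow_zero, pow_zero, cls_eq_one_iff one_ne_zero]
        exact ⟨1, by rw [Ideal.span_singleton_one, Ideal.one_eq_top]⟩
      | succ m ih => rw [pow_succ, pow_succ, cls_mul (pow_ne_zero _ hJ) hJ, ih, cls_rdc]
    rw [this, hn]
  · intro τ hτ hSτ hIτ
    constructor
    · rw [rdc_map, inertia_trivial hζ hζ' hSτ hIτ hτ D hD]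
    · rw [rdc_map, rdc_map, inertia_trivial hζ hζ' hSτ hIτ hτ _
        (clm_mem_AA hζ.pow_eq_one hΨζ hα hD)]
  · rw [← cls_eq_iff (map_ne_bot _ hJ) (mul_ne_zero hJ (PI_ne_bot a)), ← clm_cls _ hJ, cls_rdc,
      cls_mul hJ (PI_ne_bot a), cls_rdc, ← hD', mul_div_cancel]

end SUP
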