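import Pool.Agent.MP_c1dca2_ag.SUP.M5

set_option autoImplicit false
set_option linter.unusedSectionVars false

open Polynomial SEC SC2

namespace SUP

/-! ## [SUP-M5b] multiplicativity of the pairing (file M5b.lean, continuation of M5.lean; uses A3, A10, L1, M2, M4, R0) -/

variable {k K : Type} [Field k] [Field K] [Algebra k K]
  {ι : Type} [Fintype ι] {ℓ : ℕ} [hℓ : Fact ℓ.Prime] {e : ι → ZMod ℓ} {α : ι → kb k K}
  [hG : Fact (Good e α)]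

/-- two elements of `M` with the same `N`-th power differ by a constant root of unity -/
theorem m5b_xi (N : ℕ) (hN : 0 < N) (z w : Mnr k K) (hz : z ≠ 0) (h : w ^ N = z ^ N) :
    ∃ ξ : kb k K, ξ ^ N = 1 ∧ w = iotaM ξ * z := by
  have h1 : (w / z) ^ N = 1 := by
    rw [div_pow, h, div_self (pow_ne_zero _ hz)]
  have h2 : ((w / z : Mnr k K) : Om K) ^ N = 1 := by
    have := congrArg (fun t : Mnr k K => (t : Om K)) h1
    simpa using this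
  have h3 : IsIntegral k ((w / z : Mnr k K) : Om K) := by
    refine ⟨X ^ N - 1, monic_X_pow_sub_C (1 : k) hN.ne', ?_⟩
    rw [eval₂_sub, eval₂_pow, eval₂_X, eval₂_one, h2, sub_self]
  have h4 : ((w / z : Mnr k K) : Om K) ∈ kb k K := mem_algebraicClosure_iff.2 h3.isAlgebraic
  refine ⟨⟨_, h4⟩, ?_, ?_⟩
  · apply Subtype.ext
    exact h2
  · have h5 : iotaM (⟨_, h4⟩ : kb k K) = w / z := Subtype.ext rfl
    rw [h5, div_mul_cancel₀ w hz]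

theorem m5b_norm [IsAlgClosed (kb k K)] {b : BB e α} (hb : b ≠ 0) :
    ∃ c : BB e α, lc c = 1 ∧ c ≠ 0 ∧ Ideal.span {c} = Ideal.span {b} := by
  have hs := hG.out.sum
  have h0 := lc_ne hs hb
  refine ⟨(lc b)⁻¹ • b, ?_, ?_, ?_⟩
  · rw [lc_smul hs, inv_mul_cancel₀ h0]
  · intro h
    have : lc ((lc b)⁻¹ • b) = 0 := (lc_eq_zero_iff hs _).2 h
    rw [lc_smul hs, inv_mul_cancel₀ h0] at this
    exact one_ne_zero this
  · exact (span_eq_iff.2 ⟨(lc b)⁻¹, inv_ne_zero h0, rfl⟩).symm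

theorem m5b_ne_of_lc {b : BB e α} (hb : lc b = 1) : b ≠ 0 := by
  intro h
  rw [(lc_eq_zero_iff hG.out.sum b).2 h] at hb
  exact zero_ne_one hb

/-- `J^N = (g)`, `J₁^N = (g₁)`, `J₂^N = (g₂)`, `N = ℓ^n`, all with leading coefficient `1`;
`(b) J = (b') J₁ J₂`, and we may divide `b`, `b'` by their leading coefficients. So `b^N g = b'^N g₁ g₂`
(`eq_of_span_eq`) and `(emb b ρ)^N = (emb b' ρ₁ ρ₂)^N`: `emb b ρ = η emb b' ρ₁ ρ₂`, `η^N = 1`, `η`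
(a constant) fixed by `s τ` (`iner_root`). `emb b' / emb b` is fixed (`quot_fixed`, `sect_emb`). -/
theorem pair_mul [CharZero k] [IsAlgClosed (kb k K)] {V : ValuationSubring (kb k K)}
    (hV : V.valuation ((ℓ : ℕ) : kb k K) = 1) (s : Sect k K) (τ : kb k K ≃ₐ[k] kb k K)
    (hτ : Iner V τ) (x : Mnr k K) (hx : (x : Om K) ∉ kb k K)
    (y : ι → Mnr k K) (hy : ∀ a, y a ^ ℓ = x - iotaM (α a)) (hτx : s.toHom τ x = x)
    (hτα : ∀ a, τ (α a) = α a)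
    (hτU : s.toHom τ (emb e x y hy (BB.v e α 1)) = emb e x y hy (BB.v e α 1)) (n : ℕ)
    (J J₁ J₂ : Ideal (BB e α)) (hJ : J ≠ ⊥) (hJ₁ : J₁ ≠ ⊥) (hJ₂ : J₂ ≠ ⊥) (g g₁ g₂ : BB e α)
    (hg : lc g = 1) (hg₁ : lc g₁ = 1) (hg₂ : lc g₂ = 1) (h : J ^ (ℓ ^ n) = Ideal.span {g})
    (h₁ : J₁ ^ (ℓ ^ n) = Ideal.span {g₁}) (h₂ : J₂ ^ (ℓ ^ n) = Ideal.span {g₂})
    (hinv : J.map (bE (e := e) (τ : kb k K ≃+* kb k K) hτα) = J)
    (hinv₁ : J₁.map (bE (e := e) (τ : kb k K ≃+* kb k K) hτα) = J₁)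
    (hinv₂ : J₂.map (bE (e := e) (τ : kb k K ≃+* kb k K) hτα) = J₂)
    (b b' : BB e α) (hb : b ≠ 0) (hb' : b' ≠ 0)
    (hbb : Ideal.span {b} * J = Ideal.span {b'} * (J₁ * J₂)) (ρ ρ₁ ρ₂ : Mnr k K)
    (hρ : ρ ^ (ℓ ^ n) = emb e x y hy g) (hρ₁ : ρ₁ ^ (ℓ ^ n) = emb e x y hy g₁)
    (hρ₂ : ρ₂ ^ (ℓ ^ n) = emb e x y hy g₂) :
    s.toHom τ ρ * (ρ₁ * ρ₂) = ρ * (s.toHom τ ρ₁ * s.toHom τ ρ₂) := by
  have hs := hG.out.sum
  obtain ⟨c, hc1, hc0, hcs⟩ := m5b_norm hb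
  obtain ⟨c', hc1', hc0', hcs'⟩ := m5b_norm hb'
  have hg0 : g ≠ 0 := m5b_ne_of_lc hg
  have hg10 : g₁ ≠ 0 := m5b_ne_of_lc hg₁
  have hg20 : g₂ ≠ 0 := m5b_ne_of_lc hg₂
  have hN : 0 < ℓ ^ n := pow_pos hℓ.out.pos n
  have hcc : Ideal.span {c} * J = Ideal.span {c'} * (J₁ * J₂) := by rw [hcs, hcs', hbb]
  have hJ12 : J₁ * J₂ ≠ ⊥ := mul_ne_zero hJ₁ hJ₂
  -- the equation of the generators
  have heq : c ^ (ℓ ^ n) * g = c' ^ (ℓ ^ n) * (g₁ * g₂) := by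
    refine eq_of_span_eq (mul_ne_zero (pow_ne_zero _ hc0) hg0) ?_ ?_
    · rw [← Ideal.span_singleton_mul_span_singleton, ← Ideal.span_singleton_mul_span_singleton,
        ← Ideal.span_singleton_mul_span_singleton, ← Ideal.span_singleton_pow,
        ← Ideal.span_singleton_pow, ← h, ← h₁, ← h₂, ← mul_pow, ← mul_pow, ← mul_pow, hcc]
    · rw [lc_mul hs, lc_mul hs, lc_mul hs, lc_pow hs, lc_pow hs, hc1, hc1', hg, hg₁, hg₂]
      simp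
  have hA := emb_ne x hx y hy hc0
  have hA' := emb_ne x hx y hy hc0'
  have hE1 := emb_ne x hx y hy hg10
  have hE2 := emb_ne x hx y hy hg20
  have hρ10 : ρ₁ ≠ 0 := by
    intro h0
    rw [h0, zero_pow hN.ne'] at hρ₁
    exact hE1 hρ₁.symm
  have hρ20 : ρ₂ ≠ 0 := by
    intro h0
    rw [h0, zero_pow hN.ne'] at hρ₂
    exact hE2 hρ₂.symm
  have hpow : (emb e x y hy c * ρ) ^ (ℓ ^ n) = (emb e x y hy c' * (ρ₁ * ρ₂)) ^ (ℓ ^ n) := by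
    rw [mul_pow, mul_pow, mul_pow, hρ, hρ₁, hρ₂, ← map_pow, ← map_pow, ← map_mul, ← map_mul,
      ← map_mul, heq]
  obtain ⟨ξ, hξ, hξe⟩ := m5b_xi (ℓ ^ n) hN _ _ (mul_ne_zero hA' (mul_ne_zero hρ10 hρ20)) hpow
  have hsξ : s.toHom τ (iotaM ξ) = iotaM ξ := by
    rw [sect_iota, iner_root hV n ξ hξ τ hτ]
  have hξ0 : iotaM ξ ≠ 0 := by
    intro h0
    have h1 : ξ = 0 := (map_eq_zero iotaM).1 h0
    rw [h1, zero_pow hN.ne'] at hξ
    exact zero_ne_one hξ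
  -- apply the section
  have hsc := sect_emb s τ x hx y hy hτx hτα hτU c
  have hsc' := sect_emb s τ x hx y hy hτx hτα hτU c'
  have hξe' := congrArg (s.toHom τ) hξe
  rw [map_mul, map_mul, map_mul, map_mul, hsξ, hsc, hsc'] at hξe'
  have hinv' : (J₁ * J₂).map (bE (e := e) (τ : kb k K ≃+* kb k K) hτα) = J₁ * J₂ := by
    rw [Ideal.map_mul, hinv₁, hinv₂]
  have hq := quot_fixed (τ : kb k K ≃+* kb k K) hτα J (J₁ * J₂) hJ hJ12 c c' hc1 hc1' hcc hinv hinv'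
  have hq' := congrArg (emb e x y hy) hq
  rw [map_mul, map_mul] at hq'
  have hAτ : emb e x y hy (bE (τ : kb k K ≃+* kb k K) hτα c) ≠ 0 := by
    rw [← hsc]
    exact fun h0 => hA ((map_eq_zero (s.toHom τ)).1 h0)
  have hcan : iotaM ξ * emb e x y hy c' * emb e x y hy (bE (τ : kb k K ≃+* kb k K) hτα c) ≠ 0 :=
    mul_ne_zero (mul_ne_zero hξ0 hA') hAτ
  apply mul_left_cancel₀ hcan
  linear_combination (emb e x y hy (bE (τ : kb k K ≃+* kb k K) hτα c) * s.toHom τ ρ) * (-hξe)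
    + (emb e x y hy c * ρ) * hξe' + (-iotaM ξ * ρ * (s.toHom τ ρ₁ * s.toHom τ ρ₂)) * hq'

end SUP
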