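import Pool.Agent.MP_c1dca2_ag.SUP.M6

set_option autoImplicit false
set_option linter.unusedSectionVars false

open Polynomial SEC SC2

namespace SUP

/-! ## [SUP-M6b] characters of inertia on roots in `M` (file M6b.lean, continuation of M6.lean; uses M1, R0, R4, R5; compare
`SC2.sign_frob` in SC2/B3.lean) -/

variable {k K : Type} [Field k] [Field K] [Algebra k K] {ℓ : ℕ} [hℓ : Fact ℓ.Prime]

theorem m6b_sect (s : Sect k K) (σ : kb k K ≃ₐ[k] kb k K) (ξ : kb k K) :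
    s.toHom σ (iotaM ξ) = iotaM (σ ξ) := by
  apply Subtype.ext
  exact s.split σ ξ (kb_le _ ξ.2)

theorem m6b_mul' (s : Sect k K) (σ τ : kb k K ≃ₐ[k] kb k K) (z : Mnr k K) :
    s.toHom (σ * τ) z = s.toHom σ (s.toHom τ z) := by
  rw [map_mul, AlgEquiv.mul_apply]

theorem m6b_ne (s : Sect k K) (σ : kb k K ≃ₐ[k] kb k K) (z : Mnr k K) (hz : z ≠ 0) :
    s.toHom σ z ≠ 0 := fun h => hz ((map_eq_zero (s.toHom σ)).1 h)

/-- the cocycle as a unit -/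
noncomputable def m6b_u (s : Sect k K) (z : Mnr k K) (hz : z ≠ 0) (σ : kb k K ≃ₐ[k] kb k K) :
    Additive (Mnr k K)ˣ :=
  Additive.ofMul (Units.mk0 (s.toHom σ z / z) (div_ne_zero (m6b_ne s σ z hz) hz))

theorem m6b_u_zero (s : Sect k K) (z : Mnr k K) (hz : z ≠ 0) (σ : kb k K ≃ₐ[k] kb k K) :
    m6b_u s z hz σ = 0 ↔ s.toHom σ z = z := by
  unfold m6b_u
  rw [ofMul_eq_zero, Units.ext_iff, Units.val_mk0, Units.val_one, div_eq_one_iff_eq hz]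

theorem m6b_u_add {V : ValuationSubring (kb k K)}
    (hV : V.valuation ((ℓ : ℕ) : kb k K) = 1) (s : Sect k K) (z : Mnr k K) (hz : z ≠ 0) (n : ℕ)
    (σ τ : kb k K ≃ₐ[k] kb k K) (hσ : Iner V σ)
    (hτ : (s.toHom τ z) ^ (ℓ ^ n) = z ^ (ℓ ^ n)) :
    m6b_u s z hz (σ * τ) = m6b_u s z hz σ + m6b_u s z hz τ := by
  obtain ⟨ξ, hξ, hξz⟩ := exists_xi (ℓ ^ n) (pow_pos hℓ.out.pos n) z (s.toHom τ z) hz hτ
  have h1 : s.toHom (σ * τ) z = iotaM ξ * s.toHom σ z := by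
    rw [m6b_mul', hξz, map_mul, m6b_sect, iner_root hV n ξ hξ σ hσ]
  unfold m6b_u
  rw [← ofMul_mul]
  congr 1
  apply Units.ext
  rw [Units.val_mul, Units.val_mk0, Units.val_mk0, Units.val_mk0, h1, hξz]
  field_simp

theorem m6b_u_smul (s : Sect k K) (z : Mnr k K) (hz : z ≠ 0) (n : ℕ)
    (τ : kb k K ≃ₐ[k] kb k K) (hτ : (s.toHom τ z) ^ (ℓ ^ n) = z ^ (ℓ ^ n)) :
    (ℓ ^ n) • m6b_u s z hz τ = 0 := by
  unfold m6b_u
  rw [← ofMul_pow, ofMul_eq_zero, Units.ext_iff, Units.val_pow_eq_pow_val, Units.val_mk0,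
    Units.val_one, div_pow, hτ, div_self (pow_ne_zero _ hz)]

/-- Apply `wild_trivial` with `H = Additive (Mnr k K)ˣ` and `χ σ = s σ z / z = iotaM ξ` (`exists_xi`,
additive since `s σ` fixes the constants `ξ`, `iner_root`), `E` from `open_stab`. -/
theorem wild_fix [CharZero k] {A : ValuationSubring k} [IsDiscreteValuationRing A]
    {V : ValuationSubring (kb k K)} (h : Above A V) (hV : V.valuation ((ℓ : ℕ) : kb k K) = 1)
    (s : Sect k K) (z : Mnr k K) (hz : z ≠ 0) (n : ℕ) (π : ℕ → kb k K) (a : k) (ha0 : a ≠ 0)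
    (ha1 : A.valuation a ≠ 1) (hπ : π 0 = algebraMap k (kb k K) a)
    (hπ' : ∀ m, π (m + 1) ^ ℓ = π m)
    (hs : ∀ σ, Wild V π σ → (s.toHom σ z) ^ (ℓ ^ n) = z ^ (ℓ ^ n)) (σ : kb k K ≃ₐ[k] kb k K)
    (hσ : Wild V π σ) : s.toHom σ z = z := by
  have hac : IsAlgClosed (kb k K) := kb_isAlgClosed
  have hgal : IsGalois k (kb k K) := kb_isGalois
  obtain ⟨E, hEf, hE⟩ := open_stab s z
  have hπ0 : π 0 ≠ 0 := by
    rw [hπ]
    exact (_root_.map_ne_zero _).2 ha0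
  have key := wild_trivial (k := k) (C := kb k K) hV π hπ' hπ0
    (fun u hu => by
      rw [hπ]
      exact val_torsion h u hu a ha0 ha1)
    (Additive (Mnr k K)ˣ) (m6b_u s z hz)
    (fun σ τ hσ hτ => m6b_u_add hV s z hz n σ τ hσ.iner (hs τ hτ)) n
    (fun σ hσ => m6b_u_smul s z hz n σ (hs σ hσ)) E
    (fun σ _ hσE => (m6b_u_zero s z hz σ).2 (hE σ hσE)) σ hσ
  exact (m6b_u_zero s z hz σ).1 key

/-- Apply `weight` in the same way. -/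
theorem root_weight [CharZero k] {A : ValuationSubring k} [IsDiscreteValuationRing A]
    {V : ValuationSubring (kb k K)} (h : Above A V) (hV : V.valuation ((ℓ : ℕ) : kb k K) = 1)
    (s : Sect k K) (z : Mnr k K) (hz : z ≠ 0) (n : ℕ) (π : ℕ → kb k K) (a : k) (ha0 : a ≠ 0)
    (ha1 : A.valuation a ≠ 1) (hπ : π 0 = algebraMap k (kb k K) a)
    (hπ' : ∀ m, π (m + 1) ^ ℓ = π m) (G : Subgroup (kb k K ≃ₐ[k] kb k K))
    (hGI : ∀ σ ∈ G, Iner V σ) (hGW : ∀ σ, Wild V π σ → σ ∈ G)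
    (hs : ∀ σ ∈ G, (s.toHom σ z) ^ (ℓ ^ n) = z ^ (ℓ ^ n)) (q : ℕ) (φ : kb k K ≃ₐ[k] kb k K)
    (hφ : Frob q V φ) (τ : kb k K ≃ₐ[k] kb k K) (hτ : τ ∈ G) :
    s.toHom (φ * τ * φ⁻¹) z / z = (s.toHom τ z / z) ^ q := by
  have hac : IsAlgClosed (kb k K) := kb_isAlgClosed
  have hgal : IsGalois k (kb k K) := kb_isGalois
  obtain ⟨E, hEf, hE⟩ := open_stab s z
  have hπ0 : π 0 ≠ 0 := by
    rw [hπ]
    exact (_root_.map_ne_zero _).2 ha0
  have key := weight (k := k) (C := kb k K) hV π hπ' hπ0 ⟨a, hπ⟩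
    (fun u hu => by
      rw [hπ]
      exact val_torsion h u hu a ha0 ha1)
    G hGI hGW
    (Additive (Mnr k K)ˣ) (m6b_u s z hz)
    (fun σ hσ τ hτ => m6b_u_add hV s z hz n σ τ (hGI σ hσ) (hs τ hτ)) n
    (fun σ hσ => m6b_u_smul s z hz n σ (hs σ hσ)) E
    (fun σ _ hσE => (m6b_u_zero s z hz σ).2 (hE σ hσE)) q φ hφ τ hτ
  have h2 := congrArg (fun w => ((Additive.toMul w : (Mnr k K)ˣ) : Mnr k K)) key
  simpa [m6b_u] using h2

/-- `s (φ τ φ⁻¹) (s φ z) = s φ (s τ z) = s φ (iotaM ξ z) = iotaM (ξ^q) s φ z` (`frob_root`). -/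
theorem conj_root [CharZero k] {V : ValuationSubring (kb k K)}
    (hV : V.valuation ((ℓ : ℕ) : kb k K) = 1) (s : Sect k K) (z : Mnr k K) (hz : z ≠ 0) (n : ℕ)
    (q : ℕ) (φ : kb k K ≃ₐ[k] kb k K) (hφ : Frob q V φ) (τ : kb k K ≃ₐ[k] kb k K)
    (hs : (s.toHom τ z) ^ (ℓ ^ n) = z ^ (ℓ ^ n)) :
    s.toHom (φ * τ * φ⁻¹) (s.toHom φ z) / s.toHom φ z = (s.toHom τ z / z) ^ q := by
  obtain ⟨ξ, hξ, hξz⟩ := exists_xi (ℓ ^ n) (pow_pos hℓ.out.pos n) z (s.toHom τ z) hz hs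
  have h1 : s.toHom (φ * τ * φ⁻¹) (s.toHom φ z) = iotaM ξ ^ q * s.toHom φ z := by
    rw [← m6b_mul', inv_mul_cancel_right, m6b_mul', hξz, map_mul, m6b_sect,
      frob_root hV n ξ hξ q φ hφ, map_pow]
  rw [h1, hξz, mul_div_assoc, div_self (m6b_ne s φ z hz), mul_one, mul_div_assoc, div_self hz,
    mul_one]

/-- For exponents prime to `ℓ` the `q`-power map is injective on `ℓ^n`-th roots of unity. -/
theorem root_pow_inj {L : Type} [Field L] (n q : ℕ) (hq : q.Coprime ℓ) (ξ : L)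
    (hξ : ξ ^ (ℓ ^ n) = 1) (h : ξ ^ q = 1) : ξ = 1 := by
  have h1 : orderOf ξ ∣ ℓ ^ n := orderOf_dvd_of_pow_eq_one hξ
  have h2 : orderOf ξ ∣ q := orderOf_dvd_of_pow_eq_one h
  have h3 : Nat.Coprime q (ℓ ^ n) := Nat.Coprime.pow_right n hq
  have h4 : orderOf ξ ∣ 1 := by
    rw [← h3]
    exact Nat.dvd_gcd h2 h1
  exact orderOf_eq_one_iff.1 (Nat.dvd_one.1 h4)

end SUP
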