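import Pool.Agent.MP_c1dca2_ag.SUP.M3b
import Pool.Agent.MP_c1dca2_ag.SUP.M5b
import Pool.Agent.MP_c1dca2_ag.SUP.M6b
import Pool.Agent.MP_c1dca2_ag.SUP.C6

set_option autoImplicit false
set_option linter.unusedSectionVars false

open Polynomial IsLocalRing SEC SC2

namespace SUP

/-! ## [SUP-M7] the main theorem on the pairing (file M7.lean) -/

variable {k K : Type} [Field k] [Field K] [Algebra k K]
  {ι : Type} [Fintype ι] {ℓ : ℕ} [hℓ : Fact ℓ.Prime] {e : ι → ZMod ℓ}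

/-- A primitive `ℓ`-th root of unity in `V` with primitive reduction. -/
theorem exists_zeta {C : Type} [Field C] [IsAlgClosed C] {V : ValuationSubring C}
    (hV : V.valuation ((ℓ : ℕ) : C) = 1) :
    ∃ ζ : V, IsPrimitiveRoot (ζ : C) ℓ ∧ IsPrimitiveRoot (residue V ζ) ℓ := by
  have hne : ((ℓ : ℕ) : C) ≠ 0 := ell_ne hV
  have : NeZero ((ℓ : ℕ) : C) := ⟨hne⟩
  obtain ⟨ζ, hζ⟩ := HasEnoughRootsOfUnity.exists_primitiveRoot C ℓ
  have hζV : ζ ∈ V := mem_root (ℓ := ℓ) 1 ζ (by rw [pow_one]; exact hζ.pow_eq_one)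
  refine ⟨⟨ζ, hζV⟩, hζ, ?_⟩
  have h1 : (residue V ⟨ζ, hζV⟩) ^ ℓ = 1 := by
    rw [← map_pow]
    have : (⟨ζ, hζV⟩ : V) ^ ℓ = 1 := Subtype.ext (by simpa using hζ.pow_eq_one)
    rw [this, map_one]
  have h2 : residue V ⟨ζ, hζV⟩ ≠ 1 := by
    intro h3
    have h4 : residue V (⟨ζ, hζV⟩ - 1) = 0 := by rw [map_sub, h3, map_one, sub_self]
    rw [residue_eq_zero_iff, ValuationSubring.valuation_lt_one_iff] at h4
    have h5 : ζ = 1 := root_of_unity hV 1 ζ (by rw [pow_one]; exact hζ.pow_eq_one) h4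
    exact hζ.ne_one hℓ.out.one_lt h5
  rw [← orderOf_eq_prime h1 h2]
  exact IsPrimitiveRoot.orderOf _

variable {V : ValuationSubring (kb k K)} {α : ι → V}
  [hG : Fact (Good e (fun a => (α a : kb k K)))] [hG' : Fact (Good e (fun a => residue V (α a)))]

theorem pairing [CharZero k] [IsAlgClosed (kb k K)] {A : ValuationSubring k}
    [IsDiscreteValuationRing A] (h : Above A V) (hV : V.valuation ((ℓ : ℕ) : kb k K) = 1)
    (s : Sect k K) (x : Mnr k K) (hx : (x : Om K) ∉ kb k K) (y : ι → Mnr k K)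
    (hy : ∀ a, y a ^ ℓ = x - iotaM (α a : kb k K)) (hIx : ∀ σ, Iner V σ → s.toHom σ x = x)
    (hIα : ∀ σ : kb k K ≃ₐ[k] kb k K, Iner V σ → ∀ a, σ (α a : kb k K) = (α a : kb k K))
    (q : ℕ) (hq2 : 2 ≤ q) (hqℓ : q.Coprime ℓ) (φ : kb k K ≃ₐ[k] kb k K) (hφ : Frob q V φ)
    (hφx : s.toHom φ x = x) (hφα : ∀ a, φ (α a : kb k K) = (α a : kb k K))
    (hφζ : ∀ ζ : kb k K, ζ ^ ℓ = 1 → φ ζ = ζ)
    (hφU : s.toHom φ (emb e x y hy (BB.v e _ 1)) = emb e x y hy (BB.v e _ 1))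
    (τ : kb k K ≃ₐ[k] kb k K) (hτ : Iner V τ)
    (hτU : s.toHom τ (emb e x y hy (BB.v e _ 1)) = emb e x y hy (BB.v e _ 1)) (a : ι) :
    s.toHom τ (y a) = y a := by
  classical
  obtain ⟨ζ, hζ, hζ'⟩ := exists_zeta (ℓ := ℓ) hV
  obtain ⟨J, n, hJ, ⟨g0, hg0⟩, hinv, b, b', hb, hb', hbb⟩ :=
    alg_main (e := e) (α := α) hζ hζ' (Ψ := (φ : kb k K ≃+* kb k K)) hφ.stab q hq2 hφ.frob hφα
      (hφζ _ hζ.pow_eq_one) a
  have hs : ∑ a, e a ≠ 0 := hG.out.sum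
  -- the normalised generator
  have hg00 : g0 ≠ 0 := by
    rintro rfl
    rw [Ideal.span_singleton_zero] at hg0
    exact pow_ne_zero _ hJ hg0
  set g1 : BB e (fun a => (α a : kb k K)) := (lc g0)⁻¹ • g0 with hg1
  have hlc0 : lc g0 ≠ 0 := lc_ne hs hg00
  have hlc1 : lc g1 = 1 := by rw [hg1, lc_smul hs, inv_mul_cancel₀ hlc0]
  have hspan1 : Ideal.span {g0} = Ideal.span {g1} :=
    span_eq_iff.2 ⟨(lc g0)⁻¹, inv_ne_zero hlc0, rfl⟩
  set G : BB e (fun a => (α a : kb k K)) := g1 ^ ℓ with hGdef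
  have hlcG : lc G = 1 := by rw [hGdef, lc_pow hs, hlc1, one_pow]
  have hJG : J ^ (ℓ ^ (n + 1)) = Ideal.span {G} := by
    rw [pow_succ, pow_mul, hg0, hspan1, Ideal.span_singleton_pow]
  -- the second ideal
  set ψ : BB e (fun a => (α a : kb k K)) ≃+* BB e (fun a => (α a : kb k K)) :=
    bE (e := e) (φ : kb k K ≃+* kb k K) hφα with hψ
  set J1 : Ideal (BB e (fun a => (α a : kb k K))) := J.map ψ with hJ1
  have hJ10 : J1 ≠ ⊥ := map_ne_bot ψ hJ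
  have hJG1 : J1 ^ (ℓ ^ (n + 1)) = Ideal.span {ψ G} := by
    rw [hJ1, ← Ideal.map_pow, hJG, map_span_singleton]
  have hlcG1 : lc (ψ G) = 1 := by
    rw [hψ, lc_bE, hlcG, map_one]
  -- the third ideal
  set P := PI e (fun a => (α a : kb k K)) a with hP
  have hP0 : P ≠ ⊥ := PI_ne_bot a
  set G2 : BB e (fun a => (α a : kb k K)) :=
    algebraMap (kb k K)[X] _ ((X - C (α a : kb k K)) ^ (ℓ ^ n)) with hG2
  have hPG : P ^ (ℓ ^ (n + 1)) = Ideal.span {G2} := by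
    rw [pow_succ', pow_mul, hP, PI_pow, Ideal.span_singleton_pow, hG2, map_pow]
  have hlcG2 : lc G2 = 1 := by
    rw [hG2, lc_algebraMap hs]
    exact ((monic_X_sub_C _).pow _).leadingCoeff
  -- the roots
  have hN : 0 < ℓ ^ (n + 1) := pow_pos hℓ.out.pos _
  obtain ⟨ρ0, hρ0⟩ := IsAlgClosed.exists_pow_nat_eq
    ((emb e x y hy G : Mnr k K) : Om K) hN
  have hρM : ρ0 ∈ Mnr k K := root_mem x hx y hy J hJ _ hN G hJG ρ0 hρ0
  let ρ : Mnr k K := ⟨ρ0, hρM⟩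
  have hρ : ρ ^ (ℓ ^ (n + 1)) = emb e x y hy G := Subtype.ext hρ0
  have hG0 : G ≠ 0 := by
    intro h0
    rw [h0, (lc_eq_zero_iff hs _).2 rfl] at hlcG
    exact zero_ne_one hlcG
  have hρne : ρ ≠ 0 := by
    intro h0
    rw [h0, zero_pow hN.ne'] at hρ
    exact emb_ne x hx y hy hG0 hρ.symm
  let ρ1 : Mnr k K := s.toHom φ ρ
  have hρ1 : ρ1 ^ (ℓ ^ (n + 1)) = emb e x y hy (ψ G) := by
    change (s.toHom φ ρ) ^ (ℓ ^ (n + 1)) = _
    rw [← map_pow, hρ, sect_emb s φ x hx y hy hφx hφα hφU]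
  have hρ1ne : ρ1 ≠ 0 := by
    change s.toHom φ ρ ≠ 0
    exact (map_ne_zero_iff _ (s.toHom φ).injective).2 hρne
  have hy2 : y a ^ (ℓ ^ (n + 1)) = emb e x y hy G2 := by
    rw [hG2, lift_algebraMap, pow_succ', pow_mul, hy, eval₂_pow, eval₂_sub, eval₂_X, eval₂_C]
  have hya : y a ≠ 0 := by
    intro h0
    have h1 := hy a
    rw [h0, zero_pow hℓ.out.ne_zero] at h1
    have h2 : x = iotaM (α a : kb k K) := (sub_eq_zero.1 h1.symm)
    apply hx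
    rw [h2]
    exact (α a : kb k K).2
  -- multiplicativity
  have hτα := hIα τ hτ
  have hinvτ := hinv (τ : kb k K ≃+* kb k K) hτα hτ.stab hτ.triv
  have hmul := pair_mul hV s τ hτ x hx y hy (hIx τ hτ) hτα hτU (n + 1) J1 J P hJ10 hJ hP0
    (ψ G) G G2 hlcG1 hlcG hlcG2 hJG1 hJG hPG hinvτ.2 hinvτ.1 (PI_bE _ hτα a) b b' hb hb' hbb
    ρ1 ρ (y a) hρ1 hρ hy2
  -- the group
  obtain ⟨c0, hc0, hc1⟩ := exists_pi A
  obtain ⟨π, hπ, hπ'⟩ := exists_tower' (K := K) (ℓ := ℓ) c0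
  set U := emb e x y hy (BB.v e (fun a => (α a : kb k K)) 1) with hU
  have hU0 : U ≠ 0 := by
    rw [hU]
    refine emb_ne x hx y hy ?_
    intro h0
    have := lc_v (α := fun a => (α a : kb k K)) hs 1
    rw [h0, (lc_eq_zero_iff hs _).2 rfl] at this
    exact zero_ne_one this
  have hUpow : ∀ σ, Iner V σ → (s.toHom σ U) ^ ℓ = U ^ ℓ := by
    intro σ hσ
    have h1 : U ^ ℓ = ∏ a, (x - iotaM (α a : kb k K)) ^ rr e 1 a := by
      rw [hU, ← map_pow, v_pow, lift_algebraMap, ← coe_eval₂RingHom, map_prod]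
      refine Finset.prod_congr rfl fun a _ => ?_
      rw [map_pow, map_sub, coe_eval₂RingHom, eval₂_X, eval₂_C]
    rw [← map_pow, h1, map_prod]
    refine Finset.prod_congr rfl fun a _ => ?_
    rw [map_pow, map_sub, hIx σ hσ, sect_iota, hIα σ hσ]
  let Gr : Subgroup (kb k K ≃ₐ[k] kb k K) :=
    { carrier := {σ | Iner V σ ∧ s.toHom σ U = U}
      mul_mem' := by
        rintro σ σ' ⟨h1, h2⟩ ⟨h3, h4⟩
        exact ⟨h1.mul h3, by rw [map_mul, AlgEquiv.mul_apply, h4, h2]⟩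
      one_mem' := ⟨Iner.one V, by rw [map_one, AlgEquiv.one_apply]⟩
      inv_mem' := by
        rintro σ ⟨h1, h2⟩
        refine ⟨h1.inv, ?_⟩
        have h3 : s.toHom σ⁻¹ (s.toHom σ U) = U := by
          rw [← AlgEquiv.mul_apply, ← map_mul, inv_mul_cancel, map_one, AlgEquiv.one_apply]
        rwa [h2] at h3 }
  have hGrI : ∀ σ ∈ Gr, Iner V σ := fun σ hσ => hσ.1
  have hGrW : ∀ σ, Wild V π σ → σ ∈ Gr := by
    intro σ hσ
    refine ⟨hσ.iner, wild_fix h hV s U hU0 1 π c0 hc0 hc1 hπ hπ' ?_ σ hσ⟩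
    intro σ' hσ'
    rw [pow_one]
    exact hUpow σ' hσ'.iner
  have hfix : ∀ σ ∈ Gr, ∀ (J' : Ideal (BB e (fun a => (α a : kb k K))))
      (G' : BB e (fun a => (α a : kb k K))) (ρ' : Mnr k K), J' ≠ ⊥ → lc G' = 1 →
      J' ^ (ℓ ^ (n + 1)) = Ideal.span {G'} →
      (∀ hσα, J'.map (bE (e := e) (σ : kb k K ≃+* kb k K) hσα) = J') →
      ρ' ^ (ℓ ^ (n + 1)) = emb e x y hy G' →
      (s.toHom σ ρ') ^ (ℓ ^ (n + 1)) = ρ' ^ (ℓ ^ (n + 1)) := by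
    intro σ hσ J' G' ρ' hJ' hlc' hJG' hinv' hρ'
    rw [← map_pow, hρ', sect_emb s σ x hx y hy (hIx σ hσ.1) (hIα σ hσ.1) hσ.2,
      gen_fixed _ (hIα σ hσ.1) J' hJ' _ G' hlc' hJG' (hinv' _)]
  have hτG : τ ∈ Gr := ⟨hτ, hτU⟩
  have hw1 := root_weight h hV s ρ1 hρ1ne (n + 1) π c0 hc0 hc1 hπ hπ' Gr hGrI hGrW
    (fun σ hσ => hfix σ hσ J1 (ψ G) ρ1 hJ10 hlcG1 hJG1
      (fun hσα => (hinv (σ : kb k K ≃+* kb k K) hσα hσ.1.stab hσ.1.triv).2) hρ1)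
    q φ hφ τ hτG
  have hfτ := hfix τ hτG J G ρ hJ hlcG hJG
    (fun hσα => (hinv (τ : kb k K ≃+* kb k K) hσα hτ.stab hτ.triv).1) hρ
  have hfτ1 := hfix τ hτG J1 (ψ G) ρ1 hJ10 hlcG1 hJG1
    (fun hσα => (hinv (τ : kb k K ≃+* kb k K) hσα hτ.stab hτ.triv).2) hρ1
  have hw2 := conj_root hV s ρ hρne (n + 1) q φ hφ τ hfτ
  have hw3 : (s.toHom τ ρ1 / ρ1) ^ q = (s.toHom τ ρ / ρ) ^ q := by
    rw [← hw1, ← hw2]
  -- conclusion
  have hsρ : s.toHom τ ρ ≠ 0 := (map_ne_zero_iff _ (s.toHom τ).injective).2 hρne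
  have hξ : s.toHom τ (y a) / y a = (s.toHom τ ρ1 / ρ1) / (s.toHom τ ρ / ρ) := by
    field_simp
    linear_combination -hmul
  have hone : s.toHom τ (y a) / y a = 1 := by
    refine root_pow_inj (ℓ := ℓ) (n + 1) q hqℓ _ ?_ ?_
    · rw [hξ, div_pow, div_pow, div_pow, hfτ, hfτ1, div_self (pow_ne_zero _ hρ1ne),
        div_self (pow_ne_zero _ hρne), div_one]
    · rw [hξ, div_pow, hw3, div_self]
      exact pow_ne_zero _ (div_ne_zero hsρ hρne)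
  exact (div_eq_one_iff_eq hya).1 hone

end SUP
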