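import Pool.Agent.MP_c1dca2_ag.SUP.K5
import Pool.Agent.MP_c1dca2_ag.SUP.M7

set_option autoImplicit false
set_option linter.unusedSectionVars false

open Polynomial IsLocalRing SEC SC2

namespace SUP

/-! ## [SUP-K6] the key lemma (file K6.lean) -/

variable {k K : Type} [Field k] [Field K] [Algebra k K] {ℓ : ℕ} [hℓ : Fact ℓ.Prime]

theorem pow_eq_of_cast {M : Type} [Monoid M] {ζ : M} (hζ : ζ ^ ℓ = 1) {a b : ℕ}
    (h : (a : ZMod ℓ) = (b : ZMod ℓ)) : ζ ^ a = ζ ^ b := by
  have h1 : a % ℓ = b % ℓ := (ZMod.natCast_eq_natCast_iff' a b ℓ).1 h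
  have h2 : ∀ n : ℕ, ζ ^ n = ζ ^ (n % ℓ) := by
    intro n
    conv_lhs => rw [← Nat.mod_add_div n ℓ, pow_add, pow_mul, hζ, one_pow, mul_one]
  rw [h2 a, h2 b, h1]

theorem key [CharZero k] {A : ValuationSubring k} [IsDiscreteValuationRing A]
    {V : ValuationSubring (kb k K)} (h : Above A V) (hV : V.valuation ((ℓ : ℕ) : kb k K) = 1)
    (s : Sect k K) (x : K) (hx : Transcendental k x) {ν : Type} [Fintype ν] (r : ν → kb k K)
    (hd : ∀ i j, i ≠ j → V.valuation (r i - r j) = 1)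
    (hI : ∀ σ : kb k K ≃ₐ[k] kb k K, Iner V σ → ∀ i, σ (r i) = r i) (o : ν)
    (T : ν → Mnr k K) (hT0 : ∀ i, T i ≠ 0)
    (hT : ∀ i, T i ^ ℓ * (algebraMap K (Mnr k K) x - iotaM (r o)) =
      algebraMap K (Mnr k K) x - iotaM (r i))
    (q : ℕ) (hq2 : 2 ≤ q) (hq : q.Coprime ℓ) (φ : kb k K ≃ₐ[k] kb k K) (hφ : Frob q V φ)
    (hperm : ∀ i, ∃ j, φ (r i) = r j) (τ : kb k K ≃ₐ[k] kb k K) (hτ : Iner V τ)
    (ζ : kb k K) (hζ : IsPrimitiveRoot ζ ℓ) (w : ν → ZMod ℓ)
    (hw : ∀ i, s.toHom τ (T i) = iotaM (ζ ^ (w i).val) * T i)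
    (ε : ν → ZMod ℓ) (h0 : ∑ i, ε i = 0) (h1 : ∑ i, ε i * w i = 0) (a b : ν) (ha : ε a ≠ 0)
    (hb : ε b ≠ 0) : w a = w b := by
  classical
  by_cases hab : a = b
  · rw [hab]
  have hac : IsAlgClosed (kb k K) := kb_isAlgClosed
  have hch : CharZero (kb k K) := charZero_of_injective_algebraMap (algebraMap k (kb k K)).injective
  let ι : Type := {i : ν // ε i ≠ 0 ∧ i ≠ b}
  let e : ι → ZMod ℓ := fun i => ε i.1
  have hval : ∀ i : ι, V.valuation ((r i.1 - r b)⁻¹) = 1 := by
    intro i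
    rw [map_inv₀, hd _ _ i.2.2, inv_one]
  let α : ι → V := fun i => ⟨(r i.1 - r b)⁻¹, (V.valuation_le_one_iff _).1 (hval i).le⟩
  have hα : ∀ i : ι, ((α i : V) : kb k K) = (r i.1 - r b)⁻¹ := fun _ => rfl
  have hrb : ∀ i : ι, r i.1 - r b ≠ 0 := by
    intro i h2
    have h3 := hd _ _ i.2.2
    rw [h2, map_zero] at h3
    exact zero_ne_one h3
  -- the hypotheses on the exponents and the branch points
  have hsum : ∑ i : ι, e i = -ε b := by
    have h2 : ∑ i : ν, ε i = ∑ i : ι, e i + ε b := by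
      have h3 : ∑ i : ι, e i = ∑ i ∈ Finset.univ.filter (fun i => ε i ≠ 0 ∧ i ≠ b), ε i := by
        rw [← Finset.sum_subtype_eq_sum_filter]
        exact Finset.sum_congr (by ext; simp) fun _ _ => rfl
      rw [h3, Finset.sum_filter]
      rw [← Finset.sum_erase_add _ _ (Finset.mem_univ b),
        ← Finset.sum_erase_add (s := Finset.univ) (f := fun i => if ε i ≠ 0 ∧ i ≠ b then ε i else 0)
          (a := b) (h := Finset.mem_univ b)]
      rw [if_neg (by simp), add_zero]
      congr 1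
      refine Finset.sum_congr rfl fun i hi => ?_
      have hib : i ≠ b := (Finset.mem_erase.1 hi).1
      by_cases h4 : ε i = 0
      · simp [h4]
      · rw [if_pos ⟨h4, hib⟩]
    rw [h0] at h2
    linear_combination -h2
  have hdist : ∀ i j : ι, i ≠ j → V.valuation (((α i : V) : kb k K) - (α j : kb k K)) = 1 := by
    intro i j hij
    have h2 : ((α i : V) : kb k K) - (α j : kb k K) =
        -((r i.1 - r j.1) * ((r i.1 - r b)⁻¹ * (r j.1 - r b)⁻¹)) := by
      rw [hα, hα]
      have := hrb i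
      have := hrb j
      field_simp
      ring
    rw [h2, Valuation.map_neg, map_mul, map_mul, hval, hval,
      hd _ _ (fun h3 => hij (Subtype.ext h3))]
    simp
  have hG : Fact (Good e (fun i => ((α i : V) : kb k K))) := ⟨{
    ne := fun i => i.2.1
    sum := by rw [hsum]; exact neg_ne_zero.2 hb
    inj := by
      intro i j hij
      by_contra hne
      have h2 := hdist i j hne
      rw [show ((α i : V) : kb k K) = (α j : kb k K) from hij, sub_self, map_zero] at h2
      exact zero_ne_one h2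
    ch := ell_ne hV }⟩
  have hG' : Fact (Good e (fun i => residue V (α i))) := ⟨{
    ne := fun i => i.2.1
    sum := by rw [hsum]; exact neg_ne_zero.2 hb
    inj := by
      intro i j hij
      by_contra hne
      have h2 := hdist i j hne
      have h3 : residue V (α i - α j) = 0 := by
        rw [map_sub, show residue V (α i) = residue V (α j) from hij, sub_self]
      rw [residue_eq_zero_iff, ValuationSubring.valuation_lt_one_iff] at h3
      have h4 : (((α i - α j : V)) : kb k K) = ((α i : V) : kb k K) - (α j : kb k K) := rfl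
      rw [h4, h2] at h3
      exact lt_irrefl _ h3
    ch := by
      intro h2
      have h3 : residue V ((ℓ : ℕ) : V) = 0 := by rw [map_natCast]; exact h2
      rw [residue_eq_zero_iff, ValuationSubring.valuation_lt_one_iff] at h3
      have h4 : ((((ℓ : ℕ) : V)) : kb k K) = ((ℓ : ℕ) : kb k K) := by simp
      rw [h4, hV] at h3
      exact lt_irrefl _ h3 }⟩
  -- the functions `y`
  have hex := fun i : ι => exists_y (ℓ := ℓ) hV s x hx (r i.1) (r b) (r o) (hd _ _ i.2.2) (T i.1) (T b)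
    (hT0 _) (hT0 _) (hT _) (hT _)
  choose y hy0 hy hyτ using hex
  have hy' : ∀ i : ι, y i ^ ℓ = Xb x (r b) - iotaM ((α i : V) : kb k K) := hy
  set U := emb e (Xb x (r b)) y hy' (BB.v e (fun i => ((α i : V) : kb k K)) 1) with hU
  have hUe : U = ∏ i, y i ^ rr e 1 i := lift_v _ _ _ hy' 1
  have hU0 : U ≠ 0 := by
    rw [hUe]
    exact Finset.prod_ne_zero_iff.2 fun i _ => pow_ne_zero _ (hy0 i)
  have hrr : ∀ i : ι, ((rr e 1 i : ℕ) : ZMod ℓ) = ε i.1 := by
    intro i
    rw [rr, one_mul, ZMod.natCast_zmod_val]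
  -- `τ` fixes `U`
  have hratio : ∀ i : ι, s.toHom τ (y i) =
      iotaM (ζ ^ (w i.1).val) / iotaM (ζ ^ (w b).val) * y i := by
    intro i
    have h2 := hyτ i τ hτ (hI τ hτ _) (hI τ hτ _)
    rw [hw, hw, mul_div_cancel_right₀ _ (hT0 _), mul_div_cancel_right₀ _ (hT0 _)] at h2
    rw [← h2, div_mul_cancel₀ _ (hy0 i)]
  have hζ1 : ζ ^ ℓ = 1 := hζ.pow_eq_one
  have hτU : s.toHom τ U = U := by
    have h2 : s.toHom τ U = (∏ i : ι, (iotaM (ζ ^ (w i.1).val) / iotaM (ζ ^ (w b).val) :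
        Mnr k K) ^ rr e 1 i) * U := by
      rw [hUe, map_prod, ← Finset.prod_mul_distrib]
      refine Finset.prod_congr rfl fun i _ => ?_
      rw [map_pow, hratio, mul_pow]
    have h3 : (∏ i : ι, (iotaM (ζ ^ (w i.1).val) / iotaM (ζ ^ (w b).val) :
        Mnr k K) ^ rr e 1 i) = 1 := by
      have h4 : ∀ i : ι, (iotaM (ζ ^ (w i.1).val) / iotaM (ζ ^ (w b).val) :
          Mnr k K) ^ rr e 1 i =
          iotaM (ζ ^ ((w i.1).val * rr e 1 i)) / iotaM (ζ ^ ((w b).val * rr e 1 i)) := by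
        intro i
        rw [div_pow, ← map_pow, ← map_pow, ← pow_mul, ← pow_mul]
      rw [Finset.prod_congr rfl fun i _ => h4 i, Finset.prod_div_distrib, ← map_prod, ← map_prod,
        Finset.prod_pow_eq_pow_sum, Finset.prod_pow_eq_pow_sum]
      have h5 : ζ ^ (∑ i : ι, (w i.1).val * rr e 1 i) = ζ ^ (∑ i : ι, (w b).val * rr e 1 i) := by
        refine pow_eq_of_cast hζ1 ?_
        push_cast
        have h6 : ∑ i : ι, ((w i.1).val : ZMod ℓ) * ((rr e 1 i : ℕ) : ZMod ℓ) =
            ∑ i : ι, ε i.1 * w i.1 := by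
          refine Finset.sum_congr rfl fun i _ => ?_
          rw [hrr, ZMod.natCast_zmod_val, mul_comm]
        have h7 : ∑ i : ι, ((w b).val : ZMod ℓ) * ((rr e 1 i : ℕ) : ZMod ℓ) =
            w b * ∑ i : ι, e i := by
          rw [Finset.mul_sum]
          refine Finset.sum_congr rfl fun i _ => ?_
          rw [hrr, ZMod.natCast_zmod_val]
        rw [h6, h7, hsum]
        have h8 : ∑ i : ν, ε i * w i = ∑ i : ι, ε i.1 * w i.1 + ε b * w b := by
          have h3 : ∑ i : ι, ε i.1 * w i.1 =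
              ∑ i ∈ Finset.univ.filter (fun i => ε i ≠ 0 ∧ i ≠ b), ε i * w i := by
            rw [← Finset.sum_subtype_eq_sum_filter]
            exact Finset.sum_congr (by ext; simp) fun _ _ => rfl
          rw [h3, Finset.sum_filter]
          rw [← Finset.sum_erase_add _ _ (Finset.mem_univ b),
            ← Finset.sum_erase_add (s := Finset.univ)
              (f := fun i => if ε i ≠ 0 ∧ i ≠ b then ε i * w i else 0)
              (a := b) (h := Finset.mem_univ b)]
          rw [if_neg (by simp), add_zero]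
          congr 1
          refine Finset.sum_congr rfl fun i hi => ?_
          have hib : i ≠ b := (Finset.mem_erase.1 hi).1
          by_cases h4 : ε i = 0
          · simp [h4]
          · rw [if_pos ⟨h4, hib⟩]
        rw [h1] at h8
        linear_combination -h8
      rw [h5, div_self]
      exact (map_ne_zero_iff _ (iotaM (k := k) (K := K)).injective).2
        (pow_ne_zero _ (hζ.ne_zero hℓ.out.ne_zero))
    rw [h2, h3, one_mul]
  -- the power of Frobenius
  have hUℓ : U ^ ℓ = ∏ i : ι, (Xb x (r b) - iotaM ((α i : V) : kb k K)) ^ rr e 1 i := by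
    rw [hUe, ← Finset.prod_pow]
    refine Finset.prod_congr rfl fun i _ => ?_
    rw [← pow_mul, mul_comm, pow_mul, hy']
  have hfixα : ∀ (σ : kb k K ≃ₐ[k] kb k K), (∀ i, σ (r i) = r i) → ∀ i : ι,
      σ ((α i : V) : kb k K) = ((α i : V) : kb k K) := by
    intro σ hσ i
    rw [hα, map_inv₀, map_sub, hσ, hσ]
  obtain ⟨m, hm, hmr, hmζ, hmU⟩ := exists_power (ℓ := ℓ) s r φ hperm U hU0 (by
    intro m hm
    rw [← map_pow, hUℓ, map_prod]
    refine Finset.prod_congr rfl fun i _ => ?_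
    rw [map_pow, map_sub, sect_Xb s _ x _ (hm b), sect_iota, hfixα _ hm])
  have hqm : 2 ≤ q ^ m := hq2.trans (Nat.le_self_pow hm.ne' q)
  have hfin := pairing (e := e) (α := α) h hV s (Xb x (r b)) (Xb_not_mem x hx (r b)) y hy'
    (fun σ hσ => sect_Xb s σ x _ (hI σ hσ b)) (fun σ hσ i => hfixα σ (hI σ hσ) i) (q ^ m) hqm
    (Nat.Coprime.pow_left m hq) (φ ^ m) (frob_pow hφ m) (sect_Xb s _ x _ (hmr b))
    (fun i => hfixα _ hmr i) hmζ hmU τ hτ hτU ⟨a, ha, hab⟩
  have h2 := hratio ⟨a, ha, hab⟩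
  rw [hfin] at h2
  have h3 : (iotaM (ζ ^ (w a).val) : Mnr k K) = iotaM (ζ ^ (w b).val) := by
    have h4 : (iotaM (ζ ^ (w b).val) : Mnr k K) ≠ 0 :=
      (map_ne_zero_iff _ (iotaM (k := k) (K := K)).injective).2
        (pow_ne_zero _ (hζ.ne_zero hℓ.out.ne_zero))
    have h5 : (iotaM (ζ ^ (w a).val) / iotaM (ζ ^ (w b).val) : Mnr k K) = 1 := by
      apply mul_right_cancel₀ (hy0 ⟨a, ha, hab⟩)
      rw [one_mul]
      exact h2.symm
    exact (div_eq_one_iff_eq h4).1 h5
  have h4 := (iotaM (k := k) (K := K)).injective h3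
  exact ZMod.val_injective ℓ (hζ.pow_inj (ZMod.val_lt _) (ZMod.val_lt _) h4)

end SUP
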