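import Mathlib

set_option autoImplicit false
set_option linter.unusedSectionVars false

open Polynomial

namespace SUP

/-! ## [SUP-K7] multiplicities of the roots (file K7.lean; Mathlib only) -/

variable {k C : Type} [Field k] [CharZero k] [Field C] [Algebra k C]

theorem k7_dvd (p h : k[X]) (hp : Irreducible p) (ρ : C) (hρ : aeval ρ p = 0)
    (hh : aeval ρ h = 0) : p ∣ h := by
  have h1 : p = Polynomial.C p.leadingCoeff * minpoly k ρ :=
    minpoly.Irreducible.eq_minpoly hp hρ
  have h2 : minpoly k ρ ∣ h := minpoly.dvd k ρ hh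
  have h3 : IsUnit (Polynomial.C p.leadingCoeff) := by
    rw [Polynomial.isUnit_C]
    exact (leadingCoeff_ne_zero.mpr hp.ne_zero).isUnit
  rw [h1]
  exact (h3.mul_left_dvd).2 h2

theorem k7_pow (q : C[X]) (hq : q ≠ 0) (ρ : C) (n : ℕ) :
    (q ^ n).rootMultiplicity ρ = n * q.rootMultiplicity ρ := by
  induction n with
  | zero => simp
  | succ n ih =>
    rw [pow_succ, rootMultiplicity_mul (mul_ne_zero (pow_ne_zero _ hq) hq), ih]
    ring

/-- Let `p` be irreducible over `k` (characteristic `0`), `ρ` a root of `p` in `C`. The multiplicity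
of `ρ` as a root of `f` is the multiplicity of `p` in `f`: `f = p^a h` with `p ∤ h`; `p` is separable,
so `ρ` is a simple root of `p`, and not a root of `h` (`p` is the minimal polynomial of `ρ` up to a
constant). -/
theorem rootMultiplicity_eq (p f : k[X]) (hp : Irreducible p) (hf : f ≠ 0) (ρ : C)
    (hρ : aeval ρ p = 0) :
    (f.map (algebraMap k C)).rootMultiplicity ρ = multiplicity p f := by
  obtain ⟨h, hfh, hph⟩ :=
    (FiniteMultiplicity.of_prime_left hp.prime hf).exists_eq_pow_mul_and_not_dvd
  have hh0 : h ≠ 0 := by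
    rintro rfl
    exact hph (dvd_zero p)
  have hpm0 : p.map (algebraMap k C) ≠ 0 := (Polynomial.map_ne_zero_iff
    (algebraMap k C).injective).2 hp.ne_zero
  have hhm0 : h.map (algebraMap k C) ≠ 0 := (Polynomial.map_ne_zero_iff
    (algebraMap k C).injective).2 hh0
  have h1 : (p.map (algebraMap k C)).rootMultiplicity ρ = 1 := by
    have hle : (p.map (algebraMap k C)).rootMultiplicity ρ ≤ 1 :=
      rootMultiplicity_le_one_of_separable (hp.separable.map) ρ
    have hpos : 0 < (p.map (algebraMap k C)).rootMultiplicity ρ := by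
      rw [rootMultiplicity_pos hpm0]
      rw [IsRoot.def, eval_map_algebraMap]
      exact hρ
    omega
  have h2 : (h.map (algebraMap k C)).rootMultiplicity ρ = 0 := by
    rw [rootMultiplicity_eq_zero]
    intro hcon
    rw [IsRoot.def, eval_map_algebraMap] at hcon
    exact hph (k7_dvd p h hp ρ hρ hcon)
  generalize multiplicity p f = a at hfh ⊢
  rw [hfh, Polynomial.map_mul, Polynomial.map_pow,
    rootMultiplicity_mul (mul_ne_zero (pow_ne_zero _ hpm0) hhm0), k7_pow _ hpm0, h1, h2]
  ring

/-- Let `g` be separable with roots `r i` in `C` (different), `f ≠ 0` with the same prime factors. Over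
`C` (algebraically closed) `f` is its leading coefficient times the product of the
`(X - ρ)^(multiplicity)`, the roots `ρ` of `f` are the `r i`. -/
theorem exists_mult [IsAlgClosed C] (f g : k[X]) (hf : f ≠ 0) (hg : g ≠ 0) {ν : Type} [Fintype ν]
    (l : k) (r : ν → C) (hr : Function.Injective r)
    (hgr : g.map (algebraMap k C) = Polynomial.C (algebraMap k C l) * ∏ i, (X - Polynomial.C (r i))) (ℓ : ℕ)
    (hfg : ∀ p : k[X], Irreducible p → (p ∣ f ↔ p ∣ g))
    (hmul : ∀ p : k[X], Irreducible p → p ∣ f → ¬ ℓ ∣ multiplicity p f) :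
    ∃ m : ν → ℕ, (∀ i, ¬ ℓ ∣ m i) ∧ ∑ i, m i = f.natDegree ∧
      f.map (algebraMap k C) =
        Polynomial.C (algebraMap k C f.leadingCoeff) * ∏ i, (X - Polynomial.C (r i)) ^ m i := by
  classical
  have hroot : ∀ i, aeval (r i) g = 0 := by
    intro i
    rw [← eval_map_algebraMap, hgr, eval_mul, eval_prod]
    have : ∏ j, eval (r i) (X - Polynomial.C (r j)) = 0 :=
      Finset.prod_eq_zero (Finset.mem_univ i) (by simp)
    rw [this, mul_zero]
  have hfm0 : f.map (algebraMap k C) ≠ 0 := (Polynomial.map_ne_zero_iff
    (algebraMap k C).injective).2 hf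
  have hl0 : algebraMap k C l ≠ 0 := by
    intro h0
    rw [h0, Polynomial.C_0, zero_mul] at hgr
    exact (Polynomial.map_ne_zero_iff (algebraMap k C).injective).2 hg hgr
  refine ⟨fun i => (f.map (algebraMap k C)).rootMultiplicity (r i), ?_, ?_⟩
  · intro i
    have hint : IsIntegral k (r i) := by
      have : IsAlgebraic k (r i) := ⟨g, hg, hroot i⟩
      exact this.isIntegral
    have hirr := minpoly.irreducible hint
    have h1 : minpoly k (r i) ∣ g := minpoly.dvd k _ (hroot i)
    have h2 := (hfg _ hirr).2 h1
    have h3 := rootMultiplicity_eq (minpoly k (r i)) f hirr hf (r i) (minpoly.aeval k _)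
    show ¬ ℓ ∣ (f.map (algebraMap k C)).rootMultiplicity (r i)
    rw [h3]
    exact hmul _ hirr h2
  · have hset : (f.map (algebraMap k C)).roots.toFinset = Finset.univ.image r := by
      ext ρ
      rw [Multiset.mem_toFinset, mem_roots hfm0, IsRoot.def, eval_map_algebraMap, Finset.mem_image]
      constructor
      · intro hρ
        have hint : IsIntegral k ρ := by
          have : IsAlgebraic k ρ := ⟨f, hf, hρ⟩
          exact this.isIntegral
        have hirr := minpoly.irreducible hint
        have h1 : minpoly k ρ ∣ f := minpoly.dvd k _ hρ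
        have h2 := (hfg _ hirr).1 h1
        have h3 : aeval ρ g = 0 := by
          obtain ⟨q, hq⟩ := h2
          rw [hq, map_mul, minpoly.aeval, zero_mul]
        rw [← eval_map_algebraMap, hgr, eval_mul, eval_C, mul_eq_zero, eval_prod,
          Finset.prod_eq_zero_iff] at h3
        rcases h3 with h3 | ⟨i, hi, h3⟩
        · exact (hl0 h3).elim
        · refine ⟨i, hi, ?_⟩
          rw [eval_sub, eval_X, eval_C, sub_eq_zero] at h3
          exact h3.symm
      · rintro ⟨i, -, rfl⟩
        have hint : IsIntegral k (r i) := by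
          have : IsAlgebraic k (r i) := ⟨g, hg, hroot i⟩
          exact this.isIntegral
        have hirr := minpoly.irreducible hint
        have h1 : minpoly k (r i) ∣ g := minpoly.dvd k _ (hroot i)
        obtain ⟨q, hq⟩ := (hfg _ hirr).2 h1
        rw [hq, map_mul, minpoly.aeval, zero_mul]
    have hsplit : (f.map (algebraMap k C)).Splits := IsAlgClosed.splits _
    constructor
    · have h1 := hsplit.natDegree_eq_card_roots
      rw [natDegree_map] at h1
      rw [h1, ← Multiset.toFinset_sum_count_eq, hset, Finset.sum_image (fun a _ b _ h => hr h)]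
      exact Finset.sum_congr rfl (fun i _ => (count_roots _).symm)
    · conv_lhs => rw [hsplit.eq_prod_roots]
      rw [leadingCoeff_map, Finset.prod_multiset_map_count, hset,
        Finset.prod_image (fun a _ b _ h => hr h)]
      congr 1
      exact Finset.prod_congr rfl (fun i _ => by rw [count_roots])

end SUP
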