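import Pool.Agent.MP_c1dca2_ag.SC2.C2
import Pool.Agent.MP_c1dca2_ag.SC2.C3

set_option autoImplicit false
set_option linter.unusedSectionVars false

open Polynomial IsLocalRing SEC SC2

namespace SUP

/-! ## [SUP-K8] no rational places (file K8.lean; compare `SC2.no_place` in SC2/C3.lean) -/

theorem k8_val_le {k C : Type} [Field k] [Field C] [Algebra k C] {A : ValuationSubring k}
    {V : ValuationSubring C} (h : Above A V) (a b : k) :
    V.valuation (algebraMap k C a) ≤ V.valuation (algebraMap k C b) ↔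
      A.valuation a ≤ A.valuation b := by
  by_cases hb : b = 0
  · subst hb
    rw [map_zero, map_zero, map_zero, le_zero_iff, le_zero_iff, Valuation.zero_iff,
      Valuation.zero_iff, map_eq_zero]
  · have hb' : algebraMap k C b ≠ 0 := (_root_.map_ne_zero _).2 hb
    have h1 := h (a / b)
    rw [← V.valuation_le_one_iff, ← A.valuation_le_one_iff, map_div₀, map_div₀, map_div₀,
      div_le_one₀ (zero_lt_iff.2 ((Valuation.ne_zero_iff _).2 hb')),
      div_le_one₀ (zero_lt_iff.2 ((Valuation.ne_zero_iff _).2 hb))] at h1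
    exact h1

theorem k8_val_eq {k C : Type} [Field k] [Field C] [Algebra k C] {A : ValuationSubring k}
    {V : ValuationSubring C} (h : Above A V) (a b : k) :
    V.valuation (algebraMap k C a) = V.valuation (algebraMap k C b) ↔
      A.valuation a = A.valuation b := by
  rw [le_antisymm_iff, le_antisymm_iff, k8_val_le h, k8_val_le h]

/-- elements of the residue field of `A` are fixed by the `q`-th power -/
theorem k8_frob {k C : Type} [Field k] [Field C] [Algebra k C] {A : ValuationSubring k}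
    [Finite (ResidueField A)] {V : ValuationSubring C} (h : Above A V) (x₀ : k) (hx : x₀ ∈ A) :
    (algebraMap k C x₀) ^ Nat.card (ResidueField A) - algebraMap k C x₀ ∈ V.nonunits := by
  have _ := Fintype.ofFinite (ResidueField A)
  have := c2_local h
  set a : A := ⟨x₀, hx⟩ with ha
  have h1 : residue A (a ^ Nat.card (ResidueField A) - a) = 0 := by
    rw [map_sub, map_pow, Nat.card_eq_fintype_card, FiniteField.pow_card, sub_self]
  have h2 : residue V (c2_g h (a ^ Nat.card (ResidueField A) - a)) = 0 := by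
    rw [← ResidueField.map_residue, h1, map_zero]
  rw [residue_eq_zero_iff, V.valuation_lt_one_iff] at h2
  have h3 : ((c2_g h (a ^ Nat.card (ResidueField A) - a) : V) : C) =
      (algebraMap k C x₀) ^ Nat.card (ResidueField A) - algebraMap k C x₀ := by
    rw [map_sub, map_pow]
    rfl
  rw [h3] at h2
  exact h2

/-- The value of `f` at a point `x₀` of `k`: `f(x₀) = l ∏ (x₀ - r i)^(m i)` in `C`. If `x₀ ∈ A`, then
`|x₀ - r i| = 1`: otherwise the residue of `r i` would be the residue of `x₀`, a root in the residue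
field of `A` of the reduction of `g` (compare `SC2.root_not_fixed` in SC2/C2.lean: the residue `a` of
`x₀` satisfies `a^q = a`, so `r i ^ q - r i` would be a nonunit). If `|x₀| > 1`, then
`|x₀ - r i| = |x₀|`, and `|f(x₀)| = |l| |x₀|^(∑ m i)` with `ℓ ∣ ∑ m i`. -/
theorem val_eval {k C : Type} [Field k] [Field C] [Algebra k C] {A : ValuationSubring k}
    [Finite (ResidueField A)] {V : ValuationSubring C} (h : Above A V) (g : A[X])
    (hroot : ∀ a, (g.map (residue A)).eval a ≠ 0) (ℓ : ℕ) (f : k[X]) (l : k) {ν : Type}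
    [Fintype ν] (r : ν → C) (hrV : ∀ i, r i ∈ V)
    (hgr : ∀ i, ((g.map A.subtype).map (algebraMap k C)).eval (r i) = 0) (m : ν → ℕ)
    (hdeg : ℓ ∣ ∑ i, m i)
    (hfr : f.map (algebraMap k C) =
      Polynomial.C (algebraMap k C l) * ∏ i, (X - Polynomial.C (r i)) ^ m i) (x₀ : k) :
    ∃ b : k, b ≠ 0 ∧ A.valuation (f.eval x₀) = A.valuation l * A.valuation b ^ ℓ := by
  have hev : algebraMap k C (f.eval x₀) =
      algebraMap k C l * ∏ i, (algebraMap k C x₀ - r i) ^ m i := by
    rw [← Polynomial.eval_map_apply, hfr, eval_mul, eval_C, eval_prod]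
    simp only [eval_pow, eval_sub, eval_X, eval_C]
  by_cases hx : x₀ ∈ A
  · refine ⟨1, one_ne_zero, ?_⟩
    rw [map_one, one_pow, mul_one, ← k8_val_eq h, hev, map_mul, map_prod,
      Finset.prod_eq_one, mul_one]
    intro i _
    have hxV : algebraMap k C x₀ ∈ V := (h x₀).2 hx
    have h1 : V.valuation (algebraMap k C x₀ - r i) = 1 := by
      refine le_antisymm ((V.valuation_le_one_iff _).2 (V.sub_mem hxV (hrV i))) ?_
      by_contra hc
      rw [not_le] at hc
      apply root_not_fixed h g hroot (r i) (hrV i) (hgr i)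
      have h2 := k8_frob h x₀ hx
      rw [V.mem_nonunits_iff] at h2 ⊢
      obtain ⟨w, hw⟩ := sub_dvd_pow_sub_pow (⟨algebraMap k C x₀, hxV⟩ : V) ⟨r i, hrV i⟩
        (Nat.card (ResidueField A))
      have hw' := congrArg (fun z : V => (z : C)) hw
      have hw2 : algebraMap k C x₀ ^ Nat.card (ResidueField A) -
          r i ^ Nat.card (ResidueField A) = (algebraMap k C x₀ - r i) * (w : C) := hw'
      have h3 : V.valuation ((algebraMap k C x₀ - r i) * (w : C)) < 1 := by
        rw [map_mul]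
        exact mul_lt_one_of_lt_of_le hc ((V.valuation_le_one_iff _).2 w.2)
      have h4 : r i ^ Nat.card (ResidueField A) - r i =
          (algebraMap k C x₀ ^ Nat.card (ResidueField A) - algebraMap k C x₀) -
          ((algebraMap k C x₀ - r i) * (w : C) - (algebraMap k C x₀ - r i)) := by
        rw [← hw2]
        ring
      rw [h4]
      refine lt_of_le_of_lt (Valuation.map_sub _ _ _) (max_lt h2 ?_)
      exact lt_of_le_of_lt (Valuation.map_sub _ _ _) (max_lt h3 hc)
    rw [map_pow, h1, one_pow]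
  · obtain ⟨M, hM⟩ := hdeg
    have hx0 : x₀ ≠ 0 := by
      rintro rfl
      exact hx A.zero_mem
    refine ⟨x₀ ^ M, pow_ne_zero _ hx0, ?_⟩
    have h1 : 1 < V.valuation (algebraMap k C x₀) := by
      rw [← not_le, V.valuation_le_one_iff, h x₀]
      exact hx
    have h2 : ∀ i, V.valuation (algebraMap k C x₀ - r i) = V.valuation (algebraMap k C x₀) := by
      intro i
      have h3 : V.valuation (r i) < V.valuation (algebraMap k C x₀) :=
        lt_of_le_of_lt ((V.valuation_le_one_iff _).2 (hrV i)) h1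
      exact Valuation.map_sub_eq_of_lt_left _ h3
    rw [← map_pow, ← map_mul, ← k8_val_eq h, hev, map_mul, map_mul (algebraMap k C), map_mul,
      map_prod]
    congr 1
    simp only [map_pow, h2]
    rw [Finset.prod_pow_eq_pow_sum, hM, ← pow_mul, mul_comm]

theorem k8_root {k K : Type} [Field k] [Field K] [Algebra k K] (P : RatPlace k K) (ℓ : ℕ)
    (hℓ : 0 < ℓ) (y w : K) (w0 : k) (hy : y ^ ℓ = w) (hw : w ∈ P.A)
    (h0 : w - algebraMap k K w0 ∈ P.A.nonunits) : ∃ y0 : k, y0 ^ ℓ = w0 := by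
  have hyA : y ∈ P.A := by
    rw [← P.A.valuation_le_one_iff]
    by_contra hcon
    push Not at hcon
    have h1 : P.A.valuation w ≤ 1 := (P.A.valuation_le_one_iff _).2 hw
    rw [← hy, map_pow] at h1
    exact absurd (one_lt_pow₀ hcon hℓ.ne') (not_lt.2 h1)
  obtain ⟨y0, hy0⟩ := P.rat y hyA
  refine ⟨y0, ?_⟩
  have h2 := c3_spec P (X ^ ℓ) y hyA y0 hy0
  rw [map_pow, aeval_X, eval_pow, eval_X, hy] at h2
  have h3 : algebraMap k K (y0 ^ ℓ - w0) ∈ P.A.nonunits := by
    rw [ValuationSubring.mem_nonunits_iff] at h0 h2 ⊢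
    have h4 : algebraMap k K (y0 ^ ℓ - w0) =
        (w - algebraMap k K w0) - (w - algebraMap k K (y0 ^ ℓ)) := by
      rw [map_sub]; ring
    rw [h4]
    exact lt_of_le_of_lt (Valuation.map_sub _ _ _) (max_lt h0 h2)
  exact sub_eq_zero.1 (c3_inj P _ h3)

/-- Adapt `SC2.no_place`. If `x ∈ P.A` with residue `x₀ ∈ k` then `y` has a residue `y₀ ∈ k` and
`y₀^ℓ = c f(x₀)`, so by `val_eval` `|c l| = |y₀ / b|^ℓ`. If `x ∉ P.A`, with `deg f = ℓ M`, `y / x^M`
has the residue `y₀` with `y₀^ℓ = c l` (`l` is the leading coefficient of `f`). -/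
theorem no_place' {k K : Type} [Field k] [Field K] [Algebra k K] {A : ValuationSubring k}
    (ℓ : ℕ) (hℓ : 0 < ℓ) (f : k[X]) (hdeg : ℓ ∣ f.natDegree)
    (hev : ∀ x₀ : k, ∃ b : k, b ≠ 0 ∧
      A.valuation (f.eval x₀) = A.valuation f.leadingCoeff * A.valuation b ^ ℓ) (c : k)
    (hc : ∀ b : k, A.valuation (c * f.leadingCoeff) ≠ A.valuation b ^ ℓ) (x y : K)
    (hxy : y ^ ℓ = algebraMap k K c * aeval x f) (P : RatPlace k K) : False := by
  have hmem : ∀ (g : k[X]) (z : K), z ∈ P.A → aeval z g ∈ P.A := by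
    intro g z hz
    let ι : k →+* P.A := (algebraMap k K).codRestrict P.A.toSubring P.alg
    have h4 : (((g.map ι).eval ⟨z, hz⟩ : P.A) : K) = aeval z g := by
      have h5 := (Polynomial.eval_map_apply (f := P.A.subtype) (p := g.map ι) ⟨z, hz⟩).symm
      refine Eq.trans h5 ?_
      rw [Polynomial.map_map, Polynomial.aeval_def, Polynomial.eval_map]
      rfl
    rw [← h4]
    exact ((g.map ι).eval ⟨z, hz⟩ : P.A).2
  by_cases hx : x ∈ P.A
  · obtain ⟨x0, hx0⟩ := P.rat x hx
    have h1 := c3_spec P (C c * f) x hx x0 hx0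
    have hxy' : y ^ ℓ = aeval x (C c * f) := by
      rw [hxy, map_mul, aeval_C]
    obtain ⟨y0, hy0⟩ := k8_root P ℓ hℓ y _ _ hxy' (hmem _ _ hx) h1
    rw [eval_mul, eval_C] at hy0
    obtain ⟨b, hb, hb2⟩ := hev x0
    apply hc (y0 / b)
    have hb' : A.valuation b ≠ 0 := by
      rw [Ne, map_eq_zero]; exact hb
    rw [map_div₀, div_pow, eq_div_iff (pow_ne_zero _ hb'), map_mul, mul_assoc, ← hb2, ← map_mul,
      ← map_pow, hy0]
  · have hxn : x ≠ 0 := by
      rintro rfl
      exact hx P.A.zero_mem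
    have hu : x⁻¹ ∈ P.A := (P.A.mem_or_inv_mem x).resolve_left hx
    have hu0 : x⁻¹ - algebraMap k K 0 ∈ P.A.nonunits := by
      rw [map_zero, sub_zero, ValuationSubring.mem_nonunits_iff]
      rw [← P.A.valuation_le_one_iff, not_le] at hx
      rw [map_inv₀]
      exact inv_lt_one_of_one_lt₀ hx
    obtain ⟨m, hm⟩ := hdeg
    let _ : Invertible x := invertibleOfNonzero hxn
    have h1 := eval₂_reverse_mul_pow (algebraMap k K) x f
    rw [← aeval_def, ← aeval_def, invOf_eq_inv] at h1
    have h2 : (y / x ^ m) ^ ℓ = aeval x⁻¹ (C c * f.reverse) := by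
      rw [div_pow, hxy, map_mul, aeval_C, ← h1, hm,
        div_eq_iff (pow_ne_zero _ (pow_ne_zero _ hxn))]
      ring
    have h3 := c3_spec P (C c * f.reverse) x⁻¹ hu 0 hu0
    obtain ⟨y0, hy0⟩ := k8_root P ℓ hℓ _ _ _ h2 (hmem _ _ hu) h3
    rw [eval_mul, eval_C, ← coeff_zero_eq_eval_zero, coeff_zero_reverse] at hy0
    apply hc y0
    rw [← map_pow, hy0]

end SUP
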