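import Pool.Agent.MP_c1dca2_ag.SUP.K1
import Pool.Agent.MP_c1dca2_ag.SUP.K3
import Pool.Agent.MP_c1dca2_ag.SUP.K4
import Pool.Agent.MP_c1dca2_ag.SUP.K6
import Pool.Agent.MP_c1dca2_ag.SUP.K7
import Pool.Agent.MP_c1dca2_ag.SUP.K8
import Pool.Agent.MP_c1dca2_ag.SUP.R2
import Pool.Agent.MP_c1dca2_ag.SC2.F

set_option autoImplicit false
set_option linter.unusedSectionVars false

open Polynomial IsLocalRing

namespace SUP

/-! ## [SUP-K9] the local theorem (file K9.lean) -/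

/-- `f` and `g` have the same prime factors, and `ℓ` divides the degree of `f` and no multiplicity of
a prime factor of `f`. -/
structure Adm {k : Type} [Field k] (ℓ : ℕ) (f g : k[X]) : Prop where
  same : ∀ p : k[X], Irreducible p → (p ∣ f ↔ p ∣ g)
  mult : ∀ p : k[X], Irreducible p → p ∣ f → ¬ ℓ ∣ multiplicity p f
  deg : ℓ ∣ f.natDegree

/-- The section conjecture holds for every curve with a nonconstant map to `y^m = F(x)`, and such a
curve has neither sections nor rational points. -/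
def NoSec (k : Type) [Field k] (m : ℕ) (F : k[X]) : Prop :=
  ∀ (K : Type) [Field K] [Algebra k K] (x y : K), Transcendental k x → y ^ m = aeval x F →
    SCJ.SectionConjecture k K ∧ IsEmpty (SCJ.Sect k K) ∧ IsEmpty (SCJ.RatPlace k K)

open SEC SC2

theorem val_ell {k C : Type} [Field k] [Field C] [Algebra k C] {A : ValuationSubring k}
    {V : ValuationSubring C} (h : Above A V) (ℓ : ℕ) (hA : (ℓ : ResidueField A) ≠ 0) :
    V.valuation ((ℓ : ℕ) : C) = 1 := by
  have h3 : residue A ((ℓ : ℕ) : A) ≠ 0 := by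
    rw [map_natCast]
    exact hA
  have h4 : IsUnit ((ℓ : ℕ) : A) := by
    by_contra h5
    exact h3 ((residue_eq_zero_iff _).2 h5)
  have h6 := (A.valuation_eq_one_iff ((ℓ : ℕ) : A)).1 h4
  have h6' : A.valuation ((ℓ : ℕ) : k) = 1 := by exact_mod_cast h6
  have h7 : ((ℓ : ℕ) : k) ≠ 0 := by
    intro h0
    rw [h0, map_zero] at h6'
    exact zero_ne_one h6'
  have h8 : V.valuation (algebraMap k C ((ℓ : ℕ) : k)) ≤ 1 :=
    (V.valuation_le_one_iff _).2 ((h _).2 ((A.valuation_le_one_iff _).1 h6'.le))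
  have h9 : V.valuation (algebraMap k C ((ℓ : ℕ) : k)⁻¹) ≤ 1 := by
    refine (V.valuation_le_one_iff _).2 ((h _).2 ((A.valuation_le_one_iff _).1 ?_))
    rw [map_inv₀, h6', inv_one]
  have h10 : V.valuation (algebraMap k C ((ℓ : ℕ) : k)) *
      V.valuation (algebraMap k C ((ℓ : ℕ) : k)⁻¹) = 1 := by
    rw [← map_mul, ← map_mul, mul_inv_cancel₀ h7, map_one, map_one]
  rw [map_natCast] at h8 h10
  refine le_antisymm h8 ?_
  by_contra hcon
  push Not at hcon
  have h11 := mul_lt_one_of_lt_of_le hcon h9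
  rw [h10] at h11
  exact lt_irrefl _ h11

theorem coprime_card {k : Type} [Field k] {A : ValuationSubring k} [Finite (ResidueField A)]
    {ℓ : ℕ} (hℓ : ℓ.Prime) (hA : (ℓ : ResidueField A) ≠ 0) :
    (Nat.card (ResidueField A)).Coprime ℓ := by
  rw [Nat.coprime_comm, Nat.Prime.coprime_iff_not_dvd hℓ]
  intro hd
  have hF := Fintype.ofFinite (ResidueField A)
  obtain ⟨p, hp⟩ := CharP.exists (ResidueField A)
  have hpp : p.Prime := by
    rcases CharP.char_is_prime_or_zero (ResidueField A) p with h | h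
    · exact h
    · exfalso
      rw [h] at hp
      have : CharZero (ResidueField A) := CharP.charP_to_charZero _
      exact not_finite (ResidueField A)
  have hfp : Fact p.Prime := ⟨hpp⟩
  obtain ⟨n, -, hn⟩ := FiniteField.card (ResidueField A) p
  rw [Nat.card_eq_fintype_card, hn] at hd
  have h1 : ℓ ∣ p := hℓ.dvd_of_dvd_pow hd
  have h2 : ℓ = p := (Nat.prime_dvd_prime_iff_eq hℓ hpp).1 h1
  apply hA
  rw [h2]
  exact CharP.cast_eq_zero _ _

theorem local_core {k K : Type} [Field k] [CharZero k] [Field K] [Algebra k K]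
    {A : ValuationSubring k} [IsDiscreteValuationRing A] [Finite (ResidueField A)] (ℓ : ℕ)
    (hℓ' : ℓ.Prime) (hA : (ℓ : ResidueField A) ≠ 0) (g : A[X])
    (hsep : (g.map (residue A)).Separable)
    (hdeg : (g.map (residue A)).natDegree = g.natDegree) (h3 : 3 ≤ g.natDegree)
    (hroot : ∀ a, (g.map (residue A)).eval a ≠ 0) (f : k[X]) (hf0 : f ≠ 0)
    (hadm : Adm ℓ f (g.map A.subtype)) (c : k)
    (hc : ∀ b : k, A.valuation (c * f.leadingCoeff) ≠ A.valuation b ^ ℓ) (x y : K)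
    (hx : Transcendental k x) (hxy : y ^ ℓ = algebraMap k K c * aeval x f) :
    IsEmpty (SEC.Sect k K) ∧ IsEmpty (SEC.RatPlace k K) := by
  classical
  have hℓ : Fact ℓ.Prime := ⟨hℓ'⟩
  have hc0 : c ≠ 0 := by
    rintro rfl
    exact hc 0 (by simp [hℓ'.ne_zero])
  have hac : IsAlgClosed (kb k K) := kb_isAlgClosed
  have hgal : IsGalois k (kb k K) := kb_isGalois
  obtain ⟨V, hV⟩ := exists_above (C := kb k K) A
  have hVℓ : V.valuation ((ℓ : ℕ) : kb k K) = 1 := val_ell hV ℓ hA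
  obtain ⟨r, l, hl, hgr, hr, hd⟩ := exists_roots hV g hsep hdeg
  have hl0 : l ≠ 0 := by
    rintro rfl
    rw [map_zero, map_zero] at hl
    exact zero_ne_one hl
  have hrinj : Function.Injective r := by
    intro i j hij
    by_contra hne
    have h1 := hd i j hne
    rw [hij, sub_self, map_zero] at h1
    exact zero_ne_one h1
  have hg0 : g.map A.subtype ≠ 0 := by
    intro h0
    rw [h0, Polynomial.map_zero] at hgr
    have h1 : C (algebraMap k (kb k K) l) * ∏ i, (X - C (r i)) ≠ 0 :=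
      mul_ne_zero (by
        rw [Ne, C_eq_zero, map_eq_zero]
        exact hl0) (Finset.prod_ne_zero_iff.2 fun i _ => X_sub_C_ne_zero _)
    exact h1 hgr.symm
  obtain ⟨m, hm, hmdeg, hfr⟩ := exists_mult f (g.map A.subtype) hf0 hg0 l r hrinj hgr ℓ hadm.same
    hadm.mult
  have hdvd : ℓ ∣ ∑ i, m i := by rw [hmdeg]; exact hadm.deg
  have hlc0 : f.leadingCoeff ≠ 0 := leadingCoeff_ne_zero.2 hf0
  have hgri : ∀ i, ((g.map A.subtype).map (algebraMap k (kb k K))).eval (r i) = 0 := by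
    intro i
    rw [hgr, eval_mul, eval_prod, Finset.prod_eq_zero (Finset.mem_univ i), mul_zero]
    rw [eval_sub, eval_X, eval_C, sub_self]
  refine ⟨⟨fun s => ?_⟩, ⟨fun P => ?_⟩⟩
  swap
  · exact no_place' ℓ hℓ'.pos f hadm.deg
      (fun x₀ => val_eval hV g hroot ℓ f f.leadingCoeff r hr hgri m hdvd hfr x₀) c hc x y hxy P
  let o : Fin g.natDegree := ⟨0, by omega⟩
  have hp : ∀ (σ : kb k K ≃ₐ[k] kb k K) i, ∃ j, σ (r i) = r j :=
    fun σ i => f_perm (g.map A.subtype) l hl0 r hgr σ i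
  have hI : ∀ σ : kb k K ≃ₐ[k] kb k K, Iner V σ → ∀ i, σ (r i) = r i :=
    fun σ hσ i => f_iner_root r hr hd hp σ hσ i
  obtain ⟨T, hT⟩ := exists_T f c f.leadingCoeff hc0 hlc0 x y hx hxy r hrinj m hm hfr o
  obtain ⟨z, hz⟩ := IsAlgClosed.exists_pow_nat_eq (algebraMap k (kb k K) (c * f.leadingCoeff))
    hℓ'.pos
  obtain ⟨τ, hτ, hτz⟩ := exists_tau hV hVℓ (c * f.leadingCoeff) hc z hz
  obtain ⟨ζ, hζ, -⟩ := exists_zeta (ℓ := ℓ) hVℓ
  have hτζ : τ (ζ : kb k K) = (ζ : kb k K) :=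
    iner_root hVℓ 1 _ (by rw [pow_one]; exact hζ.pow_eq_one) τ hτ
  have hz0 : z ≠ 0 := by
    rintro rfl
    exact hτz (map_zero τ)
  have hτz' : ∀ z' : kb k K, z' ^ ℓ = algebraMap k (kb k K) (c * f.leadingCoeff) → τ z' ≠ z' := by
    intro z' hz' h1
    apply hτz
    have h2 : (z / z') ^ ℓ = 1 := by
      rw [div_pow, hz, hz', div_self]
      rw [← hz]
      exact pow_ne_zero _ hz0
    have hz'0 : z' ≠ 0 := by
      rintro rfl
      rw [zero_pow hℓ'.ne_zero, ← hz] at hz'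
      exact pow_ne_zero _ hz0 hz'.symm
    have h3 : τ (z / z') = z / z' := iner_root hVℓ 1 _ (by rw [pow_one]; exact h2) τ hτ
    rw [map_div₀, h1] at h3
    exact (div_left_inj' hz'0).1 h3
  obtain ⟨w, hw⟩ := exists_wi x hx r o T (fun i => (hT i).1) (fun i => (hT i).2) s τ (hI τ hτ)
    (ζ : kb k K) hζ
  obtain ⟨i₁, hi₁⟩ := exists_moved f c f.leadingCoeff hc0 hlc0 x y hx hxy r m hdvd hfr o T
    (fun i => (hT i).1) (fun i => (hT i).2) s τ (hI τ hτ) hτz'
  have hTo : T o ^ ℓ = 1 := by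
    have h1 := (hT o).2
    exact mul_right_cancel₀ (x_sub_ne x hx (r o)) (by rw [h1, one_mul])
  have hwo : w o = 0 := by
    obtain ⟨ξ, hξ, hξ2⟩ := exists_xi ℓ hℓ'.pos (1 : Mnr k K) (T o) one_ne_zero (by
      rw [hTo, one_pow])
    have h1 : s.toHom τ (T o) = T o := by
      rw [hξ2, mul_one, sect_iota, iner_root hVℓ 1 ξ (by rw [pow_one]; exact hξ) τ hτ]
    have h2 := hw o
    rw [h1] at h2
    have h3 : (iotaM ((ζ : kb k K) ^ (w o).val) : Mnr k K) = iotaM 1 := by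
      rw [map_one]
      exact mul_right_cancel₀ (hT o).1 (by rw [one_mul]; exact h2.symm)
    have h4 := (iotaM (k := k) (K := K)).injective h3
    have h5 : (w o).val = 0 := by
      apply hζ.pow_inj (ZMod.val_lt _) hℓ'.pos
      rw [h4, pow_zero]
    exact (ZMod.val_eq_zero _).1 h5
  have hne : ∃ i j, w i ≠ w j := by
    refine ⟨i₁, o, fun h1 => hi₁ ?_⟩
    rw [hw, h1, hwo, ZMod.val_zero, pow_zero, map_one, one_mul]
  obtain ⟨φ, hφ⟩ := exists_frob (C := kb k K) hV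
  have hq2 : 2 ≤ Nat.card (ResidueField A) := Finite.one_lt_card
  have hqℓ := coprime_card hℓ' hA
  choose π hπ using fun i => hp φ i
  have hπinj : Function.Injective π := by
    intro i j hij
    apply hrinj
    apply φ.injective
    rw [hπ, hπ, hij]
  obtain ⟨i₀, hi₀⟩ := comb_fix (ℓ := ℓ) (by rw [Fintype.card_fin]; exact h3) w hne
    (fun ε h0 h1 a b ha hb => key hV hVℓ s x hx r hd hI o T (fun i => (hT i).1)
      (fun i => (hT i).2) _ hq2 hqℓ φ hφ (hp φ) τ hτ (ζ : kb k K) hζ w hw ε h0 h1 a b ha hb)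
    π hπinj
    (fun i j => perm_w hV hVℓ s x hx r o hI T (fun i => (hT i).1) (fun i => (hT i).2) _ hqℓ φ hφ
      π hπ τ hτ (ζ : kb k K) hζ w hw i j)
  have h5 := hφ.frob (r i₀) (hr i₀)
  rw [hπ, hi₀] at h5
  refine root_not_fixed hV g hroot (r i₀) (hr i₀) (hgri i₀) ?_
  rw [V.mem_nonunits_iff] at h5 ⊢
  rw [← Valuation.map_neg, neg_sub]
  exact h5

theorem local_main {k : Type} [Field k] [CharZero k] (A : ValuationSubring k)
    [IsDiscreteValuationRing A] [Finite (ResidueField A)] (ℓ : ℕ)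
    (hℓ : ℓ.Prime) (hA : (ℓ : ResidueField A) ≠ 0) (g : A[X])
    (hsep : (g.map (residue A)).Separable)
    (hdeg : (g.map (residue A)).natDegree = g.natDegree) (h3 : 3 ≤ g.natDegree)
    (hroot : ∀ a, (g.map (residue A)).eval a ≠ 0) (f : k[X]) (hf0 : f ≠ 0)
    (hadm : Adm ℓ f (g.map A.subtype)) (c : k)
    (hc : ∀ b : k, A.valuation (c * f.leadingCoeff) ≠ A.valuation b ^ ℓ) (m : ℕ) (hm : ℓ ∣ m) :
    NoSec k m (C c * f) := by
  intro K _ _ x y hx hxy
  obtain ⟨n, rfl⟩ := hm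
  have h := local_core ℓ hℓ hA g hsep hdeg h3 hroot f hf0 hadm c hc x (y ^ n) hx (by
    rw [← pow_mul, mul_comm n ℓ, hxy, map_mul, aeval_C])
  have h1 : IsEmpty (SCJ.Sect k K) := ⟨fun s => h.1.elim s.toOld⟩
  have h2 : IsEmpty (SCJ.RatPlace k K) := ⟨fun P => h.2.elim P.toOld⟩
  exact ⟨⟨fun P => h2.elim P, fun s => h1.elim s⟩, h1, h2⟩

end SUP
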