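import Mathlib

set_option autoImplicit false
set_option linter.unusedSectionVars false

namespace SUP

/-! ## [SUP-E1] splitting a divergent sum (file E1.lean; Mathlib only) -/

/-- `Q` is infinite; enumerate it increasingly, `q_0 < q_1 < ...` (`Nat.nth`), and take the elements
with even and with odd index (`Nat.count (· ∈ Q) p` even or odd). As
`1/q_(2n) ≥ 1/q_(2n+1) ≥ 1/q_(2n+2)`, if one of the two sums converges so does the other, and then the
sum over `Q` converges. -/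
theorem exists_split (Q : Set ℕ) (hQ : ∀ p ∈ Q, 0 < p)
    (hsum : ¬ Summable (fun p : Q => ((p : ℕ) : ℝ)⁻¹)) :
    ∃ Q₁ Q₂ : Set ℕ, Q₁ ⊆ Q ∧ Q₂ ⊆ Q ∧ Disjoint Q₁ Q₂ ∧
      ¬ Summable (fun p : Q₁ => ((p : ℕ) : ℝ)⁻¹) ∧ ¬ Summable (fun p : Q₂ => ((p : ℕ) : ℝ)⁻¹) := by
  classical
  have hinf : Infinite Q := by
    by_contra h
    rw [not_infinite_iff_finite] at h
    have : Fintype Q := Fintype.ofFinite Q
    exact hsum (hasSum_fintype _).summable
  obtain ⟨e⟩ : Nonempty (ℕ ≃o Q) := ⟨Nat.Subtype.orderIsoOfNat Q⟩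
  have hpos : ∀ n, (0 : ℝ) < ((e n : ℕ) : ℝ) := fun n => Nat.cast_pos.2 (hQ _ (e n).2)
  have hmono : ∀ m n, m ≤ n → ((e n : ℕ) : ℝ)⁻¹ ≤ ((e m : ℕ) : ℝ)⁻¹ := by
    intro m n hmn
    apply inv_anti₀ (hpos m)
    exact Nat.cast_le.2 (e.monotone hmn)
  have hns : ¬ Summable (fun n => ((e n : ℕ) : ℝ)⁻¹) := by
    intro h
    apply hsum
    exact (e.toEquiv.summable_iff (f := fun p : Q => ((p : ℕ) : ℝ)⁻¹)).1 h
  have hall : ¬ (Summable (fun n => ((e (2 * n) : ℕ) : ℝ)⁻¹) ∧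
      Summable (fun n => ((e (2 * n + 1) : ℕ) : ℝ)⁻¹)) := by
    rintro ⟨h1, h2⟩
    apply hns
    exact (HasSum.even_add_odd h1.hasSum h2.hasSum).summable
  have he1 : ¬ Summable (fun n => ((e (2 * n) : ℕ) : ℝ)⁻¹) := by
    intro h
    apply hall
    refine ⟨h, Summable.of_nonneg_of_le (fun n => (inv_pos.2 (hpos _)).le)
      (fun n => hmono _ _ (Nat.le_succ _)) h⟩
  have he2 : ¬ Summable (fun n => ((e (2 * n + 1) : ℕ) : ℝ)⁻¹) := by
    intro h
    apply he1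
    rw [← summable_nat_add_iff 1]
    exact Summable.of_nonneg_of_le (fun n => (inv_pos.2 (hpos _)).le)
      (fun n => hmono _ _ (by omega)) h
  refine ⟨Set.range (fun n => (e (2 * n) : ℕ)), Set.range (fun n => (e (2 * n + 1) : ℕ)),
    ?_, ?_, ?_, ?_, ?_⟩
  · rintro _ ⟨n, rfl⟩
    exact (e (2 * n)).2
  · rintro _ ⟨n, rfl⟩
    exact (e (2 * n + 1)).2
  · rw [Set.disjoint_left]
    rintro _ ⟨n, rfl⟩ ⟨m, hm⟩
    have h1 : e (2 * m + 1) = e (2 * n) := Subtype.ext hm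
    have h2 := e.injective h1
    omega
  · intro h
    apply he1
    have hi : Function.Injective (fun n : ℕ =>
        (⟨(e (2 * n) : ℕ), ⟨n, rfl⟩⟩ : Set.range (fun n => (e (2 * n) : ℕ)))) := by
      intro m n hmn
      have h1 : e (2 * m) = e (2 * n) := Subtype.ext (Subtype.mk.inj hmn)
      have h2 := e.injective h1
      omega
    have h3 := h.comp_injective hi
    have h4 : ((fun p : Set.range (fun n => (e (2 * n) : ℕ)) => ((p : ℕ) : ℝ)⁻¹) ∘ fun n : ℕ =>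
        (⟨(e (2 * n) : ℕ), ⟨n, rfl⟩⟩ : Set.range (fun n => (e (2 * n) : ℕ)))) =
        fun n => ((e (2 * n) : ℕ) : ℝ)⁻¹ := by
      funext n
      rfl
    rwa [h4] at h3
  · intro h
    apply he2
    have hi : Function.Injective (fun n : ℕ =>
        (⟨(e (2 * n + 1) : ℕ), ⟨n, rfl⟩⟩ : Set.range (fun n => (e (2 * n + 1) : ℕ)))) := by
      intro m n hmn
      have h1 : e (2 * m + 1) = e (2 * n + 1) := Subtype.ext (Subtype.mk.inj hmn)
      have h2 := e.injective h1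
      omega
    have h3 := h.comp_injective hi
    have h4 : ((fun p : Set.range (fun n => (e (2 * n + 1) : ℕ)) => ((p : ℕ) : ℝ)⁻¹) ∘ fun n : ℕ =>
        (⟨(e (2 * n + 1) : ℕ), ⟨n, rfl⟩⟩ : Set.range (fun n => (e (2 * n + 1) : ℕ)))) =
        fun n => ((e (2 * n + 1) : ℕ) : ℝ)⁻¹ := by
      funext n
      rfl
    rwa [h4] at h3

end SUP
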