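import Mathlib

set_option autoImplicit false
set_option linter.unusedSectionVars false

open Polynomial

namespace SUP

/-! ## [SUP-E4] Jordan's lemma (file E4.lean; Mathlib only) -/

/-- A transitive action of a finite group on a finite set with at least two elements has an
element without fixed point. By Burnside's lemma
(`MulAction.sum_card_fixedBy_eq_card_orbits_mul_card_group`) `∑_g #Fix(g) = #G`, and `g = 1` has
at least two fixed points, so not all `g` have one. -/
theorem exists_no_fixed {G X : Type} [Group G] [Fintype G] [MulAction G X] [Fintype X]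
    [MulAction.IsPretransitive G X] (h : 2 ≤ Fintype.card X) : ∃ g : G, ∀ x : X, g • x ≠ x := by
  classical
  by_contra hcon
  push Not at hcon
  have h1 := MulAction.sum_card_fixedBy_eq_card_orbits_mul_card_group G X
  have h2 : Fintype.card (Quotient (MulAction.orbitRel G X)) ≤ 1 := by
    rw [Fintype.card_le_one_iff]
    intro a b
    induction a using Quotient.inductionOn with
    | _ a =>
      induction b using Quotient.inductionOn with
      | _ b =>
        apply Quotient.sound
        obtain ⟨g, hg⟩ := MulAction.exists_smul_eq G b a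
        exact ⟨g, hg⟩
  have h3 : ∀ g : G, 1 ≤ Fintype.card (MulAction.fixedBy X g) := by
    intro g
    obtain ⟨x, hx⟩ := hcon g
    exact Fintype.card_pos_iff.2 ⟨⟨x, hx⟩⟩
  have h4 : Fintype.card (MulAction.fixedBy X (1 : G)) = Fintype.card X := by
    apply Fintype.card_congr
    refine ⟨fun x => x.1, fun x => ⟨x, one_smul G x⟩, fun x => rfl, fun x => rfl⟩
  have h5 : (∑ g : G, Fintype.card (MulAction.fixedBy X g)) =
      Fintype.card (MulAction.fixedBy X (1 : G)) +
        ∑ g ∈ Finset.univ.erase (1 : G), Fintype.card (MulAction.fixedBy X g) :=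
    (Finset.add_sum_erase _ _ (Finset.mem_univ (1 : G))).symm
  have h6 : (Finset.univ.erase (1 : G)).card ≤
      ∑ g ∈ Finset.univ.erase (1 : G), Fintype.card (MulAction.fixedBy X g) := by
    calc (Finset.univ.erase (1 : G)).card = ∑ g ∈ Finset.univ.erase (1 : G), 1 := by
          rw [Finset.sum_const, smul_eq_mul, mul_one]
      _ ≤ _ := Finset.sum_le_sum (fun g _ => h3 g)
  have h7 : (Finset.univ.erase (1 : G)).card + 1 = Fintype.card G := by
    rw [Finset.card_erase_add_one (Finset.mem_univ _), Finset.card_univ]
  have h8 : Fintype.card (Quotient (MulAction.orbitRel G X)) * Fintype.card G ≤ 1 * Fintype.card G :=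
    Nat.mul_le_mul_right _ h2
  omega

/-- The Galois group of an irreducible separable polynomial of degree `≥ 2` acts transitively on the
roots in the splitting field, of which there are `natDegree` many. -/
theorem exists_derangement {k : Type} [Field k] (g : k[X]) (hirr : Irreducible g)
    (hsep : g.Separable) (h2 : 2 ≤ g.natDegree) :
    ∃ σ : g.SplittingField ≃ₐ[k] g.SplittingField,
      ∀ r : g.SplittingField, aeval r g = 0 → σ r ≠ r := by
  classical
  have h1 : Fintype.card (g.rootSet g.SplittingField) = g.natDegree :=
    card_rootSet_eq_natDegree hsep (SplittingField.splits g)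
  have h2' : MulAction.IsPretransitive g.Gal (g.rootSet g.SplittingField) := by
    refine ⟨fun x y => ?_⟩
    have hx := minpoly.eq_of_irreducible hirr (mem_rootSet.mp x.2).2
    have hy := minpoly.eq_of_irreducible hirr (mem_rootSet.mp y.2).2
    obtain ⟨σ, hσ⟩ := (Normal.minpoly_eq_iff_mem_orbit g.SplittingField).mp (hy.symm.trans hx)
    exact ⟨σ, Subtype.ext hσ⟩
  obtain ⟨σ, hσ⟩ := exists_no_fixed (G := g.Gal) (X := g.rootSet g.SplittingField) (by rw [h1]; exact h2)
  refine ⟨σ, fun r hr hrσ => ?_⟩
  have hmem : r ∈ g.rootSet g.SplittingField := mem_rootSet.2 ⟨hirr.ne_zero, hr⟩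
  exact hσ ⟨r, hmem⟩ (Subtype.ext hrσ)

end SUP
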