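import Pool.Agent.MP_c1dca2_ag.SUP.A1

set_option autoImplicit false
set_option linter.unusedSectionVars false

open Polynomial

namespace SUP

/-! ## [SUP-A2] the order of the pole is additive (file A2.lean; uses A1) -/

variable {ι : Type} [Fintype ι] {ℓ : ℕ} [hℓ : Fact ℓ.Prime] {R : Type} [CommRing R]
  {e : ι → ZMod ℓ} {α : ι → R}

/-- `(cc i j).natDegree ≤ ∑ a, car e i j a`. -/
theorem natDegree_cc_le (i j : ZMod ℓ) : (cc e α i j).natDegree ≤ ∑ a, car e i j a := by
  rw [cc]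
  refine (natDegree_prod_le _ _).trans (Finset.sum_le_sum fun a _ => ?_)
  refine natDegree_pow_le.trans ?_
  calc car e i j a * (X - C (α a)).natDegree ≤ car e i j a * 1 :=
        Nat.mul_le_mul_left _ (natDegree_X_sub_C_le _)
    _ = car e i j a := mul_one _

/-- `cc i j` is monic of degree `∑ a, car e i j a`. -/
theorem coeff_cc (i j : ZMod ℓ) : (cc e α i j).coeff (∑ a, car e i j a) = 1 := by
  rcases subsingleton_or_nontrivial R with hR | hR
  · exact Subsingleton.elim _ _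
  · have h1 : (cc e α i j).natDegree = ∑ a, car e i j a := by
      rw [cc, natDegree_prod_of_monic _ _ (fun a _ => (monic_X_sub_C (α a)).pow _)]
      refine Finset.sum_congr rfl fun a _ => ?_
      rw [(monic_X_sub_C (α a)).natDegree_pow, natDegree_X_sub_C, mul_one]
    rw [← h1]
    exact (cc_monic e α i j).coeff_natDegree

theorem a2_deg {m : ℕ} {b : BB e α} (hb : b ∈ Ble e α m) {i : ZMod ℓ} (h : b.co i ≠ 0) :
    ℓ * (b.co i).natDegree + wt e i ≤ m := by
  by_contra hcon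
  have h1 := hb i (b.co i).natDegree (not_le.1 hcon)
  exact h (leadingCoeff_eq_zero.1 h1)

theorem a2_term (b c : BB e α) (k i : ZMod ℓ) (n : ℕ)
    (h : (cc e α i (k - i) * (b.co i * c.co (k - i))).coeff n ≠ 0) :
    b.co i ≠ 0 ∧ c.co (k - i) ≠ 0 ∧
    ℓ * n + wt e k ≤ (ℓ * (b.co i).natDegree + wt e i) +
      (ℓ * (c.co (k - i)).natDegree + wt e (k - i)) := by
  refine ⟨?_, ?_, ?_⟩
  · intro h1
    apply h
    rw [h1, zero_mul, mul_zero, coeff_zero]
  · intro h1
    apply h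
    rw [h1, mul_zero, mul_zero, coeff_zero]
  · have h1 := le_natDegree_of_ne_zero h
    have h2 : (cc e α i (k - i) * (b.co i * c.co (k - i))).natDegree ≤
        ∑ a, car e i (k - i) a + ((b.co i).natDegree + (c.co (k - i)).natDegree) :=
      natDegree_mul_le.trans (add_le_add (natDegree_cc_le _ _) natDegree_mul_le)
    have h3 := wt_add e i (k - i)
    rw [add_sub_cancel] at h3
    have h4 := Nat.mul_le_mul_left ℓ (h1.trans h2)
    rw [Nat.mul_add, Nat.mul_add] at h4
    omega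

theorem a2_lcf_zero (hs : ∑ a, e a ≠ 0) {m m' : ℕ} {b : BB e α} (hb : b ∈ Ble e α m)
    (h : m < m') : lcf e α m' b = 0 := by
  by_cases h2 : ∃ (j : ZMod ℓ) (i : ℕ), ℓ * i + wt e j = m'
  · obtain ⟨j, i, h3⟩ := h2
    rw [← h3, lcf_eq hs]
    exact hb j i (by omega)
  · exact lcf_none (fun j i h3 => h2 ⟨j, i, h3⟩) b

theorem a2_pred (hs : ∑ a, e a ≠ 0) {m : ℕ} {b : BB e α} (hb : b ∈ Ble e α m)
    (h : ¬ ∃ (j : ZMod ℓ) (i : ℕ), ℓ * i + wt e j = m) :
    ∃ m₁, m = m₁ + 1 ∧ b ∈ Ble e α m₁ := by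
  rcases m with _ | m
  · exact absurd ⟨0, 0, by rw [wt_zero, mul_zero]⟩ h
  · exact ⟨m, rfl, Ble_pred hs hb (lcf_none (fun j i h3 => h ⟨j, i, h3⟩) b)⟩

/-- `(b c)_k = ∑_i cc i (k - i) b_i c_(k - i)`. The coefficient of `X^n` is a sum of products of the
coefficients of `X^n₁` in `cc i (k - i)`, `X^n₂` in `b_i`, `X^n₃` in `c_(k - i)`, `n₁ + n₂ + n₃ = n`.
If it is not zero, `n₁ ≤ ∑ car`, `ℓ n₂ + wt i ≤ m`, `ℓ n₃ + wt (k - i) ≤ m'` and (`wt_add`)
`ℓ n + wt k ≤ ℓ ∑ car + wt k + ℓ n₂ + ℓ n₃ = wt i + wt (k - i) + ℓ n₂ + ℓ n₃ ≤ m + m'`. -/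
theorem Ble_mul {m m' : ℕ} {b c : BB e α} (hb : b ∈ Ble e α m) (hc : c ∈ Ble e α m') :
    b * c ∈ Ble e α (m + m') := by
  intro k n hn
  rw [BB.co_mul, finsetSum_coeff]
  refine Finset.sum_eq_zero fun i _ => ?_
  by_contra hne
  obtain ⟨g1, g2, g3⟩ := a2_term b c k i n hne
  have g4 := a2_deg hb g1
  have g5 := a2_deg hc g2
  omega

/-- Let `b = c₁ X^n v_i + b'`, `c = c₂ X^n' v_j + c'` where `ℓ n + wt i = m`, `ℓ n' + wt j = m'` (if
such pairs exist; otherwise the leading coefficients vanish), `b' ∈ Ble (m - 1)`, `c' ∈ Ble (m' - 1)`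
(or `b' = 0`, `c' = 0`). The product of the monomials is `c₁ c₂ X^(n+n') cc i j v_(i+j)`, and
`cc i j` is monic of degree `∑ car`, so (`wt_add`) its coefficient of weight `m + m'` is `c₁ c₂`. The
other products are in `Ble (m + m' - 1)` (`Ble_mul`). Alternatively compute the coefficient of weight
`m + m'` directly: in the proof of `Ble_mul` equality forces `ℓ n₂ + wt i = m`,
`ℓ n₃ + wt (k - i) = m'`, which determine `i`, `n₂`, `n₃` and `k` (`wt_inj`). If there is no pair
with weight `m` then `b ∈ Ble (m - 1)` (or `b = 0`), so `b c ∈ Ble (m + m' - 1)` and both sides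
are zero. -/
theorem lcf_mul (hs : ∑ a, e a ≠ 0) {m m' : ℕ} {b c : BB e α} (hb : b ∈ Ble e α m)
    (hc : c ∈ Ble e α m') :
    lcf e α (m + m') (b * c) = lcf e α m b * lcf e α m' c := by
  by_cases h1 : ∃ (i : ZMod ℓ) (n : ℕ), ℓ * n + wt e i = m
  · by_cases h2 : ∃ (j : ZMod ℓ) (n : ℕ), ℓ * n + wt e j = m'
    · obtain ⟨i, p, rfl⟩ := h1
      obtain ⟨j, q, rfl⟩ := h2
      have h3 : ℓ * p + wt e i + (ℓ * q + wt e j) =
          ℓ * (∑ a, car e i j a + (p + q)) + wt e (i + j) := by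
        have h4 := wt_add e i j
        rw [Nat.mul_add, Nat.mul_add]
        omega
      have hb' : (b.co i).natDegree ≤ p := by
        rw [natDegree_le_iff_coeff_eq_zero]
        intro N hN
        have h5 := (Nat.mul_lt_mul_left hℓ.out.pos).2 hN
        exact hb i N (by omega)
      have hc' : (c.co j).natDegree ≤ q := by
        rw [natDegree_le_iff_coeff_eq_zero]
        intro N hN
        have h5 := (Nat.mul_lt_mul_left hℓ.out.pos).2 hN
        exact hc j N (by omega)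
      rw [h3, lcf_eq hs, lcf_eq hs, lcf_eq hs, BB.co_mul, finsetSum_coeff,
        Finset.sum_eq_single i]
      · rw [add_sub_cancel_left,
          coeff_mul_add_eq_of_natDegree_le (natDegree_cc_le _ _) (natDegree_mul_le_of_le hb' hc'),
          coeff_mul_add_eq_of_natDegree_le hb' hc', coeff_cc, one_mul]
      · intro i' _ hi'
        by_contra hne
        obtain ⟨g1, g2, g3⟩ := a2_term b c (i + j) i' _ hne
        have g4 := a2_deg hb g1
        have g5 := a2_deg hc g2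
        rw [← h3] at g3
        exact hi' (wt_inj e hs
          (show ℓ * (b.co i').natDegree + wt e i' = ℓ * p + wt e i by omega)).1
      · intro h
        exact absurd (Finset.mem_univ _) h
    · obtain ⟨m₁, rfl, h5⟩ := a2_pred hs hc h2
      rw [lcf_none (fun j i h3 => h2 ⟨j, i, h3⟩) c, mul_zero]
      exact a2_lcf_zero hs (Ble_mul hb h5) (by omega)
  · obtain ⟨m₁, rfl, h5⟩ := a2_pred hs hb h1
    rw [lcf_none (fun j i h3 => h1 ⟨j, i, h3⟩) b, zero_mul]
    exact a2_lcf_zero hs (Ble_mul h5 hc) (by omega)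

end SUP
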