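import Pool.Agent.MP_c1dca2_ag.SUP.A3

set_option autoImplicit false
set_option linter.unusedSectionVars false

open Polynomial

namespace SUP

/-! ## [SUP-A3b] the filtration and the maps `bmap`, `bE`, `sg` (file A3b.lean; uses A1) -/

variable {ι : Type} [Fintype ι] {ℓ : ℕ} [hℓ : Fact ℓ.Prime]

section maps

variable {R : Type} [CommRing R] {e : ι → ZMod ℓ} {α : ι → R} {S : Type} [CommRing S]
  {β : ι → S}

theorem bmap_Ble (f : R →+* S) (h : ∀ a, f (α a) = β a) {m : ℕ} {b : BB e α}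
    (hb : b ∈ Ble e α m) : bmap f h b ∈ Ble e β m := by
  intro j i hm
  rw [bmap_co, Polynomial.coeff_map, hb j i hm, map_zero]

theorem lcf_bmap (f : R →+* S) (h : ∀ a, f (α a) = β a) (m : ℕ) (b : BB e α) :
    lcf e β m (bmap f h b) = f (lcf e α m b) := by
  rw [lcf_apply, lcf_apply, map_sum]
  refine Finset.sum_congr rfl fun j _ => ?_
  split_ifs
  · rw [bmap_co, Polynomial.coeff_map]
  · rw [map_zero]

theorem a3b_aux (f : R →+* S) (h : ∀ a, f (α a) = β a) (hf : Function.Injective f)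
    {m : ℕ} {b : BB e α} : bmap f h b ∈ Ble e β m ↔ b ∈ Ble e α m := by
  constructor
  · intro hb j i hm
    have h1 := hb j i hm
    rw [bmap_co, Polynomial.coeff_map] at h1
    exact (map_eq_zero_iff f hf).1 h1
  · exact bmap_Ble f h

theorem pord_bmap (f : R →+* S) (h : ∀ a, f (α a) = β a) (hf : Function.Injective f)
    (b : BB e α) : pord (bmap f h b) = pord b := by
  unfold pord
  congr 1
  ext m
  exact a3b_aux f h hf

theorem lc_bE (f : R ≃+* R) (h : ∀ a, f (α a) = α a) (b : BB e α) :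
    lc (bE f h b) = f (lc b) := by
  have h1 : pord (bE f h b) = pord b := pord_bmap (f : R →+* R) h f.injective b
  unfold lc
  rw [h1]
  exact lcf_bmap (f : R →+* R) h _ b

/-- `ζ` is a unit. -/
theorem sg_Ble (ζ : R) (hζ : ζ ^ ℓ = 1) {m : ℕ} {b : BB e α} :
    sg ζ hζ b ∈ Ble e α m ↔ b ∈ Ble e α m := by
  have hu : IsUnit ζ := IsUnit.of_pow_eq_one hζ hℓ.out.ne_zero
  constructor
  · intro hb j i hm
    have h1 := hb j i hm
    rw [sg_co, coeff_C_mul] at h1
    exact (IsUnit.mul_right_eq_zero (hu.pow j.val)).1 h1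
  · intro hb j i hm
    rw [sg_co, coeff_C_mul, hb j i hm, mul_zero]

theorem pord_sg (ζ : R) (hζ : ζ ^ ℓ = 1) (b : BB e α) : pord (sg ζ hζ b) = pord b := by
  unfold pord
  congr 1
  ext m
  exact sg_Ble ζ hζ

end maps

end SUP
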