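import Pool.Agent.MP_c1dca2_ag.SUP.A3b

set_option autoImplicit false
set_option linter.unusedSectionVars false

open Polynomial

namespace SUP

/-! ## [SUP-A5] `B` is integrally closed (file A5.lean; uses A3) -/

variable {ι : Type} [Fintype ι] {ℓ : ℕ} [hℓ : Fact ℓ.Prime] {κ : Type} [Field κ]
  {e : ι → ZMod ℓ} {α : ι → κ}

theorem a5_not_dvd (hα : Function.Injective α) (n : ι → ℕ) (hn : ∀ a, n a < ℓ) {q : κ[X]}
    (hq : Irreducible q) : ¬ q ^ ℓ ∣ ∏ a, (X - C (α a)) ^ n a := by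
  classical
  intro h
  have hp := hq.prime
  obtain ⟨a0, _, h0⟩ := hp.exists_mem_finset_dvd ((dvd_pow_self q hℓ.out.ne_zero).trans h)
  have h1 : q ∣ X - C (α a0) := hp.dvd_of_dvd_pow h0
  rw [← Finset.mul_prod_erase Finset.univ (fun a => (X - C (α a)) ^ n a) (Finset.mem_univ a0)] at h
  have h2 : IsCoprime (q ^ ℓ) (∏ a ∈ Finset.univ.erase a0, (X - C (α a)) ^ n a) := by
    refine IsCoprime.prod_right fun a ha => ?_
    refine IsCoprime.pow ?_
    refine IsCoprime.of_isCoprime_of_dvd_left ?_ h1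
    exact pairwise_coprime_X_sub_C hα (Finset.ne_of_mem_erase ha).symm
  have h3 := h2.dvd_of_dvd_mul_right h
  have h4 := natDegree_le_of_dvd h3 (pow_ne_zero _ (X_sub_C_ne_zero _))
  rw [natDegree_pow, natDegree_pow, natDegree_X_sub_C, mul_one] at h4
  have h5 := hq.natDegree_pos
  have h6 := hn a0
  have h7 : ℓ * 1 ≤ ℓ * q.natDegree := Nat.mul_le_mul_left _ h5
  omega

theorem a5_dvd (hα : Function.Injective α) (n : ι → ℕ) (hn : ∀ a, n a < ℓ) (N : ℕ) :
    ∀ p b : κ[X], p.natDegree ≤ N → p ≠ 0 →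
      p ^ ℓ ∣ b ^ ℓ * ∏ a, (X - C (α a)) ^ n a → p ∣ b := by
  induction N with
  | zero =>
    intro p b hN hp _
    have h1 : IsUnit p := by
      rw [Polynomial.isUnit_iff_degree_eq_zero, degree_eq_natDegree hp]
      have : p.natDegree = 0 := by omega
      rw [this]
      rfl
    exact h1.dvd
  | succ N ih =>
    intro p b hN hp h
    by_cases hu : IsUnit p
    · exact hu.dvd
    · obtain ⟨q, hq, p', rfl⟩ := WfDvdMonoid.exists_irreducible_factor hu hp
      have hq0 := hq.ne_zero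
      have hp' : p' ≠ 0 := fun h1 => hp (by rw [h1, mul_zero])
      have hqb : q ∣ b := by
        by_contra hcon
        have h1 : IsCoprime q b := (hq.coprime_iff_not_dvd).2 hcon
        have h2 : IsCoprime (q ^ ℓ) (b ^ ℓ) := h1.pow
        have h3 : q ^ ℓ ∣ b ^ ℓ * ∏ a, (X - C (α a)) ^ n a := by
          refine dvd_trans ?_ h
          rw [mul_pow]
          exact dvd_mul_right _ _
        exact a5_not_dvd hα n hn hq (h2.dvd_of_dvd_mul_left h3)
      obtain ⟨b', rfl⟩ := hqb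
      apply mul_dvd_mul_left
      refine ih p' b' ?_ hp' ?_
      · rw [natDegree_mul hq0 hp'] at hN
        have := hq.natDegree_pos
        omega
      · rw [mul_pow, mul_pow, mul_assoc] at h
        exact (mul_dvd_mul_iff_left (pow_ne_zero _ hq0)).1 h

/-- Polynomial part: if `p^ℓ` divides `b^ℓ * prod (X - α a)^(n a)` with `n a < ℓ` (the `α a` are
different) then `p` divides `b`. For every irreducible `q`:
`ℓ v_q(p) ≤ ℓ v_q(b) + n` with `n < ℓ` (`n = n a` if `q ~ X - α a`, `n = 0` otherwise), so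
`v_q(p) ≤ v_q(b)`. -/
theorem dvd_of_pow (hα : Function.Injective α) (n : ι → ℕ) (hn : ∀ a, n a < ℓ) (p b : κ[X])
    (hp : p ≠ 0) (h : p ^ ℓ ∣ b ^ ℓ * ∏ a, (X - C (α a)) ^ n a) : p ∣ b :=
  a5_dvd hα n hn p.natDegree p b le_rfl hp h

theorem a5_car (j : ZMod ℓ) (a : ι) (n : ℕ) :
    rr e ((n : ZMod ℓ) * j) a + ℓ * ∑ k ∈ Finset.range n, car e ((k : ZMod ℓ) * j) j a =
      n * rr e j a := by
  induction n with
  | zero => simp
  | succ n ih =>
    have h1 := rr_add e ((n : ZMod ℓ) * j) j a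
    have h2 : ((n + 1 : ℕ) : ZMod ℓ) * j = (n : ZMod ℓ) * j + j := by
      push_cast
      ring
    rw [h2, Finset.sum_range_succ, Nat.mul_add, Nat.add_mul, one_mul]
    omega

theorem a5_pow (j : ZMod ℓ) (n : ℕ) :
    (BB.v e α j) ^ n = (∏ k ∈ Finset.range n, cc e α ((k : ZMod ℓ) * j) j) •
      BB.v e α ((n : ZMod ℓ) * j) := by
  induction n with
  | zero => rw [pow_zero, Finset.prod_range_zero, one_smul, Nat.cast_zero, zero_mul, BB.v_zero]
  | succ n ih =>
    have h2 : ((n + 1 : ℕ) : ZMod ℓ) * j = (n : ZMod ℓ) * j + j := by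
      push_cast
      ring
    rw [pow_succ, ih, smul_mul_assoc, BB.v_mul, smul_smul, Finset.prod_range_succ, h2]

/-- `(v_j)^ℓ = prod (X - α a)^(j e a mod l)`: `v_j^n` is a polynomial times `v_(n j)`; or (simplest)
use the embedding of `B` in a ring with `ℓ`-th roots of the `X - α a`; or by induction
`v_j^n = prod_a (X - α a)^((n * rr e j a - rr e (n j) a) / ℓ) • v_(n j)`. -/
theorem v_pow (j : ZMod ℓ) :
    (BB.v e α j) ^ ℓ = algebraMap κ[X] (BB e α) (∏ a, (X - C (α a)) ^ rr e j a) := by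
  rw [a5_pow, Algebra.algebraMap_eq_smul_one, ZMod.natCast_self, zero_mul, BB.v_zero]
  congr 1
  unfold cc
  rw [Finset.prod_comm]
  refine Finset.prod_congr rfl fun a _ => ?_
  rw [Finset.prod_pow_eq_pow_sum]
  congr 1
  have h1 := a5_car (e := e) j a ℓ
  rw [ZMod.natCast_self, zero_mul, rr_zero, zero_add] at h1
  exact Nat.eq_of_mul_eq_mul_left hℓ.out.pos h1

theorem a5_co_sum {ι' : Type} (s : Finset ι') (f : ι' → BB e α) (k : ZMod ℓ) :
    (∑ i ∈ s, f i).co k = ∑ i ∈ s, (f i).co k := by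
  classical
  induction s using Finset.induction_on with
  | empty => simp
  | insert x s hx ih => rw [Finset.sum_insert hx, Finset.sum_insert hx, BB.co_add, Pi.add_apply, ih]

/-- `∑_i ζ^(- i j) σ^i b = ℓ b_j v_j` (here with `ζ^(i (ℓ - j))` instead of `ζ^(- i j)`). -/
theorem sum_sgp (ζ : κ) (hζ : IsPrimitiveRoot ζ ℓ) (b : BB e α) (j : ZMod ℓ) :
    ∑ i ∈ Finset.range ℓ, (ζ ^ (i * (ℓ - j.val))) • sgp ζ hζ.pow_eq_one i b =
      ((ℓ : κ)) • (b.co j • BB.v e α j) := by
  refine BB.ext (funext fun k => ?_)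
  rw [a5_co_sum, BB.co_smul', BB.co_smul, BB.v_co]
  have hj := ZMod.val_lt j
  have hk := ZMod.val_lt k
  have h1 : ∀ i ∈ Finset.range ℓ, ((ζ ^ (i * (ℓ - j.val))) • sgp ζ hζ.pow_eq_one i b).co k =
      C ((ζ ^ (ℓ - j.val + k.val)) ^ i) * b.co k := by
    intro i _
    rw [BB.co_smul', sgp, sg_co, smul_eq_C_mul, ← mul_assoc, ← C_mul, ← pow_mul, ← pow_mul,
      ← pow_add]
    congr 3
    ring
  rw [Finset.sum_congr rfl h1, ← Finset.sum_mul, ← map_sum]
  by_cases hkj : k = j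
  · rw [hkj, Pi.single_eq_same, mul_one, Nat.sub_add_cancel hj.le, hζ.pow_eq_one]
    simp only [one_pow, Finset.sum_const, Finset.card_range, nsmul_eq_mul, mul_one, smul_eq_C_mul]
  · rw [Pi.single_eq_of_ne hkj, mul_zero, smul_zero]
    have h2 : ζ ^ (ℓ - j.val + k.val) ≠ 1 := by
      intro h3
      have h4 := hζ.dvd_of_pow_eq_one _ h3
      apply hkj
      apply ZMod.val_injective ℓ
      obtain ⟨c, hc⟩ := h4
      have h5 : c = 1 := by
        rcases Nat.lt_trichotomy c 1 with h6 | h6 | h6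
        · have : c = 0 := by omega
          rw [this, mul_zero] at hc
          omega
        · exact h6
        · have h7 : ℓ * 2 ≤ ℓ * c := Nat.mul_le_mul_left _ h6
          omega
      rw [h5, mul_one] at hc
      omega
    have h3 := mul_geom_sum (ζ ^ (ℓ - j.val + k.val)) ℓ
    rw [← pow_mul, mul_comm _ ℓ, pow_mul, hζ.pow_eq_one, one_pow, sub_self] at h3
    rcases mul_eq_zero.1 h3 with h4 | h4
    · exact absurd (sub_eq_zero.1 h4) h2
    · rw [h4, C_0, zero_mul]

end SUP
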