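import Pool.Agent.MP_c1dca2_ag.SUP.A5

set_option autoImplicit false
set_option linter.unusedSectionVars false

open Polynomial

namespace SUP

/-! ## [SUP-A5b] `B` is integrally closed (file A5b.lean, continuation of A5.lean; uses A3) -/

variable {ι : Type} [Fintype ι] {ℓ : ℕ} [hℓ : Fact ℓ.Prime] {κ : Type} [Field κ]
  {e : ι → ZMod ℓ} {α : ι → κ}

/-- A quotient of two polynomials, integral in an extension field, is a polynomial. -/
theorem a5b_dvd {L : Type} [Field L] [Algebra κ[X] L]
    (hinj : Function.Injective (algebraMap κ[X] L)) (q r : κ[X]) (hr : r ≠ 0)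
    (h : IsIntegral κ[X] (algebraMap κ[X] L q / algebraMap κ[X] L r)) : r ∣ q := by
  classical
  let g : κ[X] →ₐ[κ[X]] L := Algebra.ofId κ[X] L
  have hg : Function.Injective g := hinj
  let G : FractionRing κ[X] →ₐ[κ[X]] L := IsFractionRing.liftAlgHom hg
  have hG1 : ∀ x : κ[X], G (algebraMap κ[X] (FractionRing κ[X]) x) = algebraMap κ[X] L x :=
    fun x => G.commutes x
  have hG2 : Function.Injective G := G.toRingHom.injective
  have h2 : IsIntegral κ[X] (algebraMap κ[X] (FractionRing κ[X]) q /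
      algebraMap κ[X] (FractionRing κ[X]) r) := by
    rw [← isIntegral_algHom_iff G hG2, map_div₀, hG1, hG1]
    exact h
  obtain ⟨y, hy⟩ := IsIntegrallyClosed.algebraMap_eq_of_integral h2
  have hr' : algebraMap κ[X] (FractionRing κ[X]) r ≠ 0 := by
    rwa [Ne, IsFractionRing.to_map_eq_zero_iff]
  rw [eq_div_iff hr', ← map_mul] at hy
  have h3 := IsFractionRing.injective κ[X] (FractionRing κ[X]) hy
  exact ⟨y, by rw [← h3, mul_comm]⟩

/-- The automorphism `sgp` preserves integrality of `b / p`. -/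
theorem a5b_sgp (hd : IsDomain (BB e α)) (σ : BB e α ≃+* BB e α)
    (hσ : ∀ p : κ[X], σ (algebraMap κ[X] (BB e α) p) = algebraMap κ[X] (BB e α) p)
    (b : BB e α) (p : κ[X])
    (h : IsIntegral κ[X] (algebraMap (BB e α) (FractionRing (BB e α)) b /
      algebraMap κ[X] (FractionRing (BB e α)) p)) :
    IsIntegral κ[X] (algebraMap (BB e α) (FractionRing (BB e α)) (σ b) /
      algebraMap κ[X] (FractionRing (BB e α)) p) := by
  let S : FractionRing (BB e α) ≃+* FractionRing (BB e α) :=
    IsFractionRing.ringEquivOfRingEquiv σ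
  have hS : ∀ x, S (algebraMap (BB e α) (FractionRing (BB e α)) x) =
      algebraMap (BB e α) (FractionRing (BB e α)) (σ x) := fun x =>
    IsFractionRing.ringEquivOfRingEquiv_algebraMap σ x
  have hSp : ∀ q : κ[X], S (algebraMap κ[X] (FractionRing (BB e α)) q) =
      algebraMap κ[X] (FractionRing (BB e α)) q := by
    intro q
    rw [IsScalarTower.algebraMap_apply κ[X] (BB e α) (FractionRing (BB e α)), hS, hσ]
  let A : FractionRing (BB e α) ≃ₐ[κ[X]] FractionRing (BB e α) := AlgEquiv.ofRingEquiv (f := S) hSp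
  have h2 := h.map A
  have h3 : A (algebraMap (BB e α) (FractionRing (BB e α)) b /
      algebraMap κ[X] (FractionRing (BB e α)) p) =
      algebraMap (BB e α) (FractionRing (BB e α)) (σ b) /
      algebraMap κ[X] (FractionRing (BB e α)) p := by
    change S _ = _
    rw [map_div₀, hS, hSp]
  rwa [h3] at h2

/-- Let `x = b / p` (`b ∈ B`, `p ∈ κ[X]` nonzero) in the fraction field `L` of `B` be integral over
`κ[X]`. Every `σ^i b / p` satisfies the same monic equation (multiply the equation of `b / p` by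
`p^n`, apply `σ^i`, which fixes `κ[X]`), so `y = ℓ b_j v_j / p` is integral over `κ[X]` (`sum_sgp`),
and `y^ℓ = ℓ^ℓ b_j^ℓ prod (X - α a)^(rr e j a) / p^ℓ` (`v_pow`) is an element of `κ(X)` integral over
`κ[X]`, so in `κ[X]`, which is integrally closed. By `dvd_of_pow` `p` divides `b_j` (`ℓ` is invertible
in `κ`). So `p` divides `b` and `x ∈ B`. -/
theorem mem_of_integral [IsAlgClosed κ] (hG : Good e α) (hd : IsDomain (BB e α))
    (b : BB e α) (p : κ[X]) (hp : p ≠ 0)
    (h : IsIntegral κ[X] (algebraMap (BB e α) (FractionRing (BB e α)) b /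
      algebraMap κ[X] (FractionRing (BB e α)) p)) :
    ∃ c : BB e α, b = p • c := by
  classical
  have hinj : Function.Injective (algebraMap κ[X] (FractionRing (BB e α))) := by
    rw [IsScalarTower.algebraMap_eq κ[X] (BB e α) (FractionRing (BB e α))]
    exact (IsFractionRing.injective (BB e α) (FractionRing (BB e α))).comp
      BB.algebraMap_injective
  have : NeZero (ℓ : κ) := ⟨hG.ch⟩
  obtain ⟨ζ, hζ⟩ := HasEnoughRootsOfUnity.exists_primitiveRoot κ ℓ
  have key : ∀ j, p ∣ b.co j := by
    intro j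
    have h1 : ∀ i, IsIntegral κ[X]
        (algebraMap (BB e α) (FractionRing (BB e α)) (sgp ζ hζ.pow_eq_one i b) /
        algebraMap κ[X] (FractionRing (BB e α)) p) := fun i =>
      a5b_sgp hd (sgp ζ hζ.pow_eq_one i) (fun q => sg_algebraMap _ _ q) b p h
    have h2 : IsIntegral κ[X] (algebraMap (BB e α) (FractionRing (BB e α))
        (((ℓ : κ)) • (b.co j • BB.v e α j)) / algebraMap κ[X] (FractionRing (BB e α)) p) := by
      rw [← sum_sgp ζ hζ b j, map_sum, Finset.sum_div]
      refine IsIntegral.sum _ fun i _ => ?_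
      have h3 : (ζ ^ (i * (ℓ - j.val))) • sgp ζ hζ.pow_eq_one i b =
          algebraMap κ[X] (BB e α) (C (ζ ^ (i * (ℓ - j.val)))) * sgp ζ hζ.pow_eq_one i b := by
        rw [← Polynomial.algebraMap_eq, ← IsScalarTower.algebraMap_apply κ κ[X] (BB e α),
          ← Algebra.smul_def]
      rw [h3, map_mul, ← IsScalarTower.algebraMap_apply κ[X] (BB e α) (FractionRing (BB e α)),
        mul_div_assoc]
      exact isIntegral_algebraMap.mul (h1 i)
    have h4 := h2.pow ℓ
    have h5 : (((ℓ : κ)) • (b.co j • BB.v e α j)) ^ ℓ = algebraMap κ[X] (BB e α)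
        ((C (ℓ : κ) * b.co j) ^ ℓ * ∏ a, (X - C (α a)) ^ rr e j a) := by
      rw [map_mul, ← v_pow, map_pow, ← mul_pow]
      congr 1
      rw [map_mul, ← Polynomial.algebraMap_eq, ← IsScalarTower.algebraMap_apply κ κ[X] (BB e α),
        mul_assoc, ← Algebra.smul_def, ← Algebra.smul_def]
    rw [div_pow, ← map_pow, h5, ← map_pow,
      ← IsScalarTower.algebraMap_apply κ[X] (BB e α) (FractionRing (BB e α))] at h4
    have h6 := a5b_dvd hinj _ _ (pow_ne_zero ℓ hp) h4
    have h7 := dvd_of_pow hG.inj (fun a => rr e j a) (fun a => rr_lt e j a) p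
      (C (ℓ : κ) * b.co j) hp h6
    have hu : IsUnit (C (ℓ : κ)) := Polynomial.isUnit_C.2 (isUnit_iff_ne_zero.2 hG.ch)
    exact (hu.dvd_mul_left).1 h7
  choose c hc using key
  exact ⟨⟨c⟩, BB.ext (funext fun j => by rw [BB.co_smul]; exact hc j)⟩

end SUP
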