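import Pool.Agent.MP_c1dca2_ag.SUP.A5b

set_option autoImplicit false
set_option linter.unusedSectionVars false

open Polynomial

namespace SUP

/-! ## [SUP-A6] `B` is a Dedekind domain (file A6.lean; uses A3, A5) -/

variable {ι : Type} [Fintype ι] {ℓ : ℕ} [hℓ : Fact ℓ.Prime] {κ : Type} [Field κ]
  {e : ι → ZMod ℓ} {α : ι → κ}

/-- Every nonzero `b` divides a nonzero element of `κ[X]`: `B` is integral over `κ[X]` (finite), take
the constant coefficient of a monic equation of least degree. -/
theorem exists_mul_eq [hG : Fact (Good e α)] (b : BB e α) (hb : b ≠ 0) :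
    ∃ (c : BB e α) (p : κ[X]), p ≠ 0 ∧ b * c = algebraMap κ[X] (BB e α) p := by
  have hb1 : IsAlgebraic κ[X] b := (Algebra.IsIntegral.isIntegral (R := κ[X]) b).isAlgebraic
  obtain ⟨r, hr, c, hc⟩ := hb1.exists_nonzero_dvd (mem_nonZeroDivisors_of_ne_zero hb)
  exact ⟨c, r, hr, hc.symm⟩

/-- Noetherian (a finite module over `κ[X]`), of dimension one (integral over `κ[X]`:
a nonzero prime `Q` contains a nonzero polynomial by `exists_mul_eq`, so `Q ∩ κ[X]` is maximal, and
`Ideal.isMaximal_of_isIntegral_of_isMaximal_comap`), integrally closed: an element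
`x = b / c` of the fraction field, integral over `B`, is integral over `κ[X]` and by
`exists_mul_eq` of the form `b' / p`; apply `mem_of_integral`. -/
instance instDedekind [IsAlgClosed κ] [hG : Fact (Good e α)] : IsDedekindDomain (BB e α) := by
  rw [isDedekindDomain_iff (BB e α) (FractionRing (BB e α))]
  refine ⟨inferInstance, ?_, Ring.DimensionLEOne.of_isIntegral κ[X] (BB e α), ?_⟩
  · exact IsNoetherianRing.of_finite κ[X] (BB e α)
  · intro x hx
    have hx1 : IsIntegral κ[X] x := isIntegral_trans x hx
    obtain ⟨b, c, hc, rfl⟩ := IsFractionRing.div_surjective (BB e α) x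
    obtain ⟨d, p, hp, hd⟩ := exists_mul_eq c (nonZeroDivisors.ne_zero hc)
    have hc0 : algebraMap (BB e α) (FractionRing (BB e α)) c ≠ 0 := by
      rw [Ne, IsFractionRing.to_map_eq_zero_iff]
      exact nonZeroDivisors.ne_zero hc
    have hp0 : algebraMap κ[X] (FractionRing (BB e α)) p ≠ 0 := by
      rw [IsScalarTower.algebraMap_apply κ[X] (BB e α) (FractionRing (BB e α)), Ne,
        IsFractionRing.to_map_eq_zero_iff]
      intro h
      exact hp (BB.algebraMap_injective (h.trans (map_zero _).symm))
    have h1 : algebraMap (BB e α) (FractionRing (BB e α)) b /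
        algebraMap (BB e α) (FractionRing (BB e α)) c =
        algebraMap (BB e α) (FractionRing (BB e α)) (b * d) /
        algebraMap κ[X] (FractionRing (BB e α)) p := by
      rw [div_eq_div_iff hc0 hp0,
        IsScalarTower.algebraMap_apply κ[X] (BB e α) (FractionRing (BB e α)), ← hd,
        map_mul, map_mul]
      ring
    rw [h1] at hx1 ⊢
    obtain ⟨y, hy⟩ := mem_of_integral hG.out inferInstance (b * d) p hp hx1
    refine ⟨y, ?_⟩
    rw [eq_div_iff hp0, hy, Algebra.smul_def, map_mul,
      ← IsScalarTower.algebraMap_apply κ[X] (BB e α) (FractionRing (BB e α)), mul_comm]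

end SUP
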