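import Pool.Agent.MP_c1dca2_ag.SUP.A6
import Pool.Agent.MP_c1dca2_ag.SUP.L1

set_option autoImplicit false
set_option linter.unusedSectionVars false

open Polynomial

namespace SUP

/-! ## [SUP-A7] residue homomorphisms (file A7.lean; uses A6, L1) -/

variable {ι : Type} [Fintype ι] {ℓ : ℕ} [hℓ : Fact ℓ.Prime] {κ : Type} [Field κ]
  {e : ι → ZMod ℓ} {α : ι → κ}

/-- `B / Q` is a field, finite over `κ` : `B` is finite over `κ[X]`, `Q ∩ κ[X]` is maximal, so
`κ[X] / (Q ∩ κ[X])` is finite over `κ` (it is `κ[X] / (X - c)`, `κ` is algebraically closed), and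
`B / Q` is finite over it. A field finite over the algebraically closed field `κ` is `κ`
(`IsAlgClosed.algebraMap_bijective_of_isIntegral`). -/
theorem exists_hom [IsAlgClosed κ] [hG : Fact (Good e α)] (Q : Ideal (BB e α))
    (hQ : Q.IsMaximal) (h0 : Q ≠ ⊥) : ∃ χ : BB e α →ₐ[κ] κ, RingHom.ker χ = Q := by
  have hft : Algebra.FiniteType κ (BB e α) := Algebra.FiniteType.trans (S := κ[X]) inferInstance inferInstance
  have hft2 : Algebra.FiniteType κ (BB e α ⧸ Q) :=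
    Algebra.FiniteType.of_surjective (Ideal.Quotient.mkₐ κ Q) (Ideal.Quotient.mkₐ_surjective κ Q)
  let _ : Field (BB e α ⧸ Q) := Ideal.Quotient.field Q
  have hfin : Module.Finite κ (BB e α ⧸ Q) := finite_of_finite_type_of_isJacobsonRing κ (BB e α ⧸ Q)
  have hint : Algebra.IsIntegral κ (BB e α ⧸ Q) := Algebra.IsIntegral.of_finite κ _
  have hbij : Function.Bijective (algebraMap κ (BB e α ⧸ Q)) := IsAlgClosed.algebraMap_bijective_of_isIntegral
  obtain ⟨E, hE⟩ : ∃ E : κ ≃ₐ[κ] (BB e α ⧸ Q), E = AlgEquiv.ofBijective (Algebra.ofId κ (BB e α ⧸ Q)) hbij := ⟨_, rfl⟩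
  refine ⟨(E.symm : (BB e α ⧸ Q) →ₐ[κ] κ).comp (Ideal.Quotient.mkₐ κ Q), ?_⟩
  ext x
  rw [RingHom.mem_ker]
  show E.symm (Ideal.Quotient.mk Q x) = 0 ↔ x ∈ Q
  rw [map_eq_zero_iff E.symm E.symm.injective, Ideal.Quotient.eq_zero_iff_mem]

/-- Every element is congruent to a constant modulo `Q`: `b - χ b ∈ Q`. -/
theorem exists_const [IsAlgClosed κ] [hG : Fact (Good e α)] (Q : Ideal (BB e α))
    (hQ : Q.IsMaximal) (h0 : Q ≠ ⊥) (b : BB e α) : ∃ c : κ, b - algebraMap κ (BB e α) c ∈ Q := by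
  obtain ⟨χ, hχ⟩ := exists_hom Q hQ h0
  refine ⟨χ b, ?_⟩
  rw [← hχ, RingHom.mem_ker, map_sub]
  show χ b - χ (algebraMap κ (BB e α) (χ b)) = 0
  rw [χ.commutes, Algebra.algebraMap_self, RingHom.id_apply, sub_self]

/-- Take `x ∈ J` not in `Q J` (`mul_lt`). `Q J + B x` lies between `Q J` and `J`, so it is `J`
(`between`). So `y = z + b x` with `z ∈ Q J`, and `b = c + (element of Q)`, `(b - c) x ∈ Q J`. -/
theorem step [IsAlgClosed κ] [hG : Fact (Good e α)] (Q J : Ideal (BB e α))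
    (hQ : Q.IsMaximal) (h0 : Q ≠ ⊥) (hJ : J ≠ ⊥) :
    ∃ x ∈ J, x ∉ Q * J ∧ ∀ y ∈ J, ∃ c : κ, y - c • x ∈ Q * J := by
  obtain ⟨x, hx, hx'⟩ := SetLike.exists_of_lt (mul_lt hQ h0 hJ)
  refine ⟨x, hx, hx', fun y hy => ?_⟩
  have h1 : Q * J ⊔ Ideal.span {x} = J := by
    rcases between hQ h0 hJ (le_sup_left : Q * J ≤ Q * J ⊔ Ideal.span {x})
      (sup_le Ideal.mul_le_right ((Ideal.span_singleton_le_iff_mem J).2 hx)) with h | h
    · exfalso
      apply hx'
      rw [← h]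
      exact Ideal.mem_sup_right (Ideal.mem_span_singleton_self x)
    · exact h
  rw [← h1, Submodule.mem_sup] at hy
  obtain ⟨z, hz, w, hw, hzw⟩ := hy
  obtain ⟨b, hb⟩ := Ideal.mem_span_singleton'.1 hw
  obtain ⟨c, hc⟩ := exists_const Q hQ h0 b
  refine ⟨c, ?_⟩
  have h2 : y - c • x = z + (b - algebraMap κ (BB e α) c) * x := by
    rw [← hzw, ← hb, Algebra.smul_def]
    ring
  rw [h2]
  exact Ideal.add_mem _ hz (Ideal.mul_mem_mul hc hx)

end SUP
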