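import Pool.Agent.MP_c1dca2_ag.SUP.A1

set_option autoImplicit false
set_option linter.unusedSectionVars false

open Polynomial

namespace SUP

/-! ## [SUP-A8] the dimension of `Ble m` (file A8.lean; uses A1) -/

variable {ι : Type} [Fintype ι] {ℓ : ℕ} [hℓ : Fact ℓ.Prime]

theorem A8_sum_res (e : ι → ZMod ℓ) (hs : ∑ a, e a ≠ 0) (m : ℕ) :
    ∑ j, (m / ℓ + if wt e j % ℓ < m % ℓ then 1 else 0) = m := by
  have h1 : ∀ j : ZMod ℓ, wt e j % ℓ = (j * ∑ a, e a).val := by
    intro j
    rw [← wt_cast, ZMod.val_natCast]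
  have h2 : ∑ j : ZMod ℓ, (if wt e j % ℓ < m % ℓ then 1 else 0) =
      ∑ j : ZMod ℓ, (if j.val < m % ℓ then 1 else 0) := by
    rw [← Equiv.sum_comp (Equiv.mulRight₀ (∑ a, e a) hs)
      (fun j : ZMod ℓ => (if j.val < m % ℓ then 1 else 0 : ℕ))]
    refine Finset.sum_congr rfl fun j _ => ?_
    rw [h1]
    rfl
  have h3 : ∑ j : ZMod ℓ, (if j.val < m % ℓ then 1 else 0) = m % ℓ := by
    have h4 : ∀ (n : ℕ) [NeZero n] (b : ℕ), b < n →
        ∑ j : ZMod n, (if j.val < b then 1 else 0) = b := by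
      intro n hn b hb
      obtain ⟨k, rfl⟩ : ∃ k, n = k + 1 := ⟨n - 1, by omega⟩
      change ∑ j : Fin (k + 1), (if (j : ℕ) < b then 1 else 0) = b
      rw [Finset.sum_boole, Fin.card_filter_val_lt]
      simp only [Nat.cast_id]
      omega
    exact h4 ℓ (m % ℓ) (Nat.mod_lt _ hℓ.out.pos)
  rw [Finset.sum_add_distrib, h2, h3, Finset.sum_const, Finset.card_univ, ZMod.card, smul_eq_mul]
  exact Nat.div_add_mod m ℓ

theorem A8_term {l w m : ℕ} (hl : 0 < l) (h : w ≤ m) :
    (m - w) / l + 1 + w / l = (m + 1) / l + if w % l < (m + 1) % l then 1 else 0 := by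
  have hw := Nat.div_add_mod w l
  have hm := Nat.div_add_mod (m + 1) l
  have hwl := Nat.mod_lt w hl
  have hml := Nat.mod_lt (m + 1) hl
  generalize w / l = q at hw ⊢
  generalize w % l = r at hw hwl ⊢
  generalize (m + 1) / l = a at hm ⊢
  generalize (m + 1) % l = b at hm hml ⊢
  have hqa : q ≤ a := by
    by_contra hc
    have hc1 : a + 1 ≤ q := by omega
    have hc2 : l * (a + 1) ≤ l * q := Nat.mul_le_mul_left l hc1
    rw [mul_add, mul_one] at hc2
    omega
  obtain ⟨d, rfl⟩ : ∃ d, a = q + d := ⟨a - q, by omega⟩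
  rw [mul_add] at hm
  split_ifs with hrb
  · have h1 : m - w = (b - 1 - r) + l * d := by omega
    rw [h1, Nat.add_mul_div_left _ _ hl, Nat.div_eq_of_lt (by omega)]
    omega
  · have hd : 1 ≤ d := by
      by_contra hc
      have hc1 : d = 0 := by omega
      subst hc1
      rw [mul_zero] at hm
      omega
    obtain ⟨d', rfl⟩ : ∃ d', d = d' + 1 := ⟨d - 1, by omega⟩
    rw [mul_add, mul_one] at hm
    have h1 : m - w = (l + b - 1 - r) + l * d' := by omega
    rw [h1, Nat.add_mul_div_left _ _ hl, Nat.div_eq_of_lt (by omega)]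
    omega

theorem A8_term_le {l w m : ℕ} (hl : 0 < l) :
    (m + 1) / l + (if w % l < (m + 1) % l then 1 else 0) ≤
      (if w ≤ m then (m - w) / l + 1 else 0) + w / l := by
  by_cases h : w ≤ m
  · rw [if_pos h, A8_term hl h]
  · rw [if_neg h, zero_add]
    have hw := Nat.div_add_mod w l
    have hm := Nat.div_add_mod (m + 1) l
    have hwl := Nat.mod_lt w hl
    have hml := Nat.mod_lt (m + 1) hl
    set q := w / l
    set r := w % l
    set a := (m + 1) / l
    set b := (m + 1) % l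
    have haq : a ≤ q := by
      by_contra hc
      have hc1 : q + 1 ≤ a := by omega
      have hc2 : l * (q + 1) ≤ l * a := Nat.mul_le_mul_left l hc1
      rw [mul_add, mul_one] at hc2
      omega
    split_ifs with hrb
    · by_contra hc
      have hc1 : a = q := by omega
      rw [hc1] at hm
      omega
    · omega

/-- Counting. The residues of `wt e j` modulo `ℓ` are different, so every `t ≤ m` is congruent to
exactly one `wt e j`, and `m + 1 = ∑_j #{t ≤ m : t ≡ wt e j}`. The `t ≤ m`, `t ≡ wt e j`, `t ≥ wt e j`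
are the `ℓ i + wt e j`; there are at most `wt e j / ℓ` numbers `t < wt e j` with `t ≡ wt e j`. -/
theorem count_ge (e : ι → ZMod ℓ) (hs : ∑ a, e a ≠ 0) (m : ℕ) :
    m + 1 ≤ (∑ j, if wt e j ≤ m then (m - wt e j) / ℓ + 1 else 0) + gp e := by
  rw [gp, ← Finset.sum_add_distrib]
  conv_lhs => rw [← A8_sum_res e hs (m + 1)]
  exact Finset.sum_le_sum fun j _ => A8_term_le hℓ.out.pos

/-- Equality if `m ≥ wt e j` for all `j`. -/
theorem count_eq (e : ι → ZMod ℓ) (hs : ∑ a, e a ≠ 0) (m : ℕ) (hm : ∀ j, wt e j ≤ m) :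
    (∑ j, if wt e j ≤ m then (m - wt e j) / ℓ + 1 else 0) + gp e = m + 1 := by
  rw [gp, ← Finset.sum_add_distrib]
  conv_rhs => rw [← A8_sum_res e hs (m + 1)]
  refine Finset.sum_congr rfl fun j _ => ?_
  rw [if_pos (hm j)]
  exact A8_term hℓ.out.pos (hm j)

variable {κ : Type} [Field κ] {e : ι → ZMod ℓ} {α : ι → κ}

theorem A8_ge_iff (m : ℕ) (j : ZMod ℓ) (i : ℕ) :
    (if wt e j ≤ m then (m - wt e j) / ℓ + 1 else 0) ≤ i ↔ m < ℓ * i + wt e j := by
  have hl := hℓ.out.pos
  split_ifs with h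
  · rw [Nat.add_one_le_iff, Nat.div_lt_iff_lt_mul hl, mul_comm]
    omega
  · simp only [zero_le, true_iff]
    omega

/-- The coordinates of the elements of `Ble m`. -/
noncomputable def A8_equiv (e : ι → ZMod ℓ) (α : ι → κ) (m : ℕ) : Ble e α m ≃ₗ[κ]
    ((j : ZMod ℓ) → degreeLT κ (if wt e j ≤ m then (m - wt e j) / ℓ + 1 else 0)) where
  toFun b := fun j => ⟨b.1.co j, by
    rw [mem_degreeLT, degree_lt_iff_coeff_zero]
    intro i hi
    exact b.2 j i ((A8_ge_iff m j i).1 hi)⟩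
  invFun f := ⟨⟨fun j => (f j : κ[X])⟩, by
    intro j i hi
    have h := (f j).2
    rw [mem_degreeLT, degree_lt_iff_coeff_zero] at h
    exact h i ((A8_ge_iff m j i).2 hi)⟩
  left_inv b := rfl
  right_inv f := rfl
  map_add' b c := rfl
  map_smul' r b := rfl

/-- `Ble m` is isomorphic to the product of the spaces of polynomials of degree `< n_j`
(`Polynomial.degreeLT`), `n_j = (m - wt e j) / ℓ + 1` if `wt e j ≤ m`, `0` otherwise. -/
theorem finrank_Ble (m : ℕ) : FiniteDimensional κ (Ble e α m) ∧ Module.finrank κ (Ble e α m) =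
    ∑ j, if wt e j ≤ m then (m - wt e j) / ℓ + 1 else 0 := by
  have hfd : ∀ n : ℕ, FiniteDimensional κ (degreeLT κ n) := fun n =>
    Module.Finite.equiv (degreeLTEquiv κ n).symm
  have hfr : ∀ n : ℕ, Module.finrank κ (degreeLT κ n) = n := fun n => by
    rw [(degreeLTEquiv κ n).finrank_eq, Module.finrank_fin_fun]
  have := hfd
  refine ⟨Module.Finite.equiv (A8_equiv e α m).symm, ?_⟩
  rw [(A8_equiv e α m).finrank_eq, Module.finrank_pi_fintype]
  exact Finset.sum_congr rfl fun j _ => hfr _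

instance (m : ℕ) : FiniteDimensional κ (Ble e α m) := (finrank_Ble m).1

theorem finrank_Ble_ge (hs : ∑ a, e a ≠ 0) (m : ℕ) :
    m + 1 ≤ Module.finrank κ (Ble e α m) + gp e := by
  rw [(finrank_Ble m).2]
  exact count_ge e hs m

theorem finrank_Ble_eq (hs : ∑ a, e a ≠ 0) :
    ∃ m₀, ∀ m, m₀ ≤ m → Module.finrank κ (Ble e α m) + gp e = m + 1 := by
  refine ⟨∑ j, wt e j, fun m hm => ?_⟩
  rw [(finrank_Ble m).2]
  exact count_eq e hs m fun j =>
    (Finset.single_le_sum (fun _ _ => Nat.zero_le _) (Finset.mem_univ j)).trans hm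

end SUP
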