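import Pool.Agent.MP_c1dca2_ag.SUP.A7

set_option autoImplicit false
set_option linter.unusedSectionVars false

open Polynomial

namespace SUP

/-! ## [SUP-B1] the prime above a branch point (file B1.lean; uses A3, A5, A6, A7, L1)

`PI e α a` is generated by `X - α a` and the `v_j`, `j ≠ 0`. -/

variable {ι : Type} [Fintype ι] {ℓ : ℕ} [hℓ : Fact ℓ.Prime] {κ : Type} [Field κ]
  {e : ι → ZMod ℓ} {α : ι → κ}

theorem b1_rr_ne [hG : Fact (Good e α)] (a : ι) {j : ZMod ℓ} (hj : j ≠ 0) : rr e j a ≠ 0 := by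
  intro h
  rw [rr, ZMod.val_eq_zero, mul_eq_zero] at h
  exact h.elim hj (hG.out.ne a)

theorem b1_chi [IsAlgClosed κ] [hG : Fact (Good e α)] (a : ι) :
    ∃ χ : BB e α →+* κ, ∀ b, χ b = (b.co 0).eval (α a) := by
  have h1 : ∀ b, ∃ y : κ, y ^ ℓ = α a - α b := fun b =>
    IsAlgClosed.exists_pow_nat_eq _ hℓ.out.pos
  choose y hy using h1
  refine ⟨lift e (RingHom.id κ) (α a) y (fun b => by rw [hy]; rfl), fun b => ?_⟩
  rw [lift_apply, Finset.sum_eq_single 0]
  · rw [Finset.prod_eq_one (fun a _ => by rw [rr_zero, pow_zero]), mul_one]; rfl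
  · intro j _ hj
    have hya : y a = 0 := by
      have := hy a
      rw [sub_self] at this
      exact (pow_eq_zero_iff hℓ.out.ne_zero).1 this
    rw [Finset.prod_eq_zero (Finset.mem_univ a), mul_zero]
    rw [hya, zero_pow (b1_rr_ne (α := α) a hj)]
  · intro h; exact absurd (Finset.mem_univ _) h

theorem b1_X_mem (a : ι) : algebraMap κ[X] (BB e α) (X - C (α a)) ∈ PI e α a :=
  Ideal.subset_span (Set.mem_insert _ _)

theorem b1_v_mem (a : ι) {j : ZMod ℓ} (hj : j ≠ 0) : BB.v e α j ∈ PI e α a :=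
  Ideal.subset_span (Set.mem_insert_of_mem _ ⟨j, hj, rfl⟩)

theorem b1_smul_mem (I : Ideal (BB e α)) (p : κ[X]) {b : BB e α} (hb : b ∈ I) : p • b ∈ I := by
  rw [Algebra.smul_def]
  exact I.mul_mem_left _ hb

theorem b1_smul_mem' (I : Ideal (BB e α)) (p : κ) {b : BB e α} (hb : b ∈ I) : p • b ∈ I := by
  rw [Algebra.smul_def]
  exact I.mul_mem_left _ hb

theorem b1_map (ψ : BB e α ≃+* BB e α) (a : ι)
    (h1 : ψ (algebraMap κ[X] (BB e α) (X - C (α a))) = algebraMap κ[X] (BB e α) (X - C (α a)))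
    (h2 : ∀ j, j ≠ 0 → ∃ r : κ, r ≠ 0 ∧ ψ (BB.v e α j) = r • BB.v e α j) :
    (PI e α a).map ψ = PI e α a := by
  apply le_antisymm
  · rw [Ideal.map_le_iff_le_comap]
    refine Ideal.span_le.2 ?_
    rintro x (rfl | ⟨j, hj, rfl⟩)
    · show ψ _ ∈ PI e α a
      rw [h1]
      exact b1_X_mem a
    · show ψ _ ∈ PI e α a
      obtain ⟨r, _, hr⟩ := h2 j hj
      rw [hr]
      exact b1_smul_mem' _ _ (b1_v_mem a hj)
  · refine Ideal.span_le.2 ?_
    rintro x (rfl | ⟨j, hj, rfl⟩)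
    · have := Ideal.mem_map_of_mem ψ (b1_X_mem (e := e) (α := α) a)
      rw [h1] at this
      exact this
    · obtain ⟨r, hr0, hr⟩ := h2 j hj
      have h3 := Ideal.mem_map_of_mem ψ (b1_v_mem (e := e) (α := α) a hj)
      rw [hr] at h3
      have h4 := b1_smul_mem' _ r⁻¹ h3
      rw [smul_smul, inv_mul_cancel₀ hr0, one_smul] at h4
      exact h4

/-- The map `b ↦ (b.co 0).eval (α a)` is a ring homomorphism (`lift` with `x = α a`, `y b` an
`ℓ`-th root of `α a - α b`, so `y a = 0` and `prod (y b)^(j e b)` is `0` for `j ≠ 0` as `j e a ≠ 0`; or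
directly), and `b = (b.co 0) + ∑_(j ≠ 0) b_j v_j`, `b.co 0 - (b.co 0).eval (α a)` is divisible by
`X - α a`. -/
theorem mem_PI [IsAlgClosed κ] [hG : Fact (Good e α)] (a : ι) (b : BB e α) :
    b ∈ PI e α a ↔ (b.co 0).eval (α a) = 0 := by
  obtain ⟨χ, hχ⟩ := b1_chi (e := e) (α := α) a
  constructor
  · intro hb
    have h1 : PI e α a ≤ RingHom.ker χ := by
      refine Ideal.span_le.2 ?_
      rintro x (rfl | ⟨j, hj, rfl⟩)
      · show χ _ = 0
        rw [hχ, BB.algebraMap_co, if_pos rfl, eval_sub, eval_X, eval_C, sub_self]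
      · show χ _ = 0
        rw [hχ, BB.v_co, Pi.single_eq_of_ne (Ne.symm hj), eval_zero]
    have h2 : χ b = 0 := h1 hb
    rw [← hχ, h2]
  · intro hb
    rw [← BB.sum_v b]
    refine Ideal.sum_mem _ fun j _ => ?_
    by_cases hj : j = 0
    · rw [hj, BB.v_zero]
      obtain ⟨q, hq⟩ := dvd_iff_isRoot.2 (show IsRoot (b.co 0) (α a) from hb)
      rw [hq, mul_comm, mul_smul]
      refine b1_smul_mem _ _ ?_
      rw [← Algebra.algebraMap_eq_smul_one]
      exact b1_X_mem a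
    · exact b1_smul_mem _ _ (b1_v_mem a hj)

theorem PI_ne_bot [hG : Fact (Good e α)] (a : ι) : PI e α a ≠ ⊥ := by
  intro h
  have h1 := b1_X_mem (e := e) (α := α) a
  rw [h, Ideal.mem_bot, ← map_zero (algebraMap κ[X] (BB e α))] at h1
  exact X_sub_C_ne_zero _ (BB.algebraMap_injective h1)

/-- The quotient is the field `κ` (`mem_PI`). -/
theorem PI_maximal [IsAlgClosed κ] [hG : Fact (Good e α)] (a : ι) : (PI e α a).IsMaximal := by
  obtain ⟨χ, hχ⟩ := b1_chi (e := e) (α := α) a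
  have h1 : PI e α a = RingHom.ker χ := by
    ext b
    rw [mem_PI, RingHom.mem_ker, hχ]
  rw [h1]
  refine RingHom.ker_isMaximal_of_surjective χ fun r => ⟨algebraMap κ (BB e α) r, ?_⟩
  rw [hχ, BB.algebraMap_co', if_pos rfl, eval_C]

/-- If a prime ideal contains `X - α a` it contains all `v_j`, `j ≠ 0`, by `v_pow`
(`rr e j a > 0`). -/
theorem eq_PI [IsAlgClosed κ] [hG : Fact (Good e α)] (a : ι) (Q : Ideal (BB e α)) (hQ : Q.IsPrime)
    (h : algebraMap κ[X] (BB e α) (X - C (α a)) ∈ Q) : Q = PI e α a := by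
  symm
  refine (PI_maximal a).eq_of_le hQ.ne_top ?_
  refine Ideal.span_le.2 ?_
  rintro x (rfl | ⟨j, hj, rfl⟩)
  · exact h
  · show BB.v e α j ∈ Q
    refine hQ.mem_of_pow_mem ℓ ?_
    rw [v_pow, map_prod]
    obtain ⟨c, hc⟩ := Finset.dvd_prod_of_mem
      (fun b => algebraMap κ[X] (BB e α) ((X - C (α b)) ^ rr e j b)) (Finset.mem_univ a)
    rw [hc]
    refine Q.mul_mem_right _ ?_
    rw [map_pow]
    exact Q.pow_mem_of_mem h _ (Nat.pos_of_ne_zero (b1_rr_ne (α := α) a hj))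

/-- If the prime `Q` contains `v_j` for some `j ≠ 0`, then it contains
`prod (X - α a)^(rr e j a)` (`v_pow`), so some `X - α a`. -/
theorem eq_PI_of_v [IsAlgClosed κ] [hG : Fact (Good e α)] (Q : Ideal (BB e α)) (hQ : Q.IsPrime)
    (j : ZMod ℓ) (h : BB.v e α j ∈ Q) : ∃ a, Q = PI e α a := by
  have h1 : BB.v e α j ^ ℓ ∈ Q := Q.pow_mem_of_mem h _ hℓ.out.pos
  rw [v_pow, map_prod, hQ.prod_mem_iff] at h1
  obtain ⟨a, _, ha⟩ := h1
  rw [map_pow] at ha
  exact ⟨a, eq_PI a Q hQ (hQ.mem_of_pow_mem _ ha)⟩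

theorem PI_inj [IsAlgClosed κ] [hG : Fact (Good e α)] {a b : ι} (h : PI e α a = PI e α b) :
    a = b := by
  have h1 := b1_X_mem (e := e) (α := α) b
  rw [← h, mem_PI, BB.algebraMap_co, if_pos rfl, eval_sub, eval_X, eval_C, sub_eq_zero] at h1
  exact hG.out.inj h1

/-- Generators are mapped to generators (up to units). -/
theorem PI_sg (ζ : κ) (hζ : ζ ^ ℓ = 1) (a : ι) :
    (PI e α a).map (sg (e := e) (α := α) ζ hζ) = PI e α a := by
  refine b1_map _ a (sg_algebraMap ζ hζ _) fun j _ => ⟨ζ ^ j.val, ?_, sg_v ζ hζ j⟩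
  refine pow_ne_zero _ ?_
  rintro rfl
  rw [zero_pow hℓ.out.ne_zero] at hζ
  exact zero_ne_one hζ

theorem PI_bE (f : κ ≃+* κ) (h : ∀ a, f (α a) = α a) (a : ι) :
    (PI e α a).map (bE (e := e) f h) = PI e α a := by
  refine b1_map _ a ?_ fun j _ => ⟨1, one_ne_zero, ?_⟩
  · refine (bmap_algebraMap (e := e) (α := α) (β := α) (f : κ →+* κ) h (X - C (α a))).trans ?_
    rw [Polynomial.map_sub, map_X, map_C]
    congr 3
    exact h a
  · rw [one_smul]
    exact bmap_v (e := e) (α := α) (β := α) (f : κ →+* κ) h j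

end SUP
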