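import Pool.Agent.MP_c1dca2_ag.SUP.A10
import Pool.Agent.MP_c1dca2_ag.SUP.B1

set_option autoImplicit false
set_option linter.unusedSectionVars false

open Polynomial

namespace SUP

/-! ## [SUP-B2] the primes and their conjugates (file B2.lean; uses A3, A7, A10, B1, L1) -/

variable {ι : Type} [Fintype ι] {ℓ : ℕ} [hℓ : Fact ℓ.Prime] {κ : Type} [Field κ]
  [IsAlgClosed κ] {e : ι → ZMod ℓ} {α : ι → κ} [hG : Fact (Good e α)]

theorem b2_ne (c : κ) : algebraMap κ[X] (BB e α) (X - C c) ≠ 0 := by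
  rw [Ne, ← map_zero (algebraMap κ[X] (BB e α))]
  exact fun h => X_sub_C_ne_zero _ (BB.algebraMap_injective h)

theorem b2_span_ne (c : κ) : Ideal.span {algebraMap κ[X] (BB e α) (X - C c)} ≠ ⊥ := by
  rw [Ne, Ideal.span_singleton_eq_bot]
  exact b2_ne c

theorem b2_pow {B : Type} [CommRing B] [IsDedekindDomain B] (P : Ideal B) (I : Ideal B)
    (hI : I ≠ ⊥) : (∀ Q : Ideal B, Q.IsMaximal → I ≤ Q → Q = P) → I = P ^ len I := by
  refine ideal_ind (P := fun I => (∀ Q : Ideal B, Q.IsMaximal → I ≤ Q → Q = P) → I = P ^ len I)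
    ?_ ?_ I hI
  · intro _
    rw [len_top, pow_zero, Ideal.one_eq_top]
  · intro Q J hQ h0 hJ ih h
    have h1 : Q = P := h Q hQ Ideal.mul_le_left
    have h2 : J = P ^ len J := ih fun Q' hQ' hle => h Q' hQ' (Ideal.mul_le_right.trans hle)
    rw [len_mul h0 hJ, len_maximal hQ h0, pow_add, pow_one, ← h2, h1]

theorem b2_map_inj {B : Type} [CommRing B] (ψ : B ≃+* B) {I J : Ideal B}
    (h : I.map ψ = J.map ψ) : I = J := by
  have h1 := congrArg (Ideal.comap ψ) h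
  rwa [Ideal.comap_map_of_bijective ψ ψ.bijective, Ideal.comap_map_of_bijective ψ ψ.bijective]
    at h1

theorem b2_sgp_v (ζ : κ) (hζ : ζ ^ ℓ = 1) (i : ℕ) :
    sgp ζ hζ i (BB.v e α 1) = (ζ ^ i) • BB.v e α 1 := by
  have : Fact (1 < ℓ) := ⟨hℓ.out.one_lt⟩
  rw [sgp, sg_v, ZMod.val_one, pow_one]

theorem b2_sgp_const (ζ : κ) (hζ : ζ ^ ℓ = 1) (i : ℕ) (c : κ) :
    sgp ζ hζ i (algebraMap κ (BB e α) c) = algebraMap κ (BB e α) c := by
  rw [IsScalarTower.algebraMap_apply κ κ[X] (BB e α), sgp, sg_algebraMap]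

/-- `(X - c)` has `ℓ` prime factors: `len_span`, `pord_algebraMap`. -/
theorem len_X_sub (c : κ) :
    len (Ideal.span {algebraMap κ[X] (BB e α) (X - C c)}) = ℓ := by
  rw [len_span (b2_ne c), pord_algebraMap hG.out.sum, natDegree_X_sub_C, mul_one]

/-- All prime factors of `(X - α a)` are `PI a` (`eq_PI`), and there are `ℓ` (`len_X_sub`). -/
theorem PI_pow (a : ι) :
    (PI e α a) ^ ℓ = Ideal.span {algebraMap κ[X] (BB e α) (X - C (α a))} := by
  have h := b2_pow (PI e α a) _ (b2_span_ne (e := e) (α := α) (α a)) fun Q hQ hle =>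
    eq_PI a Q hQ.isPrime (hle (Ideal.mem_span_singleton_self _))
  rw [len_X_sub] at h
  exact h.symm

/-- Let `χ` be the residue homomorphism of `Q` (`exists_hom`), `c = χ X`. -/
theorem exists_X_sub (Q : Ideal (BB e α)) (hQ : Q.IsMaximal) (h0 : Q ≠ ⊥) :
    ∃ c : κ, algebraMap κ[X] (BB e α) (X - C c) ∈ Q := by
  obtain ⟨χ, hχ⟩ := exists_hom Q hQ h0
  refine ⟨χ (algebraMap κ[X] (BB e α) X), ?_⟩
  rw [← hχ, RingHom.mem_ker]
  have h1 : ∀ c : κ, algebraMap κ[X] (BB e α) (C c) = algebraMap κ (BB e α) c := fun c => by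
    rw [IsScalarTower.algebraMap_apply κ κ[X] (BB e α), Polynomial.algebraMap_eq]
  rw [map_sub, map_sub, h1, AlgHom.commutes, Algebra.algebraMap_self, RingHom.id_apply, sub_self]

/-- If `σ^i Q = σ^i' Q` with `i ≠ i'` then `Q = σ^n Q` with `0 < n < ℓ`, so, with
`ζ' = ζ^n` (a primitive root), `χ(sgp n b) = χ(b)` for all `b` (both homomorphisms of `κ`-algebras
`B → κ` have the same kernel `Q`, so they are equal: `b - χ b ∈ Q`); `χ(v_j) = ζ'^j χ(v_j)`, so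
`χ(v_j) = 0` for `j ≠ 0` and `Q` is some `PI a` (`eq_PI_of_v`). -/
theorem conj_ne (ζ : κ) (hζ : IsPrimitiveRoot ζ ℓ) (Q : Ideal (BB e α)) (hQ : Q.IsMaximal)
    (h0 : Q ≠ ⊥) (hne : ∀ a, Q ≠ PI e α a) (i i' : ℕ) (hi : i < ℓ) (hi' : i' < ℓ)
    (h : Q.map (sgp (e := e) (α := α) ζ hζ.pow_eq_one i) =
      Q.map (sgp (e := e) (α := α) ζ hζ.pow_eq_one i')) : i = i' := by
  obtain ⟨c, hc⟩ := exists_const Q hQ h0 (BB.v e α 1)
  have h1 := Ideal.mem_map_of_mem (sgp (e := e) (α := α) ζ hζ.pow_eq_one i) hc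
  have h2 := Ideal.mem_map_of_mem (sgp (e := e) (α := α) ζ hζ.pow_eq_one i') hc
  rw [map_sub, b2_sgp_v, b2_sgp_const] at h1 h2
  rw [← h] at h2
  have h3 := Ideal.sub_mem _ h1 h2
  rw [sub_sub_sub_cancel_right, ← sub_smul] at h3
  by_contra hne'
  have h4 : ζ ^ i - ζ ^ i' ≠ 0 := fun h5 => hne' (hζ.pow_inj hi hi' (sub_eq_zero.1 h5))
  have h5 := b1_smul_mem' _ (ζ ^ i - ζ ^ i')⁻¹ h3
  rw [smul_smul, inv_mul_cancel₀ h4, one_smul] at h5
  have h6 : (Q.map (sgp (e := e) (α := α) ζ hζ.pow_eq_one i)).IsPrime := by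
    have := hQ.isPrime
    exact Ideal.map_isPrime_of_equiv (sgp (e := e) (α := α) ζ hζ.pow_eq_one i)
  obtain ⟨a, ha⟩ := eq_PI_of_v _ h6 1 h5
  refine hne a (b2_map_inj (sgp (e := e) (α := α) ζ hζ.pow_eq_one i) ?_)
  rw [ha, sgp, PI_sg]

end SUP
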