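import Pool.Agent.MP_c1dca2_ag.SUP.B2

set_option autoImplicit false
set_option linter.unusedSectionVars false

open Polynomial

namespace SUP

/-! ## [SUP-B2b] the primes and their conjugates (file B2b.lean, continuation of B2.lean; uses A3, A7, A10, B1, L1) -/

variable {ι : Type} [Fintype ι] {ℓ : ℕ} [hℓ : Fact ℓ.Prime] {κ : Type} [Field κ]
  [IsAlgClosed κ] {e : ι → ZMod ℓ} {α : ι → κ} [hG : Fact (Good e α)]

theorem b2b_max {B : Type} [CommRing B] (ψ : B ≃+* B) (Q : Ideal B) (hQ : Q.IsMaximal) :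
    (Q.map ψ).IsMaximal := by
  have := hQ
  exact Ideal.map_isMaximal_of_equiv ψ

theorem b2b_len_prod {B : Type} [CommRing B] [IsDedekindDomain B] {T : Type} (s : Finset T)
    (Q : T → Ideal B) (hQ : ∀ t ∈ s, (Q t).IsMaximal) (h0 : ∀ t ∈ s, Q t ≠ ⊥) :
    len (∏ t ∈ s, Q t) = s.card := by
  classical
  induction s using Finset.induction_on with
  | empty => rw [Finset.prod_empty, Ideal.one_eq_top, len_top, Finset.card_empty]
  | insert a s ha ih =>
    have h1 : (∏ t ∈ s, Q t) ≠ ⊥ := by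
      have := Finset.prod_ne_zero_iff.2 fun t ht => h0 t (Finset.mem_insert_of_mem ht)
      exact this
    rw [Finset.prod_insert ha, len_mul (h0 a (Finset.mem_insert_self _ _)) h1,
      len_maximal (hQ a (Finset.mem_insert_self _ _)) (h0 a (Finset.mem_insert_self _ _)),
      ih (fun t ht => hQ t (Finset.mem_insert_of_mem ht))
        (fun t ht => h0 t (Finset.mem_insert_of_mem ht)), Finset.card_insert_of_notMem ha,
      add_comm]

theorem b2b_zero (ζ : κ) (hζ : ζ ^ ℓ = 1) (I : Ideal (BB e α)) :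
    I.map (sgp (e := e) (α := α) ζ hζ 0) = I := by
  have h1 : ∀ b : BB e α, sgp ζ hζ 0 b = b := by
    intro b
    refine BB.ext (funext fun j => ?_)
    rw [sgp, sg_co, pow_zero, one_pow, C_1, one_mul]
  have h2 : ((sgp (e := e) (α := α) ζ hζ 0 : BB e α ≃+* BB e α) : BB e α →+* BB e α) =
      RingHom.id _ := RingHom.ext h1
  change I.map ((sgp (e := e) (α := α) ζ hζ 0 : BB e α ≃+* BB e α) : BB e α →+* BB e α) = I
  rw [h2, Ideal.map_id]

/-- For `Q = PI a` this is `PI_pow` and `PI_sg`. Otherwise the `σ^i Q` are `ℓ` different primes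
(`conj_ne`) containing `X - c`, so their product contains `(X - c)` (`prod_le`), and both have `ℓ`
prime factors (`len_X_sub`). -/
theorem NI_maximal (ζ : κ) (hζ : IsPrimitiveRoot ζ ℓ) (Q : Ideal (BB e α)) (hQ : Q.IsMaximal)
    (h0 : Q ≠ ⊥) (c : κ) (hc : algebraMap κ[X] (BB e α) (X - C c) ∈ Q) :
    NI ζ hζ.pow_eq_one Q = Ideal.span {algebraMap κ[X] (BB e α) (X - C c)} := by
  have hX : ∀ i, sgp ζ hζ.pow_eq_one i (algebraMap κ[X] (BB e α) (X - C c)) =
      algebraMap κ[X] (BB e α) (X - C c) := fun i => sg_algebraMap _ _ _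
  by_cases h : ∃ a, Q = PI e α a
  · obtain ⟨a, rfl⟩ := h
    have h1 : α a = c := by
      rw [mem_PI, BB.algebraMap_co, if_pos rfl, eval_sub, eval_X, eval_C, sub_eq_zero] at hc
      exact hc
    rw [← h1, ← PI_pow, NI]
    refine (Finset.prod_congr rfl fun i _ => PI_sg (e := e) (α := α) _ _ a).trans ?_
    rw [Finset.prod_const, Finset.card_range]
  · have hmax : ∀ i, (Q.map (sgp (e := e) (α := α) ζ hζ.pow_eq_one i)).IsMaximal := fun i =>
      b2b_max _ Q hQ
    have hbot : ∀ i, Q.map (sgp (e := e) (α := α) ζ hζ.pow_eq_one i) ≠ ⊥ := fun i =>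
      map_ne_bot _ h0
    have h1 : Ideal.span {algebraMap κ[X] (BB e α) (X - C c)} ≤ NI ζ hζ.pow_eq_one Q := by
      refine prod_le _ _ (fun i _ => hmax i) (fun i _ => hbot i) ?_ _ ?_
      · intro i hi i' hi' hne heq
        exact hne (conj_ne ζ hζ Q hQ h0 (fun a ha => h ⟨a, ha⟩) i i' (Finset.mem_range.1 hi)
          (Finset.mem_range.1 hi') heq)
      · intro i _
        rw [Ideal.span_singleton_le_iff_mem]
        have := Ideal.mem_map_of_mem (sgp (e := e) (α := α) ζ hζ.pow_eq_one i) hc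
        rwa [hX] at this
    refine (eq_of_len_eq (b2_span_ne c) h1 ?_).symm
    rw [len_X_sub, NI, b2b_len_prod _ _ (fun i _ => hmax i) (fun i _ => hbot i),
      Finset.card_range]

/-- By `ideal_ind`, `NI_maximal` and `exists_X_sub`; `NI` is multiplicative. -/
theorem NI_eq (ζ : κ) (hζ : IsPrimitiveRoot ζ ℓ) (I : Ideal (BB e α)) (hI : I ≠ ⊥) :
    ∃ p : κ[X], p.Monic ∧ p.natDegree = len I ∧
      NI ζ hζ.pow_eq_one I = Ideal.span {algebraMap κ[X] (BB e α) p} := by
  refine ideal_ind (P := fun I => ∃ p : κ[X], p.Monic ∧ p.natDegree = len I ∧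
      NI ζ hζ.pow_eq_one I = Ideal.span {algebraMap κ[X] (BB e α) p}) ?_ ?_ I hI
  · refine ⟨1, monic_one, by rw [natDegree_one, len_top], ?_⟩
    rw [map_one, Ideal.span_singleton_one, NI]
    refine (Finset.prod_congr rfl fun i _ => ?_).trans (Finset.prod_const_one.trans
      Ideal.one_eq_top)
    exact (Ideal.map_top _).trans Ideal.one_eq_top.symm
  · rintro Q J hQ h0 hJ ⟨p, hp, hdeg, hN⟩
    obtain ⟨c, hc⟩ := exists_X_sub Q hQ h0
    refine ⟨(X - C c) * p, (monic_X_sub_C c).mul hp, ?_, ?_⟩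
    · rw [(monic_X_sub_C c).natDegree_mul hp, natDegree_X_sub_C, hdeg, len_mul h0 hJ,
        len_maximal hQ h0]
    · have h1 : NI ζ hζ.pow_eq_one (Q * J) = NI ζ hζ.pow_eq_one Q * NI ζ hζ.pow_eq_one J := by
        rw [NI, NI, NI, ← Finset.prod_mul_distrib]
        exact Finset.prod_congr rfl fun i _ => Ideal.map_mul _ _ _
      rw [h1, NI_maximal ζ hζ Q hQ h0 c hc, hN, Ideal.span_singleton_mul_span_singleton, map_mul]

/-- `NI I ≤ I`: `I` is one of the factors (`i = 0`). So `p ∈ I`. -/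
theorem exists_poly_mem (ζ : κ) (hζ : IsPrimitiveRoot ζ ℓ) (I : Ideal (BB e α)) (hI : I ≠ ⊥) :
    ∃ p : κ[X], p.Monic ∧ p.natDegree = len I ∧ algebraMap κ[X] (BB e α) p ∈ I := by
  obtain ⟨p, hp, hdeg, hN⟩ := NI_eq ζ hζ I hI
  refine ⟨p, hp, hdeg, ?_⟩
  have h1 : NI ζ hζ.pow_eq_one I ≤ I := by
    rw [NI]
    obtain ⟨c, hc⟩ := Finset.dvd_prod_of_mem
      (fun i => I.map (sgp (e := e) (α := α) ζ hζ.pow_eq_one i))
      (Finset.mem_range.2 hℓ.out.pos)
    rw [hc, b2b_zero]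
    exact Ideal.mul_le_left
  exact h1 (hN ▸ Ideal.mem_span_singleton_self _)

end SUP
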