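import Pool.Agent.MP_c1dca2_ag.SUP.B2b

set_option autoImplicit false
set_option linter.unusedSectionVars false

open Polynomial

namespace SUP

/-! ## [SUP-B3] ideals invariant under `σ` (file B3.lean; uses A5, A10, B1, B2, L1) -/

variable {ι : Type} [Fintype ι] {ℓ : ℕ} [hℓ : Fact ℓ.Prime] {κ : Type} [Field κ]
  [IsAlgClosed κ] {e : ι → ZMod ℓ} {α : ι → κ} [hG : Fact (Good e α)]

theorem b3_sgp_map (ζ : κ) (hζ : ζ ^ ℓ = 1) (I : Ideal (BB e α))
    (h : I.map (sg (e := e) (α := α) ζ hζ) = I) (i : ℕ) :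
    I.map (sgp (e := e) (α := α) ζ hζ i) = I := by
  induction i with
  | zero => exact b2b_zero ζ hζ I
  | succ i ih =>
    have h1 := map_map_equiv (sgp (e := e) (α := α) ζ hζ i) (sg (e := e) (α := α) ζ hζ)
      (sgp (e := e) (α := α) ζ hζ (i + 1)) (by
        intro b
        refine BB.ext (funext fun j => ?_)
        rw [sgp, sg_co, sg_co, sgp, sg_co, pow_succ, mul_pow, C_mul]
        ring) I
    rw [← h1, ih, h]

/-- Induction on `len I`. If `I ≠ ⊤` let `Q` be a maximal ideal containing `I`. If `Q = PI a`,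
`I = Q J` with `J` invariant (cancel). Otherwise all `σ^i Q` contain `I`, so their product
`(X - c)` does (`prod_le`, `conj_ne`, `NI_maximal`): `I = (X - c) J`, `J` invariant. -/
theorem invariant_eq (ζ : κ) (hζ : IsPrimitiveRoot ζ ℓ) (I : Ideal (BB e α)) (hI : I ≠ ⊥)
    (h : I.map (sg (e := e) (α := α) ζ hζ.pow_eq_one) = I) :
    ∃ (n : ι → ℕ) (p : κ[X]), p ≠ 0 ∧
      I = Ideal.span {algebraMap κ[X] (BB e α) p} * ∏ a, PI e α a ^ n a := by
  induction hn : len I using Nat.strong_induction_on generalizing I with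
  | _ m ih =>
    classical
    subst hn
    by_cases hT : I = ⊤
    · refine ⟨fun _ => 0, 1, one_ne_zero, ?_⟩
      rw [hT, map_one, Ideal.span_singleton_one, Finset.prod_congr rfl fun a _ => pow_zero _,
        Finset.prod_const_one, mul_one]
    obtain ⟨Q, hQ, hle⟩ := Ideal.exists_le_maximal I hT
    have h0 : Q ≠ ⊥ := fun h0 => hI (le_bot_iff.1 (h0 ▸ hle))
    by_cases hPI : ∃ a, Q = PI e α a
    · obtain ⟨a, rfl⟩ := hPI
      obtain ⟨J, hJ⟩ := Ideal.dvd_iff_le.2 hle
      have hJ0 : J ≠ ⊥ := by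
        rintro rfl
        exact hI (by rw [hJ, Ideal.mul_bot])
      have hJm : J.map (sg (e := e) (α := α) ζ hζ.pow_eq_one) = J := by
        have h1 := h
        rw [hJ, Ideal.map_mul, PI_sg] at h1
        exact mul_left_cancel₀ h0 h1
      have hlen : len J < len I := by
        rw [hJ, len_mul h0 hJ0, len_maximal hQ h0]
        omega
      obtain ⟨n, p, hp, hJp⟩ := ih (len J) hlen J hJ0 hJm rfl
      refine ⟨fun b => n b + if a = b then 1 else 0, p, hp, ?_⟩
      rw [Finset.prod_congr rfl fun b _ => pow_add _ _ _, Finset.prod_mul_distrib,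
        Finset.prod_pow_boole, if_pos (Finset.mem_univ a), ← mul_assoc, ← hJp, hJ, mul_comm]
    · obtain ⟨c, hc⟩ := exists_X_sub Q hQ h0
      have h1 : I ≤ Ideal.span {algebraMap κ[X] (BB e α) (X - C c)} := by
        rw [← NI_maximal ζ hζ Q hQ h0 c hc, NI]
        refine prod_le _ _ (fun i _ => b2b_max _ Q hQ) (fun i _ => map_ne_bot _ h0) ?_ _ ?_
        · intro i hi i' hi' hne heq
          exact hne (conj_ne ζ hζ Q hQ h0 (fun a ha => hPI ⟨a, ha⟩) i i' (Finset.mem_range.1 hi)
            (Finset.mem_range.1 hi') heq)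
        · intro i _
          have h2 := Ideal.map_mono (f := sgp (e := e) (α := α) ζ hζ.pow_eq_one i) hle
          rwa [b3_sgp_map ζ hζ.pow_eq_one I h] at h2
      obtain ⟨J, hJ⟩ := Ideal.dvd_iff_le.2 h1
      have hJ0 : J ≠ ⊥ := by
        rintro rfl
        exact hI (by rw [hJ, Ideal.mul_bot])
      have hX0 := b2_span_ne (e := e) (α := α) c
      have hJm : J.map (sg (e := e) (α := α) ζ hζ.pow_eq_one) = J := by
        have h1 := h
        rw [hJ, Ideal.map_mul, map_span_singleton, sg_algebraMap] at h1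
        exact mul_left_cancel₀ hX0 h1
      have hlen : len J < len I := by
        rw [hJ, len_mul hX0 hJ0, len_X_sub]
        have := hℓ.out.pos
        omega
      obtain ⟨n, p, hp, hJp⟩ := ih (len J) hlen J hJ0 hJm rfl
      refine ⟨n, (X - C c) * p, mul_ne_zero (X_sub_C_ne_zero c) hp, ?_⟩
      rw [map_mul, ← Ideal.span_singleton_mul_span_singleton, mul_assoc, ← hJp, hJ]

/-- `(v_j)^ℓ = prod (PI a)^(ℓ rr e j a)` (`v_pow`, `PI_pow`), take `ℓ`-th roots (`eq_of_pow_eq`). -/
theorem span_v (j : ZMod ℓ) :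
    Ideal.span {BB.v e α j} = ∏ a, PI e α a ^ rr e j a := by
  have hv0 : BB.v e α j ≠ 0 := by
    intro h
    have h1 := congrArg (fun b : BB e α => b.co j) h
    simp only [BB.v_co, Pi.single_eq_same, BB.co_zero, Pi.zero_apply] at h1
    exact one_ne_zero h1
  have h1 : (∏ a, PI e α a ^ rr e j a) ≠ ⊥ := by
    have := Finset.prod_ne_zero_iff.2 fun a (_ : a ∈ Finset.univ) =>
      pow_ne_zero (rr e j a) (PI_ne_bot (e := e) (α := α) a)
    exact this
  refine eq_of_pow_eq (n := ℓ) (by rwa [Ne, Ideal.span_singleton_eq_bot]) h1 hℓ.out.pos ?_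
  rw [Ideal.span_singleton_pow, v_pow, map_prod, ← Finset.prod_pow, ← Ideal.prod_span_singleton]
  refine Finset.prod_congr rfl fun a _ => ?_
  rw [map_pow, ← Ideal.span_singleton_pow, ← PI_pow, ← pow_mul, ← pow_mul, mul_comm]

end SUP
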