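import Pool.Agent.MP_c1dca2_ag.SUP.B3

set_option autoImplicit false
set_option linter.unusedSectionVars false

open Polynomial

namespace SUP

/-! ## [SUP-B3b] ideals invariant under `σ` (file B3b.lean, continuation of B3.lean; uses A5, A10, B1, B2, L1) -/

variable {ι : Type} [Fintype ι] {ℓ : ℕ} [hℓ : Fact ℓ.Prime] {κ : Type} [Field κ]
  [IsAlgClosed κ] {e : ι → ZMod ℓ} {α : ι → κ} [hG : Fact (Good e α)]

theorem b3b_rm [DecidableEq ι] (hα : Function.Injective α) (n : ι → ℕ) (a : ι) (s : Finset ι) :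
    rootMultiplicity (α a) (∏ b ∈ s, (X - C (α b)) ^ n b) = if a ∈ s then n a else 0 := by
  induction s using Finset.induction_on with
  | empty =>
    rw [Finset.prod_empty, if_neg (Finset.notMem_empty a)]
    exact rootMultiplicity_eq_zero (by simp [IsRoot])
  | insert b s hb ih =>
    have h1 : (X - C (α b)) ^ n b ≠ 0 := pow_ne_zero _ (X_sub_C_ne_zero _)
    have h2 : ∏ b ∈ s, (X - C (α b)) ^ n b ≠ 0 := Finset.prod_ne_zero_iff.2 fun c _ => pow_ne_zero _ (X_sub_C_ne_zero _)
    rw [Finset.prod_insert hb, rootMultiplicity_mul (mul_ne_zero h1 h2), ih]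
    by_cases hab : a = b
    · subst hab
      rw [rootMultiplicity_X_sub_C_pow, if_neg hb, if_pos (Finset.mem_insert_self a s), add_zero]
    · have h3 : rootMultiplicity (α a) ((X - C (α b)) ^ n b) = 0 := by
        refine rootMultiplicity_eq_zero ?_
        rw [IsRoot, eval_pow, eval_sub, eval_X, eval_C]
        exact pow_ne_zero _ (sub_ne_zero.2 fun h => hab (hα h))
      rw [h3, zero_add]
      by_cases has : a ∈ s
      · rw [if_pos has, if_pos (Finset.mem_insert_of_mem has)]
      · rw [if_neg has, if_neg (fun h => (Finset.mem_insert.1 h).elim hab has)]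

theorem b3b_span_prod (m : ι → ℕ) :
    ∏ a, (PI e α a ^ ℓ) ^ m a = Ideal.span {algebraMap κ[X] (BB e α) (∏ a, (X - C (α a)) ^ m a)} := by
  have h1 : ∀ a, (PI e α a ^ ℓ) ^ m a = Ideal.span {algebraMap κ[X] (BB e α) ((X - C (α a)) ^ m a)} := by
    intro a
    rw [PI_pow, Ideal.span_singleton_pow, map_pow]
  rw [Finset.prod_congr rfl fun a _ => h1 a, Ideal.prod_span_singleton, map_prod]

/-- If `n a ≡ j e a` then `n a = rr e j a + ℓ m a` and the product is
`(v_j prod (X - α a)^(m a))` (`span_v`, `PI_pow`). Conversely if the product `I` is `(f)`, then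
`σ f = η f` with a constant `η` (`PI_sg`, `span_eq_iff`). Comparing coordinates `f` has a single nonzero
coordinate: `f = b v_j` (`η = ζ^j`), `b ∈ κ[X]`. Then `I^ℓ = (b^ℓ prod (X - α a)^(rr e j a))` and
`I^ℓ = (prod (X - α a)^(n a))`, so these two polynomials differ by a constant
(`span_eq_iff`, `algebraMap_injective`); compare the multiplicities of the root `α a`. -/
theorem prod_principal_iff (ζ : κ) (hζ : IsPrimitiveRoot ζ ℓ) (n : ι → ℕ) :
    (∃ f, ∏ a, PI e α a ^ n a = Ideal.span {f}) ↔ ∃ j : ZMod ℓ, ∀ a, (n a : ZMod ℓ) = j * e a := by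
  classical
  constructor
  · rintro ⟨f, hf⟩
    have hI : (∏ a, PI e α a ^ n a) ≠ ⊥ := by
      have h1 : ∀ a ∈ (Finset.univ : Finset ι), PI e α a ^ n a ≠ 0 := fun a _ => pow_ne_zero _ (PI_ne_bot a)
      exact Finset.prod_ne_zero_iff.2 h1
    have hf0 : f ≠ 0 := by
      intro h0
      apply hI
      rw [hf, h0, Ideal.span_singleton_eq_bot]
    have hmap : (∏ a, PI e α a ^ n a).map (sg (e := e) (α := α) ζ hζ.pow_eq_one) = ∏ a, PI e α a ^ n a := by
      change Ideal.map ((sg (e := e) (α := α) ζ hζ.pow_eq_one : BB e α ≃+* BB e α) : BB e α →+* BB e α) _ = _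
      rw [show ∀ (g : BB e α →+* BB e α) (I : Ideal (BB e α)), Ideal.map g I = Ideal.mapHom g I from fun _ _ => rfl, map_prod]
      refine Finset.prod_congr rfl fun a _ => ?_
      rw [map_pow]
      exact congrArg (fun I => I ^ n a) (PI_sg ζ hζ.pow_eq_one a)
    rw [hf, map_span_singleton] at hmap
    obtain ⟨r, hr, hr2⟩ := span_eq_iff.1 hmap.symm
    have hco : ∀ j, C (ζ ^ j.val) * f.co j = C r * f.co j := by
      intro j
      have h1 := congrArg (fun b : BB e α => b.co j) hr2
      simp only [sg_co, BB.co_smul', Polynomial.smul_eq_C_mul] at h1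
      exact h1
    obtain ⟨j₀, hj₀⟩ : ∃ j, f.co j ≠ 0 := by
      by_contra hcon
      push Not at hcon
      exact hf0 (BB.ext (funext hcon))
    have hz0 : ζ ^ j₀.val = r := C_injective (mul_right_cancel₀ hj₀ (hco j₀))
    have hother : ∀ j, j ≠ j₀ → f.co j = 0 := by
      intro j hj
      by_contra hne
      have h1 : ζ ^ j.val = r := C_injective (mul_right_cancel₀ hne (hco j))
      have h2 := hζ.pow_inj (ZMod.val_lt j) (ZMod.val_lt j₀) (h1.trans hz0.symm)
      exact hj (ZMod.val_injective ℓ h2)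
    have hfv : f = f.co j₀ • BB.v e α j₀ := by
      refine BB.ext (funext fun j => ?_)
      rw [BB.co_smul, BB.v_co]
      by_cases hj : j = j₀
      · rw [hj, Pi.single_eq_same, mul_one]
      · rw [Pi.single_eq_of_ne hj, mul_zero]
        exact hother j hj
    have h1 : (∏ a, PI e α a ^ n a) ^ ℓ = Ideal.span {algebraMap κ[X] (BB e α) (∏ a, (X - C (α a)) ^ n a)} := by
      rw [← b3b_span_prod n, ← Finset.prod_pow]
      refine Finset.prod_congr rfl fun a _ => ?_
      rw [← pow_mul, ← pow_mul, mul_comm]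
    have h2 : f ^ ℓ = algebraMap κ[X] (BB e α) (f.co j₀ ^ ℓ * ∏ a, (X - C (α a)) ^ rr e j₀ a) := by
      conv_lhs => rw [hfv]
      rw [Algebra.smul_def, mul_pow, v_pow, ← map_pow, ← map_mul]
    rw [hf, Ideal.span_singleton_pow, h2] at h1
    obtain ⟨u, hu, hu2⟩ := span_eq_iff.1 h1
    have h3 : ∏ a, (X - C (α a)) ^ n a = C u * (f.co j₀ ^ ℓ * ∏ a, (X - C (α a)) ^ rr e j₀ a) := by
      apply BB.algebraMap_injective (e := e) (α := α)
      rw [hu2, map_mul (algebraMap κ[X] (BB e α)) (C u), ← Polynomial.algebraMap_eq,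
        ← IsScalarTower.algebraMap_apply, ← Algebra.smul_def]
    refine ⟨j₀, fun a => ?_⟩
    have hne1 : ∏ a, (X - C (α a)) ^ rr e j₀ a ≠ 0 :=
      Finset.prod_ne_zero_iff.2 fun c _ => pow_ne_zero _ (X_sub_C_ne_zero _)
    have hne2 : f.co j₀ ^ ℓ ≠ 0 := pow_ne_zero _ hj₀
    have h4 := congrArg (rootMultiplicity (α a)) h3
    rw [b3b_rm hG.out.inj n a, if_pos (Finset.mem_univ a),
      rootMultiplicity_mul (mul_ne_zero (C_ne_zero.2 hu) (mul_ne_zero hne2 hne1)),
      rootMultiplicity_C, zero_add, rootMultiplicity_mul (mul_ne_zero hne2 hne1),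
      b3b_rm hG.out.inj (rr e j₀) a, if_pos (Finset.mem_univ a)] at h4
    have h5 : rootMultiplicity (α a) (f.co j₀ ^ ℓ) = ℓ * rootMultiplicity (α a) (f.co j₀) := by
      have h6 : ∀ k : ℕ, rootMultiplicity (α a) (f.co j₀ ^ k) = k * rootMultiplicity (α a) (f.co j₀) := by
        intro k
        induction k with
        | zero =>
          rw [pow_zero, zero_mul]
          exact rootMultiplicity_eq_zero (by simp [IsRoot])
        | succ k ih =>
          rw [pow_succ, rootMultiplicity_mul (mul_ne_zero (pow_ne_zero _ hj₀) hj₀), ih]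
          ring
      exact h6 ℓ
    rw [h5] at h4
    rw [h4]
    push_cast
    rw [ZMod.natCast_self, zero_mul, zero_add, rr, ZMod.natCast_zmod_val]
  · rintro ⟨j, hj⟩
    have hn : ∀ a, n a = rr e j a + ℓ * (n a / ℓ) := by
      intro a
      have h1 : rr e j a = n a % ℓ := by
        rw [rr, ← hj a, ZMod.val_natCast]
      rw [h1, Nat.mod_add_div]
    refine ⟨BB.v e α j * algebraMap κ[X] (BB e α) (∏ a, (X - C (α a)) ^ (n a / ℓ)), ?_⟩
    rw [← Ideal.span_singleton_mul_span_singleton, span_v, ← b3b_span_prod, ← Finset.prod_mul_distrib]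
    refine Finset.prod_congr rfl fun a _ => ?_
    rw [← pow_mul, ← pow_add, ← hn a]

end SUP
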