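import Pool.Agent.MP_c1dca2_ag.SUP.B3b

set_option autoImplicit false
set_option linter.unusedSectionVars false

open Polynomial

namespace SUP

/-! ## [SUP-B3c] ideals invariant under `σ` (file B3c.lean, continuation of B3b.lean; uses A5, A10, B1, B2, L1) -/

variable {ι : Type} [Fintype ι] {ℓ : ℕ} [hℓ : Fact ℓ.Prime] {κ : Type} [Field κ]
  [IsAlgClosed κ] {e : ι → ZMod ℓ} {α : ι → κ} [hG : Fact (Good e α)]

theorem b3c_prod_ne (s : Finset ι) (n : ι → ℕ) : (∏ a ∈ s, PI e α a ^ n a) ≠ ⊥ := by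
  have h1 : ∀ a ∈ s, PI e α a ^ n a ≠ 0 := fun a _ => pow_ne_zero _ (PI_ne_bot a)
  exact Finset.prod_ne_zero_iff.2 h1

theorem b3c_cls_top : cls (⊤ : Ideal (BB e α)) = 1 := by
  rw [← Ideal.span_singleton_one]
  exact cls_span one_ne_zero

theorem b3c_cls_pow {I : Ideal (BB e α)} (hI : I ≠ ⊥) (n : ℕ) : cls (I ^ n) = cls I ^ n := by
  induction n with
  | zero => rw [pow_zero, pow_zero, Ideal.one_eq_top, b3c_cls_top]
  | succ n ih =>
    have h1 : I ^ n ≠ ⊥ := pow_ne_zero n hI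
    rw [pow_succ, cls_mul h1 hI, ih, pow_succ]

theorem b3c_cls_prod (s : Finset ι) (n : ι → ℕ) : cls (∏ a ∈ s, PI e α a ^ n a) = ∏ a ∈ s, cls (PI e α a) ^ n a := by
  classical
  induction s using Finset.induction_on with
  | empty => rw [Finset.prod_empty, Finset.prod_empty, Ideal.one_eq_top, b3c_cls_top]
  | insert a s ha ih =>
    have h1 : PI e α a ^ n a ≠ ⊥ := pow_ne_zero _ (PI_ne_bot a)
    rw [Finset.prod_insert ha, Finset.prod_insert ha, cls_mul h1 (b3c_prod_ne s n), ih, b3c_cls_pow (PI_ne_bot a)]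

/-- A class fixed by `σ` is the class of a product of the `PI a`: the reduced ideal is invariant
(`rdc_map`), apply `invariant_eq`. -/
theorem fixed_class (ζ : κ) (hζ : IsPrimitiveRoot ζ ℓ) (D : ClassGroup (BB e α))
    (h : clm (sg (e := e) (α := α) ζ hζ.pow_eq_one) D = D) :
    ∃ n : ι → ℕ, D = cls (∏ a, PI e α a ^ n a) := by
  have hmap := rdc_map (sg (e := e) (α := α) ζ hζ.pow_eq_one) D
  rw [h] at hmap
  obtain ⟨n, p, hp, hI⟩ := invariant_eq ζ hζ (rdc D) (rdc_ne D) hmap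
  refine ⟨n, ?_⟩
  have hp' : algebraMap κ[X] (BB e α) p ≠ 0 := by
    intro h0
    apply hp
    apply BB.algebraMap_injective (e := e) (α := α)
    rw [h0, map_zero]
  have h1 : (Ideal.span {algebraMap κ[X] (BB e α) p} : Ideal (BB e α)) ≠ ⊥ := by
    rwa [Ne, Ideal.span_singleton_eq_bot]
  rw [← cls_rdc D, hI, cls_mul h1 (b3c_prod_ne _ n), cls_span hp', one_mul]

/-- The exponents can be reduced modulo `ℓ` (`PI_pow`, `cls_span`). -/
theorem finite_fixed (ζ : κ) (hζ : IsPrimitiveRoot ζ ℓ) :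
    {D : ClassGroup (BB e α) | clm (sg (e := e) (α := α) ζ hζ.pow_eq_one) D = D}.Finite := by
  refine (Set.finite_range (fun m : ι → Fin ℓ => ∏ a, cls (PI e α a) ^ (m a : ℕ))).subset ?_
  intro D hD
  obtain ⟨n, rfl⟩ := fixed_class ζ hζ D hD
  refine ⟨fun a => ⟨n a % ℓ, Nat.mod_lt _ hℓ.out.pos⟩, ?_⟩
  rw [b3c_cls_prod]
  refine Finset.prod_congr rfl fun a _ => ?_
  have h1 : cls (PI e α a) ^ ℓ = 1 := by
    rw [← b3c_cls_pow (PI_ne_bot a), PI_pow]
    refine cls_span ?_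
    intro h0
    apply X_sub_C_ne_zero (α a)
    apply BB.algebraMap_injective (e := e) (α := α)
    rw [h0, map_zero]
  exact (pow_eq_pow_mod (n a) h1).symm

end SUP
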