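import Pool.Agent.MP_c1dca2_ag.SUP.A6

set_option autoImplicit false
set_option linter.unusedSectionVars false

open Polynomial

namespace SUP

/-! ## [SUP-B4] the cyclic algebra argument, first part (file B4.lean; uses A3, A5, A6)

Notation: `ζ` is a primitive `ℓ`-th root of unity, `t` is the variable of a second copy of `κ[X]`,
`ξ = t^ℓ + c`, `w` a polynomial in `t` with `prod_(i < ℓ) w(ζ^i t) = h(ξ)`,
`h = prod_a (X - α a)^(e a)`. The ring `κ[X][U]` acts on `κ[t]`: `X` acts as multiplication by `ξ`,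
`U` as `T z = w(t) z(ζ t)`. -/

variable {ι : Type} [Fintype ι] {ℓ : ℕ} [hℓ : Fact ℓ.Prime] {κ : Type} [Field κ]
  {e : ι → ZMod ℓ} {α : ι → κ}

/-- The operator `z ↦ w(t) z(ζ t)`. -/
noncomputable def tT (w : κ[X]) (ζ : κ) : Module.End κ κ[X] :=
  (LinearMap.mulLeft κ w) ∘ₗ (aeval (C ζ * X) : κ[X] →ₐ[κ] κ[X]).toLinearMap

theorem tT_apply (w : κ[X]) (ζ : κ) (z : κ[X]) : tT w ζ z = w * z.comp (C ζ * X) := rfl

/-- Multiplication by `p(ξ)`, `ξ = t^ℓ + c`. -/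
noncomputable def mx (ℓ : ℕ) (c : κ) : κ[X] →+* Module.End κ κ[X] :=
  (Algebra.lmul κ κ[X]).toRingHom.comp (aeval (X ^ ℓ + C c) : κ[X] →ₐ[κ] κ[X]).toRingHom

theorem mx_apply (ℓ : ℕ) (c : κ) (p z : κ[X]) : mx ℓ c p z = p.comp (X ^ ℓ + C c) * z := rfl

theorem mx_commute (w : κ[X]) {ζ : κ} (hζ : ζ ^ ℓ = 1) (c : κ) (p : κ[X]) :
    Commute (mx ℓ c p) (tT w ζ) := by
  ext1
  ext1
  simp only [LinearMap.comp_apply, Module.End.mul_apply, mx_apply, tT_apply, mul_comp, comp_assoc,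
    add_comp, X_comp, C_comp, pow_comp, mul_pow, ← C_pow, hζ, C_1, one_mul]
  ring

/-- The action of `κ[X][U]` on `κ[t]`. -/
noncomputable def rho (w : κ[X]) {ζ : κ} (hζ : ζ ^ ℓ = 1) (c : κ) :
    κ[X][X] →+* Module.End κ κ[X] :=
  eval₂RingHom' (mx ℓ c) (tT w ζ) (mx_commute w hζ c)

theorem rho_C (w : κ[X]) {ζ : κ} (hζ : ζ ^ ℓ = 1) (c : κ) (p : κ[X]) :
    rho w hζ c (C p) = mx ℓ c p := by
  simp [rho, eval₂RingHom']

theorem rho_X (w : κ[X]) {ζ : κ} (hζ : ζ ^ ℓ = 1) (c : κ) : rho w hζ c X = tT w ζ := by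
  simp [rho, eval₂RingHom']

/-- The automorphism `U ↦ ζ U` of `κ[X][U]`. -/
noncomputable def s0 (ζ : κ) : κ[X][X] →+* κ[X][X] := eval₂RingHom C (C (C ζ) * X)

theorem s0_C (ζ : κ) (p : κ[X]) : s0 ζ (C p) = C p := by simp [s0]

theorem s0_X (ζ : κ) : s0 ζ (X : κ[X][X]) = C (C ζ) * X := by simp [s0]

/-- The map `κ[X][U] → B`, `U ↦ v_1`. -/
noncomputable def mu (e : ι → ZMod ℓ) (α : ι → κ) : κ[X][X] →+* BB e α :=
  (aeval (BB.v e α 1) : κ[X][X] →ₐ[κ[X]] BB e α).toRingHom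

theorem mu_C (p : κ[X]) : mu e α (C p) = algebraMap κ[X] (BB e α) p := by
  change aeval _ (C p) = _
  rw [aeval_C]

theorem mu_X : mu e α X = BB.v e α 1 := by
  change aeval _ X = _
  rw [aeval_X]

/-- The polynomial `h`. -/
noncomputable def hh (e : ι → ZMod ℓ) (α : ι → κ) : κ[X] := ∏ a, (X - C (α a)) ^ (e a).val

end SUP
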