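import Pool.Agent.MP_c1dca2_ag.SUP.B4

set_option autoImplicit false
set_option linter.unusedSectionVars false

open Polynomial

namespace SUP

/-! ## [SUP-B4a] the cyclic algebra argument, first part (file B4a.lean, continuation of B4.lean; uses A3, A5, A6)

Notation: `ζ` is a primitive `ℓ`-th root of unity, `t` is the variable of a second copy of `κ[X]`,
`ξ = t^ℓ + c`, `w` a polynomial in `t` with `prod_(i < ℓ) w(ζ^i t) = h(ξ)`,
`h = prod_a (X - α a)^(e a)`. The ring `κ[X][U]` acts on `κ[t]`: `X` acts as multiplication by `ξ`,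
`U` as `T z = w(t) z(ζ t)`. -/

variable {ι : Type} [Fintype ι] {ℓ : ℕ} [hℓ : Fact ℓ.Prime] {κ : Type} [Field κ]
  {e : ι → ZMod ℓ} {α : ι → κ}

theorem b4a_prod (ζ : κ) (hζ : IsPrimitiveRoot ζ ℓ) (γ : κ) :
    ∏ i ∈ Finset.range ℓ, ((X - C γ : κ[X]).comp (C (ζ ^ i) * X)) =
      C (∏ i ∈ Finset.range ℓ, ζ ^ i) * (X ^ ℓ - C (γ ^ ℓ)) := by
  have h1 := X_pow_sub_C_eq_prod hζ.inv hℓ.out.pos (rfl : γ ^ ℓ = γ ^ ℓ)
  rw [h1, map_prod, ← Finset.prod_mul_distrib]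
  refine Finset.prod_congr rfl fun i _ => ?_
  rw [sub_comp, X_comp, C_comp, mul_sub, ← C_mul, ← mul_assoc, ← mul_pow,
    mul_inv_cancel₀ (hζ.ne_zero hℓ.out.ne_zero), one_pow, one_mul]

theorem b4a_comp_prod (s : Finset ι) (F : ι → κ[X]) (q : κ[X]) :
    (∏ a ∈ s, F a).comp q = ∏ a ∈ s, (F a).comp q := by
  classical
  induction s using Finset.induction_on with
  | empty => rw [Finset.prod_empty, Finset.prod_empty, one_comp]
  | insert a s ha ih => rw [Finset.prod_insert ha, Finset.prod_insert ha, mul_comp, ih]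

/-- `κ` is algebraically closed: `w = λ ∏_a (t - γ a)^(e a)` with `(γ a)^ℓ = α a - c`, using
`∏_i (ζ^i t - γ) = (∏_i ζ^i) (t^ℓ - γ^ℓ)` and a suitable constant `λ`. -/
theorem exists_w [IsAlgClosed κ] (ζ : κ) (hζ : IsPrimitiveRoot ζ ℓ) (c : κ) : ∃ w : κ[X], w ≠ 0 ∧
    ∏ i ∈ Finset.range ℓ, w.comp (C (ζ ^ i) * X) = (hh e α).comp (X ^ ℓ + C c) := by
  have hpos : 0 < ℓ := hℓ.out.pos
  have h1 : ∀ a : ι, ∃ γ : κ, γ ^ ℓ = α a - c := fun a => IsAlgClosed.exists_pow_nat_eq _ hpos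
  choose γ hγ using h1
  obtain ⟨ε, hε⟩ : ∃ ε : κ, ε = ∏ i ∈ Finset.range ℓ, ζ ^ i := ⟨_, rfl⟩
  have hε0 : ε ≠ 0 := by
    rw [hε]
    exact Finset.prod_ne_zero_iff.2 fun i _ => pow_ne_zero _ (hζ.ne_zero hℓ.out.ne_zero)
  obtain ⟨N, hN⟩ : ∃ N : ℕ, N = ∑ a, (e a).val := ⟨_, rfl⟩
  obtain ⟨lam, hlam⟩ := IsAlgClosed.exists_pow_nat_eq ((ε ^ N)⁻¹) hpos
  have hlam0 : lam ≠ 0 := by
    intro h
    rw [h, zero_pow hℓ.out.ne_zero] at hlam
    exact inv_ne_zero (pow_ne_zero _ hε0) hlam.symm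
  refine ⟨C lam * ∏ a, (X - C (γ a)) ^ (e a).val, ?_, ?_⟩
  · refine mul_ne_zero (C_ne_zero.2 hlam0) ?_
    exact Finset.prod_ne_zero_iff.2 fun a _ => pow_ne_zero _ (X_sub_C_ne_zero _)
  · have h2 : ∀ i ∈ Finset.range ℓ,
        (C lam * ∏ a, (X - C (γ a)) ^ (e a).val : κ[X]).comp (C (ζ ^ i) * X) =
        C lam * ∏ a, ((X - C (γ a) : κ[X]).comp (C (ζ ^ i) * X)) ^ (e a).val := by
      intro i _
      rw [mul_comp, C_comp, b4a_comp_prod]
      congr 1
      exact Finset.prod_congr rfl fun a _ => by rw [pow_comp]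
    rw [Finset.prod_congr rfl h2, Finset.prod_mul_distrib, Finset.prod_const, Finset.card_range,
      Finset.prod_comm]
    have h3 : ∀ a ∈ (Finset.univ : Finset ι),
        ∏ i ∈ Finset.range ℓ, ((X - C (γ a) : κ[X]).comp (C (ζ ^ i) * X)) ^ (e a).val =
        C ε ^ (e a).val * (X ^ ℓ - C (α a - c)) ^ (e a).val := by
      intro a _
      rw [Finset.prod_pow, b4a_prod ζ hζ, ← hε, hγ, mul_pow]
    rw [Finset.prod_congr rfl h3, Finset.prod_mul_distrib, Finset.prod_pow_eq_pow_sum, ← hN,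
      ← C_pow, hlam, ← C_pow, ← mul_assoc, ← C_mul, inv_mul_cancel₀ (pow_ne_zero _ hε0), C_1,
      one_mul, hh, b4a_comp_prod]
    refine Finset.prod_congr rfl fun a _ => ?_
    rw [pow_comp, sub_comp, X_comp, C_comp, C_sub]
    congr 1
    ring

/-- `T^n z = ∏_(i < n) w(ζ^i t) z(ζ^n t)`. -/
theorem tT_pow (w : κ[X]) (ζ : κ) (n : ℕ) (z : κ[X]) : (tT w ζ ^ n) z =
    (∏ i ∈ Finset.range n, w.comp (C (ζ ^ i) * X)) * z.comp (C (ζ ^ n) * X) := by
  induction n generalizing z with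
  | zero => simp
  | succ n ih =>
    have h0 : ∀ (F : ℕ → κ[X]) (q : κ[X]) (n : ℕ),
        (∏ i ∈ Finset.range n, F i).comp q = ∏ i ∈ Finset.range n, (F i).comp q := by
      intro F q n
      induction n with
      | zero => simp
      | succ n ih => rw [Finset.prod_range_succ, mul_comp, ih, Finset.prod_range_succ]
    have h1 : ∀ (p : κ[X]) (i : ℕ), (p.comp (C (ζ ^ i) * X)).comp (C ζ * X) =
        p.comp (C (ζ ^ (i + 1)) * X) := by
      intro p i
      rw [comp_assoc, mul_comp, C_comp, X_comp, ← mul_assoc, ← C_mul, pow_succ]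
    rw [pow_succ', Module.End.mul_apply, ih, tT_apply, mul_comp, h0, h1, ← mul_assoc]
    congr 1
    rw [Finset.prod_range_succ', pow_zero, C_1, one_mul, comp_X, mul_comm]
    congr 1
    exact Finset.prod_congr rfl fun i _ => h1 w i

end SUP
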