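import Pool.Agent.MP_c1dca2_ag.SUP.B4a

set_option autoImplicit false
set_option linter.unusedSectionVars false

open Polynomial

namespace SUP

/-! ## [SUP-B4b] the cyclic algebra argument, first part (file B4b.lean, continuation of B4a.lean; uses A3, A5, A6)

Notation: `ζ` is a primitive `ℓ`-th root of unity, `t` is the variable of a second copy of `κ[X]`,
`ξ = t^ℓ + c`, `w` a polynomial in `t` with `prod_(i < ℓ) w(ζ^i t) = h(ξ)`,
`h = prod_a (X - α a)^(e a)`. The ring `κ[X][U]` acts on `κ[t]`: `X` acts as multiplication by `ξ`,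
`U` as `T z = w(t) z(ζ t)`. -/

variable {ι : Type} [Fintype ι] {ℓ : ℕ} [hℓ : Fact ℓ.Prime] {κ : Type} [Field κ]
  {e : ι → ZMod ℓ} {α : ι → κ}

theorem b4b_pow (n : ℕ) : ∃ g : κ[X], g ≠ 0 ∧
    (BB.v e α 1) ^ n = g • BB.v e α (n : ZMod ℓ) := by
  induction n with
  | zero => exact ⟨1, one_ne_zero, by rw [pow_zero, Nat.cast_zero, BB.v_zero, one_smul]⟩
  | succ n ih =>
    obtain ⟨g, hg, h⟩ := ih
    refine ⟨g * cc e α (n : ZMod ℓ) 1, mul_ne_zero hg (cc_monic e α _ _).ne_zero, ?_⟩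
    rw [pow_succ, h, smul_mul_assoc, BB.v_mul, smul_smul, Nat.cast_succ]

theorem b4b_mu (F : κ[X][X]) : mu e α F =
    ∑ n ∈ Finset.range (F.natDegree + 1), F.coeff n • (BB.v e α 1) ^ n := by
  change aeval (BB.v e α 1) F = _
  rw [aeval_eq_sum_range]

/-- `v_1^j = ∏ (X - α a)^(j rr e 1 a / ℓ) v_j`; for `j < ℓ` these are linearly independent over
`κ[X]`. -/
theorem mu_inj {F : κ[X][X]} (hF : F.natDegree < ℓ) (h : mu e α F = 0) : F = 0 := by
  classical
  have hg : ∀ n : ℕ, ∃ g : κ[X], g ≠ 0 ∧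
    (BB.v e α 1) ^ n = g • BB.v e α (n : ZMod ℓ) := fun n => b4b_pow n
  choose g hg0 hg1 using hg
  ext1 n
  rw [coeff_zero]
  by_cases hn : F.natDegree < n
  · exact coeff_eq_zero_of_natDegree_lt hn
  have hn' : n < F.natDegree + 1 := by omega
  rw [b4b_mu] at h
  have h1 := congrArg (fun b : BB e α => b.co (n : ZMod ℓ)) h
  have h2 : ∀ (s : Finset ℕ) (f : ℕ → BB e α), (∑ m ∈ s, f m).co (n : ZMod ℓ) =
      ∑ m ∈ s, (f m).co (n : ZMod ℓ) := by
    intro s f
    induction s using Finset.induction_on with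
    | empty => simp
    | insert a s ha ih =>
      rw [Finset.sum_insert ha, Finset.sum_insert ha, BB.co_add, Pi.add_apply, ih]
  simp only [h2, BB.co_zero, Pi.zero_apply] at h1
  rw [Finset.sum_eq_single n] at h1
  · rw [hg1, BB.co_smul, BB.co_smul, BB.v_co, Pi.single_eq_same, mul_one] at h1
    exact (mul_eq_zero.1 h1).resolve_right (hg0 n)
  · intro m hm hmn
    rw [hg1, BB.co_smul, BB.co_smul, BB.v_co, Pi.single_eq_of_ne, mul_zero, mul_zero]
    intro h3
    rw [ZMod.natCast_eq_natCast_iff'] at h3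
    have h4 := Finset.mem_range.1 hm
    rw [Nat.mod_eq_of_lt (by omega), Nat.mod_eq_of_lt (by omega)] at h3
    exact hmn h3.symm
  · intro h3
    exact absurd (Finset.mem_range.2 hn') h3

/-- `κ[X][U] → B` and the action kill `U^ℓ - h` (`v_pow` with `j = 1`, `tT_pow` with `n = ℓ`), which
is monic of degree `ℓ`; divide `F` by it (`Polynomial.modByMonic`) and use `mu_inj`. -/
theorem rho_of_mu (w : κ[X]) {ζ : κ} (hζ : ζ ^ ℓ = 1) (c : κ)
    (hw : ∏ i ∈ Finset.range ℓ, w.comp (C (ζ ^ i) * X) = (hh e α).comp (X ^ ℓ + C c))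
    {F : κ[X][X]} (h : mu e α F = 0) : rho w hζ c F = 0 := by
  obtain ⟨P, hP⟩ : ∃ P : κ[X][X], P = X ^ ℓ - C (hh e α) := ⟨_, rfl⟩
  have hPm : P.Monic := by
    rw [hP]
    exact monic_X_pow_sub_C _ hℓ.out.ne_zero
  have hPd : P.natDegree = ℓ := by
    rw [hP]
    exact natDegree_X_pow_sub_C
  have h1 : mu e α P = 0 := by
    rw [hP, map_sub, map_pow, mu_X, mu_C, v_pow, sub_eq_zero, hh]
    congr 1
    refine Finset.prod_congr rfl fun a _ => ?_
    rw [rr, one_mul]
  have h2 : rho w hζ c P = 0 := by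
    rw [hP, map_sub, map_pow, rho_X, rho_C, sub_eq_zero]
    refine LinearMap.ext fun z => ?_
    rw [tT_pow, hw, hζ, C_1, one_mul, comp_X, mx_apply]
  have h3 := modByMonic_add_div F P
  have h4 : mu e α (F %ₘ P) = 0 := by
    have h5 := congrArg (mu e α) h3
    rw [map_add, map_mul, h1, zero_mul, add_zero, h] at h5
    exact h5
  have h5 : (F %ₘ P).natDegree < ℓ := by
    have h6 := natDegree_modByMonic_lt F hPm (by
      intro h7
      rw [h7, natDegree_one] at hPd
      exact hℓ.out.ne_zero hPd.symm)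
    rwa [hPd] at h6
  have h6 := mu_inj h5 h4
  rw [← h3, h6, zero_add, map_mul, h2, zero_mul]

/-- `U` and `v_1` are both multiplied by `ζ`. -/
theorem mu_s0 (ζ : κ) (hζ : ζ ^ ℓ = 1) (F : κ[X][X]) :
    mu e α (s0 ζ F) = sg ζ hζ (mu e α F) := by
  have h1 : (mu e α).comp (s0 ζ) = ((sg ζ hζ : BB e α ≃+* BB e α) : BB e α →+* BB e α).comp
      (mu e α) := by
    refine Polynomial.ringHom_ext (fun p => ?_) ?_
    · rw [RingHom.comp_apply, RingHom.comp_apply, s0_C, mu_C]
      exact (sg_algebraMap ζ hζ p).symm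
    · rw [RingHom.comp_apply, RingHom.comp_apply, s0_X, map_mul, mu_C, mu_X]
      refine Eq.trans ?_ (sg_v ζ hζ 1).symm
      rw [← Algebra.smul_def]
      have : Fact (1 < ℓ) := ⟨hℓ.out.one_lt⟩
      rw [ZMod.val_one, pow_one]
      refine BB.ext (funext fun j => ?_)
      rw [BB.co_smul, BB.co_smul', Polynomial.smul_eq_C_mul]
  exact congrArg (fun f : κ[X][X] →+* BB e α => f F) h1

/-- Multiplication by `t`: `T (t z) = ζ t T z`, so `F (t z) = t ((σ₀ F) z)` for all `F`
(check it on `C p` and `X`). -/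
theorem rho_mul_X (w : κ[X]) {ζ : κ} (hζ : ζ ^ ℓ = 1) (c : κ) (F : κ[X][X]) (z : κ[X]) :
    rho w hζ c F (X * z) = X * rho w hζ c (s0 ζ F) z := by
  have hC : ∀ (p z : κ[X]), rho w hζ c (C p) (X * z) = X * rho w hζ c (s0 ζ (C p)) z := by
    intro p z
    rw [s0_C, rho_C, mx_apply, mx_apply]
    ring
  have hX : ∀ z : κ[X], rho w hζ c (X : κ[X][X]) (X * z) =
      X * rho w hζ c (s0 ζ (X : κ[X][X])) z := by
    intro z
    rw [s0_X, RingHom.map_mul (rho w hζ c), rho_C, rho_X, Module.End.mul_apply, mx_apply,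
      tT_apply, tT_apply, mul_comp, X_comp, C_comp]
    ring
  have hmul : ∀ A B : κ[X][X], (∀ z, rho w hζ c A (X * z) = X * rho w hζ c (s0 ζ A) z) →
      (∀ z, rho w hζ c B (X * z) = X * rho w hζ c (s0 ζ B) z) →
      ∀ z, rho w hζ c (A * B) (X * z) = X * rho w hζ c (s0 ζ (A * B)) z := by
    intro A B hA hB z
    rw [RingHom.map_mul (rho w hζ c), RingHom.map_mul (s0 ζ), RingHom.map_mul (rho w hζ c),
      Module.End.mul_apply, Module.End.mul_apply, hB, hA]
  have key : ∀ z, rho w hζ c F (X * z) = X * rho w hζ c (s0 ζ F) z := by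
    induction F using Polynomial.induction_on with
    | C p => exact hC p
    | add p q hp hq =>
      intro z
      rw [map_add, map_add, map_add, LinearMap.add_apply, LinearMap.add_apply, hp, hq, mul_add]
    | monomial n p ih =>
      rw [pow_succ, ← mul_assoc]
      exact hmul _ _ ih hX
  exact key z

end SUP
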