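import Pool.Agent.MP_c1dca2_ag.SUP.B4b

set_option autoImplicit false
set_option linter.unusedSectionVars false

open Polynomial

namespace SUP

/-! ## [SUP-B5] the cyclic algebra argument, second part (file B5.lean; uses A3, A6, B4) -/

variable {ι : Type} [Fintype ι] {ℓ : ℕ} [hℓ : Fact ℓ.Prime] {κ : Type} [Field κ]
  {e : ι → ZMod ℓ} {α : ι → κ}

theorem b5_sgp_co (ζ : κ) (hζ : ζ ^ ℓ = 1) (i : ℕ) (b : BB e α) (j : ZMod ℓ) :
    (sgp ζ hζ i b).co j = C ((ζ ^ i) ^ j.val) * b.co j := rfl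

theorem b5_sg_sgp (ζ : κ) (hζ : ζ ^ ℓ = 1) (i : ℕ) (b : BB e α) :
    sg ζ hζ (sgp ζ hζ i b) = sgp ζ hζ (i + 1) b :=
  BB.ext (funext fun j => by
    rw [sg_co, b5_sgp_co, b5_sgp_co, pow_succ', mul_pow, C_mul, mul_assoc])

theorem b5_sgp_zero (ζ : κ) (hζ : ζ ^ ℓ = 1) (b : BB e α) : sgp ζ hζ 0 b = b :=
  BB.ext (funext fun j => by
    rw [b5_sgp_co, pow_zero, one_pow, C_1, one_mul])

theorem b5_sgp_l (ζ : κ) (hζ : ζ ^ ℓ = 1) (b : BB e α) : sgp ζ hζ ℓ b = b :=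
  BB.ext (funext fun j => by
    rw [b5_sgp_co, hζ, one_pow, C_1, one_mul])

theorem b5_Nm_fix (ζ : κ) (hζ : ζ ^ ℓ = 1) (b : BB e α) :
    sg ζ hζ (Nm ζ hζ b) = Nm ζ hζ b := by
  obtain ⟨n, hn⟩ : ∃ n, ℓ = n + 1 := ⟨ℓ - 1, by have := hℓ.out.pos; omega⟩
  have h1 : Nm ζ hζ b = ∏ i ∈ Finset.range (n + 1), sgp ζ hζ i b := by
    rw [Nm]
    exact congrArg (fun m => ∏ i ∈ Finset.range m, sgp ζ hζ i b) hn
  have h2 : sgp ζ hζ (n + 1) b = sgp ζ hζ 0 b := by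
    rw [b5_sgp_zero, ← hn, b5_sgp_l]
  rw [h1, map_prod, Finset.prod_congr rfl fun i _ => b5_sg_sgp ζ hζ i b,
    Finset.prod_range_succ, h2, Finset.prod_range_succ' (fun i => sgp ζ hζ i b)]

/-- The norm `N b = ∏ σ^i b` is fixed by `σ`, so its coordinates `co j`, `j ≠ 0`, vanish
(`ζ^j ≠ 1`). -/
theorem Nm_mem (ζ : κ) (hζ : IsPrimitiveRoot ζ ℓ) (b : BB e α) :
    ∃ p : κ[X], Nm ζ hζ.pow_eq_one b = algebraMap κ[X] (BB e α) p := by
  refine ⟨(Nm ζ hζ.pow_eq_one b).co 0, BB.ext (funext fun j => ?_)⟩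
  rw [BB.algebraMap_co]
  split_ifs with hj
  · rw [hj]
  · have h1 := congrArg (fun x : BB e α => x.co j) (b5_Nm_fix ζ hζ.pow_eq_one b)
    simp only [sg_co] at h1
    have h2 : (C (ζ ^ j.val - 1) : κ[X]) * (Nm ζ hζ.pow_eq_one b).co j = 0 := by
      rw [C_sub, sub_mul, h1, C_1, one_mul, sub_self]
    rcases mul_eq_zero.1 h2 with h3 | h3
    · exfalso
      rw [C_eq_zero, sub_eq_zero] at h3
      have h4 := (hζ.pow_eq_one_iff_dvd _).1 h3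
      have h5 : j.val < ℓ := ZMod.val_lt j
      have h6 : j.val ≠ 0 := by
        intro h
        exact hj ((ZMod.val_eq_zero j).1 h)
      exact absurd (Nat.le_of_dvd (by omega) h4) (by omega)
    · exact h3

theorem b5_mu_iter (ζ : κ) (hζ : ζ ^ ℓ = 1) (F : κ[X][X]) (i : ℕ) :
    mu e α ((s0 ζ)^[i] F) = sgp ζ hζ i (mu e α F) := by
  induction i with
  | zero => rw [Function.iterate_zero_apply, b5_sgp_zero]
  | succ i ih => rw [Function.iterate_succ_apply', mu_s0 ζ hζ, ih, b5_sg_sgp]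

/-- `μ(∏ σ₀^i F) = N(μ F)` (`mu_s0`, iterated: `sgp i = sg^i`). -/
theorem mu_prod (ζ : κ) (hζ : ζ ^ ℓ = 1) (F : κ[X][X]) :
    mu e α (∏ i ∈ Finset.range ℓ, (s0 ζ)^[i] F) = Nm ζ hζ (mu e α F) := by
  rw [map_prod, Nm]
  exact Finset.prod_congr rfl fun i _ => b5_mu_iter ζ hζ F i

/-- `N(μ F) = p ≠ 0` (`B` is a domain), `G F - p` is in the kernel of `μ` for
`G = ∏_(0 < i < ℓ) σ₀^i F`, so `G (F 1) = p(ξ) ≠ 0` (`rho_of_mu`). -/
theorem rho_one_ne [hG : Fact (Good e α)] (ζ : κ) (hζ : IsPrimitiveRoot ζ ℓ) (c : κ) (w : κ[X])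
    (hw : ∏ i ∈ Finset.range ℓ, w.comp (C (ζ ^ i) * X) = (hh e α).comp (X ^ ℓ + C c))
    {F : κ[X][X]} (h : mu e α F ≠ 0) : rho w hζ.pow_eq_one c F 1 ≠ 0 := by
  intro h0
  obtain ⟨p, hp⟩ := Nm_mem ζ hζ (mu e α F)
  have hN : Nm ζ hζ.pow_eq_one (mu e α F) ≠ 0 := by
    rw [Nm]
    refine Finset.prod_ne_zero_iff.2 fun i _ => ?_
    exact (map_ne_zero_iff _ (sgp ζ hζ.pow_eq_one i).injective).2 h
  have hp0 : p ≠ 0 := by
    intro h1
    rw [hp, h1, map_zero] at hN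
    exact hN rfl
  obtain ⟨n, hn⟩ : ∃ n, ℓ = n + 1 := ⟨ℓ - 1, by have := hℓ.out.pos; omega⟩
  obtain ⟨G, hG⟩ : ∃ G : κ[X][X], G = ∏ i ∈ Finset.range n, (s0 ζ)^[i + 1] F := ⟨_, rfl⟩
  have h1 : ∏ i ∈ Finset.range ℓ, (s0 ζ)^[i] F = G * F := by
    have h2 : ∏ i ∈ Finset.range ℓ, (s0 ζ)^[i] F =
        ∏ i ∈ Finset.range (n + 1), (s0 ζ)^[i] F :=
      congrArg (fun m => ∏ i ∈ Finset.range m, (s0 ζ)^[i] F) hn
    rw [h2, Finset.prod_range_succ', hG, Function.iterate_zero_apply]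
  have h2 : mu e α (G * F - C p) = 0 := by
    rw [map_sub, ← h1, mu_prod ζ hζ.pow_eq_one, mu_C, hp, sub_self]
  have h3 := rho_of_mu w hζ.pow_eq_one c hw h2
  rw [map_sub, RingHom.map_mul (rho w hζ.pow_eq_one c), rho_C] at h3
  have h4 := congrArg (fun f : Module.End κ κ[X] => f 1) h3
  simp only [LinearMap.sub_apply, Module.End.mul_apply, LinearMap.zero_apply] at h4
  rw [h0, map_zero, zero_sub, neg_eq_zero, mx_apply, mul_one] at h4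
  rw [comp_eq_zero_iff] at h4
  rcases h4 with h5 | ⟨_, h5⟩
  · exact hp0 h5
  · have h6 := congrArg natDegree h5
    rw [natDegree_X_pow_add_C, natDegree_C] at h6
    exact hℓ.out.ne_zero h6

end SUP
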