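import Pool.Agent.MP_c1dca2_ag.SUP.B5

set_option autoImplicit false
set_option linter.unusedSectionVars false

open Polynomial

namespace SUP

/-! ## [SUP-B5b] the cyclic algebra argument, second part (file B5b.lean, continuation of B5.lean; uses A3, A6, B4) -/

variable {ι : Type} [Fintype ι] {ℓ : ℕ} [hℓ : Fact ℓ.Prime] {κ : Type} [Field κ]
  {e : ι → ZMod ℓ} {α : ι → κ}

/-- The polynomial with given coefficients. -/
noncomputable def b5b_pol (κ : Type) [Field κ] (M : ℕ) : (Fin M → κ) →ₗ[κ] κ[X] :=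
  (degreeLT κ M).subtype ∘ₗ (degreeLTEquiv κ M).symm.toLinearMap

theorem b5b_pol_inj (M : ℕ) {v : Fin M → κ} (h : b5b_pol κ M v = 0) : v = 0 := by
  have h1 : ((degreeLTEquiv κ M).symm v : κ[X]) = 0 := h
  have h2 : (degreeLTEquiv κ M).symm v = 0 := Subtype.ext h1
  exact (LinearEquiv.map_eq_zero_iff _).1 h2

theorem b5b_pol_deg (M : ℕ) (v : Fin (M + 1) → κ) : (b5b_pol κ (M + 1) v).natDegree ≤ M := by
  have h1 : (b5b_pol κ (M + 1) v) ∈ degreeLT κ (M + 1) := ((degreeLTEquiv κ (M + 1)).symm v).2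
  rw [mem_degreeLT] at h1
  exact natDegree_le_of_degree_le (Order.lt_succ_iff.1 (by
    refine lt_of_lt_of_le h1 ?_
    exact le_of_eq rfl))

/-- Multiplication of `z` by `p(ξ)` as a linear function of `p`. -/
noncomputable def b5b_L (ℓ : ℕ) (c : κ) (z : κ[X]) : κ[X] →ₗ[κ] κ[X] :=
  (LinearMap.mulRight κ z) ∘ₗ (aeval (X ^ ℓ + C c) : κ[X] →ₐ[κ] κ[X]).toLinearMap

theorem b5b_L_apply (ℓ : ℕ) (c : κ) (z p : κ[X]) : b5b_L ℓ c z p = mx ℓ c p z := rfl

/-- Count dimensions: the pairs `(F, q)` with `deg_U F < ℓ`, all coefficients and `q` of degree `≤ M`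
form a space of dimension `(ℓ + 1) (M + 1)`, and `F 1 - q(ξ) t` has degree `≤ ℓ M + D` with a constant
`D` (the maximum of the degrees of the `T^j 1`, `j < ℓ`, plus `1`). So there is such a pair
`≠ (0, 0)` with `F 1 = q(ξ) t`. If `q = 0` then `μ F = 0` (`rho_one_ne`) and `F = 0` (`mu_inj`). -/
theorem exists_F [hG : Fact (Good e α)] (ζ : κ) (hζ : IsPrimitiveRoot ζ ℓ) (c : κ) (w : κ[X])
    (hw : ∏ i ∈ Finset.range ℓ, w.comp (C (ζ ^ i) * X) = (hh e α).comp (X ^ ℓ + C c)) :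
    ∃ (F : κ[X][X]) (q : κ[X]), q ≠ 0 ∧
      rho w hζ.pow_eq_one c F 1 = q.comp (X ^ ℓ + C c) * X := by
  classical
  obtain ⟨z, hz⟩ : ∃ z : ℕ → κ[X], z = fun j => ((tT w ζ) ^ j) 1 := ⟨_, rfl⟩
  obtain ⟨D, hD⟩ : ∃ D : ℕ, D = (∑ j : Fin ℓ, (z j).natDegree) + 1 := ⟨_, rfl⟩
  have hzD : ∀ j : Fin ℓ, (z j).natDegree ≤ D := by
    intro j
    have h1 := Finset.single_le_sum (f := fun j : Fin ℓ => (z j).natDegree)
      (fun _ _ => Nat.zero_le _) (Finset.mem_univ j)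
    have h2 : (z j).natDegree ≤ ∑ j : Fin ℓ, (z j).natDegree := h1
    omega
  -- the linear map
  obtain ⟨Φ, hΦ⟩ : ∃ Φ : ((Fin ℓ → Fin (D + 1) → κ) × (Fin (D + 1) → κ)) →ₗ[κ] κ[X],
      Φ = (∑ j : Fin ℓ, (b5b_L ℓ c (z j)) ∘ₗ (b5b_pol κ (D + 1)) ∘ₗ (LinearMap.proj j) ∘ₗ
        LinearMap.fst κ (Fin ℓ → Fin (D + 1) → κ) (Fin (D + 1) → κ)) -
        (b5b_L ℓ c X) ∘ₗ (b5b_pol κ (D + 1)) ∘ₗ
        LinearMap.snd κ (Fin ℓ → Fin (D + 1) → κ) (Fin (D + 1) → κ) := ⟨_, rfl⟩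
  have hΦa : ∀ v, Φ v = (∑ j : Fin ℓ, mx ℓ c (b5b_pol κ (D + 1) (v.1 j)) (z j)) -
      mx ℓ c (b5b_pol κ (D + 1) v.2) X := by
    intro v
    rw [hΦ, LinearMap.sub_apply, LinearMap.sum_apply]
    rfl
  have hmx : ∀ (p y : κ[X]), p.natDegree ≤ D → y.natDegree ≤ D →
      (mx ℓ c p y).natDegree ≤ ℓ * D + D := by
    intro p y hp hy
    rw [mx_apply]
    refine natDegree_mul_le.trans ?_
    rw [natDegree_comp, natDegree_X_pow_add_C]
    have h1 : p.natDegree * ℓ ≤ ℓ * D := by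
      rw [mul_comm]
      exact Nat.mul_le_mul_left _ hp
    omega
  have hdeg : ∀ v, (Φ v).natDegree ≤ ℓ * D + D := by
    intro v
    rw [hΦa]
    refine (natDegree_sub_le _ _).trans (max_le ?_ ?_)
    · exact natDegree_sum_le_of_forall_le _ _ fun j _ =>
        hmx _ _ (b5b_pol_deg _ _) (hzD j)
    · refine hmx _ _ (b5b_pol_deg _ _) ?_
      rw [natDegree_X, hD]
      omega
  obtain ⟨f, hf⟩ : ∃ f : ((Fin ℓ → Fin (D + 1) → κ) × (Fin (D + 1) → κ)) →ₗ[κ]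
      (Fin (ℓ * D + D + 1) → κ), f = (LinearMap.pi fun i : Fin (ℓ * D + D + 1) =>
        (Polynomial.lcoeff κ (i : ℕ)) ∘ₗ Φ) := ⟨_, rfl⟩
  have hker : LinearMap.ker f ≠ ⊥ := by
    refine LinearMap.ker_ne_bot_of_finrank_lt ?_
    have e1 : Module.finrank κ (Fin (ℓ * D + D + 1) → κ) = ℓ * D + D + 1 :=
      Module.finrank_fin_fun κ
    have e2 : Module.finrank κ (Fin ℓ → Fin (D + 1) → κ) = ℓ * (D + 1) := by
      rw [Module.finrank_pi_fintype]
      simp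
    have e3 : Module.finrank κ (Fin (D + 1) → κ) = D + 1 := Module.finrank_fin_fun κ
    rw [Module.finrank_prod, e1, e2, e3]
    have := hℓ.out.pos
    have h1 : ℓ * (D + 1) = ℓ * D + ℓ := by ring
    omega
  obtain ⟨v, hv, hv0⟩ := (Submodule.ne_bot_iff _).1 hker
  have hΦv : Φ v = 0 := by
    ext i
    rw [coeff_zero]
    by_cases hi : i < ℓ * D + D + 1
    · have h1 := LinearMap.mem_ker.1 hv
      have h2 := congrFun h1 ⟨i, hi⟩
      rw [hf] at h2
      exact h2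
    · exact coeff_eq_zero_of_natDegree_lt (by have := hdeg v; omega)
  obtain ⟨F, hF⟩ : ∃ F : κ[X][X], F = ∑ j : Fin ℓ, C (b5b_pol κ (D + 1) (v.1 j)) *
      X ^ (j : ℕ) := ⟨_, rfl⟩
  have hrho : rho w hζ.pow_eq_one c F 1 =
      ∑ j : Fin ℓ, mx ℓ c (b5b_pol κ (D + 1) (v.1 j)) (z j) := by
    rw [hF, map_sum, LinearMap.sum_apply]
    refine Finset.sum_congr rfl fun j _ => ?_
    rw [RingHom.map_mul (rho w hζ.pow_eq_one c), rho_C, RingHom.map_pow (rho w hζ.pow_eq_one c),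
      rho_X, Module.End.mul_apply, hz]
  have hFdeg : F.natDegree < ℓ := by
    have h1 : F.natDegree ≤ ℓ - 1 := by
      rw [hF]
      refine natDegree_sum_le_of_forall_le _ _ fun j _ => ?_
      refine (natDegree_C_mul_X_pow_le _ _).trans ?_
      have := j.2
      omega
    have := hℓ.out.pos
    omega
  have hFco : ∀ j : Fin ℓ, F.coeff j = b5b_pol κ (D + 1) (v.1 j) := by
    intro j
    rw [hF, finsetSum_coeff, Finset.sum_eq_single j]
    · rw [coeff_C_mul, coeff_X_pow, if_pos rfl, mul_one]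
    · intro i _ hij
      rw [coeff_C_mul, coeff_X_pow, if_neg, mul_zero]
      intro h
      exact hij (Fin.ext h.symm)
    · intro h
      exact absurd (Finset.mem_univ _) h
  rw [hΦa, ← hrho, sub_eq_zero] at hΦv
  refine ⟨F, b5b_pol κ (D + 1) v.2, ?_, ?_⟩
  · intro hq
    rw [hq, map_zero, LinearMap.zero_apply] at hΦv
    have h1 : mu e α F = 0 := by
      by_contra h
      exact rho_one_ne ζ hζ c w hw h hΦv
    have h2 := mu_inj hFdeg h1
    apply hv0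
    refine Prod.ext ?_ (b5b_pol_inj _ hq)
    funext j
    have h3 := hFco j
    rw [h2, coeff_zero] at h3
    exact b5b_pol_inj _ h3.symm
  · rw [hΦv, mx_apply]

end SUP
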