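import Pool.Agent.MP_c1dca2_ag.SUP.B5b

set_option autoImplicit false
set_option linter.unusedSectionVars false

open Polynomial

namespace SUP

/-! ## [SUP-B5c] the cyclic algebra argument, second part (file B5c.lean, continuation of B5b.lean; uses A3, A6, B4) -/

variable {ι : Type} [Fintype ι] {ℓ : ℕ} [hℓ : Fact ℓ.Prime] {κ : Type} [Field κ]
  {e : ι → ZMod ℓ} {α : ι → κ}

theorem b5c_iter (ζ : κ) (hζ : ζ ^ ℓ = 1) (F : κ[X][X]) : (s0 ζ)^[ℓ] F = F := by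
  have h1 : ∀ (n : ℕ) (p : κ[X]), (s0 ζ)^[n] (C p) = C p := by
    intro n p
    induction n with
    | zero => rfl
    | succ n ih => rw [Function.iterate_succ_apply', ih, s0_C]
  have h2 : ∀ n : ℕ, (s0 ζ)^[n] (X : κ[X][X]) = C (C (ζ ^ n)) * X := by
    intro n
    induction n with
    | zero => rw [Function.iterate_zero_apply, pow_zero, C_1, C_1, one_mul]
    | succ n ih =>
      rw [Function.iterate_succ_apply', ih, RingHom.map_mul (s0 ζ), s0_C, s0_X, ← mul_assoc,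
        ← C_mul, ← C_mul, pow_succ]
  induction F using Polynomial.induction_on with
  | C p => exact h1 ℓ p
  | add p q hp hq => rw [iterate_map_add, hp, hq]
  | monomial n p ih =>
    rw [pow_succ, ← mul_assoc, iterate_map_mul, ih, h2, hζ, C_1, C_1, one_mul]

theorem b5c_mul_Xk (w : κ[X]) {ζ : κ} (hζ : ζ ^ ℓ = 1) (c : κ) (k : ℕ) (F : κ[X][X]) (z : κ[X]) :
    rho w hζ c F (X ^ k * z) = X ^ k * rho w hζ c ((s0 ζ)^[k] F) z := by
  induction k generalizing F z with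
  | zero => rw [pow_zero, one_mul, one_mul, Function.iterate_zero_apply]
  | succ k ih =>
    rw [pow_succ', mul_assoc, rho_mul_X, ih, Function.iterate_succ_apply, mul_assoc]

theorem b5c_mx (w : κ[X]) {ζ : κ} (hζ : ζ ^ ℓ = 1) (c : κ) (F : κ[X][X]) (p z : κ[X]) :
    rho w hζ c F (p.comp (X ^ ℓ + C c) * z) = p.comp (X ^ ℓ + C c) * rho w hζ c F z := by
  rw [← mx_apply, ← mx_apply, ← rho_C w hζ, ← Module.End.mul_apply, ← Module.End.mul_apply,
    ← RingHom.map_mul (rho w hζ c), ← RingHom.map_mul (rho w hζ c), mul_comm]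

/-- Put `H_k = ∏_(i < k) σ₀^(ℓ - i) F`. By induction `H_k 1 = q(ξ)^k t^k` for `k ≤ ℓ`:
`H_(k+1) 1 = (σ₀^(ℓ - k) F) (q(ξ)^k t^k) = q(ξ)^k t^k (F 1)` (`rho_mul_X` `k` times, `σ₀^ℓ = 1`; the
action is linear over the `p(ξ)`). `μ(H_ℓ) = N(μ F) = p` (`Nm_mem`), so `H_ℓ` acts as `p(ξ)`
(`rho_of_mu`): `p(ξ) = q(ξ)^ℓ t^ℓ = (q^ℓ (X - c))(ξ)`, and `p = q^ℓ (X - c)` as `ξ` is not constant.
Take `b = μ F`, which is not `0` since `p ≠ 0`. -/
theorem exists_norm [IsAlgClosed κ] [hG : Fact (Good e α)] (ζ : κ) (hζ : IsPrimitiveRoot ζ ℓ)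
    (c : κ) : ∃ (b : BB e α) (q : κ[X]), b ≠ 0 ∧ q ≠ 0 ∧
      Nm ζ hζ.pow_eq_one b = algebraMap κ[X] (BB e α) ((X - C c) * q ^ ℓ) := by
  obtain ⟨w, _, hw⟩ := exists_w (e := e) (α := α) ζ hζ c
  obtain ⟨F, q, hq, hF⟩ := exists_F (e := e) (α := α) ζ hζ c w hw
  have hpos := hℓ.out.pos
  -- the partial products
  have hH : ∀ k : ℕ, k ≤ ℓ →
      rho w hζ.pow_eq_one c (∏ i ∈ Finset.range k, (s0 ζ)^[ℓ - i] F) 1 =
      (q ^ k).comp (X ^ ℓ + C c) * X ^ k := by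
    intro k
    induction k with
    | zero =>
      intro _
      rw [Finset.prod_range_zero, RingHom.map_one (rho w hζ.pow_eq_one c), pow_zero, one_comp,
        pow_zero, one_mul]
      rfl
    | succ k ih =>
      intro hk
      rw [Finset.prod_range_succ, mul_comm, RingHom.map_mul (rho w hζ.pow_eq_one c),
        Module.End.mul_apply, ih (by omega), b5c_mx]
      have h1 := b5c_mul_Xk w hζ.pow_eq_one c k ((s0 ζ)^[ℓ - k] F) 1
      rw [mul_one, ← Function.iterate_add_apply, show k + (ℓ - k) = ℓ by omega,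
        b5c_iter ζ hζ.pow_eq_one, hF] at h1
      rw [h1, pow_succ, mul_comp, pow_succ]
      ring
  have h1 := hH ℓ le_rfl
  have h2 : ∏ i ∈ Finset.range ℓ, (s0 ζ)^[ℓ - i] F = ∏ i ∈ Finset.range ℓ, (s0 ζ)^[i] F := by
    have h3 := Finset.prod_range_reflect (fun j => (s0 ζ)^[j + 1] F) ℓ
    have h4 : ∏ i ∈ Finset.range ℓ, (s0 ζ)^[ℓ - i] F =
        ∏ j ∈ Finset.range ℓ, (s0 ζ)^[ℓ - 1 - j + 1] F := by
      refine Finset.prod_congr rfl fun i hi => ?_
      have := Finset.mem_range.1 hi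
      rw [show ℓ - 1 - i + 1 = ℓ - i by omega]
    rw [h4, h3]
    obtain ⟨n, hn⟩ : ∃ n, ℓ = n + 1 := ⟨ℓ - 1, by omega⟩
    have h5 : ∏ i ∈ Finset.range ℓ, (s0 ζ)^[i] F = ∏ i ∈ Finset.range (n + 1), (s0 ζ)^[i] F :=
      congrArg (fun m => ∏ i ∈ Finset.range m, (s0 ζ)^[i] F) hn
    have h6 : ∏ i ∈ Finset.range ℓ, (s0 ζ)^[i + 1] F =
        ∏ i ∈ Finset.range (n + 1), (s0 ζ)^[i + 1] F :=
      congrArg (fun m => ∏ i ∈ Finset.range m, (s0 ζ)^[i + 1] F) hn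
    rw [h5, h6, Finset.prod_range_succ, Finset.prod_range_succ', Function.iterate_zero_apply, ← hn,
      b5c_iter ζ hζ.pow_eq_one]
  obtain ⟨p, hp⟩ := Nm_mem ζ hζ (mu e α F)
  have h3 : mu e α (∏ i ∈ Finset.range ℓ, (s0 ζ)^[i] F - C p) = 0 := by
    rw [map_sub, mu_prod ζ hζ.pow_eq_one, mu_C, hp, sub_self]
  have h4 := rho_of_mu w hζ.pow_eq_one c hw h3
  rw [map_sub, rho_C] at h4
  have h5 := congrArg (fun f : Module.End κ κ[X] => f 1) h4
  simp only [LinearMap.sub_apply, LinearMap.zero_apply] at h5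
  rw [← h2, h1, mx_apply, mul_one, sub_eq_zero] at h5
  have h6 : (X - C c : κ[X]).comp (X ^ ℓ + C c) = X ^ ℓ := by
    rw [sub_comp, X_comp, C_comp, add_sub_cancel_right]
  have h7 : (p - (X - C c) * q ^ ℓ).comp (X ^ ℓ + C c) = 0 := by
    rw [sub_comp, mul_comp, h6, ← h5]
    ring
  have h8 : p = (X - C c) * q ^ ℓ := by
    rcases comp_eq_zero_iff.1 h7 with h8 | ⟨_, h8⟩
    · exact sub_eq_zero.1 h8
    · exfalso
      have h9 := congrArg natDegree h8
      rw [natDegree_X_pow_add_C, natDegree_C] at h9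
      exact hℓ.out.ne_zero h9
  refine ⟨mu e α F, q, ?_, hq, ?_⟩
  · intro h0
    have h9 : p = 0 := by
      rw [h0, Nm] at hp
      have h10 : ∏ i ∈ Finset.range ℓ, sgp ζ hζ.pow_eq_one i (0 : BB e α) = 0 :=
        Finset.prod_eq_zero (Finset.mem_range.2 hpos) (map_zero _)
      rw [h10] at hp
      exact BB.algebraMap_injective (by rw [← hp, map_zero])
    rw [h9] at h8
    exact mul_ne_zero (X_sub_C_ne_zero c) (pow_ne_zero _ hq) h8.symm
  · rw [hp, h8]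

end SUP
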