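import Pool.Agent.MP_c1dca2_ag.SUP.B3c
import Pool.Agent.MP_c1dca2_ag.SUP.B5c

set_option autoImplicit false
set_option linter.unusedSectionVars false

open Polynomial

namespace SUP

/-! ## [SUP-B6] `1 - σ` is surjective on the class group (file B6.lean; uses B2, B5, L1) -/

variable {ι : Type} [Fintype ι] {ℓ : ℕ} [hℓ : Fact ℓ.Prime] {κ : Type} [Field κ]
  [IsAlgClosed κ] {e : ι → ZMod ℓ} {α : ι → κ} [hG : Fact (Good e α)]

/-- The action of `σ` on the class group. -/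
noncomputable def sgC (e : ι → ZMod ℓ) (α : ι → κ) [hG : Fact (Good e α)] (ζ : κ)
    (hζ : IsPrimitiveRoot ζ ℓ) : ClassGroup (BB e α) →* ClassGroup (BB e α) :=
  clm (sg (e := e) (α := α) ζ hζ.pow_eq_one)

theorem b6_sgp_zero (ζ : κ) (hζ : ζ ^ ℓ = 1) (b : BB e α) : sgp ζ hζ 0 b = b := by
  refine BB.ext (funext fun j => ?_)
  unfold sgp
  rw [sg_co, pow_zero, one_pow, C_1, one_mul]

theorem b6_sgp_add (ζ : κ) (hζ : ζ ^ ℓ = 1) (i i' : ℕ) (b : BB e α) :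
    sgp ζ hζ (i + i') b = sgp ζ hζ i (sgp ζ hζ i' b) := by
  refine BB.ext (funext fun j => ?_)
  unfold sgp
  rw [sg_co, sg_co, sg_co, ← mul_assoc, ← C_mul, pow_add, mul_pow]

theorem b6_sgp_mul (ζ : κ) (hζ : ζ ^ ℓ = 1) (b : BB e α) :
    sgp ζ hζ ℓ b = b := by
  refine BB.ext (funext fun j => ?_)
  unfold sgp
  rw [sg_co, hζ, one_pow, C_1, one_mul]

/-- `sgp i` acts as the `i`-th iterate of `σ` (`clm_clm`, `clm_id`). -/
theorem clm_sgp (ζ : κ) (hζ : IsPrimitiveRoot ζ ℓ) (i : ℕ) (D : ClassGroup (BB e α)) :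
    clm (sgp (e := e) (α := α) ζ hζ.pow_eq_one i) D = (sgC e α ζ hζ)^[i] D := by
  induction i with
  | zero =>
    rw [Function.iterate_zero_apply]
    exact clm_id _ (b6_sgp_zero ζ hζ.pow_eq_one) D
  | succ i ih =>
    rw [Function.iterate_succ_apply', ← ih]
    unfold sgC
    refine (clm_clm _ _ _ ?_ D).symm
    intro b
    refine BB.ext (funext fun j => ?_)
    unfold sgp
    rw [sg_co, sg_co, sg_co, ← mul_assoc, ← C_mul, pow_succ', mul_pow]

/-- `[I] / [σ^i I] = (1 - σ)(1 + σ + ... + σ^(i-1)) [I]`. -/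
theorem div_mem (ζ : κ) (hζ : IsPrimitiveRoot ζ ℓ) (i : ℕ) (D : ClassGroup (BB e α)) :
    D / (sgC e α ζ hζ)^[i] D ∈ (piH (sg (e := e) (α := α) ζ hζ.pow_eq_one)).range := by
  induction i with
  | zero =>
    rw [Function.iterate_zero_apply, div_self']
    exact one_mem _
  | succ i ih =>
    have h1 : D / (sgC e α ζ hζ)^[i + 1] D = (D / (sgC e α ζ hζ)^[i] D) *
        ((sgC e α ζ hζ)^[i] D / (sgC e α ζ hζ) ((sgC e α ζ hζ)^[i] D)) := by
      rw [Function.iterate_succ_apply', div_mul_div_cancel]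
    rw [h1]
    refine mul_mem ih ⟨(sgC e α ζ hζ)^[i] D, ?_⟩
    rfl

theorem b6_NI_mul (ζ : κ) (hζ : ζ ^ ℓ = 1) (I J : Ideal (BB e α)) :
    NI ζ hζ (I * J) = NI ζ hζ I * NI ζ hζ J := by
  unfold NI
  rw [← Finset.prod_mul_distrib]
  refine Finset.prod_congr rfl fun i _ => ?_
  rw [Ideal.map_mul]

theorem b6_NI_ne (ζ : κ) (hζ : ζ ^ ℓ = 1) {I : Ideal (BB e α)} (hI : I ≠ ⊥) :
    NI ζ hζ I ≠ ⊥ := by
  unfold NI
  exact Finset.prod_ne_zero_iff.2 fun i _ => map_ne_bot _ hI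

theorem b6_NI_sgp (ζ : κ) (hζ : IsPrimitiveRoot ζ ℓ) (Q : Ideal (BB e α)) (hQ : Q.IsMaximal)
    (h0 : Q ≠ ⊥) (i : ℕ) :
    NI ζ hζ.pow_eq_one (Q.map (sgp (e := e) (α := α) ζ hζ.pow_eq_one i)) =
      NI ζ hζ.pow_eq_one Q := by
  obtain ⟨c, hc⟩ := exists_X_sub Q hQ h0
  rw [NI_maximal ζ hζ Q hQ h0 c hc]
  have hm : (Q.map (sgp (e := e) (α := α) ζ hζ.pow_eq_one i)).IsMaximal := by
    have := hQ
    exact Ideal.map_isMaximal_of_equiv _
  refine NI_maximal ζ hζ _ hm (map_ne_bot _ h0) c ?_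
  have h1 := Ideal.mem_map_of_mem (sgp (e := e) (α := α) ζ hζ.pow_eq_one i) hc
  unfold sgp at h1
  rw [sg_algebraMap] at h1
  exact h1

theorem b6_NI_le (ζ : κ) (hζ : ζ ^ ℓ = 1) (I : Ideal (BB e α)) :
    NI ζ hζ I ≤ I := by
  have h1 : I.map (sgp (e := e) (α := α) ζ hζ 0) = I := by
    have h2 : ((sgp (e := e) (α := α) ζ hζ 0 : BB e α ≃+* BB e α) : BB e α →+* BB e α) =
        RingHom.id _ := by
      ext1 b
      exact b6_sgp_zero ζ hζ b
    change I.map ((sgp (e := e) (α := α) ζ hζ 0 : BB e α ≃+* BB e α) : BB e α →+* BB e α) = I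
    rw [h2, Ideal.map_id]
  rw [← Ideal.dvd_iff_le]
  have h3 := Finset.dvd_prod_of_mem
    (fun i => I.map (sgp (e := e) (α := α) ζ hζ i)) (Finset.mem_range.2 hℓ.out.pos)
  rw [h1] at h3
  exact h3

theorem b6_len_NI (ζ : κ) (hζ : ζ ^ ℓ = 1) {I : Ideal (BB e α)} (hI : I ≠ ⊥) :
    len (NI ζ hζ I) = ℓ * len I := by
  have key : ∀ s : Finset ℕ,
      (∏ i ∈ s, I.map (sgp (e := e) (α := α) ζ hζ i)) ≠ ⊥ ∧
      len (∏ i ∈ s, I.map (sgp (e := e) (α := α) ζ hζ i)) = s.card * len I := by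
    intro s
    classical
    induction s using Finset.induction_on with
    | empty =>
      rw [Finset.prod_empty, Ideal.one_eq_top, len_top, Finset.card_empty, Nat.zero_mul]
      exact ⟨top_ne_bot, rfl⟩
    | insert a s ha ih =>
      rw [Finset.prod_insert ha, Finset.card_insert_of_notMem ha]
      refine ⟨mul_ne_zero (map_ne_bot _ hI) ih.1, ?_⟩
      rw [len_mul (map_ne_bot _ hI) ih.1, len_map, ih.2]
      ring
  have h1 := (key (Finset.range ℓ)).2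
  rw [Finset.card_range] at h1
  exact h1

/-- Induction on `len I`. `NI I = NI I'` implies `len I = len I'` (`len_map`, `len_mul`). If
`I = Q J` with `Q` maximal, then `Q` contains `NI I' = ∏ σ^i I'`, so `Q ⊇ σ^i I'` for some `i < ℓ`,
i.e. (`i' = ℓ - i`) `σ^i' Q ⊇ I'` and `I' = (σ^i' Q) J'`. `NI (σ^i' Q) = NI Q`, cancel:
`NI J = NI J'`. By induction `[J] / [J']` is in the range, and `[Q] / [σ^i' Q]` is by `div_mem`. -/
theorem cls_div_mem (ζ : κ) (hζ : IsPrimitiveRoot ζ ℓ) (I I' : Ideal (BB e α)) (hI : I ≠ ⊥)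
    (hI' : I' ≠ ⊥) (h : NI ζ hζ.pow_eq_one I = NI ζ hζ.pow_eq_one I') :
    cls I / cls I' ∈ (piH (sg (e := e) (α := α) ζ hζ.pow_eq_one)).range := by
  induction hn : len I generalizing I I' with
  | zero =>
    have h1 := congrArg len h
    rw [b6_len_NI ζ _ hI, b6_len_NI ζ _ hI', hn, mul_zero] at h1
    have h2 : len I' = 0 := by
      rcases Nat.mul_eq_zero.1 h1.symm with h3 | h3
      · exact absurd h3 hℓ.out.ne_zero
      · exact h3
    rw [eq_top_of_len hI hn, eq_top_of_len hI' h2, div_self']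
    exact one_mem _
  | succ n ih =>
    have hIt : I ≠ ⊤ := by
      rintro rfl
      rw [len_top] at hn
      omega
    obtain ⟨Q, hQ, hIQ⟩ := Ideal.exists_le_maximal I hIt
    have hQ0 : Q ≠ ⊥ := by
      rintro rfl
      exact hI (le_bot_iff.1 hIQ)
    obtain ⟨J, hJ⟩ := Ideal.dvd_iff_le.2 hIQ
    have hJ0 : J ≠ ⊥ := by
      rintro rfl
      exact hI (by rw [hJ]; exact mul_zero Q)
    have hle : ∏ i ∈ Finset.range ℓ, I'.map (sgp (e := e) (α := α) ζ hζ.pow_eq_one i) ≤ Q := by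
      have h1 : NI ζ hζ.pow_eq_one I' ≤ Q := by
        rw [← h]
        exact (b6_NI_le ζ _ I).trans hIQ
      exact h1
    obtain ⟨i, hi, hiQ⟩ := exists_le_of_prod_le _ _ Q hQ.isPrime hle
    rw [Finset.mem_range] at hi
    have h2 : I' ≤ Q.map (sgp (e := e) (α := α) ζ hζ.pow_eq_one (ℓ - i)) := by
      have h3 := Ideal.map_mono (f := sgp (e := e) (α := α) ζ hζ.pow_eq_one (ℓ - i)) hiQ
      rw [map_map_equiv _ _ (RingEquiv.refl _) (fun b => by
        rw [← b6_sgp_add, Nat.sub_add_cancel hi.le, b6_sgp_mul]; rfl)] at h3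
      have h4 : I'.map (RingEquiv.refl (BB e α)) = I' := by
        change I'.map (RingHom.id (BB e α)) = I'
        exact Ideal.map_id I'
      rw [h4] at h3
      exact h3
    obtain ⟨J', hJ'⟩ := Ideal.dvd_iff_le.2 h2
    have hJ'0 : J' ≠ ⊥ := by
      rintro rfl
      exact hI' (by rw [hJ']; exact mul_zero _)
    have hQ'0 : Q.map (sgp (e := e) (α := α) ζ hζ.pow_eq_one (ℓ - i)) ≠ ⊥ := map_ne_bot _ hQ0
    have h5 : NI ζ hζ.pow_eq_one J = NI ζ hζ.pow_eq_one J' := by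
      rw [hJ, hJ', b6_NI_mul, b6_NI_mul, b6_NI_sgp ζ hζ Q hQ hQ0] at h
      exact mul_left_cancel₀ (b6_NI_ne ζ _ hQ0) h
    have h6 : len J = n := by
      rw [hJ, len_mul hQ0 hJ0, len_maximal hQ hQ0] at hn
      omega
    have h7 := ih J J' hJ0 hJ'0 h5 h6
    have h8 : cls I / cls I' = (cls Q / (sgC e α ζ hζ)^[ℓ - i] (cls Q)) * (cls J / cls J') := by
      rw [← clm_sgp, clm_cls _ hQ0]
      rw [hJ, hJ', cls_mul hQ0 hJ0, cls_mul hQ'0 hJ'0, mul_div_mul_comm]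
    rw [h8]
    exact mul_mem (div_mem ζ hζ _ _) h7

end SUP
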