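import Pool.Agent.MP_c1dca2_ag.SUP.B6

set_option autoImplicit false
set_option linter.unusedSectionVars false

open Polynomial

namespace SUP

/-! ## [SUP-B6b] `1 - σ` is surjective on the class group (file B6b.lean, continuation of B6.lean; uses B2, B5, L1) -/

variable {ι : Type} [Fintype ι] {ℓ : ℕ} [hℓ : Fact ℓ.Prime] {κ : Type} [Field κ]
  [IsAlgClosed κ] {e : ι → ZMod ℓ} {α : ι → κ} [hG : Fact (Good e α)]

theorem b6b_NI_span (ζ : κ) (hζ : ζ ^ ℓ = 1) (b : BB e α) :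
    NI ζ hζ (Ideal.span {b}) = Ideal.span {Nm ζ hζ b} := by
  unfold NI Nm
  rw [← Ideal.prod_span_singleton]
  refine Finset.prod_congr rfl fun i _ => ?_
  exact map_span_singleton _ b

theorem b6b_Nm_alg (ζ : κ) (hζ : ζ ^ ℓ = 1) (p : κ[X]) :
    Nm ζ hζ (algebraMap κ[X] (BB e α) p) = algebraMap κ[X] (BB e α) (p ^ ℓ) := by
  unfold Nm
  rw [map_pow, Finset.prod_congr rfl (g := fun _ => algebraMap κ[X] (BB e α) p), Finset.prod_const,
    Finset.card_range]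
  intro i _
  unfold sgp
  exact sg_algebraMap _ _ p

/-- It is enough to treat the class of a maximal ideal `Q` (`ideal_ind`). `NI Q = (X - c)`
(`exists_X_sub`, `NI_maximal`), `N b = (X - c) q^ℓ` (`exists_norm`), so
`NI ((q) Q) = (q^ℓ (X - c)) = NI (b)`, and `[Q] = [(q) Q] / [(b)]` is in the range
(`cls_div_mem`, `cls_span`). -/
theorem piH_surj (ζ : κ) (hζ : IsPrimitiveRoot ζ ℓ) :
    Function.Surjective (piH (sg (e := e) (α := α) ζ hζ.pow_eq_one)) := by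
  intro D
  rw [← MonoidHom.mem_range]
  obtain ⟨I, hI, rfl⟩ := exists_cls D
  refine ideal_ind (P := fun I => cls I ∈
    (piH (sg (e := e) (α := α) ζ hζ.pow_eq_one)).range) ?_ ?_ I hI
  · have h1 : cls (⊤ : Ideal (BB e α)) = 1 :=
      (cls_eq_one_iff top_ne_bot).2 ⟨1, Ideal.span_singleton_one.symm⟩
    rw [h1]
    exact one_mem _
  · intro Q J hQ hQ0 hJ0 ih
    rw [cls_mul hQ0 hJ0]
    refine mul_mem ?_ ih
    obtain ⟨c, hc⟩ := exists_X_sub Q hQ hQ0
    obtain ⟨b, q, hb, hq, hbq⟩ := exists_norm (e := e) (α := α) ζ hζ c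
    have hinj : Function.Injective (algebraMap κ[X] (BB e α)) := by
      exact BB.algebraMap_injective
    have hq0 : algebraMap κ[X] (BB e α) q ≠ 0 := by
      rw [Ne, map_eq_zero_iff _ hinj]
      exact hq
    have hs0 : (Ideal.span {algebraMap κ[X] (BB e α) q} : Ideal (BB e α)) ≠ ⊥ := by
      rwa [Ne, Ideal.span_singleton_eq_bot]
    have hb0 : (Ideal.span {b} : Ideal (BB e α)) ≠ ⊥ := by
      rwa [Ne, Ideal.span_singleton_eq_bot]
    have h1 : NI ζ hζ.pow_eq_one (Ideal.span {algebraMap κ[X] (BB e α) q} * Q) =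
        NI ζ hζ.pow_eq_one (Ideal.span {b}) := by
      rw [b6_NI_mul, NI_maximal ζ hζ Q hQ hQ0 c hc, b6b_NI_span, b6b_NI_span, b6b_Nm_alg, hbq,
        Ideal.span_singleton_mul_span_singleton, ← map_mul, mul_comm]
    have h2 := cls_div_mem ζ hζ _ _ (mul_ne_zero hs0 hQ0) hb0 h1
    rw [cls_mul hs0 hQ0, cls_span hq0, cls_span hb, one_mul, div_one] at h2
    exact h2

/-- `∏ σ^i D = 1` (`NI_eq`, `cls_span`). -/
theorem norm_class (ζ : κ) (hζ : IsPrimitiveRoot ζ ℓ) (D : ClassGroup (BB e α)) :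
    ∏ i ∈ Finset.range ℓ, (sgC e α ζ hζ)^[i] D = 1 := by
  obtain ⟨I, hI, rfl⟩ := exists_cls D
  obtain ⟨p, hp, -, hNI⟩ := NI_eq ζ hζ I hI
  have h1 : cls (NI ζ hζ.pow_eq_one I) = 1 :=
    (cls_eq_one_iff (b6_NI_ne ζ _ hI)).2 ⟨_, hNI⟩
  have key : ∀ s : Finset ℕ,
      (∏ i ∈ s, I.map (sgp (e := e) (α := α) ζ hζ.pow_eq_one i)) ≠ ⊥ ∧
      cls (∏ i ∈ s, I.map (sgp (e := e) (α := α) ζ hζ.pow_eq_one i)) =
        ∏ i ∈ s, (sgC e α ζ hζ)^[i] (cls I) := by
    intro s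
    classical
    induction s using Finset.induction_on with
    | empty =>
      rw [Finset.prod_empty, Finset.prod_empty, Ideal.one_eq_top]
      exact ⟨top_ne_bot, (cls_eq_one_iff top_ne_bot).2 ⟨1, Ideal.span_singleton_one.symm⟩⟩
    | insert a s ha ih =>
      rw [Finset.prod_insert ha, Finset.prod_insert ha]
      refine ⟨mul_ne_zero (map_ne_bot _ hI) ih.1, ?_⟩
      rw [cls_mul (map_ne_bot _ hI) ih.1, ih.2, ← clm_sgp, clm_cls _ hI]
  rw [← (key _).2]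
  exact h1

theorem b6b_tele (ζ : κ) (hζ : IsPrimitiveRoot ζ ℓ) (D : ClassGroup (BB e α)) :
    ∏ i ∈ Finset.range ℓ, ∏ k ∈ Finset.range i,
      ((sgC e α ζ hζ)^[k] D / (sgC e α ζ hζ)^[k + 1] D) = D ^ ℓ := by
  have h1 : ∀ i ∈ Finset.range ℓ, ∏ k ∈ Finset.range i,
      ((sgC e α ζ hζ)^[k] D / (sgC e α ζ hζ)^[k + 1] D) = D / (sgC e α ζ hζ)^[i] D := by
    intro i _
    rw [Finset.prod_range_div' (fun k => (sgC e α ζ hζ)^[k] D)]
    rfl
  rw [Finset.prod_congr rfl h1, Finset.prod_div_distrib, norm_class, div_one, Finset.prod_const,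
    Finset.card_range]

/-- `ℓ = ∑_(i<ℓ) σ^i + ∑_(i<ℓ) (1 - σ^i) = ∑_(i<ℓ) σ^i + (1 - σ) θ` with
`θ = ∑_i (1 + σ + ... + σ^(i-1))`; the first sum kills the class group (`norm_class`). -/
theorem pow_eq (ζ : κ) (hζ : IsPrimitiveRoot ζ ℓ) :
    ∃ θ : ClassGroup (BB e α) →* ClassGroup (BB e α), ∀ D : ClassGroup (BB e α),
      D ^ ℓ = θ (piH (sg (e := e) (α := α) ζ hζ.pow_eq_one) D) ∧
      D ^ ℓ = piH (sg (e := e) (α := α) ζ hζ.pow_eq_one) (θ D) := by
  refine ⟨{ toFun := fun D => ∏ i ∈ Finset.range ℓ, ∏ k ∈ Finset.range i, (sgC e α ζ hζ)^[k] D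
            map_one' := ?_
            map_mul' := ?_ }, ?_⟩
  · refine Finset.prod_eq_one fun i _ => Finset.prod_eq_one fun k _ => ?_
    exact iterate_map_one _ _
  · intro x y
    rw [← Finset.prod_mul_distrib]
    refine Finset.prod_congr rfl fun i _ => ?_
    rw [← Finset.prod_mul_distrib]
    refine Finset.prod_congr rfl fun k _ => ?_
    exact iterate_map_mul _ _ _ _
  · intro D
    constructor
    · change D ^ ℓ = ∏ i ∈ Finset.range ℓ, ∏ k ∈ Finset.range i,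
        (sgC e α ζ hζ)^[k] (D / sgC e α ζ hζ D)
      rw [← b6b_tele ζ hζ D]
      refine Finset.prod_congr rfl fun i _ => Finset.prod_congr rfl fun k _ => ?_
      rw [iterate_map_div, Function.iterate_succ_apply]
    · change D ^ ℓ = (∏ i ∈ Finset.range ℓ, ∏ k ∈ Finset.range i, (sgC e α ζ hζ)^[k] D) /
        sgC e α ζ hζ (∏ i ∈ Finset.range ℓ, ∏ k ∈ Finset.range i, (sgC e α ζ hζ)^[k] D)
      rw [← b6b_tele ζ hζ D, map_prod, ← Finset.prod_div_distrib]
      refine Finset.prod_congr rfl fun i _ => ?_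
      rw [map_prod, ← Finset.prod_div_distrib]
      refine Finset.prod_congr rfl fun k _ => ?_
      rw [Function.iterate_succ_apply']

/-- If `(1 - σ)^n D = 1` then `D^(ℓ^n) = 1`: `D^(ℓ^n) = θ^n ((1 - σ)^n D)`, by induction. -/
theorem torsion_of_mem (ζ : κ) (hζ : IsPrimitiveRoot ζ ℓ) (D : ClassGroup (BB e α))
    (hD : D ∈ AA (sg (e := e) (α := α) ζ hζ.pow_eq_one)) : ∃ n : ℕ, D ^ (ℓ ^ n) = 1 := by
  obtain ⟨θ, hθ⟩ := pow_eq (e := e) (α := α) ζ hζ
  obtain ⟨n, hn⟩ := mem_AA.1 hD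
  have key : ∀ n : ℕ, D ^ (ℓ ^ n) =
      θ^[n] ((piH (sg (e := e) (α := α) ζ hζ.pow_eq_one))^[n] D) := by
    intro n
    induction n with
    | zero => rw [pow_zero, pow_one]; rfl
    | succ n ih =>
      rw [pow_succ, pow_mul, ih, ← iterate_map_pow, (hθ _).1, Function.iterate_succ_apply,
        Function.iterate_succ_apply']
  refine ⟨n, ?_⟩
  rw [key n, hn]
  exact iterate_map_one _ _

end SUP
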