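import Mathlib

/-!
# [SUP] MP_c1dca2_ag: superelliptic curves `U^l = prod (X - α a)^(e a)`: the ring of functions

`B = ⊕_j R[X] v_j`, `j ∈ Z/l`, `v_j = prod_a (X - α a)^((j e a mod l) / l)`.
-/

set_option autoImplicit false
set_option linter.unusedSectionVars false

open Polynomial

namespace SUP

section base

variable {ι : Type} {ℓ : ℕ}

/-- The representative of `j e a` in `[0, ℓ)`. -/
def rr (e : ι → ZMod ℓ) (j : ZMod ℓ) (a : ι) : ℕ := (j * e a).val

/-- The carry. -/
def car (e : ι → ZMod ℓ) (i j : ZMod ℓ) (a : ι) : ℕ := (rr e i a + rr e j a) / ℓ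

variable [hℓ : Fact ℓ.Prime]

theorem rr_lt (e : ι → ZMod ℓ) (j : ZMod ℓ) (a : ι) : rr e j a < ℓ := ZMod.val_lt _

theorem rr_add (e : ι → ZMod ℓ) (i j : ZMod ℓ) (a : ι) :
    rr e i a + rr e j a = rr e (i + j) a + ℓ * car e i j a := by
  have h : rr e (i + j) a = (rr e i a + rr e j a) % ℓ := by
    unfold rr
    rw [add_mul, ZMod.val_add]
  rw [h, car, Nat.mod_add_div]

@[simp] theorem rr_zero (e : ι → ZMod ℓ) (a : ι) : rr e 0 a = 0 := by simp [rr]

theorem car_zero (e : ι → ZMod ℓ) (j : ZMod ℓ) (a : ι) : car e 0 j a = 0 := by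
  rw [car, rr_zero, zero_add, Nat.div_eq_of_lt (rr_lt e j a)]

theorem car_comm (e : ι → ZMod ℓ) (i j : ZMod ℓ) (a : ι) : car e i j a = car e j i a := by
  rw [car, car, add_comm]

theorem car_assoc (e : ι → ZMod ℓ) (i j k : ZMod ℓ) (a : ι) :
    car e i j a + car e (i + j) k a = car e j k a + car e i (j + k) a := by
  have h1 := rr_add e i j a
  have h2 := rr_add e (i + j) k a
  have h3 := rr_add e j k a
  have h4 := rr_add e i (j + k) a
  rw [← add_assoc i j k] at h4
  have h5 : ℓ * (car e i j a + car e (i + j) k a) = ℓ * (car e j k a + car e i (j + k) a) := by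
    rw [mul_add, mul_add]
    omega
  exact Nat.eq_of_mul_eq_mul_left hℓ.out.pos h5

variable [Fintype ι]

/-- The weight of `v_j`. -/
def wt (e : ι → ZMod ℓ) (j : ZMod ℓ) : ℕ := ∑ a, rr e j a

theorem wt_def (e : ι → ZMod ℓ) (j : ZMod ℓ) : wt e j = ∑ a, rr e j a := rfl

@[simp] theorem wt_zero (e : ι → ZMod ℓ) : wt e 0 = 0 := by simp [wt]

theorem wt_add (e : ι → ZMod ℓ) (i j : ZMod ℓ) :
    wt e i + wt e j = wt e (i + j) + ℓ * ∑ a, car e i j a := by
  rw [wt, wt, wt, ← Finset.sum_add_distrib, Finset.mul_sum, ← Finset.sum_add_distrib]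
  exact Finset.sum_congr rfl fun a _ => rr_add e i j a

theorem wt_cast (e : ι → ZMod ℓ) (j : ZMod ℓ) : (wt e j : ZMod ℓ) = j * ∑ a, e a := by
  rw [wt, Nat.cast_sum, Finset.mul_sum]
  refine Finset.sum_congr rfl fun a _ => ?_
  rw [rr, ZMod.natCast_zmod_val]

theorem wt_inj (e : ι → ZMod ℓ) (hs : ∑ a, e a ≠ 0) {j j' : ZMod ℓ} {i i' : ℕ}
    (h : ℓ * i + wt e j = ℓ * i' + wt e j') : j = j' ∧ i = i' := by
  have h1 : ((ℓ * i + wt e j : ℕ) : ZMod ℓ) = ((ℓ * i' + wt e j' : ℕ) : ZMod ℓ) := by rw [h]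
  push_cast at h1
  rw [wt_cast, wt_cast, ZMod.natCast_self, zero_mul, zero_mul, zero_add, zero_add] at h1
  have h2 : j = j' := mul_right_cancel₀ hs h1
  subst h2
  refine ⟨rfl, ?_⟩
  have h3 : ℓ * i = ℓ * i' := by omega
  exact Nat.eq_of_mul_eq_mul_left hℓ.out.pos h3

end base

section ring

variable {ι : Type} [Fintype ι] {ℓ : ℕ} [hℓ : Fact ℓ.Prime] {R : Type} [CommRing R]

/-- The structure constants: `v_i v_j = cc i j v_(i+j)`. -/
noncomputable def cc (e : ι → ZMod ℓ) (α : ι → R) (i j : ZMod ℓ) : R[X] :=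
  ∏ a, (X - C (α a)) ^ car e i j a

theorem cc_zero (e : ι → ZMod ℓ) (α : ι → R) (j : ZMod ℓ) : cc e α 0 j = 1 := by
  rw [cc]
  exact Finset.prod_eq_one fun a _ => by rw [car_zero, pow_zero]

theorem cc_comm (e : ι → ZMod ℓ) (α : ι → R) (i j : ZMod ℓ) : cc e α i j = cc e α j i := by
  rw [cc, cc]
  exact Finset.prod_congr rfl fun a _ => by rw [car_comm]

theorem cc_assoc (e : ι → ZMod ℓ) (α : ι → R) (i j k : ZMod ℓ) :
    cc e α i j * cc e α (i + j) k = cc e α j k * cc e α i (j + k) := by
  rw [cc, cc, cc, cc, ← Finset.prod_mul_distrib, ← Finset.prod_mul_distrib]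
  exact Finset.prod_congr rfl fun a _ => by rw [← pow_add, ← pow_add, car_assoc]

theorem cc_monic (e : ι → ZMod ℓ) (α : ι → R) (i j : ZMod ℓ) : (cc e α i j).Monic :=
  monic_prod_of_monic _ _ fun a _ => (monic_X_sub_C (α a)).pow _

/-- The ring `B = ⊕_j R[X] v_j`; `co j` is the coefficient of `v_j`. -/
@[ext] structure BB (e : ι → ZMod ℓ) (α : ι → R) : Type where
  /-- the coordinates -/
  co : ZMod ℓ → R[X]

variable {e : ι → ZMod ℓ} {α : ι → R}

namespace BB

noncomputable instance : Zero (BB e α) := ⟨⟨0⟩⟩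
noncomputable instance : One (BB e α) := ⟨⟨Pi.single 0 1⟩⟩
noncomputable instance : Add (BB e α) := ⟨fun b c => ⟨b.co + c.co⟩⟩
noncomputable instance : Neg (BB e α) := ⟨fun b => ⟨-b.co⟩⟩
noncomputable instance : Sub (BB e α) := ⟨fun b c => ⟨b.co - c.co⟩⟩
noncomputable instance : SMul ℕ (BB e α) := ⟨fun n b => ⟨n • b.co⟩⟩
noncomputable instance : SMul ℤ (BB e α) := ⟨fun n b => ⟨n • b.co⟩⟩
noncomputable instance : SMul R[X] (BB e α) := ⟨fun p b => ⟨fun j => p * b.co j⟩⟩
noncomputable instance : SMul R (BB e α) := ⟨fun p b => ⟨fun j => p • b.co j⟩⟩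
noncomputable instance : Mul (BB e α) :=
  ⟨fun b c => ⟨fun k => ∑ i, cc e α i (k - i) * (b.co i * c.co (k - i))⟩⟩

theorem co_injective : Function.Injective (co : BB e α → ZMod ℓ → R[X]) := by
  intro b c h
  exact BB.ext h

@[simp] theorem co_zero : (0 : BB e α).co = 0 := rfl
@[simp] theorem co_add (b c : BB e α) : (b + c).co = b.co + c.co := rfl
@[simp] theorem co_neg (b : BB e α) : (-b).co = -b.co := rfl
@[simp] theorem co_sub (b c : BB e α) : (b - c).co = b.co - c.co := rfl
@[simp] theorem co_smul (p : R[X]) (b : BB e α) (j : ZMod ℓ) : (p • b).co j = p * b.co j := rfl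
@[simp] theorem co_smul' (r : R) (b : BB e α) (j : ZMod ℓ) : (r • b).co j = r • b.co j := rfl
theorem co_one : (1 : BB e α).co = Pi.single 0 1 := rfl
theorem co_mul (b c : BB e α) (k : ZMod ℓ) :
    (b * c).co k = ∑ i, cc e α i (k - i) * (b.co i * c.co (k - i)) := rfl

noncomputable instance : AddCommGroup (BB e α) :=
  co_injective.addCommGroup _ rfl (fun _ _ => rfl) (fun _ => rfl) (fun _ _ => rfl)
    (fun _ _ => rfl) (fun _ _ => rfl)

noncomputable instance : CommRing (BB e α) :=
  { (inferInstance : AddCommGroup (BB e α)) with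
    mul := (· * ·)
    one := 1
    left_distrib := by
      intro a b c
      refine BB.ext (funext fun k => ?_)
      simp only [co_mul, co_add, Pi.add_apply]
      rw [← Finset.sum_add_distrib]
      exact Finset.sum_congr rfl fun i _ => by ring
    right_distrib := by
      intro a b c
      refine BB.ext (funext fun k => ?_)
      simp only [co_mul, co_add, Pi.add_apply]
      rw [← Finset.sum_add_distrib]
      exact Finset.sum_congr rfl fun i _ => by ring
    zero_mul := by
      intro a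
      refine BB.ext (funext fun k => ?_)
      simp [co_mul]
    mul_zero := by
      intro a
      refine BB.ext (funext fun k => ?_)
      simp [co_mul]
    one_mul := by
      intro a
      refine BB.ext (funext fun k => ?_)
      rw [co_mul, co_one, Finset.sum_eq_single 0]
      · rw [Pi.single_eq_same, one_mul, cc_zero, one_mul, sub_zero]
      · intro i _ hi
        rw [Pi.single_eq_of_ne hi, zero_mul, mul_zero]
      · intro h; exact absurd (Finset.mem_univ _) h
    mul_one := by
      intro a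
      refine BB.ext (funext fun k => ?_)
      rw [co_mul, co_one, Finset.sum_eq_single k]
      · rw [sub_self, Pi.single_eq_same, mul_one, cc_comm, cc_zero, one_mul]
      · intro i _ hi
        rw [Pi.single_eq_of_ne (sub_ne_zero.2 hi.symm), mul_zero, mul_zero]
      · intro h; exact absurd (Finset.mem_univ _) h
    mul_comm := by
      intro a b
      refine BB.ext (funext fun k => ?_)
      rw [co_mul, co_mul, ← Equiv.sum_comp (Equiv.subLeft k)]
      refine Finset.sum_congr rfl fun i _ => ?_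
      rw [Equiv.subLeft_apply, sub_sub_cancel, cc_comm, mul_comm (a.co _)]
    mul_assoc := by
      intro a b c
      refine BB.ext (funext fun k => ?_)
      rw [co_mul, co_mul]
      simp only [co_mul]
      have e1 : ∀ i : ZMod ℓ, cc e α i (k - i) *
          ((∑ j, cc e α j (i - j) * (a.co j * b.co (i - j))) * c.co (k - i)) =
          ∑ j, cc e α i (k - i) * ((cc e α j (i - j) * (a.co j * b.co (i - j))) *
            c.co (k - i)) := by
        intro i
        rw [Finset.sum_mul, Finset.mul_sum]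
      have e2 : ∀ j : ZMod ℓ, cc e α j (k - j) * (a.co j *
          ∑ m, cc e α m (k - j - m) * (b.co m * c.co (k - j - m))) =
          ∑ m, cc e α j (k - j) * (a.co j * (cc e α m (k - j - m) *
            (b.co m * c.co (k - j - m)))) := by
        intro j
        rw [Finset.mul_sum, Finset.mul_sum]
      rw [Finset.sum_congr rfl fun i _ => e1 i, Finset.sum_congr rfl fun j _ => e2 j,
        Finset.sum_comm]
      refine Finset.sum_congr rfl fun j _ => ?_
      rw [← Equiv.sum_comp (Equiv.addLeft j)]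
      refine Finset.sum_congr rfl fun m _ => ?_
      rw [Equiv.coe_addLeft, add_sub_cancel_left, ← sub_sub]
      have h := cc_assoc e α j m (k - j - m)
      rw [add_sub_cancel] at h
      linear_combination (a.co j * b.co m * c.co (k - j - m)) * h }

noncomputable instance : Module R[X] (BB e α) :=
  co_injective.module R[X] ⟨⟨co, rfl⟩, fun _ _ => rfl⟩ (fun _ _ => rfl)

noncomputable instance : Module R (BB e α) :=
  co_injective.module R ⟨⟨co, rfl⟩, fun _ _ => rfl⟩ (fun _ _ => rfl)

noncomputable instance : Algebra R[X] (BB e α) :=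
  Algebra.ofModule
    (by
      intro r x y
      refine BB.ext (funext fun k => ?_)
      rw [co_mul, co_smul, co_mul, Finset.mul_sum]
      exact Finset.sum_congr rfl fun i _ => by rw [co_smul]; ring)
    (by
      intro r x y
      refine BB.ext (funext fun k => ?_)
      rw [co_mul, co_smul, co_mul, Finset.mul_sum]
      exact Finset.sum_congr rfl fun i _ => by rw [co_smul]; ring)

noncomputable instance : Algebra R (BB e α) :=
  Algebra.ofModule
    (by
      intro r x y
      refine BB.ext (funext fun k => ?_)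
      rw [co_mul, co_smul', co_mul, Finset.smul_sum]
      exact Finset.sum_congr rfl fun i _ => by
        rw [co_smul', smul_mul_assoc, mul_smul_comm])
    (by
      intro r x y
      refine BB.ext (funext fun k => ?_)
      rw [co_mul, co_smul', co_mul, Finset.smul_sum]
      exact Finset.sum_congr rfl fun i _ => by
        rw [co_smul', mul_smul_comm, mul_smul_comm])

instance : IsScalarTower R R[X] (BB e α) := ⟨by
  intro r p b
  refine BB.ext (funext fun k => ?_)
  rw [co_smul, co_smul', co_smul, smul_mul_assoc]⟩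

theorem algebraMap_co (p : R[X]) (j : ZMod ℓ) :
    (algebraMap R[X] (BB e α) p).co j = if j = 0 then p else 0 := by
  rw [Algebra.algebraMap_eq_smul_one, co_smul, co_one]
  split_ifs with h
  · rw [h, Pi.single_eq_same, mul_one]
  · rw [Pi.single_eq_of_ne h, mul_zero]

theorem algebraMap_co' (r : R) (j : ZMod ℓ) :
    (algebraMap R (BB e α) r).co j = if j = 0 then C r else 0 := by
  rw [IsScalarTower.algebraMap_apply R R[X] (BB e α), algebraMap_co, Polynomial.algebraMap_eq]

theorem algebraMap_injective : Function.Injective (algebraMap R[X] (BB e α)) := by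
  intro p q h
  have h1 := congrArg (fun b : BB e α => b.co 0) h
  simp only [algebraMap_co, if_pos] at h1
  exact h1

/-- The basis element `v_j`. -/
noncomputable def v (e : ι → ZMod ℓ) (α : ι → R) (j : ZMod ℓ) : BB e α := ⟨Pi.single j 1⟩

theorem v_co (j : ZMod ℓ) : (v e α j).co = Pi.single j 1 := rfl

theorem v_zero : v e α 0 = 1 := rfl

theorem v_mul (i j : ZMod ℓ) : v e α i * v e α j = cc e α i j • v e α (i + j) := by
  refine BB.ext (funext fun k => ?_)
  rw [co_mul, co_smul, v_co, v_co, v_co, Finset.sum_eq_single i]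
  · rw [Pi.single_eq_same, one_mul]
    by_cases h : k = i + j
    · rw [h, add_sub_cancel_left, Pi.single_eq_same, Pi.single_eq_same]
    · rw [Pi.single_eq_of_ne h, Pi.single_eq_of_ne (fun h' => h (by rw [← h', add_sub_cancel])),
        mul_zero, mul_zero]
  · intro m _ hm
    rw [Pi.single_eq_of_ne hm, zero_mul, mul_zero]
  · intro h; exact absurd (Finset.mem_univ _) h

theorem sum_v (b : BB e α) : ∑ j, b.co j • v e α j = b := by
  refine BB.ext (funext fun k => ?_)
  have h : (∑ j, b.co j • v e α j).co = ∑ j, (b.co j • v e α j).co :=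
    map_sum (⟨⟨co, rfl⟩, fun _ _ => rfl⟩ : BB e α →+ (ZMod ℓ → R[X])) _ _
  rw [h, Finset.sum_apply, Finset.sum_eq_single k]
  · rw [co_smul, v_co, Pi.single_eq_same, mul_one]
  · intro j _ hj
    rw [co_smul, v_co, Pi.single_eq_of_ne hj.symm, mul_zero]
  · intro h; exact absurd (Finset.mem_univ _) h

/-- The coordinates as a linear equivalence. -/
noncomputable def coL (e : ι → ZMod ℓ) (α : ι → R) : BB e α ≃ₗ[R[X]] (ZMod ℓ → R[X]) where
  toFun := co
  invFun := fun f => ⟨f⟩
  left_inv := fun _ => rfl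
  right_inv := fun _ => rfl
  map_add' := fun _ _ => rfl
  map_smul' := fun _ _ => rfl

instance : Module.Free R[X] (BB e α) := Module.Free.of_equiv (coL e α).symm
instance : Module.Finite R[X] (BB e α) := Module.Finite.equiv (coL e α).symm

end BB

open BB

/-! ### change of the coefficients -/

section bmap

variable {S : Type} [CommRing S] {β : ι → S}

theorem cc_map (f : R →+* S) (h : ∀ a, f (α a) = β a) (i j : ZMod ℓ) :
    (cc e α i j).map f = cc e β i j := by
  rw [cc, cc, Polynomial.map_prod]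
  refine Finset.prod_congr rfl fun a _ => ?_
  rw [Polynomial.map_pow, Polynomial.map_sub, map_X, map_C, h]

/-- The coordinatewise map. -/
noncomputable def bmap (f : R →+* S) (h : ∀ a, f (α a) = β a) : BB e α →+* BB e β where
  toFun b := ⟨fun j => (b.co j).map f⟩
  map_zero' := BB.ext (funext fun j => by simp)
  map_one' := BB.ext (funext fun j => by
    show ((1 : BB e α).co j).map f = (1 : BB e β).co j
    rw [co_one, co_one]
    by_cases hj : j = 0
    · rw [hj, Pi.single_eq_same, Pi.single_eq_same, Polynomial.map_one]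
    · rw [Pi.single_eq_of_ne hj, Pi.single_eq_of_ne hj, Polynomial.map_zero])
  map_add' b c := BB.ext (funext fun j => by
    simp only [co_add, Pi.add_apply, Polynomial.map_add])
  map_mul' b c := BB.ext (funext fun k => by
    simp only [co_mul]
    rw [Polynomial.map_sum]
    refine Finset.sum_congr rfl fun i _ => ?_
    rw [Polynomial.map_mul, Polynomial.map_mul, cc_map f h])

@[simp] theorem bmap_co (f : R →+* S) (h : ∀ a, f (α a) = β a) (b : BB e α) (j : ZMod ℓ) :
    (bmap f h b).co j = (b.co j).map f := rfl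

theorem bmap_smul (f : R →+* S) (h : ∀ a, f (α a) = β a) (p : R[X]) (b : BB e α) :
    bmap f h (p • b) = p.map f • bmap f h b :=
  BB.ext (funext fun j => by rw [bmap_co, co_smul, co_smul, bmap_co, Polynomial.map_mul])

theorem bmap_smul' (f : R →+* S) (h : ∀ a, f (α a) = β a) (r : R) (b : BB e α) :
    bmap f h (r • b) = f r • bmap f h b :=
  BB.ext (funext fun j => by
    rw [bmap_co, co_smul', co_smul', bmap_co, Polynomial.map_smul])

theorem bmap_v (f : R →+* S) (h : ∀ a, f (α a) = β a) (j : ZMod ℓ) :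
    bmap f h (v e α j) = v e β j :=
  BB.ext (funext fun i => by
    rw [bmap_co, v_co, v_co]
    by_cases hj : i = j
    · rw [hj, Pi.single_eq_same, Pi.single_eq_same, Polynomial.map_one]
    · rw [Pi.single_eq_of_ne hj, Pi.single_eq_of_ne hj, Polynomial.map_zero])

theorem bmap_algebraMap (f : R →+* S) (h : ∀ a, f (α a) = β a) (p : R[X]) :
    bmap f h (algebraMap R[X] (BB e α) p) = algebraMap S[X] (BB e β) (p.map f) := by
  rw [Algebra.algebraMap_eq_smul_one, Algebra.algebraMap_eq_smul_one, bmap_smul, map_one]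

theorem bmap_algebraMap' (f : R →+* S) (h : ∀ a, f (α a) = β a) (r : R) :
    bmap f h (algebraMap R (BB e α) r) = algebraMap S (BB e β) (f r) := by
  rw [Algebra.algebraMap_eq_smul_one, Algebra.algebraMap_eq_smul_one, bmap_smul', map_one]

theorem bmap_comp {S' : Type} [CommRing S'] {γ : ι → S'} (f : R →+* S) (h : ∀ a, f (α a) = β a)
    (g : S →+* S') (h' : ∀ a, g (β a) = γ a) (h'' : ∀ a, (g.comp f) (α a) = γ a)
    (b : BB e α) : bmap g h' (bmap f h b) = bmap (g.comp f) h'' b :=
  BB.ext (funext fun j => by rw [bmap_co, bmap_co, bmap_co, Polynomial.map_map])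

theorem bmap_inj (f : R →+* S) (h : ∀ a, f (α a) = β a) (hf : Function.Injective f) :
    Function.Injective (bmap (e := e) f h) := by
  intro b c hbc
  refine BB.ext (funext fun j => Polynomial.map_injective f hf ?_)
  exact congrArg (fun b : BB e β => b.co j) hbc

theorem bmap_surj (f : R →+* S) (h : ∀ a, f (α a) = β a) (hf : Function.Surjective f) :
    Function.Surjective (bmap (e := e) f h) := by
  intro c
  have h1 : ∀ j, ∃ p : R[X], p.map f = c.co j := fun j => Polynomial.map_surjective f hf _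
  choose p hp using h1
  exact ⟨⟨p⟩, BB.ext (funext fun j => hp j)⟩

/-- A ring automorphism fixing the `α a` acts on `B`. -/
noncomputable def bE (f : R ≃+* R) (h : ∀ a, f (α a) = α a) : BB e α ≃+* BB e α :=
  RingEquiv.ofBijective (bmap (e := e) (f : R →+* R) h)
    ⟨bmap_inj _ _ f.injective, bmap_surj _ _ f.surjective⟩

@[simp] theorem bE_co (f : R ≃+* R) (h : ∀ a, f (α a) = α a) (b : BB e α) (j : ZMod ℓ) :
    (bE f h b).co j = (b.co j).map (f : R →+* R) := rfl

theorem bE_apply (f : R ≃+* R) (h : ∀ a, f (α a) = α a) (b : BB e α) :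
    bE f h b = bmap (f : R →+* R) h b := rfl

end bmap

/-! ### the automorphism `v_j ↦ ζ^j v_j` -/

section sg

theorem pow_val_add {M : Type} [Monoid M] {ζ : M} (hζ : ζ ^ ℓ = 1) (i j : ZMod ℓ) :
    ζ ^ (i + j).val = ζ ^ i.val * ζ ^ j.val := by
  rw [← pow_add, ZMod.val_add]
  conv_rhs => rw [← Nat.mod_add_div (i.val + j.val) ℓ, pow_add, pow_mul, hζ, one_pow, mul_one]

/-- `v_j ↦ ζ^j v_j` as a ring homomorphism. -/
noncomputable def sgH (ζ : R) (hζ : ζ ^ ℓ = 1) : BB e α →+* BB e α where
  toFun b := ⟨fun j => C (ζ ^ j.val) * b.co j⟩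
  map_zero' := BB.ext (funext fun j => by simp)
  map_one' := BB.ext (funext fun j => by
    simp only [co_one]
    by_cases hj : j = 0
    · rw [hj, Pi.single_eq_same, ZMod.val_zero, pow_zero, C_1, mul_one]
    · rw [Pi.single_eq_of_ne hj, mul_zero])
  map_add' b c := BB.ext (funext fun j => by
    simp only [co_add, Pi.add_apply, mul_add])
  map_mul' b c := BB.ext (funext fun k => by
    simp only [co_mul]
    rw [Finset.mul_sum]
    refine Finset.sum_congr rfl fun i _ => ?_
    have h1 : ζ ^ k.val = ζ ^ i.val * ζ ^ (k - i).val := by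
      rw [← pow_val_add hζ, add_sub_cancel]
    rw [h1, C_mul]
    ring)

@[simp] theorem sgH_co (ζ : R) (hζ : ζ ^ ℓ = 1) (b : BB e α) (j : ZMod ℓ) :
    (sgH ζ hζ b).co j = C (ζ ^ j.val) * b.co j := rfl

theorem sgH_sgH (ζ ξ : R) (hζ : ζ ^ ℓ = 1) (hξ : ξ ^ ℓ = 1) (b : BB e α) :
    sgH ζ hζ (sgH ξ hξ b) = sgH (ζ * ξ) (by rw [mul_pow, hζ, hξ, one_mul]) b :=
  BB.ext (funext fun j => by
    rw [sgH_co, sgH_co, sgH_co, mul_pow, C_mul, mul_assoc])

theorem sgH_one (b : BB e α) : sgH (1 : R) (one_pow ℓ) b = b :=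
  BB.ext (funext fun j => by rw [sgH_co, one_pow, C_1, one_mul])

theorem pow_sub_one_mul {ζ : R} (hζ : ζ ^ ℓ = 1) : ζ ^ (ℓ - 1) * ζ = 1 := by
  rw [← pow_succ, Nat.sub_add_cancel hℓ.out.one_le, hζ]

/-- The automorphism `v_j ↦ ζ^j v_j`. -/
noncomputable def sg (ζ : R) (hζ : ζ ^ ℓ = 1) : BB e α ≃+* BB e α :=
  RingEquiv.ofRingHom (sgH ζ hζ)
    (sgH (ζ ^ (ℓ - 1)) (by rw [← pow_mul, mul_comm, pow_mul, hζ, one_pow]))
    (by
      ext1 b
      refine BB.ext (funext fun j => ?_)
      rw [RingHom.comp_apply, sgH_sgH, RingHom.id_apply, sgH_co, mul_comm ζ,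
        pow_sub_one_mul hζ, one_pow, C_1, one_mul])
    (by
      ext1 b
      refine BB.ext (funext fun j => ?_)
      rw [RingHom.comp_apply, sgH_sgH, RingHom.id_apply, sgH_co,
        pow_sub_one_mul hζ, one_pow, C_1, one_mul])

@[simp] theorem sg_co (ζ : R) (hζ : ζ ^ ℓ = 1) (b : BB e α) (j : ZMod ℓ) :
    (sg ζ hζ b).co j = C (ζ ^ j.val) * b.co j := rfl

theorem sg_v (ζ : R) (hζ : ζ ^ ℓ = 1) (j : ZMod ℓ) :
    sg ζ hζ (v e α j) = (ζ ^ j.val) • v e α j :=
  BB.ext (funext fun i => by
    rw [sg_co, co_smul', v_co, Polynomial.smul_eq_C_mul]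
    by_cases hj : i = j
    · rw [hj]
    · rw [Pi.single_eq_of_ne hj, mul_zero, mul_zero])

theorem sg_smul (ζ : R) (hζ : ζ ^ ℓ = 1) (p : R[X]) (b : BB e α) :
    sg ζ hζ (p • b) = p • sg ζ hζ b :=
  BB.ext (funext fun j => by
    rw [sg_co, co_smul, co_smul, sg_co]
    ring)

theorem sg_algebraMap (ζ : R) (hζ : ζ ^ ℓ = 1) (p : R[X]) :
    sg ζ hζ (algebraMap R[X] (BB e α) p) = algebraMap R[X] (BB e α) p := by
  rw [Algebra.algebraMap_eq_smul_one, sg_smul, map_one]

theorem sg_pow (ζ : R) (hζ : ζ ^ ℓ = 1) (n : ℕ) (b : BB e α) (j : ZMod ℓ) :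
    (((sg ζ hζ : BB e α ≃+* BB e α) ^ n) b).co j = C ((ζ ^ j.val) ^ n) * b.co j := by
  induction n generalizing b with
  | zero => rw [pow_zero, pow_zero, C_1, one_mul]; rfl
  | succ n ih =>
    rw [pow_succ, RingAut.mul_apply, ih, sg_co, pow_succ, C_mul, mul_assoc]

theorem sg_bE (ζ : R) (hζ : ζ ^ ℓ = 1) (f : R ≃+* R) (h : ∀ a, f (α a) = α a) (hf : f ζ = ζ)
    (b : BB e α) : sg ζ hζ (bE f h b) = bE f h (sg ζ hζ b) :=
  BB.ext (funext fun j => by
    rw [sg_co, bE_co, bE_co, sg_co, Polynomial.map_mul, map_C]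
    simp [hf])

end sg

/-! ### homomorphisms from `B` -/

section lift

variable {S : Type} [CommRing S]

/-- The homomorphism `X ↦ x`, `v_j ↦ prod (y a)^(j e a mod l)` where `(y a)^l = x - α a`. -/
noncomputable def lift (e : ι → ZMod ℓ) (f : R →+* S) (x : S) (y : ι → S)
    (hy : ∀ a, y a ^ ℓ = x - f (α a)) : BB e α →+* S where
  toFun b := ∑ j, (b.co j).eval₂ f x * ∏ a, y a ^ rr e j a
  map_zero' := by simp
  map_one' := by
    rw [Finset.sum_eq_single 0]
    · rw [co_one, Pi.single_eq_same, eval₂_one, one_mul]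
      exact Finset.prod_eq_one fun a _ => by rw [rr_zero, pow_zero]
    · intro j _ hj
      rw [co_one, Pi.single_eq_of_ne hj, eval₂_zero, zero_mul]
    · intro h; exact absurd (Finset.mem_univ _) h
  map_add' b c := by
    rw [← Finset.sum_add_distrib]
    exact Finset.sum_congr rfl fun j _ => by
      rw [co_add, Pi.add_apply, eval₂_add, add_mul]
  map_mul' b c := by
    have hcc : ∀ i j, (cc e α i j).eval₂ f x = ∏ a, (x - f (α a)) ^ car e i j a := by
      intro i j
      rw [cc, ← coe_eval₂RingHom, map_prod]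
      refine Finset.prod_congr rfl fun a _ => ?_
      rw [map_pow, map_sub, coe_eval₂RingHom, eval₂_X, eval₂_C]
    have hY : ∀ i j, (∏ a, y a ^ rr e i a) * (∏ a, y a ^ rr e j a) =
        (∏ a, (x - f (α a)) ^ car e i j a) * ∏ a, y a ^ rr e (i + j) a := by
      intro i j
      rw [← Finset.prod_mul_distrib, ← Finset.prod_mul_distrib]
      refine Finset.prod_congr rfl fun a _ => ?_
      rw [← pow_add, rr_add, pow_add, pow_mul, hy, mul_comm]
    rw [Finset.sum_mul_sum]
    have e1 : ∀ k : ZMod ℓ, ((b * c).co k).eval₂ f x * ∏ a, y a ^ rr e k a =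
        ∑ i, ((b.co i).eval₂ f x * ∏ a, y a ^ rr e i a) *
          ((c.co (k - i)).eval₂ f x * ∏ a, y a ^ rr e (k - i) a) := by
      intro k
      rw [co_mul, eval₂_finsetSum, Finset.sum_mul]
      refine Finset.sum_congr rfl fun i _ => ?_
      rw [eval₂_mul, eval₂_mul, hcc]
      have h := hY i (k - i)
      rw [add_sub_cancel] at h
      linear_combination -((b.co i).eval₂ f x * (c.co (k - i)).eval₂ f x) * h
    rw [Finset.sum_congr rfl fun k _ => e1 k, Finset.sum_comm]
    refine Finset.sum_congr rfl fun i _ => ?_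
    rw [← Equiv.sum_comp (Equiv.addLeft i)]
    refine Finset.sum_congr rfl fun j _ => ?_
    rw [Equiv.coe_addLeft, add_sub_cancel_left]

theorem lift_apply (f : R →+* S) (x : S) (y : ι → S) (hy : ∀ a, y a ^ ℓ = x - f (α a))
    (b : BB e α) : lift e f x y hy b = ∑ j, (b.co j).eval₂ f x * ∏ a, y a ^ rr e j a := rfl

theorem lift_algebraMap (f : R →+* S) (x : S) (y : ι → S) (hy : ∀ a, y a ^ ℓ = x - f (α a))
    (p : R[X]) : lift e f x y hy (algebraMap R[X] (BB e α) p) = p.eval₂ f x := by
  rw [lift_apply, Finset.sum_eq_single 0]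
  · rw [algebraMap_co, if_pos rfl]
    rw [Finset.prod_eq_one (fun a _ => by rw [rr_zero, pow_zero]), mul_one]
  · intro j _ hj
    rw [algebraMap_co, if_neg hj, eval₂_zero, zero_mul]
  · intro h; exact absurd (Finset.mem_univ _) h

theorem lift_v (f : R →+* S) (x : S) (y : ι → S) (hy : ∀ a, y a ^ ℓ = x - f (α a))
    (j : ZMod ℓ) : lift e f x y hy (v e α j) = ∏ a, y a ^ rr e j a := by
  rw [lift_apply, Finset.sum_eq_single j]
  · rw [v_co, Pi.single_eq_same, eval₂_one, one_mul]
  · intro i _ hi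
    rw [v_co, Pi.single_eq_of_ne hi, eval₂_zero, zero_mul]
  · intro h; exact absurd (Finset.mem_univ _) h

end lift

end ring

end SUP
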