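import Pool.Agent.MP_c1dca2_ag.SUP.A3b

set_option autoImplicit false
set_option linter.unusedSectionVars false

open Polynomial IsLocalRing

namespace SUP

/-! ## [SUP-C0] reduction of elements (file C0.lean; uses A3) -/

variable {F : Type} [Field F] {V : ValuationSubring F}

/-- Lift a monic polynomial of positive degree over the residue field to a monic polynomial over
`V`; it has a root in `F`, which is integral over `V`, hence in `V`; reduce it
(`IsAlgClosed.of_exists_root`). -/
instance instResidueAlgClosed [IsAlgClosed F] : IsAlgClosed (ResidueField V) := by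
  refine IsAlgClosed.of_exists_root _ fun p hp hirr => ?_
  obtain ⟨q, hq, hdeg, hmon⟩ := lifts_and_natDegree_eq_and_monic (f := residue V)
    ((mem_lifts p).2 (map_surjective _ residue_surjective p)) hp
  have hd : (q.map (algebraMap V F)).degree ≠ 0 := by
    rw [hmon.degree_map, degree_eq_natDegree hmon.ne_zero, hdeg]
    have h1 := hirr.natDegree_pos
    exact_mod_cast h1.ne'
  obtain ⟨x, hx⟩ := IsAlgClosed.exists_root _ hd
  rw [IsRoot, eval_map] at hx
  have hint : IsIntegral V x := ⟨q, hmon, hx⟩
  obtain ⟨y, hy⟩ := IsIntegrallyClosed.isIntegral_iff.1 hint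
  refine ⟨residue V y, ?_⟩
  have h1 : q.eval y = 0 := by
    apply IsFractionRing.injective V F
    rw [map_zero, ← eval₂_at_apply, hy]
    exact hx
  rw [← hq, eval_map, eval₂_at_apply, h1, map_zero]

variable {ι : Type} [Fintype ι] {ℓ : ℕ} [hℓ : Fact ℓ.Prime] {e : ι → ZMod ℓ} {α : ι → V}

theorem inc_smul (c : V) (b : BB e α) : inc e α (c • b) = (c : F) • inc e α b :=
  bmap_smul' _ _ _ _

theorem rd_smul (c : V) (b : BB e α) : rd e α (c • b) = residue V c • rd e α b :=
  bmap_smul' _ _ _ _

end SUP
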