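import Pool.Agent.MP_c1dca2_ag.SUP.C1
import Pool.Agent.MP_c1dca2_ag.SUP.A10

set_option autoImplicit false
set_option linter.unusedSectionVars false

open Polynomial IsLocalRing

namespace SUP

/-! ## [SUP-C2] reduction of ideals (file C2.lean; uses C0, C1, A3, A9, A10, L1) -/

variable {F : Type} [Field F] [IsAlgClosed F] {V : ValuationSubring F} {ι : Type} [Fintype ι]
  {ℓ : ℕ} [hℓ : Fact ℓ.Prime] {e : ι → ZMod ℓ} {α : ι → V}
  [hG : Fact (Good e (fun a => (α a : F)))] [hG' : Fact (Good e (fun a => residue V (α a)))]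

theorem c2_smul_mem {κ : Type} [Field κ] {β : ι → κ} (c : κ) {J : Ideal (BB e β)} {b : BB e β}
    (hb : b ∈ J) : c • b ∈ J := by
  have h := Submodule.smul_mem (J.restrictScalars κ) c (x := b) (by
    rw [Submodule.restrictScalars_mem]; exact hb)
  rw [Submodule.restrictScalars_mem] at h
  exact h

theorem rI_ne_bot {J : Ideal (BB e (fun a => (α a : F)))} (hJ : J ≠ ⊥) : rI J ≠ ⊥ := by
  obtain ⟨b, hb, hb0⟩ := Submodule.exists_mem_ne_zero_of_ne_bot hJ
  obtain ⟨c, b', hc, hbc, hr⟩ := exists_normal b hb0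
  intro h
  apply hr
  have h1 : rd e α b' ∈ rI J := by
    rw [mem_rI]
    refine ⟨b', ?_, rfl⟩
    rw [hbc]
    exact c2_smul_mem c hb
  rw [h] at h1
  exact h1

theorem rI_mono {I J : Ideal (BB e (fun a => (α a : F)))} (h : I ≤ J) : rI I ≤ rI J := by
  intro z hz
  rw [mem_rI] at hz ⊢
  obtain ⟨b, hb, rfl⟩ := hz
  exact ⟨b, h hb, rfl⟩

/-- `rW (IB J m) ≤ IB (rI J) m`. -/
theorem rW_IB (J : Ideal (BB e (fun a => (α a : F)))) (m : ℕ) : rW (IB J m) ≤ IB (rI J) m := by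
  intro z hz
  have h1 : z ∈ Ble e (fun a => residue V (α a)) m := rW_Ble (inf_le_right) hz
  obtain ⟨b, hb, rfl⟩ := hz
  rw [IB, Submodule.mem_inf, Submodule.restrictScalars_mem]
  refine ⟨?_, h1⟩
  rw [mem_rI]
  exact ⟨b, (mem_IB.1 hb).1, rfl⟩

/-- For large `m`: `m + 1 - g - len J ≤ dim rW (IB J m) ≤ dim IB (rI J) m = m + 1 - g - len (rI J)`
(`finrank_rW`, `finrank_IB_eq`). -/
theorem len_rI_le {J : Ideal (BB e (fun a => (α a : F)))} (hJ : J ≠ ⊥) : len (rI J) ≤ len J := by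
  obtain ⟨m₀, hm₀⟩ := finrank_IB_eq (rI J) (rI_ne_bot hJ)
  have h1 := finrank_IB_ge J hJ m₀
  have h2 := hm₀ m₀ le_rfl
  have h3 := finrank_rW (IB J m₀) m₀ inf_le_right
  have h4 := Submodule.finrank_mono (rW_IB J m₀)
  omega

/-- If `rW (IB J m)` were contained in `IB (rI J) m'` with `m' + len J < m + len (rI J)` (and `m'`
large) then the dimensions (`finrank_rW`, `finrank_IB_eq`) would give
`m + 1 - g - len J ≤ m' + 1 - g - len (rI J)`. So for large `m` there is an element `b` with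
`inc b ∈ J` of order `≤ m`, and the order of `rd b` is at least `m - (len J - len (rI J))`. -/
theorem exists_large {J : Ideal (BB e (fun a => (α a : F)))} (hJ : J ≠ ⊥) :
    ∃ (m : ℕ) (b : BB e α), inc e α b ∈ J ∧ pord (inc e α b) ≤ m ∧ rd e α b ≠ 0 ∧
      m + len (rI J) ≤ pord (rd e α b) + len J := by
  obtain ⟨m₀, hm₀⟩ := finrank_IB_eq (rI J) (rI_ne_bot hJ)
  have hlen := len_rI_le hJ
  by_contra hcon
  push Not at hcon
  obtain ⟨D, hD⟩ := Nat.exists_eq_add_of_le hlen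
  have h5 : rW (IB J (m₀ + D + 1)) ≤ IB (rI J) m₀ := by
    intro z hz
    have hz' := rW_IB J (m₀ + D + 1) hz
    obtain ⟨b, hb, rfl⟩ := hz
    rw [mem_IB] at hb hz' ⊢
    refine ⟨hz'.1, ?_⟩
    by_cases h0 : rd e α b = 0
    · rw [h0]
      have : (0 : BB e (fun a => residue V (α a))) ∈ IB (rI J) m₀ := Submodule.zero_mem _
      exact (mem_IB.1 this).2
    · have h6 := hcon (m₀ + D + 1) b hb.1 hb.2 h0
      omega
  have h1 := finrank_IB_ge J hJ (m₀ + D + 1)
  have h2 := hm₀ m₀ le_rfl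
  have h3 := finrank_rW (IB J (m₀ + D + 1)) (m₀ + D + 1) inf_le_right
  have h4 := Submodule.finrank_mono h5
  omega

end SUP
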