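import Pool.Agent.MP_c1dca2_ag.SUP.C2

set_option autoImplicit false
set_option linter.unusedSectionVars false

open Polynomial IsLocalRing

namespace SUP

/-! ## [SUP-C2b] reduction of ideals (file C2b.lean, continuation of C2.lean; uses C0, C1, A3, A9, A10, L1) -/

variable {F : Type} [Field F] [IsAlgClosed F] {V : ValuationSubring F} {ι : Type} [Fintype ι]
  {ℓ : ℕ} [hℓ : Fact ℓ.Prime] {e : ι → ZMod ℓ} {α : ι → V}
  [hG : Fact (Good e (fun a => (α a : F)))] [hG' : Fact (Good e (fun a => residue V (α a)))]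

omit [IsAlgClosed F] hG hG' in
/-- the reduction does not raise the order of the pole -/
theorem c2b_pord_rd_le (b : BB e α) : pord (rd e α b) ≤ pord (inc e α b) := by
  rw [← mem_Ble_iff, mem_Ble]
  intro j i h
  have h1 := mem_Ble_pord (inc e α b) j i h
  rw [inc_co, Polynomial.coeff_map] at h1
  have h2 : (b.co j).coeff i = 0 := V.subtype_injective (h1.trans (map_zero _).symm)
  rw [rd_co, Polynomial.coeff_map, h2, map_zero]

omit [IsAlgClosed F] in
/-- the easy inclusion, by `gauss` -/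
theorem c2b_le {J : Ideal (BB e (fun a => (α a : F)))} {N : ℕ}
    (g : BB e α) (hg : rd e α g ≠ 0) (h : J ^ N = Ideal.span {inc e α g}) :
    (rI J) ^ N ≤ Ideal.span {rd e α g} := by
  rw [rI, ← Ideal.map_pow, Ideal.map_le_iff_le_comap]
  intro x hx
  have h1 : inc e α x ∈ Ideal.span {inc e α g} := by
    rw [← h]
    exact Ideal.le_comap_pow (K := J) (inc e α) N hx
  obtain ⟨c, hc⟩ := Ideal.mem_span_singleton.1 h1
  obtain ⟨b', hb'⟩ := gauss g x c hg hc
  have h2 : x = g * b' := inc_inj (by rw [map_mul, hb', hc])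
  rw [Ideal.mem_comap, Ideal.mem_span_singleton, h2, map_mul]
  exact Dvd.intro _ rfl

/-- Let `δ = len J`, `δ' = len (rI J)`. `pord (inc g) = N δ` (`len_span`, `len_pow`).
`(rI J)^N ≤ (rd g)`: `(rI J)^N` is generated by the products of `N` reductions `rd b_i`,
`inc b_i ∈ J`; `inc (∏ b_i) ∈ J^N = (inc g)`, so by `gauss` `∏ b_i = g b'` and
`rd (∏ b_i) ∈ (rd g)`. So `pord (rd g) ≤ N δ'`. On the other hand let `b`, `m` be as in
`exists_large`: `inc b^N = inc g * b'`, `b' = inc b''` (`gauss`), `pord b' ≤ N m - N δ`, so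
`N pord (rd b) = pord (rd g) + pord (rd b'') ≤ pord (rd g) + N m - N δ` and
`pord (rd g) ≥ N (pord (rd b) - m + δ) ≥ N δ'`. So `len (rd g) = N δ' = len ((rI J)^N)` and
`eq_of_len_eq` applies. -/
theorem rI_pow {J : Ideal (BB e (fun a => (α a : F)))} (hJ : J ≠ ⊥) {N : ℕ} (hN : 0 < N)
    (g : BB e α) (hg : rd e α g ≠ 0) (h : J ^ N = Ideal.span {inc e α g}) :
    (rI J) ^ N = Ideal.span {rd e α g} := by
  have hs := hG.out.sum
  have hle := c2b_le g hg h
  have hI : (rI J) ^ N ≠ ⊥ := pow_ne_zero N (rI_ne_bot hJ)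
  have hne : ∀ x : BB e α, rd e α x ≠ 0 → inc e α x ≠ 0 := by
    intro x hx h0
    apply hx
    rw [inc_inj (h0.trans (map_zero (inc e α)).symm), map_zero]
  refine eq_of_len_eq hI hle (le_antisymm ?_ (len_mono hI hle))
  rw [len_pow (rI_ne_bot hJ), len_span hg]
  obtain ⟨m, b, hb, hbm, hb0, hlarge⟩ := exists_large hJ
  have hbN0 : rd e α (b ^ N) ≠ 0 := by
    rw [map_pow]
    exact pow_ne_zero N hb0
  have h1 : inc e α (b ^ N) ∈ Ideal.span {inc e α g} := by
    rw [← h, map_pow]
    exact Ideal.pow_mem_pow hb N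
  obtain ⟨c, hc⟩ := Ideal.mem_span_singleton.1 h1
  obtain ⟨b', hb'⟩ := gauss g (b ^ N) c hg hc
  have h2 : b ^ N = g * b' := inc_inj (by rw [map_mul, hb', hc])
  have hb'0 : rd e α b' ≠ 0 := by
    intro h0
    apply hbN0
    rw [h2, map_mul, h0, mul_zero]
  have h3 : pord (inc e α g) = N * len J := by
    rw [← len_span (hne g hg), ← h, len_pow hJ]
  have h4 : N * pord (inc e α b) = N * len J + pord (inc e α b') := by
    rw [← h3, ← pord_mul hs (hne g hg) (hne b' hb'0), ← map_mul, ← h2, map_pow,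
      pord_pow hs (hne b hb0)]
  have h5 : N * pord (rd e α b) = pord (rd e α g) + pord (rd e α b') := by
    rw [← pord_mul hs hg hb'0, ← map_mul, ← h2, map_pow, pord_pow hs hb0]
  have h6 := c2b_pord_rd_le b'
  have h7 : N * (m + len (rI J)) ≤ N * (pord (rd e α b) + len J) := Nat.mul_le_mul_left N hlarge
  have h8 : N * pord (inc e α b) ≤ N * m := Nat.mul_le_mul_left N hbm
  rw [mul_add, mul_add] at h7
  omega

end SUP
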