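import Pool.Agent.MP_c1dca2_ag.SUP.C2b

set_option autoImplicit false
set_option linter.unusedSectionVars false

open Polynomial IsLocalRing

namespace SUP

/-! ## [SUP-C3] reduction of torsion classes (file C3.lean; uses C0, C2, A3, L1) -/

variable {F : Type} [Field F] [IsAlgClosed F] {V : ValuationSubring F} {ι : Type} [Fintype ι]
  {ℓ : ℕ} [hℓ : Fact ℓ.Prime] {e : ι → ZMod ℓ} {α : ι → V}
  [hG : Fact (Good e (fun a => (α a : F)))] [hG' : Fact (Good e (fun a => residue V (α a)))]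

omit hG' in
theorem c3_cls_pow {I : Ideal (BB e (fun a => (α a : F)))} (hI : I ≠ ⊥) (n : ℕ) : cls (I ^ n) = cls I ^ n := by
  induction n with
  | zero =>
    rw [pow_zero, pow_zero, Ideal.one_eq_top, ← Ideal.span_singleton_one]
    exact cls_span one_ne_zero
  | succ n ih =>
    have h1 : I ^ n ≠ ⊥ := pow_ne_zero n hI
    rw [pow_succ, cls_mul h1 hI, ih, pow_succ]

omit hG' in
theorem c3_normal {x : BB e (fun a => (α a : F))} (hx : x ≠ 0) :
    ∃ g : BB e α, rd e α g ≠ 0 ∧ (Ideal.span {x} : Ideal (BB e (fun a => (α a : F)))) = Ideal.span {inc e α g} := by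
  obtain ⟨c, g, hc, h1, h2⟩ := exists_normal x hx
  exact ⟨g, h2, span_eq_iff.2 ⟨c, hc, h1⟩⟩

omit hG' in
theorem c3_gen {J : Ideal (BB e (fun a => (α a : F)))} (hJ : J ≠ ⊥) {N : ℕ} (ht : cls J ^ N = 1) :
    ∃ g : BB e α, rd e α g ≠ 0 ∧ J ^ N = Ideal.span {inc e α g} := by
  have h1 : J ^ N ≠ ⊥ := pow_ne_zero N hJ
  rw [← c3_cls_pow hJ, cls_eq_one_iff h1] at ht
  obtain ⟨x, hx⟩ := ht
  have hx0 : x ≠ 0 := by
    intro h0
    apply h1
    rw [hx, h0, Ideal.span_singleton_eq_bot]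
  obtain ⟨g, hg, hg2⟩ := c3_normal hx0
  exact ⟨g, hg, hx.trans hg2⟩

/-- `J_i^N = (inc g_i)` with normalised `g_i` (`cls_eq_one_iff`, `exists_normal`),
`(b) J₁ J₂ = (b') J₃` (`cls_eq_iff`) with `b = inc β`, `b' = inc β'` normalised. Then
`inc (β^N g₁ g₂) = u inc (β'^N g₃)` with a constant `u` (`span_eq_iff`), which is a unit of `V`
(`unit_of`; the reduction of `B` is a domain). So, with `rI_pow`,
`((rd β) rI J₁ rI J₂)^N = ((rd β') rI J₃)^N`, and the `N`-th roots are equal (`eq_of_pow_eq`). -/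
theorem rI_cls_mul {J₁ J₂ J₃ : Ideal (BB e (fun a => (α a : F)))} (h₁ : J₁ ≠ ⊥) (h₂ : J₂ ≠ ⊥)
    (h₃ : J₃ ≠ ⊥) {N : ℕ} (hN : 0 < N) (ht₁ : cls J₁ ^ N = 1) (ht₂ : cls J₂ ^ N = 1)
    (h : cls J₁ * cls J₂ = cls J₃) : cls (rI J₁) * cls (rI J₂) = cls (rI J₃) := by
  have ht₃ : cls J₃ ^ N = 1 := by rw [← h, mul_pow, ht₁, ht₂, one_mul]
  obtain ⟨g₁, hg₁, e₁⟩ := c3_gen h₁ ht₁
  obtain ⟨g₂, hg₂, e₂⟩ := c3_gen h₂ ht₂
  obtain ⟨g₃, hg₃, e₃⟩ := c3_gen h₃ ht₃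
  have h12 : J₁ * J₂ ≠ ⊥ := mul_ne_zero h₁ h₂
  rw [← cls_mul h₁ h₂, cls_eq_iff h12 h₃] at h
  obtain ⟨x, y, hx, hy, hxy⟩ := h
  obtain ⟨b, hb, hxb⟩ := c3_normal hx
  obtain ⟨b', hb', hyb⟩ := c3_normal hy
  rw [hxb, hyb] at hxy
  have hpow := congrArg (fun I => I ^ N) hxy
  simp only [mul_pow] at hpow
  rw [e₁, e₂, e₃, Ideal.span_singleton_pow, Ideal.span_singleton_pow, Ideal.span_singleton_mul_span_singleton,
    Ideal.span_singleton_mul_span_singleton, Ideal.span_singleton_mul_span_singleton, ← map_pow, ← map_pow,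
    ← map_mul, ← map_mul, ← map_mul] at hpow
  obtain ⟨u, hu, hu2⟩ := span_eq_iff.1 hpow
  have hr1 : rd e α (b' ^ N * g₃) ≠ 0 := by
    rw [map_mul, map_pow]
    exact mul_ne_zero (pow_ne_zero _ hb') hg₃
  have hr2 : rd e α (b ^ N * (g₁ * g₂)) ≠ 0 := by
    rw [map_mul, map_pow, map_mul]
    exact mul_ne_zero (pow_ne_zero _ hb) (mul_ne_zero hg₁ hg₂)
  obtain ⟨u', hu', -, hu3⟩ := unit_of _ _ u hr1 hr2 hu2
  have hres : residue V u' ≠ 0 := by
    rw [Ne, residue_eq_zero_iff, mem_maximalIdeal, mem_nonunits_iff, not_not]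
    exact hu'
  have hspan : (Ideal.span {rd e α (b ^ N * (g₁ * g₂))} : Ideal (BB e (fun a => residue V (α a)))) =
      Ideal.span {rd e α (b' ^ N * g₃)} := by
    refine span_eq_iff.2 ⟨residue V u', hres, ?_⟩
    rw [hu3, rd_smul]
  have k₁ := rI_pow h₁ hN g₁ hg₁ e₁
  have k₂ := rI_pow h₂ hN g₂ hg₂ e₂
  have k₃ := rI_pow h₃ hN g₃ hg₃ e₃
  have n₁ := rI_ne_bot h₁
  have n₂ := rI_ne_bot h₂
  have n₃ := rI_ne_bot h₃
  have hsb : (Ideal.span {rd e α b} : Ideal (BB e (fun a => residue V (α a)))) ≠ ⊥ := by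
    rwa [Ne, Ideal.span_singleton_eq_bot]
  have hsb' : (Ideal.span {rd e α b'} : Ideal (BB e (fun a => residue V (α a)))) ≠ ⊥ := by
    rwa [Ne, Ideal.span_singleton_eq_bot]
  have hN' : (Ideal.span {rd e α b} * (rI J₁ * rI J₂)) ^ N = (Ideal.span {rd e α b'} * rI J₃) ^ N := by
    rw [mul_pow, mul_pow, mul_pow, k₁, k₂, k₃, Ideal.span_singleton_pow, Ideal.span_singleton_pow,
      Ideal.span_singleton_mul_span_singleton, Ideal.span_singleton_mul_span_singleton,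
      Ideal.span_singleton_mul_span_singleton, ← map_pow, ← map_pow, ← map_mul, ← map_mul, ← map_mul]
    exact hspan
  have hfin := eq_of_pow_eq (mul_ne_zero hsb (mul_ne_zero n₁ n₂)) (mul_ne_zero hsb' n₃) hN hN'
  rw [← cls_mul n₁ n₂, cls_eq_iff (mul_ne_zero n₁ n₂) n₃]
  exact ⟨_, _, hb, hb', hfin⟩

/-- The reduction of `⊤` is `⊤`. -/
theorem rI_top : rI (⊤ : Ideal (BB e (fun a => (α a : F)))) = ⊤ := by
  rw [rI, Ideal.comap_top, Ideal.map_top]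

end SUP
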