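import Pool.Agent.MP_c1dca2_ag.SUP.C3b
import Pool.Agent.MP_c1dca2_ag.SUP.B6b

set_option autoImplicit false
set_option linter.unusedSectionVars false

open Polynomial IsLocalRing

namespace SUP

/-! ## [SUP-C4] equivariance and injectivity of the reduction (file C4.lean; uses B1, B2, B3, B6,
C2, C3) -/

variable {F : Type} [Field F] {V : ValuationSubring F} {ι : Type} [Fintype ι]
  {ℓ : ℕ} [hℓ : Fact ℓ.Prime] {e : ι → ZMod ℓ} {α : ι → V}

/-- reduction commutes with compatible automorphisms -/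
theorem c4_gen {A B C : Type} [CommRing A] [CommRing B] [CommRing C] (i : A →+* B) (r : A →+* C)
    (hr : Function.Surjective r) (g : A ≃+* A) (G : B ≃+* B) (G' : C ≃+* C)
    (h1 : ∀ a, i (g a) = G (i a)) (h2 : ∀ a, r (g a) = G' (r a)) (J : Ideal B) :
    ((J.map G).comap i).map r = ((J.comap i).map r).map G' := by
  ext z
  constructor
  · intro hz
    obtain ⟨b, hb, rfl⟩ := (Ideal.mem_map_iff_of_surjective r hr).1 hz
    rw [Ideal.mem_comap] at hb
    obtain ⟨x, hx, hxb⟩ := (Ideal.mem_map_iff_of_surjective G G.surjective).1 hb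
    have h3 : x = i (g.symm b) := by
      apply G.injective
      rw [hxb, ← h1, RingEquiv.apply_symm_apply]
    refine (Ideal.mem_map_iff_of_surjective G' G'.surjective).2
      ⟨r (g.symm b), Ideal.mem_map_of_mem r ?_, ?_⟩
    · rw [Ideal.mem_comap, ← h3]
      exact hx
    · rw [← h2, RingEquiv.apply_symm_apply]
  · intro hz
    obtain ⟨w, hw, rfl⟩ := (Ideal.mem_map_iff_of_surjective G' G'.surjective).1 hz
    obtain ⟨b, hb, rfl⟩ := (Ideal.mem_map_iff_of_surjective r hr).1 hw
    rw [← h2]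
    refine Ideal.mem_map_of_mem r ?_
    rw [Ideal.mem_comap, h1]
    exact Ideal.mem_map_of_mem G (Ideal.mem_comap.1 hb)

theorem stR_fix {Ψ : F ≃+* F} (hS : Stab V Ψ) (hα : ∀ a, Ψ (α a : F) = (α a : F)) (a : ι) :
    stR hS (residue V (α a)) = residue V (α a) := by
  rw [stR_residue]
  congr 1
  exact Subtype.ext (hα a)

/-- `Ψ` acts on `B_V` through `stV`, compatibly with `inc` and `rd`. -/
theorem rI_bE {Ψ : F ≃+* F} (hS : Stab V Ψ) (hα : ∀ a, Ψ (α a : F) = (α a : F))
    (J : Ideal (BB e (fun a => (α a : F)))) :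
    rI (J.map (bE (e := e) (α := fun a => (α a : F)) Ψ hα)) =
      (rI J).map (bE (e := e) (α := fun a => residue V (α a)) (stR hS) (stR_fix hS hα)) := by
  have hV : ∀ a, stV hS (α a) = α a := fun a => Subtype.ext (hα a)
  refine c4_gen (inc e α) (rd e α) rd_surj (bE (e := e) (α := α) (stV hS) hV) _ _ ?_ ?_ J
  · intro b
    refine BB.ext (funext fun j => ?_)
    rw [inc_co, bE_co, bE_co, inc_co, Polynomial.map_map, Polynomial.map_map]
    congr 1
  · intro b
    refine BB.ext (funext fun j => ?_)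
    rw [rd_co, bE_co, bE_co, rd_co, Polynomial.map_map, Polynomial.map_map]
    congr 1

theorem coe_pow_one {ζ : V} (hζ : (ζ : F) ^ ℓ = 1) : (residue V ζ) ^ ℓ = 1 := by
  have h : ζ ^ ℓ = 1 := Subtype.ext (by simpa using hζ)
  rw [← map_pow, h, map_one]

/-- `σ` acts on `B_V`, compatibly with `inc` and `rd`. -/
theorem rI_sg {ζ : V} (hζ : (ζ : F) ^ ℓ = 1) (J : Ideal (BB e (fun a => (α a : F)))) :
    rI (J.map (sg (e := e) (α := fun a => (α a : F)) (ζ : F) hζ)) =
      (rI J).map (sg (e := e) (α := fun a => residue V (α a)) (residue V ζ)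
        (coe_pow_one hζ)) := by
  have hV : ζ ^ ℓ = 1 := Subtype.ext (by simpa using hζ)
  refine c4_gen (inc e α) (rd e α) rd_surj (sg (e := e) (α := α) ζ hV) _ _ ?_ ?_ J
  · intro b
    refine BB.ext (funext fun j => ?_)
    rw [inc_co, sg_co, sg_co, inc_co, Polynomial.map_mul, Polynomial.map_C, map_pow]
    rfl
  · intro b
    refine BB.ext (funext fun j => ?_)
    rw [rd_co, sg_co, sg_co, rd_co, Polynomial.map_mul, Polynomial.map_C, map_pow]

variable [IsAlgClosed F] [hG : Fact (Good e (fun a => (α a : F)))]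
  [hG' : Fact (Good e (fun a => residue V (α a)))]

end SUP
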