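import Pool.Agent.MP_c1dca2_ag.SUP.C4

set_option autoImplicit false
set_option linter.unusedSectionVars false

open Polynomial IsLocalRing

namespace SUP

/-! ## [SUP-C4b] equivariance and injectivity of the reduction (file C4b.lean, continuation of C4.lean; uses B1, B2, B3, B6,
C2, C3) -/

variable {F : Type} [Field F] {V : ValuationSubring F} {ι : Type} [Fintype ι]
  {ℓ : ℕ} [hℓ : Fact ℓ.Prime] {e : ι → ZMod ℓ} {α : ι → V}

variable [IsAlgClosed F] [hG : Fact (Good e (fun a => (α a : F)))]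
  [hG' : Fact (Good e (fun a => residue V (α a)))]

/-- `PI a ^ ℓ = (X - α a)` (`PI_pow`), so by `rI_pow` `rI (PI a)^ℓ = (X - α a) = PI a ^ ℓ`, and
`eq_of_pow_eq`. -/
theorem rI_PI (a : ι) : rI (PI e (fun a => (α a : F)) a) = PI e (fun a => residue V (α a)) a := by
  have h1 := PI_pow (e := e) (α := fun a => (α a : F)) a
  have h2 := PI_pow (e := e) (α := fun a => residue V (α a)) a
  have hinc : inc e α (algebraMap (Polynomial V) (BB e α) (X - C (α a))) =
      algebraMap F[X] (BB e (fun a => (α a : F))) (X - C (α a : F)) := by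
    refine (bmap_algebraMap (e := e) (α := α) (β := fun a => (α a : F)) V.subtype (fun _ => rfl)
      (X - C (α a))).trans ?_
    rw [Polynomial.map_sub, map_X, map_C]
    rfl
  have hrd : rd e α (algebraMap (Polynomial V) (BB e α) (X - C (α a))) =
      algebraMap (Polynomial (ResidueField V)) (BB e (fun a => residue V (α a)))
        (X - C (residue V (α a))) := by
    refine (bmap_algebraMap (e := e) (α := α) (β := fun a => residue V (α a)) (residue V)
      (fun _ => rfl) (X - C (α a))).trans ?_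
    rw [Polynomial.map_sub, map_X, map_C]
  have hne : rd e α (algebraMap (Polynomial V) (BB e α) (X - C (α a))) ≠ 0 := by
    rw [hrd]
    intro h0
    exact X_sub_C_ne_zero (residue V (α a)) (BB.algebraMap_injective (h0.trans (map_zero _).symm))
  have h3 := rI_pow (PI_ne_bot (e := e) (α := fun a => (α a : F)) a) hℓ.out.pos
    (algebraMap (Polynomial V) (BB e α) (X - C (α a))) hne (by rw [h1, hinc])
  rw [hrd, ← h2] at h3
  exact eq_of_pow_eq (rI_ne_bot (PI_ne_bot (e := e) (α := fun a => (α a : F)) a))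
    (PI_ne_bot (e := e) (α := fun a => residue V (α a)) a) hℓ.out.pos h3

theorem c4b_cls_pow {B : Type} [CommRing B] [IsDedekindDomain B] {I : Ideal B} (hI : I ≠ ⊥) (n : ℕ) :
    cls (I ^ n) = cls I ^ n := by
  induction n with
  | zero =>
    rw [pow_zero, pow_zero, Ideal.one_eq_top, ← Ideal.span_singleton_one]
    exact cls_span one_ne_zero
  | succ n ih => rw [pow_succ, cls_mul (pow_ne_zero n hI) hI, ih, pow_succ]

theorem c4b_PI_tors {κ : Type} [Field κ] [IsAlgClosed κ] {β : ι → κ} [Fact (Good e β)] (a : ι) (m : ℕ) :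
    cls (PI e β a ^ m) ^ ℓ = 1 := by
  rw [c4b_cls_pow (PI_ne_bot a), ← pow_mul, mul_comm, pow_mul, ← c4b_cls_pow (PI_ne_bot a), PI_pow a,
    cls_span, one_pow]
  intro h0
  exact X_sub_C_ne_zero (β a) (BB.algebraMap_injective (h0.trans (map_zero _).symm))

theorem c4b_prod_ne {κ : Type} [Field κ] [IsAlgClosed κ] {β : ι → κ} [Fact (Good e β)] (n : ι → ℕ)
    (s : Finset ι) : ∏ a ∈ s, PI e β a ^ n a ≠ ⊥ :=
  Finset.prod_ne_zero_iff.2 fun a _ => pow_ne_zero _ (PI_ne_bot a)

theorem c4b_prod_tors {κ : Type} [Field κ] [IsAlgClosed κ] {β : ι → κ} [Fact (Good e β)] (n : ι → ℕ)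
    (s : Finset ι) : cls (∏ a ∈ s, PI e β a ^ n a) ^ ℓ = 1 := by
  classical
  induction s using Finset.induction_on with
  | empty =>
    rw [Finset.prod_empty, Ideal.one_eq_top, ← Ideal.span_singleton_one, cls_span one_ne_zero, one_pow]
  | insert a s ha ih =>
    rw [Finset.prod_insert ha, cls_mul (pow_ne_zero _ (PI_ne_bot a)) (c4b_prod_ne n s), mul_pow,
      c4b_PI_tors, ih, one_mul]

theorem c4b_pow (a : ι) (m : ℕ) : cls (rI (PI e (fun a => (α a : F)) a ^ m)) =
    cls (PI e (fun a => residue V (α a)) a ^ m) := by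
  induction m with
  | zero =>
    rw [pow_zero, pow_zero, Ideal.one_eq_top, Ideal.one_eq_top, rI_top]
  | succ m ih =>
    have hP := PI_ne_bot (e := e) (α := fun a => (α a : F)) a
    have h1 := c4b_PI_tors (e := e) (β := fun a => (α a : F)) a 1
    rw [pow_one] at h1
    rw [pow_succ, pow_succ, cls_mul (pow_ne_zero m (PI_ne_bot (e := e) (α := fun a => residue V (α a)) a))
      (PI_ne_bot (e := e) (α := fun a => residue V (α a)) a), ← ih, ← rI_PI]
    exact (rI_cls_mul (pow_ne_zero m hP) hP (mul_ne_zero (pow_ne_zero m hP) hP) hℓ.out.pos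
      (c4b_PI_tors a m) h1 (cls_mul (pow_ne_zero m hP) hP).symm).symm

/-- By induction with `rI_cls_mul` and `rI_PI` (all classes are killed by `ℓ`: `PI_pow`). -/
theorem cls_rI_prod (n : ι → ℕ) : cls (rI (∏ a, PI e (fun a => (α a : F)) a ^ n a)) =
    cls (∏ a, PI e (fun a => residue V (α a)) a ^ n a) := by
  classical
  suffices h : ∀ s : Finset ι, cls (rI (∏ a ∈ s, PI e (fun a => (α a : F)) a ^ n a)) =
      cls (∏ a ∈ s, PI e (fun a => residue V (α a)) a ^ n a) from h Finset.univ
  intro s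
  induction s using Finset.induction_on with
  | empty => rw [Finset.prod_empty, Finset.prod_empty, Ideal.one_eq_top, Ideal.one_eq_top, rI_top]
  | insert a s ha ih =>
    have hP := pow_ne_zero (n a) (PI_ne_bot (e := e) (α := fun a => (α a : F)) a)
    have hQ := c4b_prod_ne (e := e) (β := fun a => (α a : F)) n s
    rw [Finset.prod_insert ha, Finset.prod_insert ha,
      cls_mul (pow_ne_zero _ (PI_ne_bot (e := e) (α := fun a => residue V (α a)) a))
        (c4b_prod_ne (e := e) (β := fun a => residue V (α a)) n s), ← ih, ← c4b_pow]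
    exact (rI_cls_mul hP hQ (mul_ne_zero hP hQ) hℓ.out.pos (c4b_PI_tors a (n a)) (c4b_prod_tors n s)
      (cls_mul hP hQ).symm).symm

/-- `torsion_of_mem`, `rcl_div`, `rI_sg`, `cls_rI`, `clm_cls`. -/
theorem rcl_piH {ζ : V} (hζ : IsPrimitiveRoot (ζ : F) ℓ)
    (D : ClassGroup (BB e (fun a => (α a : F))))
    (hD : D ∈ AA (sg (e := e) (α := fun a => (α a : F)) (ζ : F) hζ.pow_eq_one)) :
    rcl (piH (sg (e := e) (α := fun a => (α a : F)) (ζ : F) hζ.pow_eq_one) D) =
      piH (sg (e := e) (α := fun a => residue V (α a)) (residue V ζ)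
        (coe_pow_one hζ.pow_eq_one)) (rcl D) := by
  obtain ⟨n, hn⟩ := torsion_of_mem (ζ : F) hζ D hD
  have hN : 0 < ℓ ^ n := pow_pos hℓ.out.pos n
  have hn' : (clm (sg (e := e) (α := fun a => (α a : F)) (ζ : F) hζ.pow_eq_one) D) ^ (ℓ ^ n) = 1 := by
    rw [← map_pow, hn, map_one]
  rw [piH_apply, piH_apply, rcl_div hN hn hn']
  congr 1
  obtain ⟨J, hJ, rfl⟩ := exists_cls D
  have hJ' := map_ne_bot (sg (e := e) (α := fun a => (α a : F)) (ζ : F) hζ.pow_eq_one) hJ
  rw [clm_cls _ hJ] at hn' ⊢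
  rw [← cls_rI hJ' hN hn', ← cls_rI hJ hN hn, rI_sg hζ.pow_eq_one, clm_cls _ (rI_ne_bot hJ)]

end SUP
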