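import Pool.Agent.MP_c1dca2_ag.SUP.C4b

set_option autoImplicit false
set_option linter.unusedSectionVars false

open Polynomial IsLocalRing

namespace SUP

/-! ## [SUP-C4c] equivariance and injectivity of the reduction (file C4c.lean, continuation of C4b.lean; uses B1, B2, B3, B6,
C2, C3) -/

variable {F : Type} [Field F] {V : ValuationSubring F} {ι : Type} [Fintype ι]
  {ℓ : ℕ} [hℓ : Fact ℓ.Prime] {e : ι → ZMod ℓ} {α : ι → V}

variable [IsAlgClosed F] [hG : Fact (Good e (fun a => (α a : F)))]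
  [hG' : Fact (Good e (fun a => residue V (α a)))]

/-- Let `D ≠ 1` and `k` maximal with `D' = (1 - σ)^k D ≠ 1`; `D'` is fixed by `σ`, so
`D' = cls (∏ PI a ^ n a)` (`fixed_class`). `rcl D' = (1 - σ)^k (rcl D) = 1` (`rcl_piH`, the iterates
stay in `AA`), so `cls (∏ PI a ^ n a) = 1` in the reduction (`cls_rI_prod`, `cls_rI`) and by
`prod_principal_iff` (for both fields: the criterion is the same) `D' = 1`, a contradiction. -/
theorem rcl_inj {ζ : V} (hζ : IsPrimitiveRoot (ζ : F) ℓ)
    (hζ' : IsPrimitiveRoot (residue V ζ) ℓ) (D : ClassGroup (BB e (fun a => (α a : F))))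
    (hD : D ∈ AA (sg (e := e) (α := fun a => (α a : F)) (ζ : F) hζ.pow_eq_one))
    (h : rcl D = 1) : D = 1 := by
  classical
  have hAA : ∀ k : ℕ, (piH (sg (e := e) (α := fun a => (α a : F)) (ζ : F) hζ.pow_eq_one))^[k] D ∈
      AA (sg (e := e) (α := fun a => (α a : F)) (ζ : F) hζ.pow_eq_one) := by
    obtain ⟨m, hm⟩ := mem_AA.1 hD
    intro k
    refine mem_AA.2 ⟨m, ?_⟩
    rw [← Function.iterate_add_apply, add_comm, Function.iterate_add_apply, hm, iterate_map_one]
  have hit : ∀ k : ℕ, rcl ((piH (sg (e := e) (α := fun a => (α a : F)) (ζ : F) hζ.pow_eq_one))^[k] D) =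
      1 := by
    intro k
    induction k with
    | zero => exact h
    | succ k ih =>
      rw [Function.iterate_succ_apply', rcl_piH hζ _ (hAA k), ih, map_one]
  by_contra hD1
  have hex := mem_AA.1 hD
  have hn := Nat.find_spec hex
  have hn0 : Nat.find hex ≠ 0 := by
    intro h0
    rw [h0] at hn
    exact hD1 hn
  obtain ⟨k, hk⟩ := Nat.exists_eq_succ_of_ne_zero hn0
  have hk1 := Nat.find_min hex (m := k) (by omega)
  rw [hk, Nat.succ_eq_add_one, Function.iterate_succ_apply'] at hn
  have hrcl := hit k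
  generalize (piH (sg (e := e) (α := fun a => (α a : F)) (ζ : F) hζ.pow_eq_one))^[k] D = D' at hn hk1 hrcl
  rw [piH_apply, div_eq_one] at hn
  obtain ⟨n, hn'⟩ := fixed_class (ζ : F) hζ D' hn.symm
  subst hn'
  have hP := c4b_prod_ne (e := e) (β := fun a => (α a : F)) n Finset.univ
  rw [← cls_rI hP hℓ.out.pos (c4b_prod_tors n Finset.univ), cls_rI_prod,
    cls_eq_one_iff (c4b_prod_ne (e := e) (β := fun a => residue V (α a)) n Finset.univ),
    prod_principal_iff (residue V ζ) hζ' n, ← prod_principal_iff (α := fun a => (α a : F)) (ζ : F) hζ n,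
    ← cls_eq_one_iff hP] at hrcl
  exact hk1 hrcl

end SUP
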