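import Pool.Agent.MP_c1dca2_ag.SUP.C4c

set_option autoImplicit false
set_option linter.unusedSectionVars false

open Polynomial IsLocalRing

namespace SUP

/-! ## [SUP-C5] inertia acts trivially, Frobenius has finitely many fixed points (file C5.lean; uses
B2, B6, C3, C4, A10, L1) -/

variable {F : Type} [Field F] [IsAlgClosed F] {V : ValuationSubring F} {ι : Type} [Fintype ι]
  {ℓ : ℕ} [hℓ : Fact ℓ.Prime] {e : ι → ZMod ℓ} {α : ι → V}
  [hG : Fact (Good e (fun a => (α a : F)))] [hG' : Fact (Good e (fun a => residue V (α a)))]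

theorem c5_piH_clm {ζ : V} (hζ : (ζ : F) ^ ℓ = 1) {Ψ : F ≃+* F} (hΨζ : Ψ (ζ : F) = (ζ : F))
    (hα : ∀ a, Ψ (α a : F) = (α a : F)) (D : ClassGroup (BB e (fun a => (α a : F)))) :
    piH (sg (e := e) (α := fun a => (α a : F)) (ζ : F) hζ)
      (clm (bE (e := e) (α := fun a => (α a : F)) Ψ hα) D) =
    clm (bE (e := e) (α := fun a => (α a : F)) Ψ hα)
      (piH (sg (e := e) (α := fun a => (α a : F)) (ζ : F) hζ) D) := by
  rw [piH_apply, piH_apply, _root_.map_div]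
  congr 1
  refine (clm_clm _ _ ((bE (e := e) (α := fun a => (α a : F)) Ψ hα).trans
    (sg (e := e) (α := fun a => (α a : F)) (ζ : F) hζ)) (fun b => rfl) D).trans
    (clm_clm _ _ _ (fun b => ?_) D).symm
  exact sg_bE (ζ : F) hζ Ψ hα hΨζ b

/-- An automorphism `Ψ` fixing `ζ` commutes with `σ` on classes, so `AA` is stable. -/
theorem clm_mem_AA {ζ : V} (hζ : (ζ : F) ^ ℓ = 1) {Ψ : F ≃+* F} (hΨζ : Ψ (ζ : F) = (ζ : F))
    (hα : ∀ a, Ψ (α a : F) = (α a : F)) {D : ClassGroup (BB e (fun a => (α a : F)))}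
    (hD : D ∈ AA (sg (e := e) (α := fun a => (α a : F)) (ζ : F) hζ)) :
    clm (bE (e := e) (α := fun a => (α a : F)) Ψ hα) D ∈
      AA (sg (e := e) (α := fun a => (α a : F)) (ζ : F) hζ) := by
  obtain ⟨n, hn⟩ := mem_AA.1 hD
  have h : ∀ n : ℕ, (piH (sg (e := e) (α := fun a => (α a : F)) (ζ : F) hζ))^[n]
      (clm (bE (e := e) (α := fun a => (α a : F)) Ψ hα) D) =
      clm (bE (e := e) (α := fun a => (α a : F)) Ψ hα)
        ((piH (sg (e := e) (α := fun a => (α a : F)) (ζ : F) hζ))^[n] D) := by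
    intro n
    induction n with
    | zero => rfl
    | succ n ih => rw [Function.iterate_succ_apply', ih, c5_piH_clm hζ hΨζ hα,
        ← Function.iterate_succ_apply' (piH (sg (e := e) (α := fun a => (α a : F)) (ζ : F) hζ))]
  exact mem_AA.2 ⟨n, by rw [h, hn, map_one]⟩

/-- `1 - σ` commutes with `Ψ`. -/
theorem piH_clm {ζ : V} (hζ : (ζ : F) ^ ℓ = 1) {Ψ : F ≃+* F} (hΨζ : Ψ (ζ : F) = (ζ : F))
    (hα : ∀ a, Ψ (α a : F) = (α a : F)) (D : ClassGroup (BB e (fun a => (α a : F)))) :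
    piH (sg (e := e) (α := fun a => (α a : F)) (ζ : F) hζ)
      (clm (bE (e := e) (α := fun a => (α a : F)) Ψ hα) D) =
    clm (bE (e := e) (α := fun a => (α a : F)) Ψ hα)
      (piH (sg (e := e) (α := fun a => (α a : F)) (ζ : F) hζ) D) :=
  c5_piH_clm hζ hΨζ hα D

theorem c5_stR {Ψ : F ≃+* F} (hS : Stab V Ψ) (z w : V) (h : Ψ z - w ∈ V.nonunits) :
    stR hS (residue V z) = residue V w := by
  rw [stR_residue, ← sub_eq_zero, ← map_sub, residue_eq_zero_iff, ← ValuationSubring.coe_mem_nonunits_iff]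
  exact h

/-- `Ψ` acts trivially on the residue field: `Ψ ζ = ζ` (`Ψ ζ / ζ` is an `ℓ`-th root of unity
congruent to `1`; different `ℓ`-th roots of unity are incongruent since `residue ζ` is
a primitive `ℓ`-th root of unity), `stR = id`, so `rcl (Ψ D) = rcl D` (`rI_bE`, `cls_rI`,
`torsion_of_mem`) and `Ψ D = D` by `rcl_inj` and `rcl_div`. -/
theorem inertia_trivial {ζ : V} (hζ : IsPrimitiveRoot (ζ : F) ℓ)
    (hζ' : IsPrimitiveRoot (residue V ζ) ℓ) {Ψ : F ≃+* F} (hS : Stab V Ψ)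
    (hI : ∀ z ∈ V, Ψ z - z ∈ V.nonunits) (hα : ∀ a, Ψ (α a : F) = (α a : F))
    (D : ClassGroup (BB e (fun a => (α a : F))))
    (hD : D ∈ AA (sg (e := e) (α := fun a => (α a : F)) (ζ : F) hζ.pow_eq_one)) :
    clm (bE (e := e) (α := fun a => (α a : F)) Ψ hα) D = D := by
  have hres : ∀ x : ResidueField V, stR hS x = x := by
    intro x
    obtain ⟨z, rfl⟩ := residue_surjective x
    exact c5_stR hS z z (hI z z.2)
  have hΨζ : Ψ (ζ : F) = (ζ : F) := by
    obtain ⟨i, hi, hi'⟩ := hζ.eq_pow_of_pow_eq_one (ξ := Ψ (ζ : F))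
      (by rw [← map_pow, hζ.pow_eq_one, map_one])
    have h1 : stV hS ζ = ζ ^ i := Subtype.ext (by rw [stV_coe, ← hi']; rfl)
    have h2 : residue V ζ ^ i = residue V ζ ^ 1 := by
      rw [← map_pow, ← h1, ← stR_residue, hres, pow_one]
    have h3 := hζ'.pow_inj hi hℓ.out.one_lt h2
    rw [← hi', h3, pow_one]
  obtain ⟨n, hn⟩ := torsion_of_mem (ζ : F) hζ D hD
  have hN : 0 < ℓ ^ n := pow_pos hℓ.out.pos n
  have hn' : (clm (bE (e := e) (α := fun a => (α a : F)) Ψ hα) D) ^ (ℓ ^ n) = 1 := by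
    rw [← map_pow, hn, map_one]
  have hrcl : rcl (clm (bE (e := e) (α := fun a => (α a : F)) Ψ hα) D) = rcl D := by
    obtain ⟨J, hJ, rfl⟩ := exists_cls D
    have hJ' := map_ne_bot (bE (e := e) (α := fun a => (α a : F)) Ψ hα) hJ
    rw [clm_cls _ hJ] at hn' ⊢
    rw [← cls_rI hJ' hN hn', ← cls_rI hJ hN hn, rI_bE hS hα, ← clm_cls _ (rI_ne_bot hJ)]
    refine clm_id _ (fun b => BB.ext (funext fun j => ?_)) _
    rw [bE_co]
    refine Polynomial.ext fun i => ?_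
    rw [Polynomial.coeff_map]
    exact hres _
  rw [← div_eq_one]
  refine rcl_inj hζ hζ' _ (Subgroup.div_mem _ (clm_mem_AA hζ.pow_eq_one hΨζ hα hD) hD) ?_
  rw [rcl_div hN hn' hn, hrcl, div_self']

end SUP
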