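import Pool.Agent.MP_c1dca2_ag.SUP.C5b

set_option autoImplicit false
set_option linter.unusedSectionVars false

open Polynomial IsLocalRing

namespace SUP

/-! ## [SUP-C5c] inertia acts trivially, Frobenius has finitely many fixed points (file C5c.lean, continuation of C5b.lean; uses
B2, B6, C3, C4, A10, L1) -/

variable {F : Type} [Field F] [IsAlgClosed F] {V : ValuationSubring F} {ι : Type} [Fintype ι]
  {ℓ : ℕ} [hℓ : Fact ℓ.Prime] {e : ι → ZMod ℓ} {α : ι → V}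
  [hG : Fact (Good e (fun a => (α a : F)))] [hG' : Fact (Good e (fun a => residue V (α a)))]

/-- The map `D ↦ rI (rdc D)` is injective on `AA` (`cls (rI (rdc D)) = rcl D`; `rcl_inj`,
`rcl_div`, `torsion_of_mem`), and if `D` is fixed by `Ψ`, the ideal `rI (rdc D)` is fixed by the
coefficientwise `Q`-power map (`rdc_map`, `rI_bE`), and `len ≤ gp e` (`len_rI_le`, `len_rdc`). -/
theorem finite_fixed_classes {ζ : V} (hζ : IsPrimitiveRoot (ζ : F) ℓ)
    (hζ' : IsPrimitiveRoot (residue V ζ) ℓ) {Ψ : F ≃+* F} (hS : Stab V Ψ) (Q : ℕ) (hQ : 2 ≤ Q)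
    (hF : ∀ z ∈ V, Ψ z - z ^ Q ∈ V.nonunits) (hα : ∀ a, Ψ (α a : F) = (α a : F)) :
    {D : ClassGroup (BB e (fun a => (α a : F))) |
      D ∈ AA (sg (e := e) (α := fun a => (α a : F)) (ζ : F) hζ.pow_eq_one) ∧
      clm (bE (e := e) (α := fun a => (α a : F)) Ψ hα) D = D}.Finite := by
  have hφ : ∀ x : ResidueField V, stR hS x = x ^ Q := by
    intro x
    obtain ⟨z, rfl⟩ := residue_surjective x
    rw [← map_pow]
    exact c5_stR hS z (z ^ Q) (hF z z.2)
  refine Set.Finite.of_injOn (f := fun D => rI (rdc D)) ?_ ?_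
    (finite_fixed_ideals (residue V ζ) hζ' (stR hS) Q hQ hφ (stR_fix hS hα) (gp e))
  · rintro D ⟨-, hD⟩
    refine ⟨rI_ne_bot (rdc_ne D), (len_rI_le (rdc_ne D)).trans (len_rdc D), ?_⟩
    change (rI (rdc D)).map _ = rI (rdc D)
    rw [← rI_bE hS hα, rdc_map, hD]
  · rintro D ⟨hD, -⟩ D' ⟨hD', -⟩ h
    obtain ⟨n, hn⟩ := torsion_of_mem (ζ : F) hζ D hD
    obtain ⟨n', hn'⟩ := torsion_of_mem (ζ : F) hζ D' hD'
    have hN : 0 < ℓ ^ (n + n') := pow_pos hℓ.out.pos _
    have h1 : D ^ ℓ ^ (n + n') = 1 := by rw [pow_add, pow_mul, hn, one_pow]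
    have h2 : D' ^ ℓ ^ (n + n') = 1 := by rw [add_comm, pow_add, pow_mul, hn', one_pow]
    have h3 : rcl D = rcl D' := congrArg cls h
    rw [← div_eq_one]
    refine rcl_inj hζ hζ' _ (Subgroup.div_mem _ hD hD') ?_
    rw [rcl_div hN h1 h2, h3, div_self']

end SUP
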