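import Pool.Agent.MP_c1dca2_ag.SUP.E3

/-!
# [SUP-E5] The global theorem: no sections for 100% of the superelliptic twists
-/

set_option autoImplicit false

open NumberField IsLocalRing Polynomial Filter Topology SC4

namespace SUP

variable {k : Type} [Field k] [NumberField k]

theorem allSec_of_two (g : k[X]) (x : 𝓞 k) (P₁ P₂ : Ideal (𝓞 k)) (h₁ : GoodS g P₁)
    (h₂ : GoodS g P₂) (hne : Ideal.absNorm P₁ ≠ Ideal.absNorm P₂) (hx₁ : x ∈ P₁)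
    (hx₁' : x ∉ P₁ ^ 2) (hx₂ : x ∈ P₂) (hx₂' : x ∉ P₂ ^ 2) : AllSec k g (x : k) := by
  intro m f ℓ hℓ hℓm hf hadm
  by_cases h : ℓ = Ideal.absNorm P₁
  · exact h₂ x hx₂ hx₂' m f ℓ hℓ (fun h' => hne (h.symm.trans h')) hℓm hf hadm
  · exact h₁ x hx₁ hx₁' m f ℓ hℓ h hℓm hf hadm

theorem global_main (g : k[X]) (hsep : g.Separable) (h3 : 3 ≤ g.natDegree)
    (hσ : Irreducible g ∨ ∃ σ : g.SplittingField ≃ₐ[k] g.SplittingField,
      ∀ r : g.SplittingField, aeval r g = 0 → σ r ≠ r)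
    {ι : Type} [Fintype ι] (b : Module.Basis ι ℤ (𝓞 k)) :
    Tendsto (fun N : ℕ =>
      (Nat.card {c : ι → ℤ // (∀ i, |c i| ≤ N) ∧
        ¬ AllSec k g ((∑ i, c i • b i : 𝓞 k) : k)} : ℝ) /
      (2 * N + 1) ^ (Fintype.card ι)) atTop (𝓝 0) := by
  classical
  have hσ' : ∃ σ : g.SplittingField ≃ₐ[k] g.SplittingField,
      ∀ r : g.SplittingField, aeval r g = 0 → σ r ≠ r := by
    rcases hσ with h | h
    · exact exists_derangement g h hsep (by omega)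
    · exact h
  set Q : Set ℕ := {p : ℕ | p.Prime ∧ ∃ P : Ideal (𝓞 k), Ideal.absNorm P = p ∧ GoodS g P} with hQ
  have hex : ∀ p : ℕ, ∃ P : Ideal (𝓞 k), p ∈ Q → Ideal.absNorm P = p ∧ GoodS g P := by
    intro p
    by_cases h : p ∈ Q
    · obtain ⟨P, hP⟩ := h.2
      exact ⟨P, fun _ => hP⟩
    · exact ⟨⊥, fun h' => absurd h' h⟩
  choose Pf hPf using hex
  have hex2 : ∀ p : ℕ, ∃ A : Set (ι → ZMod (p ^ 2)), p ∈ Q →
      ((Nat.card A : ℝ) ≤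
        (1 - ((p : ℝ) - 1) / (p : ℝ) ^ 2) * ((p : ℝ) ^ 2) ^ (Fintype.card ι) ∧
      ∀ c : ι → ℤ, ¬ ((∑ i, c i • b i) ∈ Pf p ∧ (∑ i, c i • b i) ∉ (Pf p) ^ 2) →
        (fun i => (c i : ZMod (p ^ 2))) ∈ A) := by
    intro p
    by_cases h : p ∈ Q
    · obtain ⟨A, hA⟩ := card_class b p h.1 (Pf p) (hPf p h).1
      exact ⟨A, fun _ => hA⟩
    · exact ⟨∅, fun h' => absurd h' h⟩
  choose Sp hSp using hex2
  obtain ⟨Q₁, Q₂, hQ₁, hQ₂, hdis, hs₁, hs₂⟩ := exists_split Q (fun p hp => hp.1.pos)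
    (good_set' g hsep h3 hσ')
  let X : Set ℕ → Set (ι → ℤ) := fun R =>
    {c | ∀ p ∈ R, ¬ ((∑ i, c i • b i) ∈ Pf p ∧ (∑ i, c i • b i) ∉ (Pf p) ^ 2)}
  have hd : ∀ R : Set ℕ, R ⊆ Q → ¬ Summable (fun p : R => ((p : ℕ) : ℝ)⁻¹) →
      Tendsto (fun N : ℕ => (Nat.card {c : ι → ℤ // (∀ i, |c i| ≤ N) ∧ c ∈ X R} : ℝ) /
        (2 * N + 1) ^ (Fintype.card ι)) atTop (𝓝 0) := by
    intro R hR hRs
    exact density_zero R (fun p hp => (hR hp).1) hRs Sp (fun p hp => (hSp p (hR hp)).1) (X R)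
      (fun c hc p hp => (hSp p (hR hp)).2 c (hc p hp))
  have hsub : ∀ c : ι → ℤ, ¬ AllSec k g ((∑ i, c i • b i : 𝓞 k) : k) → c ∈ X Q₁ ∨ c ∈ X Q₂ := by
    intro c hc
    by_contra hcon
    push Not at hcon
    obtain ⟨h1, h2⟩ := hcon
    have h1' : ∃ p ∈ Q₁, (∑ i, c i • b i) ∈ Pf p ∧ (∑ i, c i • b i) ∉ (Pf p) ^ 2 := by
      by_contra h
      push Not at h
      exact h1 fun p hp h' => h'.2 (h p hp h'.1)
    have h2' : ∃ p ∈ Q₂, (∑ i, c i • b i) ∈ Pf p ∧ (∑ i, c i • b i) ∉ (Pf p) ^ 2 := by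
      by_contra h
      push Not at h
      exact h2 fun p hp h' => h'.2 (h p hp h'.1)
    obtain ⟨p, hp, hp1, hp2⟩ := h1'
    obtain ⟨q, hq, hq1, hq2⟩ := h2'
    refine hc (allSec_of_two g _ (Pf p) (Pf q) (hPf p (hQ₁ hp)).2 (hPf q (hQ₂ hq)).2 ?_ hp1 hp2
      hq1 hq2)
    rw [(hPf p (hQ₁ hp)).1, (hPf q (hQ₂ hq)).1]
    rintro rfl
    exact (Set.disjoint_left.1 hdis hp) hq
  have hbox : ∀ N : ℕ, {c : ι → ℤ | ∀ i, |c i| ≤ (N : ℤ)}.Finite := by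
    intro N
    refine (Fintype.piFinset fun _ : ι => Finset.Icc (-(N : ℤ)) N).finite_toSet.subset ?_
    intro c hc
    rw [Finset.mem_coe, Fintype.mem_piFinset]
    intro i
    rw [Finset.mem_Icc]
    exact abs_le.1 (hc i)
  have hle : ∀ N : ℕ, (Nat.card {c : ι → ℤ // (∀ i, |c i| ≤ N) ∧
        ¬ AllSec k g ((∑ i, c i • b i : 𝓞 k) : k)} : ℝ) / (2 * N + 1) ^ (Fintype.card ι) ≤
      (Nat.card {c : ι → ℤ // (∀ i, |c i| ≤ N) ∧ c ∈ X Q₁} : ℝ) / (2 * N + 1) ^ (Fintype.card ι) +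
      (Nat.card {c : ι → ℤ // (∀ i, |c i| ≤ N) ∧ c ∈ X Q₂} : ℝ) /
        (2 * N + 1) ^ (Fintype.card ι) := by
    intro N
    rw [← add_div]
    have hpos : (0 : ℝ) < (2 * N + 1) ^ (Fintype.card ι) := by positivity
    rw [div_le_div_iff_of_pos_right hpos]
    have h1 : Nat.card {c : ι → ℤ // (∀ i, |c i| ≤ N) ∧
        ¬ AllSec k g ((∑ i, c i • b i : 𝓞 k) : k)} ≤
        Nat.card {c : ι → ℤ // (∀ i, |c i| ≤ N) ∧ c ∈ X Q₁} +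
        Nat.card {c : ι → ℤ // (∀ i, |c i| ≤ N) ∧ c ∈ X Q₂} := by
      have h2 : {c : ι → ℤ | (∀ i, |c i| ≤ (N : ℤ)) ∧
          ¬ AllSec k g ((∑ i, c i • b i : 𝓞 k) : k)} ⊆
          {c : ι → ℤ | (∀ i, |c i| ≤ (N : ℤ)) ∧ c ∈ X Q₁} ∪
          {c : ι → ℤ | (∀ i, |c i| ≤ (N : ℤ)) ∧ c ∈ X Q₂} := by
        rintro c ⟨hc1, hc2⟩
        rcases hsub c hc2 with h | h
        · exact Or.inl ⟨hc1, h⟩
        · exact Or.inr ⟨hc1, h⟩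
      have hf : ∀ R, {c : ι → ℤ | (∀ i, |c i| ≤ (N : ℤ)) ∧ c ∈ X R}.Finite := fun R =>
        (hbox N).subset fun c hc => hc.1
      exact (Set.ncard_le_ncard h2 ((hf Q₁).union (hf Q₂))).trans (Set.ncard_union_le _ _)
    exact_mod_cast h1
  refine squeeze_zero (fun N => by positivity) hle ?_
  have h := (hd Q₁ hQ₁ hs₁).add (hd Q₂ hQ₂ hs₂)
  rwa [add_zero] at h

end SUP
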