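import Pool.Agent.MP_c1dca2_ag.SUP.M1
import Pool.Agent.MP_c1dca2_ag.SC2.B2

set_option autoImplicit false
set_option linter.unusedSectionVars false

open Polynomial SEC SC2

namespace SUP

/-! ## [SUP-K1] the roots of `(x - r i) / (x - r o)` are unramified (file K1.lean; uses M1; compare
`SC2.exists_S` in SC2/B7.lean) -/

variable {k K : Type} [Field k] [Field K] [Algebra k K] {ℓ : ℕ} [hℓ : Fact ℓ.Prime]

theorem k1_const_le (B : ValuationSubring (Om K)) (hB : IsPlace k K B) (a : kb k K) :
    B.valuation (a : Om K) ≤ 1 := by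
  by_cases ha : a = 0
  · rw [ha]
    exact le_of_eq_of_le (map_zero B.valuation) zero_le
  · exact (val_const B hB a ha).le

/-- `x - r` for `r ∈ k^alg`, in `M`. -/
noncomputable def k1_u (x : K) (r : kb k K) : Mnr k K :=
  algebraMap K (Mnr k K) x - iotaM r

theorem k1_u_coe (x : K) (r : kb k K) :
    ((k1_u x r : Mnr k K) : Om K) = algebraMap K (Om K) x - (r : Om K) := rfl

theorem k1_u_ne (x : K) (hx : Transcendental k x) (r : kb k K) : k1_u x r ≠ 0 := by
  intro h
  have h1 : algebraMap K (Om K) x = (r : Om K) := sub_eq_zero.1 (congrArg Subtype.val h)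
  have h2 : IsAlgebraic k (algebraMap K (Om K) x) := by
    rw [h1]
    exact mem_algebraicClosure_iff.1 r.2
  rw [isAlgebraic_algebraMap_iff (FaithfulSMul.algebraMap_injective K (Om K))] at h2
  exact hx h2

/-- The value of `x - r j` at a place where `x` has no pole is the `ℓ`-th power of the value of an
element of `M`. -/
theorem k1_val (f : k[X]) (c l : k) (hc : c ≠ 0) (hl : l ≠ 0) (x y : K)
    (hx : Transcendental k x) (hxy : y ^ ℓ = algebraMap k K c * aeval x f) {ν : Type}
    [Fintype ν] (r : ν → kb k K) (hr : Function.Injective r) (m : ν → ℕ) (hm : ∀ i, ¬ ℓ ∣ m i)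
    (hfr : f.map (algebraMap k (kb k K)) =
      C (algebraMap k (kb k K) l) * ∏ i, (X - C (r i)) ^ m i)
    (B : ValuationSubring (Om K)) (hB : IsPlace k K B)
    (hxB : B.valuation (algebraMap K (Om K) x) ≤ 1) (j : ν) :
    ∃ w : Mnr k K, B.valuation ((k1_u x (r j) : Mnr k K) : Om K) = B.valuation (w : Om K) ^ ℓ := by
  classical
  have hle : B.valuation ((k1_u x (r j) : Mnr k K) : Om K) ≤ 1 := by
    rw [k1_u_coe]
    exact le_trans (Valuation.map_sub _ _ _) (max_le hxB (k1_const_le B hB _))
  rcases hle.eq_or_lt with h1 | h1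
  · exact ⟨1, by rw [h1]; exact (by rw [map_one, one_pow] : (1 : B.ValueGroup) =
      B.valuation (1 : Om K) ^ ℓ)⟩
  · -- the other factors are units
    have h2 : ∀ i, i ≠ j → B.valuation (algebraMap K (Om K) x - (r i : Om K)) = 1 := by
      intro i hi
      have h3 : r j - r i ≠ 0 := fun h => hi (hr (sub_eq_zero.1 h).symm)
      have h4 : B.valuation ((r j : Om K) - (r i : Om K)) = 1 := val_const B hB _ h3
      have h5 : algebraMap K (Om K) x - (r i : Om K) =
          (algebraMap K (Om K) x - (r j : Om K)) + ((r j : Om K) - (r i : Om K)) := by ring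
      rw [k1_u_coe] at h1
      rw [h5, Valuation.map_add_eq_of_lt_right _ (by rw [h4]; exact h1), h4]
    have hval : ∀ a : k, a ≠ 0 → B.valuation (algebraMap k (Om K) a) = 1 := by
      intro a ha
      have h3 : algebraMap k (kb k K) a ≠ 0 := (_root_.map_ne_zero _).2 ha
      exact val_const B hB _ h3
    have hy : (algebraMap K (Om K) y) ^ ℓ = algebraMap k (Om K) c * (algebraMap k (Om K) l *
        ∏ i, (algebraMap K (Om K) x - (r i : Om K)) ^ m i) := by
      rw [← map_pow, hxy, map_mul, ← IsScalarTower.algebraMap_apply, ← aeval_algebraMap_apply,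
        ← aeval_map_algebraMap (kb k K), hfr, map_mul, aeval_C, map_prod,
        ← IsScalarTower.algebraMap_apply]
      congr 2
      refine Finset.prod_congr rfl fun i _ => ?_
      rw [map_pow, map_sub, aeval_X, aeval_C]
      rfl
    have hv : B.valuation (algebraMap K (Om K) y) ^ ℓ =
        B.valuation ((k1_u x (r j) : Mnr k K) : Om K) ^ m j := by
      rw [← map_pow, hy, map_mul, map_mul, hval c hc, hval l hl, one_mul, one_mul, map_prod,
        Finset.prod_eq_single j]
      · rw [map_pow, k1_u_coe]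
      · intro i _ hi
        rw [map_pow, h2 i hi, one_pow]
      · intro h
        exact absurd (Finset.mem_univ _) h
    -- Bezout
    have hcop : IsCoprime (m j : ℤ) (ℓ : ℤ) := by
      rw [Nat.isCoprime_iff_coprime, Nat.coprime_comm]
      exact (Nat.Prime.coprime_iff_not_dvd hℓ.out).2 (hm j)
    obtain ⟨a, b, hab⟩ := hcop
    have hu0 : B.valuation ((k1_u x (r j) : Mnr k K) : Om K) ≠ 0 := by
      rw [Ne, Valuation.zero_iff]
      intro h
      exact k1_u_ne x hx (r j) (Subtype.ext h)
    refine ⟨(algebraMap K (Mnr k K) y) ^ a * (k1_u x (r j)) ^ b, ?_⟩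
    have h6 : B.valuation (((algebraMap K (Mnr k K) y) ^ a * (k1_u x (r j)) ^ b : Mnr k K) : Om K) =
        B.valuation (algebraMap K (Om K) y) ^ a *
          B.valuation ((k1_u x (r j) : Mnr k K) : Om K) ^ b := by
      have h7 : (algebraMap (Mnr k K) (Om K)) ((algebraMap K (Mnr k K) y) ^ a *
          (k1_u x (r j)) ^ b) = (algebraMap K (Om K) y) ^ a *
          ((k1_u x (r j) : Mnr k K) : Om K) ^ b := by
        rw [map_mul, map_zpow₀, map_zpow₀]
        rfl
      refine (congrArg B.valuation h7).trans ?_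
      rw [map_mul, map_zpow₀, map_zpow₀]
    rw [h6, mul_pow]
    have h8 : (B.valuation (algebraMap K (Om K) y) ^ a) ^ ℓ =
        (B.valuation ((k1_u x (r j) : Mnr k K) : Om K) ^ m j) ^ a := by
      rw [← hv, ← zpow_natCast, ← zpow_mul, ← zpow_natCast, ← zpow_mul, mul_comm]
    rw [h8, ← zpow_natCast, ← zpow_mul, ← zpow_natCast, ← zpow_mul, ← zpow_add₀ hu0,
      mul_comm (m j : ℤ) a, hab, zpow_one]

/-- Let `B` be a place. If `|x| > 1` then `|x - r i| = |x|` for all `i` and the quotient has value `1`.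
If `|x| ≤ 1` then `|x - r j| ≤ 1` for all `j`, and `|x - r j| < 1` for at most one `j` (the
`r i - r j`, `i ≠ j`, are units at `B`: `val_const`). If `|x - r i| < 1` for one `i`, then
`|y|^ℓ = |c l| ∏ |x - r j|^(m j) = |x - r i|^(m i)` and, with `a m_i + b ℓ = 1` (`a`, `b` integers),
`|x - r i| = |y^a (x - r i)^b|^ℓ`; `y ∈ K` and `x - r i` are in `M`. So at every place the value of
`(x - r i) / (x - r o)` is the `ℓ`-th power of the value of an element of `M`: `mem_of_val`. -/
theorem exists_T [CharZero k] (f : k[X]) (c l : k) (hc : c ≠ 0) (hl : l ≠ 0) (x y : K)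
    (hx : Transcendental k x) (hxy : y ^ ℓ = algebraMap k K c * aeval x f) {ν : Type}
    [Fintype ν] (r : ν → kb k K) (hr : Function.Injective r) (m : ν → ℕ) (hm : ∀ i, ¬ ℓ ∣ m i)
    (hfr : f.map (algebraMap k (kb k K)) =
      C (algebraMap k (kb k K) l) * ∏ i, (X - C (r i)) ^ m i) (o : ν) :
    ∃ T : ν → Mnr k K, ∀ i, T i ≠ 0 ∧
      T i ^ ℓ * (algebraMap K (Mnr k K) x - iotaM (r o)) =
        algebraMap K (Mnr k K) x - iotaM (r i) := by
  have key : ∀ i, ∃ T : Mnr k K, T ^ ℓ = k1_u x (r i) / k1_u x (r o) := by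
    intro i
    obtain ⟨ρ, hρ⟩ := IsAlgClosed.exists_pow_nat_eq
      ((k1_u x (r i) / k1_u x (r o) : Mnr k K) : Om K) hℓ.out.pos
    have hdiv : ∀ (B : ValuationSubring (Om K)) (p q : Mnr k K),
        B.valuation ((p / q : Mnr k K) : Om K) =
          B.valuation (p : Om K) / B.valuation (q : Om K) := by
      intro B p q
      rw [← map_div₀]
      exact congrArg B.valuation (map_div₀ (algebraMap (Mnr k K) (Om K)) p q)
    have hmem : ρ ∈ Mnr k K := by
      refine mem_of_val _ ℓ hℓ.out.pos ?_ ρ hρ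
      intro B hB
      rcases le_or_gt (B.valuation (algebraMap K (Om K) x)) 1 with hxB | hxB
      · obtain ⟨w, hw⟩ := k1_val f c l hc hl x y hx hxy r hr m hm hfr B hB hxB i
        obtain ⟨w', hw'⟩ := k1_val f c l hc hl x y hx hxy r hr m hm hfr B hB hxB o
        exact ⟨w / w', by rw [hdiv, hdiv, hw, hw', div_pow]⟩
      · have h1 : ∀ j, B.valuation ((k1_u x (r j) : Mnr k K) : Om K) =
            B.valuation (algebraMap K (Om K) x) := fun j =>
          Valuation.map_sub_eq_of_lt_left _ (lt_of_le_of_lt (k1_const_le B hB _) hxB)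
        have h0 : B.valuation (algebraMap K (Om K) x) ≠ 0 :=
          (lt_trans zero_lt_one hxB).ne'
        refine ⟨1, ?_⟩
        rw [hdiv, h1, h1, div_self h0]
        exact (by rw [map_one, one_pow] : (1 : B.ValueGroup) = B.valuation (1 : Om K) ^ ℓ)
    exact ⟨⟨ρ, hmem⟩, Subtype.ext hρ⟩
  choose T hT using key
  refine ⟨T, fun i => ⟨?_, ?_⟩⟩
  · intro h0
    have h1 := hT i
    rw [h0, zero_pow hℓ.out.ne_zero] at h1
    exact div_ne_zero (k1_u_ne x hx (r i)) (k1_u_ne x hx (r o)) h1.symm
  · rw [hT i]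
    exact div_mul_cancel₀ _ (k1_u_ne x hx (r o))

end SUP
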