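import Pool.Agent.MP_c1dca2_ag.SUP.M6b

set_option autoImplicit false
set_option linter.unusedSectionVars false

open Polynomial SEC SC2

namespace SUP

/-! ## [SUP-K2] inertia moves some root (file K2.lean; uses M1, M6, R0) -/

variable {k K : Type} [Field k] [Field K] [Algebra k K] {ℓ : ℕ} [hℓ : Fact ℓ.Prime]

theorem x_sub_ne (x : K) (hx : Transcendental k x) (a : kb k K) :
    algebraMap K (Mnr k K) x - iotaM a ≠ 0 := by
  intro h0
  apply hx
  have h1 : algebraMap K (Om K) x = (a : Om K) := congrArg Subtype.val (sub_eq_zero.1 h0)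
  have h3 : IsAlgebraic k (algebraMap K (Om K) x) := by
    rw [h1]
    exact (mem_algebraicClosure_iff).1 a.2
  exact (isAlgebraic_algebraMap_iff (algebraMap K (Om K)).injective).1 h3

theorem k2_sect_iota (s : Sect k K) (σ : kb k K ≃ₐ[k] kb k K) (a : kb k K) :
    s.toHom σ (iotaM a) = iotaM (σ a) :=
  Subtype.ext (s.split σ a (kb_le _ a.2))

/-- `s σ` fixes `x - a` if `σ a = a`. -/
theorem sect_x_sub (s : Sect k K) (σ : kb k K ≃ₐ[k] kb k K) (x : K) (a a' : kb k K)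
    (h : σ a = a') : s.toHom σ (algebraMap K (Mnr k K) x - iotaM a) =
      algebraMap K (Mnr k K) x - iotaM a' := by
  rw [map_sub, AlgEquiv.commutes, k2_sect_iota, h]

theorem k2_iota_alg (a : k) :
    iotaM (K := K) (algebraMap k (kb k K) a) = algebraMap K (Mnr k K) (algebraMap k K a) := by
  apply Subtype.ext
  exact IsScalarTower.algebraMap_apply k K (Om K) a

theorem k2_eval (f : k[X]) (l : k) (x : K) {ν : Type} [Fintype ν] (r : ν → kb k K) (m : ν → ℕ)
    (hfr : f.map (algebraMap k (kb k K)) =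
      C (algebraMap k (kb k K) l) * ∏ i, (X - C (r i)) ^ m i) :
    algebraMap K (Mnr k K) (aeval x f) = iotaM (algebraMap k (kb k K) l) *
      ∏ i, (algebraMap K (Mnr k K) x - iotaM (r i)) ^ m i := by
  have h1 := congrArg (eval₂ (iotaM (k := k) (K := K)) (algebraMap K (Mnr k K) x)) hfr
  rw [eval₂_map, eval₂_mul, eval₂_C, eval₂_finsetProd] at h1
  have h2 : (iotaM (k := k) (K := K)).comp (algebraMap k (kb k K)) =
      (algebraMap K (Mnr k K)).comp (algebraMap k K) := by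
    ext1 a
    exact k2_iota_alg a
  rw [h2, ← hom_eval₂] at h1
  rw [aeval_def, h1]
  congr 1
  refine Finset.prod_congr rfl fun i _ => ?_
  rw [eval₂_pow, eval₂_sub, eval₂_X, eval₂_C]

/-- Suppose all `T i` are fixed by `s τ`. `y^ℓ = c l ∏ (x - r i)^(m i)
= c l (∏ (T i)^(m i) (x - r o)^M)^ℓ` with `∑ m i = ℓ M`, so
`z = y / (∏ (T i)^(m i) (x - r o)^M)` satisfies `z^ℓ = c l` and `s τ z = z`. `z` is a constant
(algebraic over `k`), and `τ z = z`, a contradiction. -/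
theorem exists_moved [CharZero k] (f : k[X]) (c l : k) (hc : c ≠ 0) (hl : l ≠ 0) (x y : K)
    (hx : Transcendental k x) (hxy : y ^ ℓ = algebraMap k K c * aeval x f) {ν : Type}
    [Fintype ν] (r : ν → kb k K) (m : ν → ℕ) (hdeg : ℓ ∣ ∑ i, m i)
    (hfr : f.map (algebraMap k (kb k K)) =
      C (algebraMap k (kb k K) l) * ∏ i, (X - C (r i)) ^ m i) (o : ν) (T : ν → Mnr k K)
    (hT0 : ∀ i, T i ≠ 0)
    (hT : ∀ i, T i ^ ℓ * (algebraMap K (Mnr k K) x - iotaM (r o)) =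
      algebraMap K (Mnr k K) x - iotaM (r i)) (s : Sect k K) (τ : kb k K ≃ₐ[k] kb k K)
    (hτr : ∀ i, τ (r i) = r i)
    (hτz : ∀ z : kb k K, z ^ ℓ = algebraMap k (kb k K) (c * l) → τ z ≠ z) :
    ∃ i, s.toHom τ (T i) ≠ T i := by
  by_contra hcon
  push Not at hcon
  obtain ⟨M, hM⟩ := hdeg
  set u : Mnr k K := algebraMap K (Mnr k K) x - iotaM (r o) with hu
  have hu0 : u ≠ 0 := x_sub_ne x hx (r o)
  set P : Mnr k K := (∏ i, T i ^ m i) * u ^ M with hP
  have hP0 : P ≠ 0 := mul_ne_zero (Finset.prod_ne_zero_iff.2 fun i _ => pow_ne_zero _ (hT0 i))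
    (pow_ne_zero _ hu0)
  have hsP : s.toHom τ P = P := by
    rw [hP, map_mul, map_pow, map_prod, sect_x_sub s τ x (r o) (r o) (hτr o)]
    congr 1
    exact Finset.prod_congr rfl fun i _ => by rw [map_pow, hcon i]
  have hy : (algebraMap K (Mnr k K) y) ^ ℓ = iotaM (algebraMap k (kb k K) (c * l)) * P ^ ℓ := by
    rw [← map_pow, hxy, map_mul, k2_eval f l x r m hfr, map_mul, map_mul, ← k2_iota_alg c, mul_assoc]
    congr 2
    rw [hP, mul_pow, ← pow_mul, mul_comm M ℓ, ← hM, ← Finset.prod_pow_eq_pow_sum,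
      ← Finset.prod_pow, ← Finset.prod_mul_distrib]
    refine Finset.prod_congr rfl fun i _ => ?_
    rw [← hT i, mul_pow, ← pow_mul, ← pow_mul, mul_comm ℓ (m i)]
  have hz : (algebraMap K (Mnr k K) y / P) ^ ℓ = iotaM (algebraMap k (kb k K) (c * l)) := by
    rw [div_pow, hy, mul_div_assoc, div_self (pow_ne_zero _ hP0), mul_one]
  have hint : IsIntegral (iotaM (k := k) (K := K)).range (algebraMap K (Mnr k K) y / P) := by
    refine IsIntegral.of_pow hℓ.out.pos ?_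
    rw [hz]
    exact isIntegral_algebraMap (R := (iotaM (k := k) (K := K)).range)
      (x := ⟨iotaM (algebraMap k (kb k K) (c * l)), ⟨_, rfl⟩⟩)
  obtain ⟨z, hzz⟩ := b2_integral _ hint
  have h1 : z ^ ℓ = algebraMap k (kb k K) (c * l) := by
    apply b2_iota_inj
    rw [map_pow, hzz, hz]
  apply hτz z h1
  apply b2_iota_inj
  rw [← k2_sect_iota s τ z, hzz, map_div₀, hsP, AlgEquiv.commutes]

/-- `(s τ (T i))^ℓ = (T i)^ℓ` (`sect_x_sub`), so `s τ (T i) = ξ T i` with `ξ^ℓ = 1` (`exists_xi`), and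
`ξ` is a power of `ζ`. -/
theorem exists_wi [CharZero k] (x : K) (hx : Transcendental k x) {ν : Type}
    (r : ν → kb k K) (o : ν) (T : ν → Mnr k K) (hT0 : ∀ i, T i ≠ 0)
    (hT : ∀ i, T i ^ ℓ * (algebraMap K (Mnr k K) x - iotaM (r o)) =
      algebraMap K (Mnr k K) x - iotaM (r i)) (s : Sect k K) (τ : kb k K ≃ₐ[k] kb k K)
    (hτr : ∀ i, τ (r i) = r i) (ζ : kb k K) (hζ : IsPrimitiveRoot ζ ℓ) :
    ∃ w : ν → ZMod ℓ, ∀ i, s.toHom τ (T i) = iotaM (ζ ^ (w i).val) * T i := by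
  have key : ∀ i, ∃ a : ZMod ℓ, s.toHom τ (T i) = iotaM (ζ ^ a.val) * T i := by
    intro i
    have h1 := congrArg (s.toHom τ) (hT i)
    rw [map_mul, map_pow, sect_x_sub s τ x (r o) (r o) (hτr o),
      sect_x_sub s τ x (r i) (r i) (hτr i), ← hT i] at h1
    have h2 := mul_right_cancel₀ (x_sub_ne x hx (r o)) h1
    obtain ⟨ξ, hξ, h3⟩ := exists_xi ℓ hℓ.out.pos (T i) _ (hT0 i) h2
    obtain ⟨j, hj, rfl⟩ := hζ.eq_pow_of_pow_eq_one hξ
    refine ⟨(j : ZMod ℓ), ?_⟩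
    rw [ZMod.val_natCast_of_lt hj]
    exact h3
  choose w hw using key
  exact ⟨w, hw⟩

end SUP
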