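import Pool.Agent.MP_c1dca2_ag.SUP.K2
import Pool.Agent.MP_c1dca2_ag.SC2.A4

set_option autoImplicit false
set_option linter.unusedSectionVars false

open Polynomial SEC SC2

namespace SUP

/-! ## [SUP-K5] preparation of the key lemma (file K5.lean; uses K2, M6, R0) -/

variable {k K : Type} [Field k] [Field K] [Algebra k K] {ℓ : ℕ} [hℓ : Fact ℓ.Prime]

/-- The coordinate `1 / (x - b)`. -/
noncomputable def Xb (x : K) (b : kb k K) : Mnr k K := (algebraMap K (Mnr k K) x - iotaM b)⁻¹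

theorem Xb_not_mem (x : K) (hx : Transcendental k x) (b : kb k K) :
    ((Xb x b : Mnr k K) : Om K) ∉ kb k K := by
  intro h
  have h1 : ((Xb x b : Mnr k K) : Om K) = (algebraMap K (Om K) x - (b : Om K))⁻¹ := rfl
  rw [h1] at h
  have h2 : algebraMap K (Om K) x - (b : Om K) ∈ kb k K := by
    have := (kb k K).inv_mem h
    rwa [inv_inv] at this
  have h3 : algebraMap K (Om K) x ∈ kb k K := by
    have := (kb k K).add_mem h2 b.2
    rwa [sub_add_cancel] at this
  have h4 : IsAlgebraic k (algebraMap K (Om K) x) := mem_algebraicClosure_iff.1 h3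
  have h5 : IsAlgebraic k x :=
    (isAlgebraic_algebraMap_iff (algebraMap K (Om K)).injective).1 h4
  exact hx h5

theorem sect_Xb (s : Sect k K) (σ : kb k K ≃ₐ[k] kb k K) (x : K) (b : kb k K) (h : σ b = b) :
    s.toHom σ (Xb x b) = Xb x b := by
  unfold Xb
  rw [map_inv₀, sect_x_sub s σ x b b h]

theorem k5_iota (s : Sect k K) (σ : kb k K ≃ₐ[k] kb k K) (z : kb k K) :
    s.toHom σ (iotaM z) = iotaM (σ z) := by
  apply Subtype.ext
  exact s.split σ z (kb_le _ z.2)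

/-- Take `y = d T / T'` with `d^ℓ = - (a - b)⁻¹` (`kb_isAlgClosed`):
`y^ℓ = - (a - b)⁻¹ (x - a) / (x - b) = 1 / (x - b) - 1 / (a - b)`. `d` is fixed by inertia
(`iner_unit_root`). -/
theorem exists_y [CharZero k] {V : ValuationSubring (kb k K)}
    (hV : V.valuation ((ℓ : ℕ) : kb k K) = 1) (s : Sect k K)
    (x : K) (hx : Transcendental k x) (a b o : kb k K) (hab : V.valuation (a - b) = 1)
    (T T' : Mnr k K) (hT0 : T ≠ 0) (hT0' : T' ≠ 0)
    (hT : T ^ ℓ * (algebraMap K (Mnr k K) x - iotaM o) = algebraMap K (Mnr k K) x - iotaM a)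
    (hT' : T' ^ ℓ * (algebraMap K (Mnr k K) x - iotaM o) = algebraMap K (Mnr k K) x - iotaM b) :
    ∃ y : Mnr k K, y ≠ 0 ∧ y ^ ℓ = Xb x b - iotaM (a - b)⁻¹ ∧
      ∀ τ : kb k K ≃ₐ[k] kb k K, Iner V τ → τ a = a → τ b = b →
        s.toHom τ y / y = (s.toHom τ T / T) / (s.toHom τ T' / T') := by
  have hac : IsAlgClosed (kb k K) := kb_isAlgClosed
  have hℓ0 : 0 < ℓ := hℓ.out.pos
  obtain ⟨d, hd⟩ := IsAlgClosed.exists_pow_nat_eq (-(a - b)⁻¹ : kb k K) hℓ0
  have hab0 : a - b ≠ 0 := by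
    intro h0
    rw [h0, map_zero] at hab
    exact zero_ne_one hab
  have hd0 : d ≠ 0 := by
    intro h0
    rw [h0, zero_pow hℓ0.ne'] at hd
    exact (neg_ne_zero.2 (inv_ne_zero hab0)) hd.symm
  have hid0 : iotaM (k := k) (K := K) d ≠ 0 := (map_ne_zero_iff _ b2_iota_inj).2 hd0
  have hXo := x_sub_ne (K := K) x hx o
  have hXb := x_sub_ne (K := K) x hx b
  have hAB : iotaM (k := k) (K := K) a - iotaM b ≠ 0 := by
    rw [← map_sub]
    exact (map_ne_zero_iff _ b2_iota_inj).2 hab0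
  refine ⟨iotaM d * T / T', div_ne_zero (mul_ne_zero hid0 hT0) hT0', ?_, ?_⟩
  · have h1 : (iotaM (k := k) (K := K) d) ^ ℓ = -(iotaM a - iotaM b)⁻¹ := by
      rw [← map_pow, hd, map_neg, map_inv₀, map_sub]
    have h2 : T ^ ℓ = (algebraMap K (Mnr k K) x - iotaM a) / (algebraMap K (Mnr k K) x - iotaM o) := by
      rw [eq_div_iff hXo]
      exact hT
    have h3 : T' ^ ℓ = (algebraMap K (Mnr k K) x - iotaM b) / (algebraMap K (Mnr k K) x - iotaM o) := by
      rw [eq_div_iff hXo]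
      exact hT'
    unfold Xb
    rw [div_pow, mul_pow, h1, h2, h3, map_inv₀, map_sub]
    generalize algebraMap K (Mnr k K) x = X at *
    generalize iotaM (k := k) (K := K) a = A at *
    generalize iotaM (k := k) (K := K) b = B at *
    generalize iotaM (k := k) (K := K) o = O at *
    field_simp
    ring
  · intro τ hτ hτa hτb
    have hu : V.valuation (-(a - b)⁻¹ : kb k K) = 1 := by
      rw [Valuation.map_neg, map_inv₀, hab, inv_one]
    have hτu : τ (-(a - b)⁻¹ : kb k K) = -(a - b)⁻¹ := by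
      rw [map_neg, map_inv₀, map_sub, hτa, hτb]
    have hτd : τ d = d := iner_unit_root hV (-(a - b)⁻¹) d hu hd τ hτ hτu
    have hsT' : s.toHom τ T' ≠ 0 := (map_ne_zero_iff _ (s.toHom τ).injective).2 hT0'
    have hsT : s.toHom τ T ≠ 0 := (map_ne_zero_iff _ (s.toHom τ).injective).2 hT0
    rw [map_div₀, map_mul, k5_iota, hτd]
    field_simp

/-- `φ` permutes the finite sets of the `r i` and of the `ℓ`-th roots of unity of `k^alg`, so a power
`φ^m₁`, `m₁ > 0`, fixes them. `s (φ^m₁) U = η U` with `η^ℓ = 1` (`exists_xi`), `η` fixed by `φ^m₁`, so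
`s (φ^(ℓ m₁)) U = η^ℓ U = U`. -/
theorem exists_power [CharZero k] (s : Sect k K) {ν : Type} [Finite ν] (r : ν → kb k K)
    (φ : kb k K ≃ₐ[k] kb k K) (hperm : ∀ i, ∃ j, φ (r i) = r j) (U : Mnr k K) (hU0 : U ≠ 0)
    (hU : ∀ m : ℕ, (∀ i, (φ ^ m) (r i) = r i) → (s.toHom (φ ^ m) U) ^ ℓ = U ^ ℓ) :
    ∃ m : ℕ, 0 < m ∧ (∀ i, (φ ^ m) (r i) = r i) ∧ (∀ ζ : kb k K, ζ ^ ℓ = 1 → (φ ^ m) ζ = ζ) ∧
      s.toHom (φ ^ m) U = U := by
  classical
  have hℓ0 : 0 < ℓ := hℓ.out.pos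
  have hSf : (Set.range r ∪ {ζ : kb k K | ζ ^ ℓ = 1}).Finite := by
    apply Set.Finite.union (Set.finite_range r)
    apply Set.Finite.subset (nthRoots ℓ (1 : kb k K)).toFinset.finite_toSet
    intro ζ hζ
    rw [Finset.mem_coe, Multiset.mem_toFinset, mem_nthRoots hℓ0]
    exact hζ
  have hS : ∀ z ∈ (Set.range r ∪ {ζ : kb k K | ζ ^ ℓ = 1}),
      φ z ∈ (Set.range r ∪ {ζ : kb k K | ζ ^ ℓ = 1}) := by
    rintro z (⟨i, rfl⟩ | hz)
    · obtain ⟨j, hj⟩ := hperm i
      exact Or.inl ⟨j, hj.symm⟩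
    · refine Or.inr ?_
      have hz' : z ^ ℓ = 1 := hz
      show (φ z) ^ ℓ = 1
      rw [← map_pow, hz', map_one]
  generalize hSdef : (Set.range r ∪ {ζ : kb k K | ζ ^ ℓ = 1}) = S at hSf hS
  have hfinS : Finite S := hSf.to_subtype
  let f : S → S := fun z => ⟨φ z, hS z z.2⟩
  have hfi : Function.Injective f := fun z w h =>
    Subtype.ext (φ.injective (congrArg Subtype.val h))
  let e : Equiv.Perm S := Equiv.ofBijective f (Finite.injective_iff_bijective.1 hfi)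
  have he : ∀ (m : ℕ) (z : S), (((e ^ m) z : S) : kb k K) = (φ ^ m) z := by
    intro m
    induction m with
    | zero => intro z; rfl
    | succ m ih =>
      intro z
      rw [pow_succ, pow_succ, Equiv.Perm.mul_apply, AlgEquiv.mul_apply, ih]
      rfl
  have hpos : 0 < orderOf e := orderOf_pos e
  have hone : e ^ orderOf e = 1 := pow_orderOf_eq_one e
  have hfix : ∀ z ∈ S, (φ ^ orderOf e) z = z := by
    intro z hz
    have h1 := he (orderOf e) ⟨z, hz⟩
    rw [hone] at h1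
    exact h1.symm
  have hr : ∀ i, (φ ^ orderOf e) (r i) = r i := fun i =>
    hfix _ (by rw [← hSdef]; exact Or.inl ⟨i, rfl⟩)
  have hz : ∀ ζ : kb k K, ζ ^ ℓ = 1 → (φ ^ orderOf e) ζ = ζ := fun ζ hζ =>
    hfix _ (by rw [← hSdef]; exact Or.inr hζ)
  have hmul : ∀ (j : ℕ) (z : kb k K), (φ ^ orderOf e) z = z → (φ ^ (orderOf e * j)) z = z := by
    intro j z hz
    induction j with
    | zero => rw [Nat.mul_zero, pow_zero]; rfl
    | succ j ih => rw [Nat.mul_succ, pow_add, AlgEquiv.mul_apply, hz, ih]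
  obtain ⟨η, hη, hη2⟩ := exists_xi ℓ hℓ0 U (s.toHom (φ ^ orderOf e) U) hU0 (hU _ hr)
  have hUj : ∀ j : ℕ, s.toHom (φ ^ (orderOf e * j)) U = iotaM (η ^ j) * U := by
    intro j
    induction j with
    | zero =>
      rw [Nat.mul_zero, pow_zero, pow_zero, map_one, map_one, one_mul]
      rfl
    | succ j ih =>
      rw [Nat.mul_succ, pow_add, map_mul, AlgEquiv.mul_apply, hη2, map_mul, ih, k5_iota,
        hmul j η (hz η hη), pow_succ', map_mul]
      ring
  refine ⟨orderOf e * ℓ, Nat.mul_pos hpos hℓ0, fun i => hmul ℓ _ (hr i),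
    fun ζ hζ => hmul ℓ _ (hz ζ hζ), ?_⟩
  rw [hUj, hη, map_one, one_mul]

end SUP
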