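import Pool.Agent.MP_c1dca2_ag.SC2.B3

set_option autoImplicit false
set_option linter.unusedSectionVars false

open Polynomial SEC SC2

namespace SUP

/-! ## [SUP-M1] unramified roots (file M1.lean; compare SC2/B1.lean) -/

variable {k K : Type} [Field k] [Field K] [Algebra k K]

/-- An element of `k^alg` (in `K^alg`) which is not zero is a unit at every place. -/
theorem val_const (B : ValuationSubring (Om K)) (hB : IsPlace k K B) (a : kb k K) (ha : a ≠ 0) :
    B.valuation (a : Om K) = 1 := by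
  exact place_alg_val B hB _ a.2 (fun h => ha (Subtype.ext h))

/-- Let `σ` be inert at the place `B`. `σ ρ = ξ ρ` with `ξ^N = 1`, `ξ ∈ k^alg`; with `y` as in the
hypothesis `|ρ| = |y|`, so `ρ / y` is in `B` and `(ξ - 1) ρ / y = σ (ρ / y) - ρ / y` (`σ y = y`) has
value `< 1`, so `|ξ - 1| < 1` and `ξ = 1` (`val_const`). (If `z = 0` then `ρ = 0`.) -/
theorem mem_of_val [CharZero k] (z : Mnr k K) (N : ℕ) (hN : 0 < N)
    (hz : ∀ B, IsPlace k K B → ∃ y : Mnr k K,
      B.valuation (z : Om K) = B.valuation (y : Om K) ^ N)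
    (ρ : Om K) (hρ : ρ ^ N = z) : ρ ∈ Mnr k K := by
  intro B hB σ hσ
  by_cases hρ0 : ρ = 0
  · rw [hρ0, map_zero]
  have h1 : (σ ρ) ^ N = ρ ^ N := by
    rw [← map_pow, hρ]
    exact z.2 B hB σ hσ
  obtain ⟨y, hy⟩ := hz B hB
  rw [← hρ, map_pow] at hy
  have hv : B.valuation ρ = B.valuation (y : Om K) :=
    (pow_left_inj₀ zero_le' zero_le' hN.ne').1 hy
  have hvρ : B.valuation ρ ≠ 0 := (Valuation.ne_zero_iff _).2 hρ0
  have hσy : σ (y : Om K) = (y : Om K) := y.2 B hB σ hσ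
  have hvu : B.valuation (ρ / (y : Om K)) = 1 := by
    rw [map_div₀, ← hv, div_self hvρ]
  have h3 : ρ / (y : Om K) ∈ B := (B.valuation_le_one_iff _).1 hvu.le
  have h4 := hσ.2 _ h3
  have hξN : (σ ρ / ρ) ^ N = 1 := by
    rw [div_pow, h1, div_self (pow_ne_zero N hρ0)]
  have hint : IsIntegral k (σ ρ / ρ) := by
    refine IsIntegral.of_pow hN ?_
    rw [hξN]
    exact isIntegral_one
  have hmem : σ ρ / ρ ∈ kb k K := (mem_algebraicClosure_iff').2 hint
  have h5 : σ (ρ / (y : Om K)) - ρ / (y : Om K) = (σ ρ / ρ - 1) * (ρ / (y : Om K)) := by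
    rw [map_div₀, hσy, sub_mul, one_mul, div_mul_div_cancel₀ hρ0]
  rw [h5, B.mem_nonunits_iff, map_mul, hvu, mul_one] at h4
  by_contra hne
  have h6 : σ ρ / ρ - 1 ≠ 0 := by
    intro h7
    apply hne
    rw [sub_eq_zero, div_eq_one_iff_eq hρ0] at h7
    exact h7
  exact absurd (place_alg_val B hB _ ((kb k K).sub_mem hmem (kb k K).one_mem) h6) h4.ne

end SUP
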