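import Pool.Agent.MP_c1dca2_ag.SC2.B2
import Pool.Agent.MP_c1dca2_ag.SUP.M1
import Pool.Agent.MP_c1dca2_ag.SUP.B5c

set_option autoImplicit false
set_option linter.unusedSectionVars false

open Polynomial SEC SC2

namespace SUP

/-! ## [SUP-M2] the embedding of `B` in `M` (file M2.lean; uses A3, B5, M1) -/

variable {k K : Type} [Field k] [Field K] [Algebra k K]
  {ι : Type} [Fintype ι] {ℓ : ℕ} [hℓ : Fact ℓ.Prime] {e : ι → ZMod ℓ} {α : ι → kb k K}
  [hG : Fact (Good e α)]

/-- The embedding: `X ↦ x`, `v_j ↦ prod (y a)^(j e a mod l)`. -/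
noncomputable abbrev emb (e : ι → ZMod ℓ) {α : ι → kb k K} (x : Mnr k K) (y : ι → Mnr k K)
    (hy : ∀ a, y a ^ ℓ = x - iotaM (α a)) : BB e α →+* Mnr k K :=
  lift e (iotaM (k := k) (K := K)) x y hy

/-- `x` is transcendental over `k^alg`: `k^alg` is algebraically closed in `K^alg`. -/
theorem eval_ne (x : Mnr k K) (hx : (x : Om K) ∉ kb k K) (p : (kb k K)[X]) (hp : p ≠ 0) :
    p.eval₂ (iotaM (k := k) (K := K)) x ≠ 0 := by
  intro h0
  have hlc : p.leadingCoeff ≠ 0 := leadingCoeff_ne_zero.2 hp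
  have hm : (C (p.leadingCoeff)⁻¹ * p).Monic := by
    rw [mul_comm]
    exact monic_mul_leadingCoeff_inv hp
  have hz : IsIntegral (iotaM (k := k) (K := K)).range x := by
    refine ⟨(C (p.leadingCoeff)⁻¹ * p).map (iotaM (k := k) (K := K)).rangeRestrict, hm.map _, ?_⟩
    rw [eval₂_map]
    have e : (algebraMap (iotaM (k := k) (K := K)).range (Mnr k K)).comp
        (iotaM (k := k) (K := K)).rangeRestrict = iotaM (k := k) (K := K) := by
      ext a
      rfl
    rw [e, eval₂_mul, h0, mul_zero]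
  obtain ⟨b, hb⟩ := b2_integral x hz
  apply hx
  rw [← hb]
  exact b.2

/-- If `b ≠ 0`, `N b = p ≠ 0` (`Nm_mem`; `B` is a domain; a primitive `ℓ`-th root of unity exists in
the algebraically closed field `k^alg`), and `b` divides `N b` in `B`: `emb b` divides
`p(x) ≠ 0` (`lift_algebraMap`, `eval_ne`). -/
theorem emb_ne (x : Mnr k K) (hx : (x : Om K) ∉ kb k K) (y : ι → Mnr k K)
    (hy : ∀ a, y a ^ ℓ = x - iotaM (α a)) {b : BB e α} (hb : b ≠ 0) : emb e x y hy b ≠ 0 := by
  obtain ⟨c, p, hp, hc⟩ := exists_mul_eq b hb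
  intro h0
  have h1 := congrArg (emb e x y hy) hc
  rw [map_mul, h0, zero_mul, lift_algebraMap] at h1
  exact eval_ne x hx p hp h1.symm

end SUP
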