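import Pool.Agent.MP_c1dca2_ag.SUP.M2

set_option autoImplicit false
set_option linter.unusedSectionVars false

open Polynomial SEC SC2

namespace SUP

/-! ## [SUP-M2b] the embedding of `B` in `M` (file M2b.lean, continuation of M2.lean; uses A3, B5, M1) -/

/-! ### a general valuation -/

section general

variable {ι : Type} [Fintype ι] {ℓ : ℕ} [hℓ : Fact ℓ.Prime] {e : ι → ZMod ℓ}
  {κ : Type} [Field κ] {α : ι → κ} [hG : Fact (Good e α)]
  {M : Type} [Field M] {Γ : Type} [LinearOrderedCommGroupWithZero Γ] (v : Valuation M Γ)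
  (f : κ →+* M) (hf : ∀ a : κ, a ≠ 0 → v (f a) = 1)

include hf

theorem m2b_const_le (a : κ) : v (f a) ≤ 1 := by
  by_cases ha : a = 0
  · rw [ha, map_zero, map_zero]
    exact zero_le_one
  · exact (hf a ha).le

theorem m2b_val_y (x : M) (hx : 1 < v x) (y : ι → M) (hy : ∀ a, y a ^ ℓ = x - f (α a)) (a : ι) :
    v (y a) ^ ℓ = v x := by
  rw [← map_pow, hy a]
  exact Valuation.map_sub_eq_of_lt_left _ (lt_of_le_of_lt (m2b_const_le v f hf _) hx)

theorem m2b_val_prod (x : M) (hx : 1 < v x) (y : ι → M) (hy : ∀ a, y a ^ ℓ = x - f (α a))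
    (j : ZMod ℓ) : v (∏ a, y a ^ rr e j a) ^ ℓ = v x ^ wt e j := by
  rw [map_prod, ← Finset.prod_pow, wt_def, ← Finset.prod_pow_eq_pow_sum]
  refine Finset.prod_congr rfl fun a _ => ?_
  rw [map_pow, ← pow_mul, mul_comm, pow_mul, m2b_val_y v f hf x hx y hy a]

theorem m2b_val_term (x : M) (hx : 1 < v x) (y : ι → M) (hy : ∀ a, y a ^ ℓ = x - f (α a))
    (j : ZMod ℓ) (i : ℕ) (c : κ) (hc : c ≠ 0) :
    v (f c * x ^ i * ∏ a, y a ^ rr e j a) ^ ℓ = v x ^ (ℓ * i + wt e j) := by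
  rw [map_mul, map_mul, mul_pow, mul_pow, m2b_val_prod v f hf x hx y hy j, hf c hc, one_pow,
    one_mul, map_pow, ← pow_mul, mul_comm i ℓ, ← pow_add]

theorem m2b_val_lift (x : M) (hx : 1 < v x) (y : ι → M) (hy : ∀ a, y a ^ ℓ = x - f (α a))
    {b : BB e α} (hb : b ≠ 0) : v (lift e f x y hy b) ^ ℓ = v x ^ pord b := by
  classical
  have hs : ∑ a, e a ≠ 0 := hG.out.sum
  have hx0 : 0 < v x := lt_trans zero_lt_one hx
  have hℓ0 : ℓ ≠ 0 := hℓ.out.ne_zero
  -- the leading monomial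
  have hlc : lcf e α (pord b) b ≠ 0 := lc_ne hs hb
  have hex : ∃ (j : ZMod ℓ) (i : ℕ), ℓ * i + wt e j = pord b := by
    by_contra hne
    push Not at hne
    exact hlc (lcf_none hne b)
  obtain ⟨j₀, i₀, h₀⟩ := hex
  have hc₀ : (b.co j₀).coeff i₀ ≠ 0 := by
    rw [← h₀, lcf_eq hs j₀ i₀ b] at hlc
    exact hlc
  have hle : ∀ (j : ZMod ℓ) (i : ℕ), (b.co j).coeff i ≠ 0 → ℓ * i + wt e j ≤ pord b := by
    intro j i hji
    by_contra hlt
    push Not at hlt
    exact hji (mem_Ble.1 (mem_Ble_pord b) j i hlt)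
  -- the sum of the monomials
  obtain ⟨n, hn⟩ : ∃ n : ℕ, ∀ j, (b.co j).natDegree < n :=
    ⟨(∑ j, (b.co j).natDegree) + 1, fun j => Nat.lt_succ_of_le
      (Finset.single_le_sum (f := fun j => (b.co j).natDegree) (fun _ _ => Nat.zero_le _)
        (Finset.mem_univ j))⟩
  let t : ZMod ℓ × ℕ → M := fun p =>
    f ((b.co p.1).coeff p.2) * x ^ p.2 * ∏ a, y a ^ rr e p.1 a
  have hsum : lift e f x y hy b = ∑ p ∈ (Finset.univ : Finset (ZMod ℓ)) ×ˢ Finset.range n, t p := by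
    rw [lift_apply, Finset.sum_product]
    refine Finset.sum_congr rfl fun j _ => ?_
    rw [eval₂_eq_sum_range' f (hn j) x, Finset.sum_mul]
  have hi₀ : i₀ < n := lt_of_le_of_lt (le_natDegree_of_ne_zero hc₀) (hn j₀)
  have hmem : (j₀, i₀) ∈ (Finset.univ : Finset (ZMod ℓ)) ×ˢ Finset.range n :=
    Finset.mem_product.2 ⟨Finset.mem_univ _, Finset.mem_range.2 hi₀⟩
  have ht₀ : v (t (j₀, i₀)) ^ ℓ = v x ^ pord b := by
    rw [← h₀]
    exact m2b_val_term v f hf x hx y hy j₀ i₀ _ hc₀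
  have ht₀0 : v (t (j₀, i₀)) ≠ 0 := by
    intro h
    rw [h, zero_pow hℓ0] at ht₀
    exact (pow_pos hx0 _).ne ht₀
  have hrest : ∀ p ∈ ((Finset.univ : Finset (ZMod ℓ)) ×ˢ Finset.range n).erase (j₀, i₀),
      v (t p) < v (t (j₀, i₀)) := by
    intro p hp
    have hpne : p ≠ (j₀, i₀) := Finset.ne_of_mem_erase hp
    by_cases hc : (b.co p.1).coeff p.2 = 0
    · have : t p = 0 := by
        show f ((b.co p.1).coeff p.2) * x ^ p.2 * ∏ a, y a ^ rr e p.1 a = 0
        rw [hc, map_zero, zero_mul, zero_mul]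
      rw [this, map_zero]
      exact zero_lt_iff.2 ht₀0
    · have h1 : v (t p) ^ ℓ = v x ^ (ℓ * p.2 + wt e p.1) :=
        m2b_val_term v f hf x hx y hy p.1 p.2 _ hc
      have h2 : ℓ * p.2 + wt e p.1 < pord b := by
        refine lt_of_le_of_ne (hle p.1 p.2 hc) fun h => hpne ?_
        rw [← h₀] at h
        obtain ⟨h3, h4⟩ := wt_inj e hs h
        exact Prod.ext h3 h4
      have h3 : v (t p) ^ ℓ < v (t (j₀, i₀)) ^ ℓ := by
        rw [h1, ht₀]
        exact pow_lt_pow_right₀ hx h2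
      exact lt_of_pow_lt_pow_left₀ ℓ zero_le h3
  rw [hsum, ← Finset.add_sum_erase _ _ hmem,
    Valuation.map_add_eq_of_lt_left v (v.map_sum_lt ht₀0 hrest), ht₀]

theorem m2b_lift_le (x : M) (hx : v x ≤ 1) (y : ι → M) (hy : ∀ a, y a ^ ℓ = x - f (α a))
    (b : BB e α) : v (lift e f x y hy b) ≤ 1 := by
  have hℓ0 : ℓ ≠ 0 := hℓ.out.ne_zero
  have hyle : ∀ a, v (y a) ≤ 1 := by
    intro a
    have h1 : v (y a) ^ ℓ ≤ 1 := by
      rw [← map_pow, hy a]
      exact le_trans (Valuation.map_sub _ _ _) (max_le hx (m2b_const_le v f hf _))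
    exact (pow_le_one_iff_of_nonneg zero_le hℓ0).1 h1
  rw [lift_apply]
  refine v.map_sum_le fun j _ => ?_
  rw [map_mul, map_prod]
  refine mul_le_one' ?_ ?_
  · rw [eval₂_eq_sum_range]
    refine v.map_sum_le fun i _ => ?_
    rw [map_mul, map_pow]
    exact mul_le_one' (m2b_const_le v f hf _) (pow_le_one' hx i)
  · refine Finset.prod_le_one' fun a _ => ?_
    rw [map_pow]
    exact pow_le_one' (hyle a) _

end general

variable {k K : Type} [Field k] [Field K] [Algebra k K]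
  {ι : Type} [Fintype ι] {ℓ : ℕ} [hℓ : Fact ℓ.Prime] {e : ι → ZMod ℓ} {α : ι → kb k K}
  [hG : Fact (Good e α)]

/-- The valuation of the place `B` on `M`. -/
noncomputable abbrev m2b_vM (B : ValuationSubring (Om K)) : Valuation (Mnr k K) B.ValueGroup :=
  B.valuation.comap (algebraMap (Mnr k K) (Om K))

theorem m2b_vM_apply (B : ValuationSubring (Om K)) (z : Mnr k K) :
    m2b_vM B z = B.valuation (z : Om K) := rfl

theorem m2b_vM_const (B : ValuationSubring (Om K)) (hB : IsPlace k K B) (a : kb k K)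
    (ha : a ≠ 0) : m2b_vM B (iotaM (k := k) (K := K) a) = 1 :=
  val_const B hB a ha

/-- A place where `x` has a pole. `|p(x)| = |x|^deg p`, `|y a|^ℓ = |x|`, so
`|b_j(x) ∏ (y a)^(rr e j a)|^ℓ = |x|^(ℓ deg b_j + wt e j)` for the term `j`; the exponents are
different (`wt_inj`) and the largest is `pord b`. -/
theorem val_emb_inf (B : ValuationSubring (Om K)) (hB : IsPlace k K B) (x : Mnr k K)
    (hx : 1 < B.valuation (x : Om K)) (y : ι → Mnr k K)
    (hy : ∀ a, y a ^ ℓ = x - iotaM (α a)) {b : BB e α} (hb : b ≠ 0) :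
    B.valuation ((emb e x y hy b : Mnr k K) : Om K) ^ ℓ = B.valuation (x : Om K) ^ pord b :=
  m2b_val_lift (m2b_vM B) iotaM (m2b_vM_const B hB) x hx y hy hb

/-- A place where `x` has no pole: the image of `B` is in the valuation ring
(`(y a)^ℓ = x - α a` is). -/
theorem emb_mem (B : ValuationSubring (Om K)) (hB : IsPlace k K B) (x : Mnr k K)
    (hx : B.valuation (x : Om K) ≤ 1) (y : ι → Mnr k K)
    (hy : ∀ a, y a ^ ℓ = x - iotaM (α a)) (b : BB e α) :
    B.valuation ((emb e x y hy b : Mnr k K) : Om K) ≤ 1 :=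
  m2b_lift_le (m2b_vM B) iotaM (m2b_vM_const B hB) x hx y hy b

end SUP
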