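import Pool.Agent.MP_c1dca2_ag.SUP.M2b
import Pool.Agent.MP_c1dca2_ag.SUP.A10

set_option autoImplicit false
set_option linter.unusedSectionVars false

open Polynomial SEC SC2

namespace SUP

/-! ## [SUP-M3] roots of generators of powers of ideals are unramified (file M3.lean; uses M1, M2, A10,
L1) -/

/-- The elements of value at most `c`. -/
def m3_I {B L : Type} [CommRing B] [Field L] (f : B →+* L) (R : ValuationSubring L)
    (hR : ∀ b, R.valuation (f b) ≤ 1) (c : R.ValueGroup) : Ideal B where
  carrier := {z | R.valuation (f z) ≤ c}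
  zero_mem' := by
    show R.valuation (f 0) ≤ c
    rw [map_zero, map_zero]
    exact zero_le
  add_mem' := by
    intro a b ha hb
    show R.valuation (f (a + b)) ≤ c
    rw [map_add]
    exact le_trans (Valuation.map_add _ _ _) (max_le ha hb)
  smul_mem' := by
    intro a b hb
    show R.valuation (f (a * b)) ≤ c
    rw [map_mul, map_mul]
    calc R.valuation (f a) * R.valuation (f b) ≤ 1 * c := mul_le_mul' (hR a) hb
      _ = c := one_mul c

theorem mem_m3_I {B L : Type} [CommRing B] [Field L] (f : B →+* L) (R : ValuationSubring L)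
    (hR : ∀ b, R.valuation (f b) ≤ 1) (c : R.ValueGroup) (z : B) :
    z ∈ m3_I f R hR c ↔ R.valuation (f z) ≤ c := Iff.rfl

theorem m3_pow {B L : Type} [CommRing B] [Field L] (f : B →+* L) (R : ValuationSubring L)
    (hR : ∀ b, R.valuation (f b) ≤ 1) (c : R.ValueGroup) (J : Ideal B)
    (h : J ≤ m3_I f R hR c) (n : ℕ) : J ^ n ≤ m3_I f R hR (c ^ n) := by
  induction n with
  | zero =>
    intro z _
    rw [mem_m3_I, pow_zero]
    exact hR z
  | succ n ih =>
    rw [pow_succ, Ideal.mul_le]
    intro r hr s hs
    rw [mem_m3_I, map_mul, map_mul, pow_succ]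
    exact mul_le_mul' (ih hr) (h hs)

variable {k K : Type} [Field k] [Field K] [Algebra k K]
  {ι : Type} [Fintype ι] {ℓ : ℕ} [hℓ : Fact ℓ.Prime] {e : ι → ZMod ℓ} {α : ι → kb k K}
  [hG : Fact (Good e α)]

/-- The dual argument. Let `R` be a valuation ring containing the image of the ring `B` and `J` an
ideal of `B` with `J^N = (g)`. `J` is finitely generated; let `b` be a generator with the largest
value. All elements of `J` have value `≤ |b|`, so all elements of `J^N` have value `≤ |b|^N`,
in particular `g`; and `b^N ∈ J^N = (g)`. So `|g| = |b|^N`. -/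
theorem val_gen {B L : Type} [CommRing B] [Field L] (f : B →+* L) (R : ValuationSubring L)
    (hR : ∀ b, R.valuation (f b) ≤ 1) (J : Ideal B) (hJ : J.FG) (N : ℕ) (hN : 0 < N) (g : B)
    (h : J ^ N = Ideal.span {g}) : ∃ b, R.valuation (f g) = R.valuation (f b) ^ N := by
  classical
  obtain ⟨s, hs⟩ := hJ
  rcases s.eq_empty_or_nonempty with rfl | hne
  · have hJ0 : J = ⊥ := by
      rw [← hs]
      simp
    have hg : g = 0 := by
      have h1 : Ideal.span {g} = (⊥ : Ideal B) := by
        rw [← h, hJ0, ← Ideal.zero_eq_bot, zero_pow hN.ne']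
      exact Ideal.span_singleton_eq_bot.1 h1
    refine ⟨0, ?_⟩
    rw [hg, map_zero, map_zero, zero_pow hN.ne']
  · obtain ⟨b, hb, hmax⟩ := Finset.exists_max_image s (fun z => R.valuation (f z)) hne
    refine ⟨b, le_antisymm ?_ ?_⟩
    · have h1 : J ≤ m3_I f R hR (R.valuation (f b)) := by
        rw [← hs]
        exact Ideal.span_le.2 fun z hz => hmax z hz
      have h2 := m3_pow f R hR _ J h1 N
      have h3 : g ∈ J ^ N := by
        rw [h]
        exact Ideal.mem_span_singleton_self g
      exact h2 h3
    · have hbJ : b ∈ J := by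
        rw [← hs]
        exact Ideal.subset_span hb
      have h1 : b ^ N ∈ J ^ N := Ideal.pow_mem_pow hbJ N
      rw [h, Ideal.mem_span_singleton] at h1
      obtain ⟨r, hr⟩ := h1
      rw [← map_pow, ← map_pow, hr, map_mul, map_mul]
      calc R.valuation (f g) * R.valuation (f r) ≤ R.valuation (f g) * 1 :=
            mul_le_mul' le_rfl (hR r)
        _ = R.valuation (f g) := mul_one _

end SUP
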