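import Pool.Agent.MP_c1dca2_ag.SUP.M3

set_option autoImplicit false
set_option linter.unusedSectionVars false

open Polynomial SEC SC2

namespace SUP

/-! ## [SUP-M3b] roots of generators of powers of ideals are unramified (file M3b.lean, continuation of M3.lean; uses M1, M2, A10,
L1) -/

variable {k K : Type} [Field k] [Field K] [Algebra k K]
  {ι : Type} [Fintype ι] {ℓ : ℕ} [hℓ : Fact ℓ.Prime] {e : ι → ZMod ℓ} {α : ι → kb k K}
  [hG : Fact (Good e α)]

theorem m3b_exists_idx (hs : ∑ a, e a ≠ 0) : ∃ _ : ι, True := by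
  by_contra h
  push Not at h
  apply hs
  exact Finset.sum_eq_zero fun a _ => (h a).elim

theorem m3b_val_y (B : ValuationSubring (Om K)) (hB : IsPlace k K B) (x : Mnr k K)
    (hx : 1 < B.valuation (x : Om K)) (y : ι → Mnr k K)
    (hy : ∀ a, y a ^ ℓ = x - iotaM (α a)) (a : ι) :
    B.valuation ((y a : Mnr k K) : Om K) ^ ℓ = B.valuation (x : Om K) :=
  m2b_val_y (m2b_vM B) iotaM (m2b_vM_const B hB) x hx y hy a

/-- Apply `mem_of_val` to `z = emb g`. At a place where `x` has no pole use `val_gen`. At a place `B`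
where `x` has a pole: `pord g = len (J^N) = N len J` (`len_span`, `len_pow`), so
`|emb g|^ℓ = |x|^(N δ)` with `δ = len J` (`val_emb_inf`), and with `z' = y a` for some `a` (the index
set is not empty as `∑ e ≠ 0`), `|z'|^ℓ = |x|`: `|emb g|^ℓ = (|z'|^(δ N))^ℓ`, the value group is
torsion free: `|emb g| = |z'^δ|^N`. -/
theorem root_mem [CharZero k] [IsAlgClosed (kb k K)] (x : Mnr k K) (hx : (x : Om K) ∉ kb k K)
    (y : ι → Mnr k K)
    (hy : ∀ a, y a ^ ℓ = x - iotaM (α a)) (J : Ideal (BB e α)) (hJ : J ≠ ⊥) (N : ℕ) (hN : 0 < N)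
    (g : BB e α) (h : J ^ N = Ideal.span {g}) (ρ : Om K)
    (hρ : ρ ^ N = ((emb e x y hy g : Mnr k K) : Om K)) : ρ ∈ Mnr k K := by
  refine mem_of_val (emb e x y hy g) N hN ?_ ρ hρ
  intro B hB
  rcases le_or_gt (B.valuation (x : Om K)) 1 with hxB | hxB
  · have hFG : J.FG := IsNoetherian.noetherian J
    obtain ⟨b, hb⟩ := val_gen ((algebraMap (Mnr k K) (Om K)).comp (emb e x y hy)) B
      (fun b => emb_mem B hB x hxB y hy b) J hFG N hN g h
    exact ⟨emb e x y hy b, hb⟩
  · obtain ⟨a, -⟩ := m3b_exists_idx (hG.out.sum)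
    have hg : g ≠ 0 := by
      intro hg0
      rw [hg0, Ideal.span_singleton_eq_bot.2 rfl] at h
      exact pow_ne_zero N hJ h
    have h1 : pord g = N * len J := by
      rw [← len_span hg, ← h, len_pow hJ]
    have h2 := val_emb_inf B hB x hxB y hy hg
    have h3 := m3b_val_y B hB x hxB y hy a
    refine ⟨(y a) ^ len J, ?_⟩
    have h4 : B.valuation (((y a) ^ len J : Mnr k K) : Om K) =
        B.valuation ((y a : Mnr k K) : Om K) ^ len J := by
      rw [← map_pow]
      rfl
    rw [h4]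
    refine (pow_left_inj₀ zero_le zero_le hℓ.out.ne_zero).1 ?_
    rw [h2, h1, ← h3]
    rw [← pow_mul, ← pow_mul, ← pow_mul]
    congr 1
    ring

end SUP
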