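import Pool.Agent.MP_c1dca2_ag.SUP.M2b
import Pool.Agent.MP_c1dca2_ag.SUP.A5b

set_option autoImplicit false
set_option linter.unusedSectionVars false

open Polynomial SEC SC2

namespace SUP

/-! ## [SUP-M4] equivariance of the embedding (file M4.lean; uses A5, M2) -/

variable {k K : Type} [Field k] [Field K] [Algebra k K]
  {ι : Type} [Fintype ι] {ℓ : ℕ} [hℓ : Fact ℓ.Prime] {e : ι → ZMod ℓ} {α : ι → kb k K}
  [hG : Fact (Good e α)]

/-- `s σ` acts on constants as `σ` (`s.split`). -/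
theorem sect_iota (s : Sect k K) (σ : kb k K ≃ₐ[k] kb k K) (a : kb k K) :
    s.toHom σ (iotaM a) = iotaM (σ a) := by
  apply Subtype.ext
  exact s.split σ a (kb_le _ a.2)

/-- `v_1 ^ n` is a multiple of `v_n` by a nonzero polynomial fixed by all `σ` fixing the `α a`. -/
theorem m4_v_pow {κ : Type} [Field κ] {α : ι → κ} (n : ℕ) :
    ∃ p : κ[X], p ≠ 0 ∧ (∀ f : κ →+* κ, (∀ a, f (α a) = α a) → p.map f = p) ∧
      (BB.v e α 1) ^ n = p • BB.v e α (n : ZMod ℓ) := by
  induction n with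
  | zero =>
    refine ⟨1, one_ne_zero, fun f _ => Polynomial.map_one f, ?_⟩
    rw [pow_zero, Nat.cast_zero, BB.v_zero, one_smul]
  | succ n ih =>
    obtain ⟨p, hp0, hpf, hp⟩ := ih
    refine ⟨p * cc e α (n : ZMod ℓ) 1, mul_ne_zero hp0 (cc_monic e α _ _).ne_zero, ?_, ?_⟩
    · intro f hf
      rw [Polynomial.map_mul, hpf f hf, cc_map f hf]
    · rw [pow_succ, hp, smul_mul_assoc, BB.v_mul, smul_smul, Nat.cast_succ]

theorem m4_eval (s : Sect k K) (σ : kb k K ≃ₐ[k] kb k K) (x : Mnr k K)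
    (hσx : s.toHom σ x = x) (p : (kb k K)[X]) :
    s.toHom σ (p.eval₂ (iotaM (k := k) (K := K)) x) =
      (p.map ((σ : kb k K ≃+* kb k K) : kb k K →+* kb k K)).eval₂
        (iotaM (k := k) (K := K)) x := by
  have h1 := Polynomial.hom_eval₂ p (iotaM (k := k) (K := K))
    ((s.toHom σ : Mnr k K ≃ₐ[K] Mnr k K) : Mnr k K →+* Mnr k K) x
  have h2 : ((s.toHom σ : Mnr k K ≃ₐ[K] Mnr k K) : Mnr k K →+* Mnr k K) x = x := hσx
  rw [h2] at h1
  have h3 : ((s.toHom σ : Mnr k K ≃ₐ[K] Mnr k K) : Mnr k K →+* Mnr k K).comp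
      (iotaM (k := k) (K := K)) = (iotaM (k := k) (K := K)).comp
        ((σ : kb k K ≃+* kb k K) : kb k K →+* kb k K) := by
    ext1 a
    exact sect_iota s σ a
  rw [h3] at h1
  rw [eval₂_map]
  exact h1

/-- `s σ` fixes `x`, acts on constants as `σ`, and fixes `emb (v_1)`, hence all `emb (v_j)`:
`v_1^n = p • v_n` with a nonzero polynomial `p = ∏ (X - α a)^(...)` fixed by `σ` (as the `α a` are), and
`emb` is injective on nonzero elements (`eval_ne`). -/
theorem sect_emb [CharZero k] (s : Sect k K) (σ : kb k K ≃ₐ[k] kb k K) (x : Mnr k K)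
    (hx : (x : Om K) ∉ kb k K)
    (y : ι → Mnr k K) (hy : ∀ a, y a ^ ℓ = x - iotaM (α a)) (hσx : s.toHom σ x = x)
    (hσα : ∀ a, σ (α a) = α a)
    (hσU : s.toHom σ (emb e x y hy (BB.v e α 1)) = emb e x y hy (BB.v e α 1)) (b : BB e α) :
    s.toHom σ (emb e x y hy b) =
      emb e x y hy (bE (σ : kb k K ≃+* kb k K) hσα b) := by
  have hsmul : ∀ (p : (kb k K)[X]) (c : BB e α), emb e x y hy (p • c) =
      p.eval₂ (iotaM (k := k) (K := K)) x * emb e x y hy c := by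
    intro p c
    rw [Algebra.smul_def, map_mul, lift_algebraMap]
  have hv : ∀ j : ZMod ℓ, s.toHom σ (emb e x y hy (BB.v e α j)) = emb e x y hy (BB.v e α j) := by
    intro j
    obtain ⟨p, hp0, hpf, hp⟩ := m4_v_pow (e := e) (α := α) j.val
    rw [ZMod.natCast_zmod_val] at hp
    have h1 : s.toHom σ (emb e x y hy ((BB.v e α 1) ^ j.val)) =
        emb e x y hy ((BB.v e α 1) ^ j.val) := by
      rw [map_pow, map_pow, hσU]
    rw [hp, hsmul, map_mul, m4_eval s σ x hσx, hpf _ hσα] at h1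
    exact mul_left_cancel₀ (eval_ne x hx p hp0) h1
  have hb : b = ∑ j, b.co j • BB.v e α j := (BB.sum_v b).symm
  have h2 : bE (σ : kb k K ≃+* kb k K) hσα b = ∑ j,
      (b.co j).map ((σ : kb k K ≃+* kb k K) : kb k K →+* kb k K) • BB.v e α j := by
    rw [← BB.sum_v (bE (σ : kb k K ≃+* kb k K) hσα b)]
    rfl
  rw [h2, map_sum]
  conv_lhs => rw [hb]
  rw [map_sum, map_sum]
  refine Finset.sum_congr rfl fun j _ => ?_
  rw [hsmul, hsmul, map_mul, m4_eval s σ x hσx, hv]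

end SUP
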