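import Pool.Agent.MP_c1dca2_ag.SUP.M4
import Pool.Agent.MP_c1dca2_ag.SUP.A10
import Pool.Agent.MP_c1dca2_ag.SUP.R5

set_option autoImplicit false
set_option linter.unusedSectionVars false

open Polynomial SEC SC2

namespace SUP

/-! ## [SUP-M5] multiplicativity of the pairing (file M5.lean; uses A3, A10, L1, M2, M4, R0) -/

variable {k K : Type} [Field k] [Field K] [Algebra k K]
  {ι : Type} [Fintype ι] {ℓ : ℕ} [hℓ : Fact ℓ.Prime] {e : ι → ZMod ℓ} {α : ι → kb k K}
  [hG : Fact (Good e α)]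

/-- If `J` is invariant under an automorphism and `J^N = (g)` with `lc g = 1` then `g` is fixed
(`eq_of_span_eq`, `lc_bE`). -/
theorem gen_fixed [IsAlgClosed (kb k K)] (τ : kb k K ≃+* kb k K) (hτα : ∀ a, τ (α a) = α a)
    (J : Ideal (BB e α)) (hJ0 : J ≠ ⊥) (N : ℕ) (g : BB e α) (hg : lc g = 1)
    (h : J ^ N = Ideal.span {g}) (hinv : J.map (bE (e := e) τ hτα) = J) :
    bE τ hτα g = g := by
  have hs := hG.out.sum
  have hg0 : g ≠ 0 := by
    rintro rfl
    have h1 : Ideal.span {(0 : BB e α)} = ⊥ := by simp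
    rw [h1] at h
    exact pow_ne_zero N hJ0 h
  have h1 : Ideal.span {bE (e := e) τ hτα g} = Ideal.span {g} := by
    rw [← map_span_singleton, ← h, Ideal.map_pow, hinv]
  refine eq_of_span_eq ((map_ne_zero_iff _ (bE (e := e) τ hτα).injective).2 hg0) h1 ?_
  rw [lc_bE, hg, map_one]

/-- If `(b) J = (b') J'` with `J`, `J'` invariant then `b' τ b = b τ b'` up to a constant, which is `1`
if `lc b = lc b' = 1`. -/
theorem quot_fixed [IsAlgClosed (kb k K)] (τ : kb k K ≃+* kb k K) (hτα : ∀ a, τ (α a) = α a)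
    (J J' : Ideal (BB e α)) (hJ0 : J ≠ ⊥) (hJ0' : J' ≠ ⊥) (b b' : BB e α) (hb : lc b = 1)
    (hb' : lc b' = 1) (h : Ideal.span {b} * J = Ideal.span {b'} * J')
    (hinv : J.map (bE (e := e) τ hτα) = J) (hinv' : J'.map (bE (e := e) τ hτα) = J') :
    b' * bE τ hτα b = b * bE τ hτα b' := by
  have hs := hG.out.sum
  have hlc0 : ∀ c : BB e α, lc c = 1 → c ≠ 0 := by
    rintro c hc rfl
    have h1 : lc (0 : BB e α) = 0 := by
      have := lc_smul (α := α) hs (0 : kb k K) (0 : BB e α)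
      rwa [zero_smul, zero_mul] at this
    rw [h1] at hc
    exact zero_ne_one hc
  have h0 := hlc0 b hb
  have h0' := hlc0 b' hb'
  have h1 : Ideal.span {bE (e := e) τ hτα b} * J = Ideal.span {bE (e := e) τ hτα b'} * J' := by
    have h2 := congrArg (Ideal.map (bE (e := e) τ hτα)) h
    rw [Ideal.map_mul, Ideal.map_mul, hinv, hinv', map_span_singleton, map_span_singleton] at h2
    exact h2
  have h3 : Ideal.span {b' * bE (e := e) τ hτα b} * J =
      Ideal.span {b * bE (e := e) τ hτα b'} * J := by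
    rw [← Ideal.span_singleton_mul_span_singleton, ← Ideal.span_singleton_mul_span_singleton,
      mul_assoc, h1, mul_comm (Ideal.span {b}), mul_assoc (Ideal.span {bE (e := e) τ hτα b'}), h]
    ac_rfl
  have h4 := mul_right_cancel₀ hJ0 h3
  refine eq_of_span_eq (mul_ne_zero h0'
    ((map_ne_zero_iff _ (bE (e := e) τ hτα).injective).2 h0)) h4 ?_
  rw [lc_mul hs, lc_mul hs, lc_bE, lc_bE, hb, hb', map_one]

end SUP
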