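import Pool.Agent.MP_c1dca2_ag.SUP.M1
import Pool.Agent.MP_c1dca2_ag.SUP.R5
import Pool.Agent.MP_c1dca2_ag.SC2.B2

set_option autoImplicit false
set_option linter.unusedSectionVars false

open Polynomial SEC SC2

namespace SUP

/-! ## [SUP-M6] characters of inertia on roots in `M` (file M6.lean; uses M1, R0, R4, R5; compare
`SC2.sign_frob` in SC2/B3.lean) -/

variable {k K : Type} [Field k] [Field K] [Algebra k K] {ℓ : ℕ} [hℓ : Fact ℓ.Prime]

/-- Two elements of `M` with the same `N`-th power differ by a constant `N`-th root of unity. -/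
theorem exists_xi (N : ℕ) (hN : 0 < N) (z w : Mnr k K) (hz : z ≠ 0) (h : w ^ N = z ^ N) :
    ∃ ξ : kb k K, ξ ^ N = 1 ∧ w = iotaM ξ * z := by
  have h1 : (w / z) ^ N = 1 := by
    rw [div_pow, h, div_self (pow_ne_zero N hz)]
  have h2 : IsIntegral (iotaM (k := k) (K := K)).range (w / z) :=
    IsIntegral.of_pow hN (by rw [h1]; exact isIntegral_one)
  obtain ⟨ξ, hξ⟩ := b2_integral (w / z) h2
  refine ⟨ξ, ?_, ?_⟩
  · apply b2_iota_inj
    rw [map_pow, hξ, h1, map_one]
  · rw [hξ, div_mul_cancel₀ w hz]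

/-- A compatible sequence of `ℓ`-power roots of `a ∈ k`. -/
theorem exists_tower' (a : k) : ∃ π : ℕ → kb k K, π 0 = algebraMap k (kb k K) a ∧
    ∀ m, π (m + 1) ^ ℓ = π m := by
  have : IsAlgClosed (kb k K) := kb_isAlgClosed
  have h : ∀ x : kb k K, ∃ y : kb k K, y ^ ℓ = x := fun x =>
    IsAlgClosed.exists_pow_nat_eq x hℓ.out.pos
  choose r hr using h
  exact ⟨fun n => Nat.rec (algebraMap k (kb k K) a) (fun _ x => r x) n, rfl, fun m => hr _⟩

end SUP
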