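import Pool.Agent.MP_c1dca2_ag.SC2.A5
import Pool.Agent.MP_c1dca2_ag.SUP.R0

set_option autoImplicit false
set_option linter.unusedSectionVars false

open IsLocalRing SC2

namespace SUP

/-! ## [SUP-R1] inertia moves the roots of an element of value prime to `ℓ`, roots of unity in the
ground field (file R1.lean; uses SC2/A1 - A5; adapt the proof of `SC2.exists_tau` in SC2/A5.lean) -/

variable {k C : Type} [Field k] [Field C] [Algebra k C] {ℓ : ℕ} [hℓ : Fact ℓ.Prime]

/-- an element of the ground field whose `e`-th power has the value of an `ℓ`-th power -/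
theorem r1_root {A : ValuationSubring k} (c : k) (hc : c ≠ 0) (e : ℕ) (he : 0 < e) (hel : e < ℓ)
    (b : k) (h : A.valuation c ^ e = A.valuation b ^ ℓ) :
    ∃ b' : k, A.valuation c = A.valuation b' ^ ℓ := by
  have hcop : Nat.Coprime e ℓ := by
    rw [Nat.coprime_comm]
    exact (Nat.Prime.coprime_iff_not_dvd hℓ.out).2 (Nat.not_dvd_of_pos_of_lt he hel)
  obtain ⟨u, v, huv⟩ : ∃ u v : ℕ, u * e = 1 + v * ℓ := by
    obtain ⟨u, hu⟩ := Nat.exists_mul_mod_eq_one_of_coprime hcop hℓ.out.one_lt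
    refine ⟨u, e * u / ℓ, ?_⟩
    have h1 := Nat.mod_add_div (e * u) ℓ
    rw [hu.2] at h1
    rw [mul_comm u e, mul_comm _ ℓ]
    exact h1.symm
  have hv0 : A.valuation c ≠ 0 := (Valuation.ne_zero_iff _).2 hc
  refine ⟨b ^ u / c ^ v, ?_⟩
  rw [map_div₀, map_pow, map_pow, div_pow, eq_div_iff (pow_ne_zero _ (pow_ne_zero _ hv0))]
  rw [← pow_mul, ← pow_mul, mul_comm u ℓ, pow_mul (A.valuation b), ← h, ← pow_mul, mul_comm e u,
    huv, pow_add, pow_one]

theorem r1_c {A : ValuationSubring k} (c : k)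
    (hc : ∀ b : k, A.valuation c ≠ A.valuation b ^ ℓ) : c ≠ 0 := by
  rintro rfl
  apply hc 0
  rw [map_zero, zero_pow hℓ.out.ne_zero]

theorem r1_z {A : ValuationSubring k} (c : k)
    (hc : ∀ b : k, A.valuation c ≠ A.valuation b ^ ℓ) (z : C) (hz : z ^ ℓ = algebraMap k C c) :
    z ≠ 0 := by
  rintro rfl
  rw [zero_pow hℓ.out.ne_zero] at hz
  exact r1_c c hc ((map_eq_zero (algebraMap k C)).1 hz.symm)

theorem r1_lt {A : ValuationSubring k} {V : ValuationSubring C}
    (h : Above A V) (c : k)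
    (hc : ∀ b : k, A.valuation c ≠ A.valuation b ^ ℓ) (z : C) (hz : z ^ ℓ = algebraMap k C c)
    (i j : ℕ) (hij : i < j) (hj : j < ℓ) (a b : k) (hb : b ≠ 0) :
    V.valuation (algebraMap k C a * z ^ i) ≠ V.valuation (algebraMap k C b * z ^ j) := by
  intro he
  have hz0 : z ≠ 0 := r1_z c hc z hz
  have hvz : V.valuation z ≠ 0 := (Valuation.ne_zero_iff _).2 hz0
  have hvb : V.valuation (algebraMap k C b) ≠ 0 :=
    (Valuation.ne_zero_iff _).2 ((map_ne_zero (algebraMap k C)).2 hb)
  have h1 : V.valuation z ^ (j - i) = V.valuation (algebraMap k C (a / b)) := by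
    rw [map_mul, map_mul, map_pow, map_pow] at he
    rw [map_div₀, map_div₀, eq_div_iff hvb]
    have e1 : V.valuation z ^ j = V.valuation z ^ (j - i) * V.valuation z ^ i := by
      rw [← pow_add]
      congr 1
      omega
    rw [e1] at he
    apply mul_right_cancel₀ (pow_ne_zero i hvz)
    rw [he, mul_comm (V.valuation z ^ (j - i)), mul_assoc]
  have h2 : V.valuation (algebraMap k C (c ^ (j - i))) =
      V.valuation (algebraMap k C ((a / b) ^ ℓ)) := by
    rw [map_pow, map_pow, ← hz, map_pow, map_pow, map_pow, ← h1, ← pow_mul, ← pow_mul, mul_comm]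
  rw [a5_val_eq h, map_pow, map_pow] at h2
  obtain ⟨b', hb'⟩ := r1_root c (r1_c c hc) (j - i) (by omega) (by omega) _ h2
  exact hc b' hb'

theorem r1_ne {A : ValuationSubring k} {V : ValuationSubring C}
    (h : Above A V) (c : k)
    (hc : ∀ b : k, A.valuation c ≠ A.valuation b ^ ℓ) (z : C) (hz : z ^ ℓ = algebraMap k C c)
    (i j : ℕ) (hij : i ≠ j) (hi : i < ℓ) (hj : j < ℓ) (a b : k) (ha : a ≠ 0) :
    V.valuation (algebraMap k C a * z ^ i) ≠ V.valuation (algebraMap k C b * z ^ j) := by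
  by_cases hb : b = 0
  · subst hb
    rw [map_zero, zero_mul, map_zero]
    exact (Valuation.ne_zero_iff _).2 (mul_ne_zero ((map_ne_zero (algebraMap k C)).2 ha)
      (pow_ne_zero _ (r1_z c hc z hz)))
  rcases lt_or_gt_of_ne hij with h1 | h1
  · exact r1_lt h c hc z hz i j h1 hj a b hb
  · exact (r1_lt h c hc z hz j i h1 hi b a ha).symm

theorem r1_max {V : ValuationSubring C} (s : Finset ℕ) (f : ℕ → C)
    (hf : ∀ i ∈ s, ∀ j ∈ s, i ≠ j → f i ≠ 0 → V.valuation (f i) ≠ V.valuation (f j)) :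
    ∀ i ∈ s, V.valuation (f i) ≤ V.valuation (∑ j ∈ s, f j) := by
  intro i hi
  obtain ⟨i0, hi0, hmax⟩ := s.exists_max_image (fun i => V.valuation (f i)) ⟨i, hi⟩
  refine le_trans (hmax i hi) ?_
  by_cases h0 : f i0 = 0
  · rw [h0, map_zero]
    exact zero_le
  have h1 : V.valuation (∑ j ∈ s.erase i0, f j) < V.valuation (f i0) := by
    apply Valuation.map_sum_lt
    · exact (Valuation.ne_zero_iff _).2 h0
    · intro j hj
      have h2 := hmax j (Finset.mem_of_mem_erase hj)
      exact lt_of_le_of_ne h2 (hf i0 hi0 j (Finset.mem_of_mem_erase hj)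
        (Finset.ne_of_mem_erase hj).symm h0).symm
  rw [← Finset.add_sum_erase s f hi0, Valuation.map_add_eq_of_lt_left V.valuation h1]

theorem r1_le_one {A : ValuationSubring k} {V : ValuationSubring C}
    (h : Above A V) (c : k)
    (hc : ∀ b : k, A.valuation c ≠ A.valuation b ^ ℓ) (z : C) (hz : z ^ ℓ = algebraMap k C c)
    (b : ℕ → k) :
    V.valuation (∑ i ∈ Finset.range ℓ, algebraMap k C (b i) * z ^ i) ≤ 1 ↔
      ∀ i ∈ Finset.range ℓ, V.valuation (algebraMap k C (b i) * z ^ i) ≤ 1 := by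
  constructor
  · intro h1 i hi
    refine le_trans (r1_max (Finset.range ℓ) (fun i => algebraMap k C (b i) * z ^ i) ?_ i hi) h1
    intro i hi j hj hij hfi
    refine r1_ne h c hc z hz i j hij (Finset.mem_range.1 hi) (Finset.mem_range.1 hj) _ _ ?_
    intro h2
    apply hfi
    rw [h2, map_zero, zero_mul]
  · intro h1
    exact Valuation.map_sum_le V.valuation h1

/-- Adapt SC2/A5.lean. The elements of `k₁ = k(z)` are `∑_(i < ℓ) b_i z^i`, `b_i ∈ k`. The values of the
nonzero terms are different: `|b_i z^i| = |b_j z^j|`, `i < j < ℓ` implies `|z|^(j - i) ∈ |k|`, so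
(`|z|^ℓ = |c| ∈ |k|`, `gcd(j - i, ℓ) = 1`) `|z| = |b|` with `b ∈ k` and `|c| = |b|^ℓ`, impossible.
So `∑ b_i z^i ∈ V` iff all `b_i z^i ∈ V`, and then the terms with `i > 0` have value `< 1`.
`X^ℓ - c` is irreducible over `k` (it has no root in `k` as `|c|` is not an `ℓ`-th power:
`X_pow_sub_C_irreducible_of_prime`), so there is `σ` with `σ z = ζ z` (`C / k` is normal). `σ` maps
`V ∩ k₁` to itself; continue as in SC2/A5.lean: by `exists_conj` over `k₁` modify `σ` to `g` with
`g V = V`, `g z = ζ z`; `g` acts trivially on the residue field of `V ∩ k₁` (`g (b_i z^i) - b_i z^i`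
has value `< 1`), by `exists_lift` over `k₁` there is `δ`, fixing `z`, with the same action as `g` on
the residue field of `V`; `τ = g δ⁻¹`. -/
theorem exists_tau_aux [IsGalois k C] {A : ValuationSubring k} {V : ValuationSubring C}
    (h : Above A V) (ζ : k) (hζ : IsPrimitiveRoot ζ ℓ) (c : k)
    (hc : ∀ b : k, A.valuation c ≠ A.valuation b ^ ℓ) (z : C) (hz : z ^ ℓ = algebraMap k C c) :
    ∃ τ : C ≃ₐ[k] C, Iner V τ ∧ τ z = algebraMap k C ζ * z := by
  have hz0 : z ≠ 0 := r1_z c hc z hz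
  have hζC : IsPrimitiveRoot (algebraMap k C ζ) ℓ := hζ.map_of_injective (algebraMap k C).injective
  have hζ0 : ζ ≠ 0 := hζ.ne_zero hℓ.out.ne_zero
  have hvζ : V.valuation (algebraMap k C ζ) = 1 := by
    have h1 : (V.valuation (algebraMap k C ζ)) ^ ℓ = 1 := by
      rw [← map_pow, hζC.pow_eq_one, map_one]
    exact (pow_eq_one_iff.1 h1).resolve_right hℓ.out.ne_zero
  -- `σ`
  obtain ⟨σ0, hσ0⟩ : ∃ σ : C ≃ₐ[k] C, σ z ≠ z := by
    by_contra hcon
    push Not at hcon
    have h3 : z ∈ (⊥ : IntermediateField k C) := by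
      rw [← InfiniteGalois.fixedField_bot]
      exact fun σ => hcon σ
    rw [IntermediateField.mem_bot] at h3
    obtain ⟨b, hb⟩ := h3
    apply hc b
    rw [← map_pow]
    congr 1
    apply (algebraMap k C).injective
    rw [← hz, ← hb, map_pow]
  obtain ⟨i, hi⟩ : ∃ i : ℕ, σ0 z = algebraMap k C ζ ^ i * z := by
    have h1 : (σ0 z / z) ^ ℓ = 1 := by
      rw [div_pow, ← map_pow, hz, AlgEquiv.commutes, ← hz, div_self (pow_ne_zero _ hz0)]
    obtain ⟨i, _, hi⟩ := hζC.eq_pow_of_pow_eq_one h1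
    refine ⟨i, ?_⟩
    rw [hi, div_mul_cancel₀ _ hz0]
  have hic : Nat.Coprime i ℓ := by
    rw [Nat.coprime_comm]
    refine (Nat.Prime.coprime_iff_not_dvd hℓ.out).2 fun hd => hσ0 ?_
    rw [hi, (hζC.pow_eq_one_iff_dvd i).2 hd, one_mul]
  have hpow : ∀ n : ℕ, (σ0 ^ n) z = algebraMap k C ζ ^ (n * i) * z := by
    intro n
    induction n with
    | zero => rw [pow_zero, AlgEquiv.one_apply, zero_mul, pow_zero, one_mul]
    | succ n ih =>
      rw [pow_succ', AlgEquiv.mul_apply, ih, map_mul, map_pow, AlgEquiv.commutes, hi, add_mul,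
        one_mul, pow_add, mul_assoc]
  obtain ⟨σ, hσ⟩ : ∃ σ : C ≃ₐ[k] C, σ z = algebraMap k C ζ * z := by
    obtain ⟨u, hu⟩ := Nat.exists_mul_mod_eq_one_of_coprime hic hℓ.out.one_lt
    refine ⟨σ0 ^ u, ?_⟩
    rw [hpow, mul_comm u i, ← Nat.mod_add_div (i * u) ℓ, hu.2, pow_add, pow_one, pow_mul,
      hζC.pow_eq_one, one_pow, mul_one]
  have hσ' : σ.symm z = algebraMap k C ζ⁻¹ * z := by
    rw [AlgEquiv.symm_apply_eq, map_mul, AlgEquiv.commutes, hσ, ← mul_assoc, ← map_mul,
      inv_mul_cancel₀ hζ0, map_one, one_mul]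
  have hact : ∀ (g : C ≃ₐ[k] C) (ξ : k), g z = algebraMap k C ξ * z → ∀ b : ℕ → k,
      g (∑ i ∈ Finset.range ℓ, algebraMap k C (b i) * z ^ i) =
        ∑ i ∈ Finset.range ℓ, algebraMap k C (b i * ξ ^ i) * z ^ i := by
    intro g ξ hg b
    rw [map_sum]
    refine Finset.sum_congr rfl fun i _ => ?_
    rw [map_mul, AlgEquiv.commutes, map_pow, hg, mul_pow, map_mul, map_pow, mul_assoc]
  -- the field `k₁`
  let k₁ : IntermediateField k C := IntermediateField.adjoin k {z}
  have hzk : z ∈ k₁ := IntermediateField.mem_adjoin_simple_self k z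
  have hform : ∀ x ∈ k₁, ∃ b : ℕ → k,
      x = ∑ i ∈ Finset.range ℓ, algebraMap k C (b i) * z ^ i := by
    intro x hx
    have hint : IsAlgebraic k z := Algebra.IsAlgebraic.isAlgebraic z
    have h1 : x ∈ (IntermediateField.adjoin k {z}).toSubalgebra := hx
    rw [IntermediateField.adjoin_simple_toSubalgebra_of_isAlgebraic hint,
      Algebra.adjoin_singleton_eq_range_aeval] at h1
    obtain ⟨p, hp⟩ := h1
    have hmon : (Polynomial.X ^ ℓ - Polynomial.C c : Polynomial k).Monic :=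
      Polynomial.monic_X_pow_sub_C c hℓ.out.ne_zero
    set r := p %ₘ (Polynomial.X ^ ℓ - Polynomial.C c) with hr
    have hdeg : r.natDegree < ℓ := by
      have h2 := Polynomial.natDegree_modByMonic_lt p hmon (by
        intro h3
        have h4 := congrArg Polynomial.natDegree h3
        rw [Polynomial.natDegree_X_pow_sub_C, Polynomial.natDegree_one] at h4
        exact hℓ.out.ne_zero h4)
      rwa [Polynomial.natDegree_X_pow_sub_C] at h2
    have hx2 : x = Polynomial.aeval z r := by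
      have h3 := Polynomial.modByMonic_add_div p (Polynomial.X ^ ℓ - Polynomial.C c)
      have h4 : Polynomial.aeval z p = Polynomial.aeval z r := by
        conv_lhs => rw [← h3]
        rw [map_add, map_mul, map_sub, map_pow, Polynomial.aeval_X, Polynomial.aeval_C, hz,
          sub_self, zero_mul, add_zero]
      rw [← h4]
      exact hp.symm
    refine ⟨fun i => r.coeff i, ?_⟩
    rw [hx2, Polynomial.aeval_eq_sum_range' hdeg]
    refine Finset.sum_congr rfl fun i _ => ?_
    rw [Algebra.smul_def]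
  let A₁ : ValuationSubring k₁ := V.comap (algebraMap k₁ C)
  have hA₁ : Above A₁ V := fun a => Iff.rfl
  let V' : ValuationSubring C := V.comap (σ.symm : C →+* C)
  have hV' : ∀ w : C, w ∈ V' ↔ σ.symm w ∈ V := fun w => Iff.rfl
  have hA₁' : Above A₁ V' := by
    rintro ⟨x, hx⟩
    obtain ⟨b, hb⟩ := hform x hx
    change σ.symm x ∈ V ↔ x ∈ V
    rw [hb, hact σ.symm ζ⁻¹ hσ' b, ← V.valuation_le_one_iff, ← V.valuation_le_one_iff,
      r1_le_one h c hc z hz, r1_le_one h c hc z hz]
    have h3 : ∀ i, V.valuation (algebraMap k C (b i * ζ⁻¹ ^ i) * z ^ i) =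
        V.valuation (algebraMap k C (b i) * z ^ i) := by
      intro i
      rw [map_mul, map_mul, map_mul, map_mul, map_pow, map_pow, map_inv₀, map_inv₀, hvζ, inv_one,
        one_pow, mul_one]
    simp only [h3]
  have := IsGalois.tower_top_intermediateField k₁
  obtain ⟨ρ, hρ⟩ := exists_conj hA₁' hA₁
  -- `g`
  let g : C ≃ₐ[k] C := σ.trans (ρ.restrictScalars k)
  have hg : ∀ w, g w = ρ (σ w) := fun w => rfl
  have hgV : ∀ w, g w ∈ V ↔ w ∈ V := by
    intro w
    rw [hg, hρ, hV', AlgEquiv.symm_apply_apply]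
  have hρz : ρ z = z := ρ.commutes ⟨z, hzk⟩
  have hρk : ∀ a : k, ρ (algebraMap k C a) = algebraMap k C a := fun a =>
    ρ.commutes (algebraMap k k₁ a)
  have hgz : g z = algebraMap k C ζ * z := by
    rw [hg, hσ, map_mul, hρz, hρk]
  -- `θ`
  let gV : V ≃+* V :=
    { toFun := fun w => ⟨g w, (hgV w).2 w.2⟩
      invFun := fun w => ⟨g.symm w, (hgV _).1 (by rw [AlgEquiv.apply_symm_apply]; exact w.2)⟩
      left_inv := fun w => Subtype.ext (g.symm_apply_apply _)
      right_inv := fun w => Subtype.ext (g.apply_symm_apply _)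
      map_mul' := fun a b => Subtype.ext (map_mul g _ _)
      map_add' := fun a b => Subtype.ext (map_add g _ _) }
  let θ : ResidueField V ≃+* ResidueField V := IsLocalRing.ResidueField.mapEquiv gV
  have hθ : ∀ (w : C) (hw : w ∈ V), θ (residue V ⟨w, hw⟩) = residue V ⟨g w, (hgV w).2 hw⟩ :=
    fun w hw => rfl
  have hres : ∀ (w w' : C) (hw : w ∈ V) (hw' : w' ∈ V),
      residue V ⟨w, hw⟩ = residue V ⟨w', hw'⟩ ↔ V.valuation (w - w') < 1 := by
    intro w w' hw hw'
    rw [← sub_eq_zero, ← map_sub, residue_eq_zero_iff, V.valuation_lt_one_iff]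
    rfl
  obtain ⟨δ, hδV, hδ⟩ := exists_lift hA₁ θ (by
    rintro ⟨x, hx⟩ ha
    obtain ⟨b, hb⟩ := hform x hx
    rw [hθ, hres]
    change V.valuation (g x - x) < 1
    have h3 : V.valuation x ≤ 1 := (V.valuation_le_one_iff _).2 ha
    rw [hb, r1_le_one h c hc z hz] at h3
    have h4 : g x - x = ∑ i ∈ Finset.range ℓ,
        (algebraMap k C (ζ ^ i - 1)) * (algebraMap k C (b i) * z ^ i) := by
      rw [hb, hact g ζ hgz b, ← Finset.sum_sub_distrib]
      refine Finset.sum_congr rfl fun i _ => ?_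
      rw [map_mul, map_sub, map_one]
      ring
    rw [h4]
    apply Valuation.map_sum_lt _ one_ne_zero
    intro i hi
    rcases Nat.eq_zero_or_pos i with hi0 | hi0
    · subst hi0
      rw [pow_zero, sub_self, map_zero, zero_mul, map_zero]
      exact zero_lt_one
    · rw [map_mul]
      have h5 : V.valuation (algebraMap k C (ζ ^ i - 1)) ≤ 1 := by
        rw [map_sub, map_one, map_pow, V.valuation_le_one_iff]
        exact V.sub_mem (V.pow_mem ((V.valuation_le_one_iff _).1 hvζ.le) _) V.one_mem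
      have h6 : V.valuation (algebraMap k C (b i) * z ^ i) < 1 := by
        refine lt_of_le_of_ne (h3 i hi) fun he => ?_
        have h7 : b i ≠ 0 := by
          intro h8
          rw [h8, map_zero, zero_mul, map_zero] at he
          exact zero_ne_one he
        apply r1_lt h c hc z hz 0 i hi0 (Finset.mem_range.1 hi) 1 (b i) h7
        rw [map_one, one_mul, pow_zero, map_one, he]
      exact lt_of_le_of_lt (mul_le_of_le_one_left' h5) h6)
  let τ : C ≃ₐ[k] C := (δ.restrictScalars k).symm.trans g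
  have hτ : ∀ w, τ w = g (δ.symm w) := fun w => rfl
  have hδs : ∀ w, δ.symm w ∈ V ↔ w ∈ V := by
    intro w
    rw [← hδV, AlgEquiv.apply_symm_apply]
  refine ⟨τ, ⟨fun w => ?_, fun w hw => ?_⟩, ?_⟩
  · rw [hτ, hgV, hδs]
  · rw [hτ, V.mem_nonunits_iff]
    have h3 := hδ (δ.symm w) ((hδs w).2 hw)
    rw [hθ, hres, AlgEquiv.apply_symm_apply] at h3
    rw [← Valuation.map_neg, neg_sub]
    exact h3
  · have h3 : δ z = z := δ.commutes ⟨z, hzk⟩
    have h4 : δ.symm z = z := by rw [AlgEquiv.symm_apply_eq, h3]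
    rw [hτ, h4, hgz]

end SUP
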