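import Pool.Agent.MP_c1dca2_ag.SUP.R0

set_option autoImplicit false
set_option linter.unusedSectionVars false

open IsLocalRing SC2

namespace SUP

/-! ## [SUP-R3] roots of elements fixed by the wild group (file R3.lean; uses R0; adapt SC2/A7.lean)

`SC2.Wild V π σ` : `σ` is in the inertia group and fixes all `π m`; here `(π (m+1))^ℓ = π m`. -/

variable {k C : Type} [Field k] [Field C] [Algebra k C] {ℓ : ℕ} [hℓ : Fact ℓ.Prime]

theorem r3_unit [IsAlgClosed C] {V : ValuationSubring C} (hV : V.valuation (ℓ : C) = 1)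
    (π : ℕ → C) (u : C) (hu1 : V.valuation u = 1)
    (hu : ∀ σ : C ≃ₐ[k] C, Wild V π σ → σ u = u) :
    ∃ w : C, w ^ ℓ = u ∧ ∀ σ : C ≃ₐ[k] C, Wild V π σ → σ w = w := by
  obtain ⟨w, hw⟩ := IsAlgClosed.exists_pow_nat_eq u hℓ.out.pos
  exact ⟨w, hw, fun σ hσ => iner_unit_root hV u w hu1 hw σ hσ.iner (hu σ hσ)⟩

/-- As in SC2/A7.lean. If `|u| = 1` any `ℓ`-th root `w` works: `σ w = ξ w`, `ξ^ℓ = 1`,
`|σ w - w| < 1`, so `ξ = 1` (`root_of_unity` / `iner_unit_root`). In general `|u|^m = |π 0|^n`, write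
`m = ℓ^r m'` with `ℓ ∤ m'`; the value group is torsion free, so `|u|^m' = |π r|^n`
(`|π r|^(ℓ^r) = |π 0|`). With `a m' + b ℓ = 1`: `|u| = |π r|^(n a) |u|^(b ℓ) = |w₁|^ℓ`,
`w₁ = (π (r+1))^(n a) u^b`, an element fixed by all wild `σ`. Apply the first case to `u / w₁^ℓ`. -/
theorem exists_root [IsAlgClosed C] {V : ValuationSubring C} (hV : V.valuation (ℓ : C) = 1)
    (π : ℕ → C) (hπ : ∀ m, π (m + 1) ^ ℓ = π m) (hπ0 : π 0 ≠ 0)
    (hT : ∀ u : C, u ≠ 0 → ∃ (m : ℕ) (n : ℤ), 0 < m ∧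
      V.valuation u ^ m = V.valuation (π 0) ^ n)
    (u : C) (hu : ∀ σ : C ≃ₐ[k] C, Wild V π σ → σ u = u) :
    ∃ w : C, w ^ ℓ = u ∧ ∀ σ : C ≃ₐ[k] C, Wild V π σ → σ w = w := by
  have hℓ0 : ℓ ≠ 0 := hℓ.out.ne_zero
  by_cases hu0 : u = 0
  · exact ⟨0, by rw [hu0]; simp [hℓ0], fun σ _ => map_zero σ⟩
  obtain ⟨m, n, hm, hmn⟩ := hT u hu0
  obtain ⟨r, m', hm', rfl⟩ := Nat.exists_eq_pow_mul_and_not_dvd hm.ne' ℓ hℓ.out.ne_one
  have hπne : ∀ i, π i ≠ 0 := by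
    intro i
    induction i with
    | zero => exact hπ0
    | succ i ih =>
      intro h0
      apply ih
      rw [← hπ i, h0]; simp [hℓ0]
  have hπr : ∀ i, V.valuation (π i) ^ (ℓ ^ i) = V.valuation (π 0) := by
    intro i
    induction i with
    | zero => simp
    | succ i ih =>
      rw [← ih, ← hπ i, map_pow, ← pow_mul, pow_succ', mul_comm]
  have hvu : V.valuation u ≠ 0 := (Valuation.ne_zero_iff _).2 hu0
  have h3 : V.valuation u ^ m' = V.valuation (π r) ^ n := by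
    have h4 : (V.valuation u ^ m') ^ (ℓ ^ r) = (V.valuation (π r) ^ n) ^ (ℓ ^ r) := by
      rw [← pow_mul, mul_comm, hmn, ← hπr r, ← zpow_natCast, ← zpow_natCast, ← zpow_mul,
        ← zpow_mul, mul_comm]
    exact (pow_left_inj₀ zero_le zero_le (pow_ne_zero _ hℓ0)).1 h4
  -- Bezout
  have hcop : Nat.Coprime m' ℓ := ((Nat.Prime.coprime_iff_not_dvd hℓ.out).2 hm').symm
  obtain ⟨a, b, hab⟩ : ∃ a b : ℤ, (m' : ℤ) * a + (ℓ : ℤ) * b = 1 := by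
    have h5 := Nat.gcd_eq_gcd_ab m' ℓ
    rw [hcop.gcd_eq_one] at h5
    exact ⟨_, _, by exact_mod_cast h5.symm⟩
  set w₁ : C := π (r + 1) ^ (n * a) * u ^ b with hw₁
  have hw₁0 : w₁ ≠ 0 := mul_ne_zero (zpow_ne_zero _ (hπne _)) (zpow_ne_zero _ hu0)
  have hval : V.valuation u = V.valuation w₁ ^ ℓ := by
    have h5 : V.valuation (π (r + 1)) ^ ℓ = V.valuation (π r) := by rw [← map_pow, hπ]
    rw [hw₁, map_mul, map_zpow₀, map_zpow₀, mul_pow, ← zpow_natCast, ← zpow_mul,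
      mul_comm (n * a), zpow_mul, zpow_natCast, h5, zpow_mul, ← h3, ← zpow_natCast (_ ^ b) ℓ,
      ← zpow_mul, ← zpow_natCast (V.valuation u) m', ← zpow_mul, ← zpow_add₀ hvu,
      mul_comm b, hab, zpow_one]
  have hfix : ∀ σ : C ≃ₐ[k] C, Wild V π σ → σ w₁ = w₁ := by
    intro σ hσ
    rw [hw₁, map_mul, map_zpow₀, map_zpow₀, hσ.fix, hu σ hσ]
  obtain ⟨w, hw, hwfix⟩ := r3_unit (k := k) hV π (u / w₁ ^ ℓ) (by
    rw [map_div₀, map_pow, ← hval, div_self hvu]) (fun σ hσ => by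
    rw [map_div₀, map_pow, hfix σ hσ, hu σ hσ])
  refine ⟨w * w₁, ?_, fun σ hσ => ?_⟩
  · rw [mul_pow, hw, div_mul_cancel₀ _ (pow_ne_zero ℓ hw₁0)]
  · rw [map_mul, hwfix σ hσ, hfix σ hσ]

end SUP
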